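import Pool.Agent.P.MP_e794d7_al.X.St

/-! Basic facts on walks around a vertex. -/

set_option autoImplicit false

namespace Pool.Agent.P.MP_e794d7_al.X

variable {ι : Type} {M : ι → ι → ℕ}

@[simp] theorem el_zero (a b : ι) : el a b 0 = a := by simp [el]

theorem el_succ (a b : ι) (n : ℕ) : el a b (n + 1) = el b a n := by
  by_cases h : Even n <;> simp [el, Nat.even_add_one, h]

@[simp] theorem el_one (a b : ι) : el a b 1 = b := by simp [el]

theorem el_add_two (a b : ι) (n : ℕ) : el a b (n + 2) = el a b n := by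
  rw [el_succ, el_succ]

theorem el_add_two_mul (a b : ι) (n k : ℕ) : el a b (n + 2 * k) = el a b n := by
  induction k with
  | zero => rfl
  | succ k ih => rw [show n + 2 * (k + 1) = n + 2 * k + 2 by ring, el_add_two, ih]

theorem el_congr (a b : ι) {n n' : ℕ} (h : n % 2 = n' % 2) : el a b n = el a b n' := by
  simp only [el, Nat.even_iff, h]

theorem el_congr' (a b : ι) {n n' : ℕ} (h : n % 2 ≠ n' % 2) : el a b n = el b a n' := by
  rw [← el_succ]; exact el_congr _ _ (by omega)

theorem el_cases (a b : ι) (n : ℕ) :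
    (el a b n = a ∧ el a b (n + 1) = b) ∨ (el a b n = b ∧ el a b (n + 1) = a) := by
  by_cases h : Even n <;> simp [el, Nat.even_add_one, h]

theorem el_mem (a b : ι) (n : ℕ) : el a b n = a ∨ el a b n = b :=
  (el_cases a b n).imp And.left And.left

theorem el_el (a b : ι) (j n : ℕ) : el (el a b j) (el a b (j + 1)) n = el a b (j + n) := by
  by_cases h : Even n
  · rw [el, if_pos h]; exact el_congr _ _ (by rw [Nat.even_iff] at h; omega)
  · rw [el, if_neg h]; exact el_congr _ _ (by rw [Nat.even_iff] at h; omega)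

theorem Same.refl (a b : ι) : Same a b a b := Or.inl ⟨rfl, rfl⟩

theorem Same.swap (a b : ι) : Same a b b a := Or.inr ⟨rfl, rfl⟩

theorem Same.symm {a b a' b' : ι} (h : Same a b a' b') : Same a' b' a b := by
  rcases h with ⟨rfl, rfl⟩ | ⟨rfl, rfl⟩
  exacts [Same.refl _ _, Same.swap _ _]

theorem Same.trans {a b a' b' a'' b'' : ι} (h : Same a b a' b') (h' : Same a' b' a'' b'') :
    Same a b a'' b'' := by
  rcases h with ⟨rfl, rfl⟩ | ⟨rfl, rfl⟩
  · exact h'
  · rcases h' with ⟨rfl, rfl⟩ | ⟨rfl, rfl⟩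
    exacts [Same.swap _ _, Same.refl _ _]

theorem same_el (a b : ι) (n : ℕ) : Same a b (el a b n) (el a b (n + 1)) := by
  rcases el_cases a b n with ⟨h1, h2⟩ | ⟨h1, h2⟩ <;> rw [h1, h2]
  exacts [Same.refl _ _, Same.swap _ _]

theorem Big.adj_symm (h : Big M) {a b : ι} (hab : Adj M a b) : Adj M b a :=
  ⟨hab.1.symm, by rw [h.symm]; exact hab.2⟩

theorem Big.M_same (h : Big M) {a b a' b' : ι} (hs : Same a b a' b') : M a' b' = M a b := by
  rcases hs with ⟨rfl, rfl⟩ | ⟨rfl, rfl⟩
  exacts [rfl, h.symm _ _]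

theorem Big.adj_same (h : Big M) {a b a' b' : ι} (hab : Adj M a b) (hs : Same a b a' b') :
    Adj M a' b' := by
  rcases hs with ⟨rfl, rfl⟩ | ⟨rfl, rfl⟩
  exacts [hab, h.adj_symm hab]

theorem Big.M_el (h : Big M) (a b : ι) (n : ℕ) : M (el a b n) (el a b (n + 1)) = M a b :=
  h.M_same (same_el a b n)

theorem Big.adj_el (h : Big M) {a b : ι} (hab : Adj M a b) (n : ℕ) :
    Adj M (el a b n) (el a b (n + 1)) := h.adj_same hab (same_el a b n)

namespace Pos

variable {P : Pos ι}

@[simp] theorem go_zero (x : P.X) (a b : ι) : P.go x a b 0 = x := rfl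

theorem go_succ (x : P.X) (a b : ι) (n : ℕ) :
    P.go x a b (n + 1) = P.r (el a b n) (P.go x a b n) := rfl

@[simp] theorem go_one (x : P.X) (a b : ι) : P.go x a b 1 = P.r a x := by simp [go_succ]

theorem go_add (x : P.X) (a b : ι) (j n : ℕ) :
    P.go x a b (j + n) = P.go (P.go x a b j) (el a b j) (el a b (j + 1)) n := by
  induction n with
  | zero => rfl
  | succ n ih => rw [← add_assoc, go_succ, go_succ, ih, el_el]

theorem go_succ' (x : P.X) (a b : ι) (n : ℕ) : P.go x a b (n + 1) = P.go (P.r a x) b a n := by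
  rw [add_comm, go_add, go_one, el_one, el_add_two a b 0, el_zero]

@[simp] theorem cc_zero (x : P.X) (a b : ι) : P.cc x a b 0 = P.col x a := by simp [cc]

theorem cc_add (x : P.X) (a b : ι) (j n : ℕ) :
    P.cc x a b (j + n) = P.cc (P.go x a b j) (el a b j) (el a b (j + 1)) n := by
  rw [cc, cc, go_add, el_el]

theorem cc_succ' (x : P.X) (a b : ι) (n : ℕ) : P.cc x a b (n + 1) = P.cc (P.r a x) b a n := by
  rw [cc, cc, go_succ', el_succ]

theorem NX.symm {c c' : P.Col} (h : P.NX M c c') : P.NX M c' c :=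
  ⟨h.1.symm, fun x a b hab h1 h2 => h.2 x a b hab h2 h1⟩

theorem NX.not_thru {c c' : P.Col} (h : P.NX M c c') {x : P.X} {a b : ι} (hab : Adj M a b)
    (h1 : P.Thru x a b c) : ¬ P.Thru x a b c' := h.2 x a b hab h1

theorem Deep.deep1 {y : P.X} {a b : ι} {σ : P.Col} (h : P.Deep M y a b σ) : P.Deep1 M y a b σ := by
  obtain ⟨k, h1, h2, h3⟩ := h
  exact ⟨k, by omega, h2, h3⟩

theorem Deep1.thru {y : P.X} {a b : ι} {σ : P.Col} (h : P.Deep1 M y a b σ) : P.Thru y a b σ := by
  obtain ⟨k, -, -, h3⟩ := h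
  exact ⟨k, h3.symm⟩

theorem thru_col (x : P.X) (a b : ι) : P.Thru x a b (P.col x a) := ⟨0, cc_zero _ _ _⟩

theorem Res.refl (x : P.X) (a b : ι) : P.Res x a b x := ⟨0, rfl⟩

theorem res_go (x : P.X) (a b : ι) (n : ℕ) : P.Res x a b (P.go x a b n) := ⟨n, rfl⟩

namespace Bas

variable (h : P.Bas M)
include h

theorem r_inj (a : ι) : Function.Injective (P.r a) :=
  Function.LeftInverse.injective (h.rr a)

theorem r_go_succ (x : P.X) (a b : ι) (n : ℕ) :
    P.r (el a b n) (P.go x a b (n + 1)) = P.go x a b n := by rw [go_succ, h.rr]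

theorem col_go_succ (x : P.X) (a b : ι) (n : ℕ) :
    P.col (P.go x a b (n + 1)) (el a b n) = P.cc x a b n := by rw [go_succ, h.col_r, cc]

/-- walking back -/
theorem go_back (x : P.X) (a b : ι) (j : ℕ) : ∀ n, n ≤ j →
    P.go (P.go x a b j) (el a b (j + 1)) (el a b j) n = P.go x a b (j - n)
  | 0, _ => rfl
  | n + 1, hn => by
    rw [go_succ, go_back x a b j n (by omega)]
    have e1 : el (el a b (j + 1)) (el a b j) n = el a b (j - (n + 1)) := by
      rw [← el_add_two a b j, el_el]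
      exact el_congr _ _ (by omega)
    rw [e1, show j - n = j - (n + 1) + 1 by omega, h.r_go_succ]

theorem go_add_M {a b : ι} (hab : Adj M a b) (x : P.X) (n : ℕ) (hn : n ≤ M a b) :
    P.go x a b (M a b + n) = P.go x b a (M a b - n) := by
  rw [go_add, h.braid x a b hab, ← h.go_back x b a (M a b) n hn, el_succ b a, el_succ a b]

theorem go_two {a b : ι} (hab : Adj M a b) (x : P.X) : P.go x a b (2 * M a b) = x := by
  rw [two_mul, h.go_add_M hab x _ le_rfl, Nat.sub_self, go_zero]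

theorem go_per {a b : ι} (hab : Adj M a b) (x : P.X) (n : ℕ) :
    P.go x a b (n + 2 * M a b) = P.go x a b n := by
  rw [go_add, ← h.big.M_el a b n, h.go_two (h.big.adj_el hab n)]

theorem go_per_mul {a b : ι} (hab : Adj M a b) (x : P.X) (n k : ℕ) :
    P.go x a b (n + 2 * M a b * k) = P.go x a b n := by
  induction k with
  | zero => rfl
  | succ k ih => rw [Nat.mul_succ, ← add_assoc, h.go_per hab, ih]

theorem go_mod {a b : ι} (hab : Adj M a b) (x : P.X) (n : ℕ) :
    P.go x a b (n % (2 * M a b)) = P.go x a b n := by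
  conv_rhs => rw [← Nat.mod_add_div n (2 * M a b), h.go_per_mul hab]

/-- the walk in the other direction -/
theorem go_rev {a b : ι} (hab : Adj M a b) (x : P.X) (n : ℕ) (hn : n ≤ 2 * M a b) :
    P.go x b a n = P.go x a b (2 * M a b - n) := by
  rw [← h.go_back x a b _ n hn, h.go_two hab, el_congr a b (n := 2 * M a b) (n' := 0) (by omega),
    el_congr a b (n := 2 * M a b + 1) (n' := 1) (by omega), el_zero, el_one]

theorem cc_per {a b : ι} (hab : Adj M a b) (x : P.X) (n : ℕ) :
    P.cc x a b (n + M a b) = P.cc x a b n := by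
  rw [cc_add, ← h.big.M_el a b n, h.per _ _ _ (h.big.adj_el hab n), cc]

theorem cc_per_mul {a b : ι} (hab : Adj M a b) (x : P.X) (n k : ℕ) :
    P.cc x a b (n + M a b * k) = P.cc x a b n := by
  induction k with
  | zero => rfl
  | succ k ih => rw [Nat.mul_succ, ← add_assoc, h.cc_per hab, ih]

theorem cc_mod {a b : ι} (hab : Adj M a b) (x : P.X) (n : ℕ) :
    P.cc x a b (n % M a b) = P.cc x a b n := by
  conv_rhs => rw [← Nat.mod_add_div n (M a b), h.cc_per_mul hab]

theorem cc_eq_iff {a b : ι} (hab : Adj M a b) (x : P.X) (i j : ℕ) :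
    P.cc x a b i = P.cc x a b j ↔ i % M a b = j % M a b := by
  have hm := Nat.pos_of_ne_zero hab.2
  rw [← h.cc_mod hab x i, ← h.cc_mod hab x j]
  exact ⟨h.inj x a b _ _ hab (Nat.mod_lt _ hm) (Nat.mod_lt _ hm), fun e => by rw [e]⟩

theorem cc_rev2 {a b : ι} (hab : Adj M a b) (x : P.X) (n : ℕ) (hn : n < 2 * M a b) :
    P.cc x b a n = P.cc x a b (2 * M a b - 1 - n) := by
  rw [cc, h.go_rev hab x n hn.le, show 2 * M a b - n = 2 * M a b - 1 - n + 1 by omega,
    el_congr' b a (n' := 2 * M a b - 1 - n) (by omega), h.col_go_succ]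

theorem cc_rev {a b : ι} (hab : Adj M a b) (x : P.X) (n : ℕ) (hn : n < M a b) :
    P.cc x b a n = P.cc x a b (M a b - 1 - n) := by
  rw [h.cc_rev2 hab x n (by omega), show 2 * M a b - 1 - n = M a b - 1 - n + M a b by omega,
    h.cc_per hab]

theorem cc_last {a b : ι} (hab : Adj M a b) (x : P.X) : P.cc x a b (M a b - 1) = P.col x b := by
  have := h.cc_rev hab x 0 (Nat.pos_of_ne_zero hab.2)
  rw [cc_zero] at this
  exact this.symm

/-- the walk from the other chamber of the panel -/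
theorem cc_r {a b : ι} (hab : Adj M a b) (x : P.X) (k : ℕ) (hk : k ≤ M a b) :
    P.cc (P.r a x) a b k = P.cc x a b (M a b - k) := by
  rcases k with _ | k
  · rw [cc_zero, h.col_r, Nat.sub_zero, h.per x a b hab]
  · rw [cc_succ', h.rr, h.cc_rev hab x k (by omega)]
    congr 1; omega

theorem thru_lt {a b : ι} (hab : Adj M a b) {x : P.X} {c : P.Col} (ht : P.Thru x a b c) :
    ∃ n, n < M a b ∧ P.cc x a b n = c := by
  obtain ⟨n, rfl⟩ := ht
  exact ⟨_, Nat.mod_lt _ (Nat.pos_of_ne_zero hab.2), h.cc_mod hab x n⟩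

theorem res_lt {a b : ι} (hab : Adj M a b) {x y : P.X} (hr : P.Res x a b y) :
    ∃ n, n < 2 * M a b ∧ P.go x a b n = y := by
  obtain ⟨n, rfl⟩ := hr
  exact ⟨_, Nat.mod_lt _ (by have := hab.2; omega), h.go_mod hab x n⟩

theorem thru_same {a b a' b' : ι} (hab : Adj M a b) (hs : Same a b a' b') {x : P.X} {c : P.Col}
    (ht : P.Thru x a b c) : P.Thru x a' b' c := by
  rcases hs with ⟨rfl, rfl⟩ | ⟨rfl, rfl⟩
  · exact ht
  · obtain ⟨n, hn, rfl⟩ := h.thru_lt hab ht
    exact ⟨M a b - 1 - n, by rw [h.cc_rev hab x _ (by omega)]; congr 1; omega⟩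

theorem thru_swap {a b : ι} (hab : Adj M a b) {x : P.X} {c : P.Col}
    (ht : P.Thru x a b c) : P.Thru x b a c := h.thru_same hab (Same.swap _ _) ht

theorem thru_col' {a b : ι} (hab : Adj M a b) (x : P.X) : P.Thru x a b (P.col x b) :=
  ⟨_, h.cc_last hab x⟩

theorem res_same {a b a' b' : ι} (hab : Adj M a b) (hs : Same a b a' b') {x y : P.X}
    (hr : P.Res x a b y) : P.Res x a' b' y := by
  rcases hs with ⟨rfl, rfl⟩ | ⟨rfl, rfl⟩
  · exact hr
  · obtain ⟨n, hn, rfl⟩ := h.res_lt hab hr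
    exact ⟨2 * M a b - n, by rw [h.go_rev hab x _ (by omega)]; congr 1; omega⟩

theorem res_swap {a b : ι} (hab : Adj M a b) {x y : P.X} (hr : P.Res x a b y) : P.Res x b a y :=
  h.res_same hab (Same.swap _ _) hr

theorem res_trans {a b : ι} (hab : Adj M a b) {x y z : P.X} (h1 : P.Res x a b y)
    (h2 : P.Res y a b z) : P.Res x a b z := by
  obtain ⟨j, rfl⟩ := h1
  obtain ⟨n, rfl⟩ := h.res_same hab (same_el a b j) h2
  exact ⟨j + n, go_add _ _ _ _ _⟩

theorem res_symm {a b : ι} (hab : Adj M a b) {x y : P.X} (h1 : P.Res x a b y) :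
    P.Res y a b x := by
  obtain ⟨j, hj, rfl⟩ := h.res_lt hab h1
  refine h.res_same (h.big.adj_el hab j) (same_el a b j).symm ⟨2 * M a b - j, ?_⟩
  rw [← go_add, show j + (2 * M a b - j) = 2 * M a b by omega, h.go_two hab]

theorem res_r {a b g : ι} (hab : Adj M a b) (hg : g = a ∨ g = b) (x : P.X) :
    P.Res x a b (P.r g x) := by
  rcases hg with rfl | rfl
  · exact ⟨1, go_one _ _ _⟩
  · exact h.res_swap (h.big.adj_symm hab) ⟨1, go_one _ _ _⟩

theorem thru_res {a b : ι} (hab : Adj M a b) {x y : P.X} (hr : P.Res x a b y) {c : P.Col} :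
    P.Thru x a b c ↔ P.Thru y a b c := by
  have key : ∀ {x y : P.X}, P.Res x a b y → P.Thru y a b c → P.Thru x a b c := by
    rintro x _ ⟨j, rfl⟩ ht
    obtain ⟨n, rfl⟩ := h.thru_same hab (same_el a b j) ht
    exact ⟨j + n, cc_add _ _ _ _ _⟩
  exact ⟨key (h.res_symm hab hr), key hr⟩

theorem thru_of_res {a b g : ι} (hab : Adj M a b) {x y : P.X} (hr : P.Res x a b y)
    (hg : g = a ∨ g = b) : P.Thru x a b (P.col y g) := by
  rw [h.thru_res hab hr]
  rcases hg with rfl | rfl
  exacts [thru_col _ _ _, h.thru_col' hab _]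

theorem deep_r {a b : ι} (hab : Adj M a b) {y : P.X} {σ : P.Col} (hd : P.Deep M y a b σ) :
    P.Deep M (P.r a y) a b σ := by
  obtain ⟨k, h1, h2, rfl⟩ := hd
  exact ⟨M a b - k, by omega, by omega, by
    rw [h.cc_r hab y _ (by omega)]; congr 1; omega⟩

theorem deep1_swap {a b : ι} (hab : Adj M a b) {y : P.X} {σ : P.Col} (hd : P.Deep1 M y a b σ) :
    P.Deep1 M y b a σ := by
  obtain ⟨k, h1, h2, rfl⟩ := hd
  exact ⟨M a b - 1 - k, by omega, by rw [h.big.symm b a]; omega, by
    rw [h.cc_rev hab y _ (by omega)]; congr 1; omega⟩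

theorem deep1_ne {a b g : ι} (hab : Adj M a b) {y : P.X} {σ : P.Col} (hd : P.Deep1 M y a b σ)
    (hg : g = a ∨ g = b) : σ ≠ P.col y g := by
  obtain ⟨k, h1, h2, rfl⟩ := hd
  intro e
  rcases hg with rfl | rfl
  · rw [← cc_zero y g b] at e
    have := h.inj y g b _ _ hab (by omega) (by omega) e
    omega
  · rw [← h.cc_last hab] at e
    have := h.inj y a g _ _ hab (by omega) (by omega) e
    omega

/-- the panel `[y, g]` at a vertex is one of the panels of the walk -/
theorem panel_idx {a b g : ι} (hab : Adj M a b) {x y : P.X} (hr : P.Res x a b y)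
    (hg : g = a ∨ g = b) : ∃ n, n < 2 * M a b ∧ g = el a b n ∧
      (y = P.go x a b n ∨ y = P.go x a b (n + 1)) := by
  obtain ⟨n, hn, rfl⟩ := h.res_lt hab hr
  by_cases e : g = el a b n
  · exact ⟨n, hn, e, Or.inl rfl⟩
  have e' : g = el a b (n + 1) := by
    rcases el_cases a b n with ⟨h1, h2⟩ | ⟨h1, h2⟩ <;> rw [h1] at e <;> rw [h2] <;> tauto
  rcases n with _ | n
  · refine ⟨2 * M a b - 1, by omega, by rw [e']; exact el_congr _ _ (by omega), Or.inr ?_⟩
    rw [show 2 * M a b - 1 + 1 = 2 * M a b by omega, h.go_two hab, go_zero]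
  · exact ⟨n, by omega, by rw [e', el_add_two], Or.inr rfl⟩

section Eps

variable {e : P.X → P.Col → Bool} (he : P.Eps e)
include he

omit h in
theorem e_r_ne {a : ι} {x : P.X} {c : P.Col} (hc : P.col x a ≠ c) : e (P.r a x) c = e x c := by
  rw [he]; simp [hc]

omit h in
theorem e_r_col (a : ι) (x : P.X) : e (P.r a x) (P.col x a) = !e x (P.col x a) := by
  rw [he]; simp

omit h in
theorem r_ne (a : ι) (x : P.X) : P.r a x ≠ x := fun e1 => by
  have := e_r_col he a x
  rw [e1] at this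
  simp at this

omit h in
theorem e_go_of_ne (x : P.X) (a b : ι) (c : P.Col) (j : ℕ) : ∀ n,
    (∀ i, j ≤ i → i < j + n → P.cc x a b i ≠ c) → e (P.go x a b (j + n)) c = e (P.go x a b j) c
  | 0, _ => rfl
  | n + 1, hn => by
    rw [← add_assoc, go_succ, e_r_ne he (hn (j + n) (by omega) (by omega)),
      e_go_of_ne x a b c j n fun i h1 h2 => hn i h1 (by omega)]

omit h in
theorem e_res {x y : P.X} {a b : ι} {c : P.Col} (hr : P.Res x a b y) (hc : ¬ P.Thru x a b c) :
    e y c = e x c := by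
  obtain ⟨n, rfl⟩ := hr
  have := e_go_of_ne he x a b c 0 n fun i _ _ e1 => hc ⟨i, e1⟩
  rwa [zero_add] at this

theorem e_go_le {a b : ι} (hab : Adj M a b) (x : P.X) {j n : ℕ} (hj : j < M a b) (hn : n ≤ j) :
    e (P.go x a b n) (P.cc x a b j) = e x (P.cc x a b j) := by
  have := e_go_of_ne he x a b (P.cc x a b j) 0 n fun i _ h2 e1 => by
    have := h.inj x a b _ _ hab (by omega) hj e1
    omega
  rwa [zero_add] at this

theorem e_go_mid {a b : ι} (hab : Adj M a b) (x : P.X) {j n : ℕ} (hj : j < M a b) (h1 : j < n)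
    (h2 : n ≤ j + M a b) : e (P.go x a b n) (P.cc x a b j) = !e x (P.cc x a b j) := by
  have := e_go_of_ne he x a b (P.cc x a b j) (j + 1) (n - (j + 1)) fun i h3 h4 e1 => by
    rw [h.cc_eq_iff hab, Nat.mod_eq_of_lt hj] at e1
    rcases lt_or_ge i (M a b) with h5 | h5
    · rw [Nat.mod_eq_of_lt h5] at e1; omega
    · rw [Nat.mod_eq_sub_mod h5, Nat.mod_eq_of_lt (by omega)] at e1; omega
  rw [show j + 1 + (n - (j + 1)) = n by omega] at this
  rw [this, go_succ, ← h.e_go_le he hab x hj le_rfl]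
  exact e_r_col he _ _

theorem e_go_hi {a b : ι} (hab : Adj M a b) (x : P.X) {j n : ℕ} (hj : j < M a b)
    (h1 : j + M a b < n) (h2 : n ≤ 2 * M a b) :
    e (P.go x a b n) (P.cc x a b j) = e x (P.cc x a b j) := by
  have := e_go_of_ne he x a b (P.cc x a b j) n (2 * M a b - n) fun i h3 h4 e1 => by
    rw [h.cc_eq_iff hab, Nat.mod_eq_of_lt hj, Nat.mod_eq_sub_mod (by omega),
      Nat.mod_eq_of_lt (by omega)] at e1
    omega
  rw [show n + (2 * M a b - n) = 2 * M a b by omega, h.go_two hab] at this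
  exact this.symm

theorem go_inj {a b : ι} (hab : Adj M a b) (x : P.X) {i j : ℕ} (hi : i < 2 * M a b)
    (hj : j < 2 * M a b) (e1 : P.go x a b i = P.go x a b j) : i = j := by
  have key : ∀ (x : P.X) (a b : ι), Adj M a b → ∀ n, 0 < n → n < 2 * M a b → P.go x a b n ≠ x := by
    intro x a b hab n h0 hn e2
    have hm := h.big.six a b hab
    rcases le_or_gt n (M a b) with h1 | h1
    · have := h.e_go_mid he hab x (j := 0) (by omega) h0 (by omega)
      rw [e2] at this; simp at this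
    · have := h.e_go_mid he hab x (j := M a b - 1) (n := n) (by omega) (by omega) (by omega)
      rw [e2] at this; simp at this
  have key2 : ∀ i j, i < j → j < 2 * M a b → P.go x a b i ≠ P.go x a b j := by
    intro i j hij hj e2
    refine key (P.go x a b i) _ _ (h.big.adj_el hab i) (j - i) (by omega)
      (by rw [h.big.M_el]; omega) ?_
    rw [← go_add, show i + (j - i) = j by omega, e2]
  rcases lt_trichotomy i j with h1 | h1 | h1
  exacts [(key2 _ _ h1 hj e1).elim, h1, (key2 _ _ h1 hi e1.symm).elim]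

end Eps

end Bas

end Pos

end Pool.Agent.P.MP_e794d7_al.X
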