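import Pool.Agent.P.MP_e794d7_al.X.MSt

/-! The transitions of the machine are bijections, and the machine is finite. -/

set_option autoImplicit false

namespace Pool.Agent.P.MP_e794d7_al.X

namespace MBij

open scoped Classical

variable {ι Q : Type} [Group Q] {C : Ctx ι Q}

theorem St_ext {s t : C.St} (h1 : s.x = t.x) (h2 : s.tl = t.tl) (h3 : s.L = t.L)
    (h4 : s.pos = t.pos) (h5 : s.mem = t.mem) : s = t := by
  cases s; cases t; simp_all

/-- the inverse transition -/
noncomputable def back (C : Ctx ι Q) (a : ι) (t : C.St) : C.St where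
  x := C.P.r a t.x
  tl := C.mv (C.P.col t.x a) t.tl
  L := if t.tl = C.pan t.x a then
    (if C.P.col t.x a = C.c then fun w => (C.tr.T (C.M w.2.1 w.2.2)).symm (t.L w) else t.L)
    else t.L
  pos := fun i => C.mv (C.P.col t.x a) (t.pos i)
  mem := fun i => if t.pos i = C.pan t.x a then
    t.mem i * (dirn (C.e (C.P.r a t.x) (C.P.col t.x a)))⁻¹ else t.mem i

theorem step_back (a : ι) (t : C.St) : C.step a (back C a t) = t := by
  refine St_ext ?_ ?_ ?_ ?_ ?_
  · exact C.hB.rr _ _
  · simp only [Ctx.step, back, C.hB.col_r, Ctx.mv_mv]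
  · simp only [Ctx.step, back, C.hB.col_r, Ctx.pan_r, Ctx.mv_eq_pan]
    by_cases h : t.tl = C.pan t.x a
    · by_cases h' : C.P.col t.x a = C.c
      · simp only [if_pos h, if_pos h']
        funext w
        simp [Ctx.TL]
      · simp only [if_pos h, if_neg h']
    · simp only [if_neg h]
  · funext i
    simp only [Ctx.step, back, C.hB.col_r, Ctx.mv_mv]
  · funext i
    simp only [Ctx.step, back, C.hB.col_r, Ctx.pan_r, Ctx.mv_eq_pan]
    by_cases h : t.pos i = C.pan t.x a
    · simp only [if_pos h, inv_mul_cancel_right]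
    · simp only [if_neg h]

theorem back_step (a : ι) (s : C.St) : back C a (C.step a s) = s := by
  refine St_ext ?_ ?_ ?_ ?_ ?_
  · exact C.hB.rr _ _
  · simp only [Ctx.step, back, C.hB.col_r, Ctx.mv_mv]
  · simp only [Ctx.step, back, C.hB.col_r, Ctx.pan_r, Ctx.mv_eq_pan]
    by_cases h : s.tl = C.pan s.x a
    · by_cases h' : C.P.col s.x a = C.c
      · simp only [if_pos h, if_pos h']
        funext w
        simp [Ctx.TL]
      · simp only [if_pos h, if_neg h']
    · simp only [if_neg h]
  · funext i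
    simp only [Ctx.step, back, C.hB.col_r, Ctx.mv_mv]
  · funext i
    simp only [Ctx.step, back, C.hB.col_r, Ctx.pan_r, Ctx.mv_eq_pan, C.hB.rr]
    by_cases h : s.pos i = C.pan s.x a
    · simp only [if_pos h, mul_inv_cancel_right]
    · simp only [if_neg h]

end MBij

theorem m_bij : S_Bij := by
  intro ι Q _ C
  refine ⟨fun a => ⟨Function.LeftInverse.injective (MBij.back_step a),
    Function.RightInverse.surjective (MBij.step_back a)⟩, fun h1 h2 h3 => ?_⟩
  have h4 : Finite C.tr.D := C.tr.fin h3
  have h5 : Finite C.Pn := Finite.of_injective (fun p : C.Pn => (p.z, p.a)) fun p q h =>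
    Ctx.Pn.ext' (congrArg Prod.fst h) (congrArg Prod.snd h)
  exact Finite.of_injective (fun s : C.St => (s.x, s.tl, s.L, s.pos, s.mem)) fun s t h => by
    simp only [Prod.mk.injEq] at h
    exact MBij.St_ext h.1 h.2.1 h.2.2.1 h.2.2.2.1 h.2.2.2.2

end Pool.Agent.P.MP_e794d7_al.X
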