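import Pool.Agent.P.MP_e794d7_al.X.MSt

/-! The labels respect the braid relations. -/

set_option autoImplicit false

namespace Pool.Agent.P.MP_e794d7_al.X

namespace MCell

theorem el_mem {ι : Type} (a b : ι) (n : ℕ) : el a b n = a ∨ el a b n = b := by
  unfold el
  split_ifs
  exacts [Or.inl rfl, Or.inr rfl]

theorem run_inv {ι S : Type} (st : ι → S → S) (I : S → Prop) (a b : ι)
    (h : ∀ s g, g = a ∨ g = b → I s → I (st g s)) (s : S) (hs : I s) :
    ∀ n, I (grun st s a b n)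
  | 0 => hs
  | n + 1 => h _ _ (el_mem a b n) (run_inv st I a b h s hs n)

theorem glab_pot {ι S Q : Type} [Group Q] (st : ι → S → S) (κ : ι → S → Q) (I : S → Prop)
    (φ : S → Q) (a b : ι) (h : ∀ s g, g = a ∨ g = b → I s → I (st g s))
    (hk : ∀ s g, g = a ∨ g = b → I s → κ g s = (φ s)⁻¹ * φ (st g s)) (s : S) (hs : I s) :
    ∀ n, glab st κ s a b n = (φ s)⁻¹ * φ (grun st s a b n)
  | 0 => by simp [glab, grun]
  | n + 1 => by
    rw [glab, glab_pot st κ I φ a b h hk s hs n,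
      hk _ _ (el_mem a b n) (run_inv st I a b h s hs n), grun]
    group

theorem glab_eq {ι S Q : Type} [Group Q] (st : ι → S → S) (κ : ι → S → Q) (I : S → Prop)
    (φ : S → Q) (a b : ι) (h : ∀ s g, g = a ∨ g = b → I s → I (st g s))
    (hk : ∀ s g, g = a ∨ g = b → I s → κ g s = (φ s)⁻¹ * φ (st g s)) (s : S) (hs : I s) (n : ℕ)
    (hr : grun st s a b n = grun st s b a n) : glab st κ s a b n = glab st κ s b a n := by
  rw [glab_pot st κ I φ a b h hk s hs n,
    glab_pot st κ I φ b a (fun s g hg => h s g hg.symm) (fun s g hg => hk s g hg.symm) s hs n, hr]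

variable {ι Q : Type} [Group Q] [LinearOrder ι] {C : Ctx ι Q}

omit [LinearOrder ι] in
theorem adj_symm {a b : ι} (hab : Adj C.M a b) : Adj C.M b a :=
  ⟨hab.1.symm, by rw [C.hB.big.symm b a]; exact hab.2⟩

omit [LinearOrder ι] in
theorem thru_step {a b g : ι} (hab : Adj C.M a b) (hg : g = a ∨ g = b) (s : C.St)
    {γ : C.P.Col} : C.P.Thru (C.step g s).x a b γ ↔ C.P.Thru s.x a b γ :=
  (C.hB.thru_res hab (C.hB.res_r hab hg s.x)).symm

theorem lb_step (hInv : S_Inv) {a b g b' : ι} (hab : Adj C.M a b) (hg : g = a ∨ g = b) (s : C.St)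
    {S : C.Slot} (hS : C.Val S) (ho : C.Out S b') (ht : C.P.Thru s.x a b (C.cap S b')) :
    C.Lb (C.step g s) S = C.Lb s S := by
  rcases hg with rfl | rfl
  · exact hInv ι Q C s S b' g b hS ho hab ht
  · exact hInv ι Q C s S b' g a hS ho (adj_symm hab) (C.hB.thru_swap hab ht)

theorem apw_step (hInvW : S_InvW) {a b g : ι} (hg : g = a ∨ g = b) (s : C.St)
    (h : C.ApW (C.step g s) a b) : C.ApW s a b := by
  obtain ⟨z, g0, t1, t2, h1, h2, h3, h4⟩ := h
  have hadj : Adj C.M t1 t2 := h1.2.2.1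
  have hg' : g = t1 ∨ g = t2 := by
    rcases h3 with ⟨rfl, rfl⟩ | ⟨rfl, rfl⟩
    exacts [hg, hg.symm]
  have h5 : C.P.Res z t1 t2 s.x := by
    have h6 := C.hB.res_trans hadj h2 (C.hB.res_r hadj hg' _)
    rwa [Ctx.step_x, C.hB.rr] at h6
  refine ⟨z, g0, t1, t2, h1, h5, h3, ?_⟩
  rw [Ctx.step_tl, Ctx.mv_eq_iff] at h4
  rw [h4, (hInvW ι Q C s z g0 t1 t2 g h1 h5 hg').1]

end MCell

open MCell in
theorem m_cell (hRun : S_Run) (hInv : S_Inv) (hStepA : S_StepA) (hCellU : S_CellU)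
    (hCellW : S_CellW) (hStepN : S_StepN) (hInvW : S_InvW) : S_Cell := by
  intro ι Q _ _ C s a b hab
  by_cases hN : C.NA s a b
  · by_cases hc : C.P.Thru s.x a b C.c
    · exact hCellU ι Q C s a b hab hc
    by_cases hW : C.ApW s a b
    · exact hCellW ι Q C s a b hab hN hW
    refine glab_eq C.step C.kap
      (fun s' => ¬ C.P.Thru s'.x a b C.c ∧ C.NA s' a b ∧ ¬ C.ApW s' a b) (fun _ => 1) a b
      (fun s' g hg h => ⟨fun h1 => h.1 ((thru_step hab hg s').1 h1), fun S b' hS ho ht => ?_,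
        fun h1 => h.2.2 (apw_step hInvW hg s' h1)⟩) (fun s' g hg h => ?_) s ⟨hc, hN, hW⟩ _
      (hRun ι Q C s a b hab)
    · have ht' := (thru_step hab hg s').1 ht
      rw [lb_step hInv hab hg s' hS ho ht']
      exact h.2.1 S b' hS ho ht'
    · rw [inv_one, mul_one]
      rcases hg with rfl | rfl
      · exact hStepN ι Q C s' g b hab h.1 h.2.1 h.2.2
      · refine hStepN ι Q C s' g a (adj_symm hab)
          (fun h1 => h.1 (C.hB.thru_swap (adj_symm hab) h1))
          (fun S b' hS ho ht => h.2.1 S b' hS ho (C.hB.thru_swap (adj_symm hab) ht)) ?_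
        rintro ⟨z, g0, t1, t2, h1, h2, h3, h4⟩
        exact h.2.2 ⟨z, g0, t1, t2, h1, h2, h3.elim (fun e => Or.inr e) fun e => Or.inl e, h4⟩
  · unfold Ctx.NA at hN
    push Not at hN
    obtain ⟨S, b', hS, ho, ht, hl⟩ := hN
    refine glab_eq C.step C.kap
      (fun s' => C.P.Thru s'.x a b (C.cap S b') ∧ C.Lb s' S = C.Lb s S)
      (C.hp S (C.Lb s S)) a b
      (fun s' g hg h => ⟨(thru_step hab hg s').2 h.1,
        (lb_step hInv hab hg s' hS ho h.1).trans h.2⟩) (fun s' g hg h => ?_) s ⟨ht, rfl⟩ _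
      (hRun ι Q C s a b hab)
    rw [← h.2]
    rcases hg with rfl | rfl
    · exact hStepA ι Q C s' S b' g b hS ho hab h.1 (h.2 ▸ hl)
    · exact hStepA ι Q C s' S b' g a hS ho (adj_symm hab) (C.hB.thru_swap hab h.1) (h.2 ▸ hl)

end Pool.Agent.P.MP_e794d7_al.X
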