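import Pool.Agent.P.MP_e794d7_al.X.MSt

/-! The labels around an apex multiply to one in both directions. -/

set_option autoImplicit false

namespace Pool.Agent.P.MP_e794d7_al.X

open scoped Classical

namespace CellW

variable {ι Q : Type} [Group Q]

/-- a potential on the chambers around the apex -/
def pot (m : ℕ) (u v : Q) (n : ℕ) : Q := if n % m = 0 then 1 else if n % m ≤ 3 then u else v

theorem succ_mod {m : ℕ} (hm : 6 ≤ m) (n : ℕ) :
    (n % m + 1 < m ∧ (n + 1) % m = n % m + 1) ∨ (n % m + 1 = m ∧ (n + 1) % m = 0) := by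
  have h1 : n % m < m := Nat.mod_lt _ (by omega)
  have h2 : (n + 1) % m = (n % m + 1) % m := by rw [Nat.mod_add_mod]
  rcases Nat.lt_or_ge (n % m + 1) m with h | h
  · exact Or.inl ⟨h, by rw [h2, Nat.mod_eq_of_lt h]⟩
  · have h3 : n % m + 1 = m := by omega
    exact Or.inr ⟨h3, by rw [h2, h3, Nat.mod_self]⟩

theorem pot_fw {m : ℕ} (hm : 6 ≤ m) (u v : Q) (n : ℕ) :
    (if n % m = 0 then u else if n % m = 3 then u⁻¹ * v⁻¹ else if n % m + 1 = m then v else 1) =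
      (pot m u v⁻¹ n)⁻¹ * pot m u v⁻¹ (n + 1) := by
  unfold pot
  rcases succ_mod hm n with ⟨h1, h2⟩ | ⟨h1, h2⟩ <;> rw [h2] <;> generalize n % m = k at h1 <;>
    split_ifs <;> first | contradiction | omega | simp

theorem pot_rw {m : ℕ} (hm : 6 ≤ m) (u v : Q) (n : ℕ) :
    (if n % m = 0 then u else if n % m = 3 then v⁻¹ * u⁻¹ else if n % m + 1 = m then v else 1) =
      (pot m u⁻¹ v (n + 1))⁻¹ * pot m u⁻¹ v n := by
  unfold pot
  rcases succ_mod hm n with ⟨h1, h2⟩ | ⟨h1, h2⟩ <;> rw [h2] <;> generalize n % m = k at h1 <;>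
    split_ifs <;> first | contradiction | omega | simp

theorem pot_add (m : ℕ) (u v : Q) (n : ℕ) : pot m u v (n + m) = pot m u v n := by
  unfold pot
  rw [Nat.add_mod_right]

variable [LinearOrder ι] {C : Ctx ι Q}

/-- the data that are kept along a walk around the apex -/
structure Kp (C : Ctx ι Q) (z : C.P.X) (g t1 t2 : ι) (s s' : C.St) : Prop where
  res : C.P.Res z t1 t2 s'.x
  tl : s'.tl = C.pan z g
  na : C.NA s' t1 t2
  tm : C.TM s' z t1 t2 ↔ C.TM s z t1 t2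
  e1 : C.eff s' z g t1 t2 = C.eff s z g t1 t2
  e2 : C.eff s' z g t2 t1 = C.eff s z g t2 t1

variable {z : C.P.X} {g t1 t2 : ι} {s s' : C.St}

theorem Kp.step (hInv : S_Inv) (hInvW : S_InvW) (ho : C.TOk z g t1 t2) (h : Kp C z g t1 t2 s s')
    {a : ι} (ha : a = t1 ∨ a = t2) : Kp C z g t1 t2 s (C.step a s') := by
  have hadj : Adj C.M t1 t2 := ho.2.2.1
  obtain ⟨h1, h2, h3, h4⟩ := hInvW ι Q C s' z g t1 t2 a ho h.res ha
  have hr : C.P.Res s'.x t1 t2 (C.P.r a s'.x) := C.hB.res_r hadj ha _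
  refine ⟨C.hB.res_trans hadj h.res hr, by rw [Ctx.step_tl, h.tl, h1], ?_, h2.trans h.tm,
    h3.trans h.e1, h4.trans h.e2⟩
  intro S b' hS hb ht
  have ht' : C.P.Thru s'.x t1 t2 (C.cap S b') := (C.hB.thru_res hadj hr).2 ht
  rw [← h.na S b' hS hb ht']
  rcases ha with rfl | rfl
  · exact hInv ι Q C s' S b' _ _ hS hb hadj ht'
  · exact hInv ι Q C s' S b' _ _ hS hb (C.hB.big.adj_symm hadj) (C.hB.thru_swap hadj ht')

theorem Kp.run (hInv : S_Inv) (hInvW : S_InvW) (ho : C.TOk z g t1 t2) (h : Kp C z g t1 t2 s s)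
    {a b : ι} (ha : a = t1 ∨ a = t2) (hb : b = t1 ∨ b = t2) :
    ∀ n, Kp C z g t1 t2 s (grun C.step s a b n)
  | 0 => h
  | n + 1 => by
    refine (Kp.run hInv hInvW ho h ha hb n).step hInv hInvW ho ?_
    rcases el_mem a b n with h1 | h1 <;> rw [h1]
    exacts [ha, hb]

theorem Kp.kap (hStepW : S_StepW) (ho : C.TOk z g t1 t2) (h : Kp C z g t1 t2 s s') (n : ℕ) :
    (s'.x = C.P.go z t1 t2 n →
      C.kap (el t1 t2 n) s' = if C.TM s z t1 t2 then C.FW s z g t1 t2 n else 1) ∧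
    (s'.x = C.P.go z t1 t2 (n + 1) →
      C.kap (el t1 t2 n) s' = if C.TM s z t1 t2 then C.RW s z g t1 t2 n else 1) := by
  have hadj : Adj C.M t1 t2 := ho.2.2.1
  have hm := C.hB.big.six _ _ hadj
  obtain ⟨h1, h2⟩ := hStepW ι Q C s' z g t1 t2 (n % (2 * C.M t1 t2)) ho h.tl h.na
    (Nat.mod_lt _ (by omega))
  have e1 : el t1 t2 (n % (2 * C.M t1 t2)) = el t1 t2 n :=
    el_congr _ _ (Nat.mod_mod_of_dvd _ (Dvd.intro _ rfl))
  have e2 : n % (2 * C.M t1 t2) % C.M t1 t2 = n % C.M t1 t2 :=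
    Nat.mod_mod_of_dvd _ (Dvd.intro_left _ rfl)
  have e3 : C.FW s' z g t1 t2 (n % (2 * C.M t1 t2)) = C.FW s z g t1 t2 n := by
    simp only [Ctx.FW, Ctx.eo, Ctx.ei, e2, h.e1, h.e2]
  have e4 : C.RW s' z g t1 t2 (n % (2 * C.M t1 t2)) = C.RW s z g t1 t2 n := by
    simp only [Ctx.RW, Ctx.eo, Ctx.ei, e2, h.e1, h.e2]
  rw [Pos.go_succ] at h2
  rw [e1, C.hB.go_mod hadj] at h1 h2
  rw [e3] at h1
  rw [e4] at h2
  refine ⟨fun hx => ?_, fun hx => ?_⟩
  · rw [h1 hx]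
    by_cases ht : C.TM s z t1 t2
    · rw [if_pos ht, if_pos (h.tm.2 ht)]
    · rw [if_neg ht, if_neg fun h' => ht (h.tm.1 h')]
  · rw [h2 hx]
    by_cases ht : C.TM s z t1 t2
    · rw [if_pos ht, if_pos (h.tm.2 ht)]
    · rw [if_neg ht, if_neg fun h' => ht (h.tm.1 h')]

theorem fw (hInv : S_Inv) (hInvW : S_InvW) (hStepW : S_StepW) (ho : C.TOk z g t1 t2)
    (h : Kp C z g t1 t2 s s) {k : ℕ} (hk : s.x = C.P.go z t1 t2 k) :
    glab C.step C.kap s (el t1 t2 k) (el t1 t2 (k + 1)) (C.M t1 t2) = 1 := by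
  have hm := C.hB.big.six _ _ ho.2.2.1
  have key : ∀ j, glab C.step C.kap s (el t1 t2 k) (el t1 t2 (k + 1)) j =
      if C.TM s z t1 t2 then (pot (C.M t1 t2) (C.eo s z g t1 t2) (C.ei s z g t2 t1)⁻¹ k)⁻¹ *
        pot (C.M t1 t2) (C.eo s z g t1 t2) (C.ei s z g t2 t1)⁻¹ (k + j) else 1 := by
    intro j
    induction j with
    | zero => simp [glab]
    | succ j ih =>
      have h1 := ((h.run hInv hInvW ho (el_mem t1 t2 k) (el_mem t1 t2 (k + 1)) j).kap hStepW ho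
        (k + j)).1 (by rw [Ctx.grun_x, hk, Pos.go_add])
      rw [glab, ih, el_el, h1]
      by_cases ht : C.TM s z t1 t2
      · rw [if_pos ht, if_pos ht, if_pos ht, Ctx.FW, pot_fw hm, ← add_assoc]
        group
      · rw [if_neg ht, if_neg ht, if_neg ht, one_mul]
  rw [key, pot_add]
  simp

theorem bw (hInv : S_Inv) (hInvW : S_InvW) (hStepW : S_StepW) (ho : C.TOk z g t1 t2)
    (h : Kp C z g t1 t2 s s) {k : ℕ} (hk : s.x = C.P.go z t1 t2 k) (hkm : C.M t1 t2 ≤ k) :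
    glab C.step C.kap s (el t1 t2 (k + 1)) (el t1 t2 k) (C.M t1 t2) = 1 := by
  have hm := C.hB.big.six _ _ ho.2.2.1
  have key : ∀ j, j ≤ k → glab C.step C.kap s (el t1 t2 (k + 1)) (el t1 t2 k) j =
      if C.TM s z t1 t2 then (pot (C.M t1 t2) (C.ei s z g t1 t2)⁻¹ (C.eo s z g t2 t1) k)⁻¹ *
        pot (C.M t1 t2) (C.ei s z g t1 t2)⁻¹ (C.eo s z g t2 t1) (k - j) else 1 := by
    intro j
    induction j with
    | zero => simp [glab]
    | succ j ih =>
      intro hj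
      have e0 : k - j = k - (j + 1) + 1 := by omega
      have h1 := ((h.run hInv hInvW ho (el_mem t1 t2 (k + 1)) (el_mem t1 t2 k) j).kap hStepW ho
        (k - (j + 1))).2 (by rw [Ctx.grun_x, hk, C.hB.go_back z t1 t2 k j (by omega), e0])
      have e1 : el (el t1 t2 (k + 1)) (el t1 t2 k) j = el t1 t2 (k - (j + 1)) := by
        rw [← el_add_two t1 t2 k, el_el]
        exact el_congr _ _ (by omega)
      rw [glab, ih (by omega), e1, h1]
      by_cases ht : C.TM s z t1 t2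
      · rw [if_pos ht, if_pos ht, if_pos ht, Ctx.RW, pot_rw hm, e0]
        group
      · rw [if_neg ht, if_neg ht, if_neg ht, one_mul]
  rw [key _ hkm, ← pot_add _ _ _ (k - C.M t1 t2), Nat.sub_add_cancel hkm]
  simp

end CellW

theorem m_cellw (hInv : S_Inv) (hInvW : S_InvW) (hStepW : S_StepW) : S_CellW := by
  intro ι Q _ _ C s a b hab hna hap
  obtain ⟨z, g, t1, t2, ho, hr, hs, htl⟩ := hap
  have hadj : Adj C.M t1 t2 := ho.2.2.1
  have h : CellW.Kp C z g t1 t2 s s :=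
    ⟨hr, htl, fun S b' hS hb ht => hna S b' hS hb (C.hB.thru_same hadj hs ht), Iff.rfl, rfl, rfl⟩
  obtain ⟨k0, hk0⟩ := hr
  have hk : s.x = C.P.go z t1 t2 (k0 + 2 * C.M t1 t2) := by rw [C.hB.go_per hadj, hk0]
  have h1 := CellW.fw hInv hInvW hStepW ho h hk
  have h2 := CellW.bw hInv hInvW hStepW ho h hk (by omega)
  rw [C.hB.big.M_same hs]
  rcases hs.symm.trans (same_el t1 t2 (k0 + 2 * C.M t1 t2)) with ⟨e1, e2⟩ | ⟨e1, e2⟩
  · rw [← e1, ← e2] at h1 h2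
    rw [h1, h2]
  · rw [← e1, ← e2] at h1 h2
    rw [h1, h2]

end Pool.Agent.P.MP_e794d7_al.X
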