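import Pool.Agent.P.MP_e794d7_al.X.MSt

/-! Slots in the terms of the geometry. -/

set_option autoImplicit false

namespace Pool.Agent.P.MP_e794d7_al.X

namespace MCls

open Ctx

variable {ι Q : Type} [Group Q] {C : Ctx ι Q}

theorem base {y : C.P.X} {a b : ι} (hab : Adj C.M a b) (ht : C.P.Thru y a b C.c) :
    ∃ x g0 t, Adj C.M g0 t ∧ C.P.col x g0 = C.c ∧ C.P.Res y a b x ∧ Same a b g0 t := by
  obtain ⟨h1, h2, h3⟩ := bs_spec hab ht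
  have h4 := h2.trans (Same.swap _ _)
  exact ⟨_, _, _, C.hB.big.adj_same hab h4, h3, h1, h4⟩

theorem lmb {s : C.St} {z : C.P.X} {g u : ι} (h : Adj C.M u g) (hl : C.LM s z u g) :
    ∃ t, Adj C.M s.tl.a t ∧ C.pc s.tl = C.c ∧
      (C.P.Res s.tl.z s.tl.a t z ∧ Same s.tl.a t g u) ∧ C.Mt s.x s.tl (s.tl, t) := by
  obtain ⟨t, h1, h2, h3⟩ := hl.base h
  exact ⟨t, h1.ok h, h2, ⟨C.hB.res_same h h1.2 (C.hB.res_symm h h1.1),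
    h1.2.symm.trans (Same.swap _ _)⟩, h3⟩

theorem xt_ap {φ : C.Fl} {x : C.P.X} {g0 t b : ι} (h : C.At φ x g0 t) (hab : Adj C.M g0 t)
    (hb : C.Ok (φ.1, b)) (hne : b ≠ φ.2) (hx : C.Xt φ) :
    ∃ y, C.ApAt x g0 t y φ.2 φ.1.a b ∧ C.At (φ.1, b) y φ.1.a b ∧
      C.P.Deep C.M y φ.1.a b (C.gate (φ.1, b)) := by
  obtain ⟨y, hy, hc⟩ := hx
  have hs := h.2.trans (Same.swap _ _)
  have hb' : Adj C.M φ.1.a b := hb
  have hd : C.P.Deep C.M φ.1.z φ.1.a b (C.gate (φ.1, b)) := gate_deep hb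
  rcases hy with rfl | rfl
  · exact ⟨_, ⟨h.1, hs, hc, hne, hb⟩, ⟨Pos.Res.refl _ _ _, Same.refl _ _⟩, hd⟩
  · have hg : φ.1.a = g0 ∨ φ.1.a = t := by
      rcases h.2 with ⟨h1, -⟩ | ⟨-, h1⟩
      exacts [Or.inl h1.symm, Or.inr h1.symm]
    exact ⟨_, ⟨C.hB.res_trans hab h.1 (C.hB.res_r hab hg _), hs, hc, hne, hb⟩,
      ⟨C.hB.res_symm hb' (C.hB.res_r hb' (Or.inl rfl) _), Same.refl _ _⟩, C.hB.deep_r hb' hd⟩

theorem nx1 {φ : C.Fl} {x : C.P.X} {g0 t b : ι} (hab : Adj C.M g0 t) (hc : C.P.col x g0 = C.c)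
    (hp : C.pc φ.1 ≠ C.c) (hb : C.Ok (φ.1, b)) (h1 : C.P.O1 C.M x g0 t φ.1.z φ.1.a b)
    (h2 : C.P.In1 x g0 t φ.1.z φ.1.a) : C.P.NX C.M (C.gate (φ.1, b)) C.c :=
  C.hG.a1 x g0 t _ _ b _ t _ h1 h2 (gate_deep hb) hab (hc ▸ Pos.thru_col x g0 t) hp.symm

theorem nx2 {φ : C.Fl} {x z : C.P.X} {g0 t b g u u' : ι} (hab : Adj C.M g0 t)
    (hc : C.P.col x g0 = C.c) (hp : C.pc φ.1 ≠ C.c) (hb : C.Ok (φ.1, b))
    (h1 : C.ApAt x g0 t z g u u') (h2 : C.P.O2 C.M z u u' φ.1.z φ.1.a b) :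
    C.P.NX C.M (C.gate (φ.1, b)) C.c :=
  C.hG.a2 x g0 t z u u' _ _ b _ t _ (h1.ap hab hc) h2 (gate_deep hb) hab
    (hc ▸ Pos.thru_col x g0 t) hp.symm

variable [LinearOrder ι]

theorem fl_T (z : C.P.X) (g t1 t2 : ι) (β : Bool) :
    C.fl (.T z g t1 t2 β) ∈ C.tok (C.tf z t1 t2) := by
  cases β
  exacts [self_mem_tok _, mem_tok.2 (Or.inr rfl)]

theorem pc_tf {z : C.P.X} {g u u' : ι} (hc : C.P.col z g = C.c) (hg : Adj C.M g u)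
    (h : Adj C.M u u') (hne : u' ≠ g) {ψ : C.Fl} (hψ : ψ ∈ C.tok (C.tf z u u')) :
    C.pc ψ.1 ≠ C.c := by
  rw [pc_of_mem (ok_tf h z) hψ]
  exact (deep1_nx_c hc hg h hne (deep1_tf h z)).1

theorem apx {S : C.Slot} {x : C.P.X} {g0 t : ι} (hv : C.Val S) (ho : C.Ob x g0 t S) :
    (∃ φ, S = .A φ) ∨ (C.Capd S ∧ ∃ z g u u', C.ApAt x g0 t z g u u' ∧ C.At (C.fl S) z u u' ∧
      ∀ b, C.Ok ((C.fl S).1, b) → b ≠ (C.fl S).2 →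
        C.P.O2 C.M z u u' (C.fl S).1.z (C.fl S).1.a b) := by
  cases S with
  | A φ => exact Or.inl ⟨φ, rfl⟩
  | B z g u u' =>
    obtain ⟨h1, h2, h3, h4⟩ := hv
    exact Or.inr ⟨trivial, z, g, u, u', ⟨ho.1, ho.2, h1, h4, h3⟩, (at_pan h3 z).op h3,
      fun b hb hne => o2_op h3 z hb hne⟩
  | T z g t1 t2 β =>
    obtain ⟨h1, -, h3, h4, h5, -⟩ := hv
    have hm := fl_T (C := C) z g t1 t2 β
    refine Or.inr ⟨trivial, ?_⟩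
    rcases ho.2 with h6 | h6
    · exact ⟨z, g, t1, t2, ⟨ho.1, h6, h1, h5.symm, h3⟩, (at_tf h3 z).of_mem h3 hm,
        fun b hb hne => o2_tf h3 z hm hb hne⟩
    · have h3' := C.hB.big.adj_symm h3
      rw [← tf_comm] at hm
      exact ⟨z, g, t2, t1, ⟨ho.1, h6, h1, h4.symm, h3'⟩, (at_tf h3' z).of_mem h3' hm,
        fun b hb hne => o2_tf h3' z hm hb hne⟩

theorem ok (S : C.Slot) (hv : C.Val S) : C.Ok (C.fl S) ∧ C.pc (C.fl S).1 ≠ C.c := by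
  cases S with
  | A φ => exact ⟨hv.1, hv.2.2⟩
  | B z g u u' =>
    obtain ⟨h1, h2, h3, -⟩ := hv
    have h5 : C.Ok (C.pan z u, u') := ok_pan.2 h3
    refine ⟨ok_op h5, fun e1 => h2.1 (C.hB.x2 z _ _ (h1.trans ?_))⟩
    rw [← e1]
    exact (pc_op h5).trans (pc_pan z u)
  | T z g t1 t2 β =>
    obtain ⟨h1, -, h3, h4, h5, h6⟩ := hv
    have hm := fl_T (C := C) z g t1 t2 β
    refine ⟨ok_of_mem (ok_tf h3 z) hm, ?_⟩
    rcases h6 with h6 | h6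
    · exact pc_tf h1 h6 h3 h5.symm hm
    · rw [← tf_comm] at hm
      exact pc_tf h1 h6 (C.hB.big.adj_symm h3) h4.symm hm

theorem stat (S : C.Slot) (hv : C.Val S) :
    ∃ x g0 t, Adj C.M g0 t ∧ C.P.col x g0 = C.c ∧ C.Ob x g0 t S := by
  cases S with
  | A φ =>
    obtain ⟨x, g0, t, h1, h2, h3, h4⟩ := base hv.1 hv.2.1
    exact ⟨x, g0, t, h1, h2, (at_self φ).congr hv.1 h3 h4⟩
  | B z g u u' => exact ⟨z, g, u, hv.2.1, hv.1, Pos.Res.refl _ _ _, Same.refl _ _⟩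
  | T z g t1 t2 β =>
    obtain ⟨h1, -, -, -, -, h6 | h6⟩ := hv
    · exact ⟨z, g, t1, h6, h1, Pos.Res.refl _ _ _, Or.inl (Same.refl _ _)⟩
    · exact ⟨z, g, t2, h6, h1, Pos.Res.refl _ _ _, Or.inr (Same.refl _ _)⟩

theorem la_on {s : C.St} {φ : C.Fl} (h : C.LA s φ ≠ 1) : C.LM s φ.1.z φ.1.a φ.2 := by
  by_contra hc
  exact h (if_neg fun h1 => hc h1.1)

theorem lc_on {s : C.St} {z : C.P.X} {g t1 t2 : ι} (h : C.LC s z g t1 t2 ≠ 1) :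
    C.EfOn s z g t1 t2 ∨ C.EfOn s z g t2 t1 := by
  by_contra hc
  have h1 : C.eff s z g t1 t2 = 1 := if_neg fun h1 => hc (Or.inl h1)
  have h2 : C.eff s z g t2 t1 = 1 := if_neg fun h1 => hc (Or.inr h1)
  exact h (by simp [LC, eo, ei, h1, h2])

theorem swap_ne {l : Q × Q} (h : l.swap ≠ 1) : l ≠ 1 := fun e1 => h (by rw [e1]; rfl)

theorem act (s : C.St) (S : C.Slot) (hv : C.Val S) (hl : C.Lb s S ≠ 1) :
    ∃ t, Adj C.M s.tl.a t ∧ C.pc s.tl = C.c ∧ C.Ob s.tl.z s.tl.a t S ∧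
      C.Mt s.x s.tl (s.tl, t) := by
  cases S with
  | A φ =>
    obtain ⟨t, h1, h2, h3⟩ := (la_on hl).base hv.1
    exact ⟨t, h1.ok hv.1, h2, (at_self φ).congr hv.1 h1.1 h1.2, h3⟩
  | B z g u u' =>
    have h1 := la_on (swap_ne hl)
    have h2 := C.hB.big.adj_symm hv.2.1
    simp only [pan_a] at h1
    exact lmb h2 (h1.congr h2 (C.hB.res_symm h2 (res_pan h2 (Or.inl rfl) z)) (Same.refl _ _))
  | T z g t1 t2 β =>
    have h1 : C.LC s z g t1 t2 ≠ 1 := by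
      cases β
      exacts [hl, swap_ne hl]
    rcases lc_on h1 with h2 | h2
    · obtain ⟨t, h3, h4, h5, h6⟩ := lmb (C.hB.big.adj_symm h2.1) h2.2.1.1
      exact ⟨t, h3, h4, ⟨h5.1, Or.inl h5.2⟩, h6⟩
    · obtain ⟨t, h3, h4, h5, h6⟩ := lmb (C.hB.big.adj_symm h2.1) h2.2.1.1
      exact ⟨t, h3, h4, ⟨h5.1, Or.inr h5.2⟩, h6⟩

theorem out (S : C.Slot) (x : C.P.X) (g0 t b : ι) (hv : C.Val S) (hab : Adj C.M g0 t)
    (hc : C.P.col x g0 = C.c) (ho : C.Ob x g0 t S) (hb : C.Out S b) :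
    (C.P.O1 C.M x g0 t (C.fl S).1.z (C.fl S).1.a b ∧ C.P.In1 x g0 t (C.fl S).1.z (C.fl S).1.a) ∨
      ∃ z g u u', C.ApAt x g0 t z g u u' ∧ C.P.O2 C.M z u u' (C.fl S).1.z (C.fl S).1.a b := by
  rcases apx hv ho with ⟨φ, rfl⟩ | ⟨-, z, g, u, u', h1, -, h3⟩
  · exact Or.inl ⟨At.o1 ho hab hc hv.2.2 hb.1 hb.2.1, At.in1 ho hc hv.2.2 hb.2.2⟩
  · exact Or.inr ⟨z, g, u, u', h1, h3 b hb.1 hb.2.1⟩

theorem inn (S : C.Slot) (x : C.P.X) (g0 t b : ι) (hv : C.Val S) (hab : Adj C.M g0 t)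
    (ho : C.Ob x g0 t S) (hb : C.Ok ((C.fl S).1, b)) (hn : ¬ C.Out S b) :
    C.P.Thru (C.fl S).1.z (C.fl S).1.a b C.c ∨
      ∃ z g u u', C.ApAt x g0 t z g u u' ∧ C.At ((C.fl S).1, b) z u u' := by
  rcases apx hv ho with ⟨φ, rfl⟩ | ⟨h0, z, g, u, u', h1, h2, -⟩
  · by_cases hne : b = φ.2
    · exact Or.inl (hne ▸ hv.2.1)
    · have hx : C.Xt φ := by
        by_contra hx
        exact hn ⟨hb, hne, hx⟩
      obtain ⟨y, h1, h2, -⟩ := xt_ap ho hab hb hne hx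
      exact Or.inr ⟨y, _, _, _, h1, h2⟩
  · have hne : b = (C.fl S).2 := by
      by_contra hne
      exact hn ⟨hb, hne, h0⟩
    exact Or.inr ⟨z, g, u, u', h1, hne ▸ h2⟩

theorem capc (S : C.Slot) (b : ι) (hv : C.Val S) (hb : C.Out S b) :
    C.P.NX C.M (C.cap S b) C.c := by
  obtain ⟨x, g0, t, h1, h2, h3⟩ := stat S hv
  rcases out S x g0 t b hv h1 h2 h3 hb with h4 | ⟨z, g, u, u', h4, h5⟩
  · exact nx1 h1 h2 (ok S hv).2 hb.1 h4.1 h4.2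
  · exact nx2 h1 h2 (ok S hv).2 hb.1 h4 h5

theorem famc (y : C.P.X) (a b : ι) (φ : C.Fl) (q : C.Pn) (b0 b' : ι) (hab : Adj C.M a b)
    (ht : C.P.Thru y a b C.c) (hf : C.Fam y a b φ) (hm : (q, b0) ∈ C.tok φ) (hb : C.Ok (q, b'))
    (hne : b' ≠ b0) : C.P.NX C.M (C.gate (q, b')) C.c := by
  obtain ⟨x, g0, t, h1, h2, h3, h4⟩ := base hab ht
  rcases hf.congr hab h3 h4 with ⟨h5, h6⟩ | ⟨z, g, u, u', h5, rfl⟩
  · have h7 := h5.of_mem h1 hm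
    have h8 : C.pc (q, b0).1 ≠ C.c := by rwa [pc_of_mem (h5.ok h1) hm]
    by_cases hx : C.Xt (q, b0)
    · obtain ⟨z, h9, -, h10⟩ := xt_ap h7 h1 hb hne hx
      exact deep1_nx_c h9.2.2.1 (C.hB.big.adj_same h1 h9.2.1) h9.2.2.2.2 hne h10.deep1
    · exact nx1 (φ := (q, b0)) h1 h2 h8 hb (h7.o1 h1 h2 h8 hb hne) (h7.in1 h2 h8 hx)
  · exact nx2 (φ := (q, b0)) h1 h2
      (pc_tf h5.2.2.1 (C.hB.big.adj_same h1 h5.2.1) h5.2.2.2.2 h5.2.2.2.1 hm) hb h5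
      (o2_tf h5.2.2.2.2 z hm hb hne)

end MCls

theorem m_cls : S_Cls := fun _ _ _ _ _ =>
  ⟨MCls.ok, MCls.stat, MCls.act, MCls.out,
    fun S x g0 t b hv hab _ ho hb hn => MCls.inn S x g0 t b hv hab ho hb hn, MCls.capc, MCls.famc⟩

end Pool.Agent.P.MP_e794d7_al.X
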