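import Pool.Agent.P.MP_e794d7_al.X.BasX

/-! The token machine: definitions. -/

set_option autoImplicit false

namespace Pool.Agent.P.MP_e794d7_al.X

open scoped Classical

noncomputable section

/-- the data of the construction; `c` is the colour of the wall -/
structure Ctx (ι : Type) (Q : Type) [Group Q] where
  M : ι → ι → ℕ
  P : Pos ι
  e : P.X → P.Col → Bool
  c : P.Col
  K : ℕ
  tr : Trn Q K
  hB : P.Bas M
  hG : P.Geo M (P.NX M)
  he : P.Eps e
  hK : ∀ a b, M a b ≤ K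
  hK2 : 2 ≤ K

/-- one of the two components -/
def dirn {Q : Type} (β : Bool) : Q × Q → Q := fun l => if β then l.2 else l.1

/-- the pair whose component `β` is `f` -/
def ord {Q : Type} (β : Bool) (f r : Q) : Q × Q := if β then (r, f) else (f, r)

/-- the states along the alternating word -/
def grun {ι S : Type} (st : ι → S → S) (s : S) (a b : ι) : ℕ → S
  | 0 => s
  | n + 1 => st (el a b n) (grun st s a b n)

/-- the product of the labels along the alternating word -/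
def glab {ι S Q : Type} [Group Q] (st : ι → S → S) (κ : ι → S → Q) (s : S) (a b : ι) : ℕ → Q
  | 0 => 1
  | n + 1 => glab st κ s a b n * κ (el a b n) (grun st s a b n)

namespace Ctx

variable {ι Q : Type} [Group Q] (C : Ctx ι Q)

/-- a panel, given by its chamber on the side `false` and its letter -/
structure Pn where
  z : C.P.X
  a : ι
  nrm : C.e z (C.P.col z a) = false

/-- the panel of the chamber `y` with letter `a` -/
def pan (y : C.P.X) (a : ι) : C.Pn :=
  if h : C.e y (C.P.col y a) = false then ⟨y, a, h⟩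
  else ⟨C.P.r a y, a, by
    rw [C.hB.col_r, Pos.Bas.e_r_col C.he]
    simpa using h⟩

/-- the colour of a panel -/
def pc (p : C.Pn) : C.P.Col := C.P.col p.z p.a

/-- a flag: a panel and a second letter, that is a vertex of the panel -/
abbrev Fl : Type := C.Pn × ι

/-- the label of the flag is finite -/
def Ok (φ : C.Fl) : Prop := Adj C.M φ.1.a φ.2

/-- the opposite flag at the same vertex -/
def op (φ : C.Fl) : C.Fl :=
  (C.pan (C.P.go φ.1.z φ.1.a φ.2 (C.M φ.1.a φ.2)) (el φ.1.a φ.2 (C.M φ.1.a φ.2)),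
    el φ.1.a φ.2 (C.M φ.1.a φ.2 + 1))

/-- a pair of opposite flags; the names of the tokens -/
def tok (φ : C.Fl) : Set C.Fl := {φ, C.op φ}

/-- a chosen flag of the pair -/
def rep (φ : C.Fl) : C.Fl := @Classical.epsilon _ ⟨φ⟩ fun ψ => ψ ∈ C.tok φ

/-- the gate: a colour through the vertex that separates the two opposite panels -/
def gate (φ : C.Fl) : C.P.Col := C.P.cc (C.rep φ).1.z (C.rep φ).1.a (C.rep φ).2 3

/-- the move of a token when the colour `γ` is crossed -/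
def mv (γ : C.P.Col) (p : C.Pn) : C.Pn :=
  if h : ∃ b, C.Ok (p, b) ∧ γ = C.gate (p, b) then (C.op (p, h.choose)).1 else p

/-- the token at `q` is matched with the chamber `y` at the vertex of `φ` -/
def Mt (y : C.P.X) (q : C.Pn) (φ : C.Fl) : Prop :=
  (q = φ.1 ∨ q = (C.op φ).1) ∧ C.e y (C.gate φ) = C.e q.z (C.gate φ)

/-- the flag lies at the vertex `(y; a, b)` -/
def At (φ : C.Fl) (y : C.P.X) (a b : ι) : Prop := C.P.Res y a b φ.1.z ∧ Same a b φ.1.a φ.2

/-- the flag number `n` of the walk -/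
def wf (y : C.P.X) (a b : ι) (n : ℕ) : C.Fl := (C.pan (C.P.go y a b n) (el a b n), el a b (n + 1))

/-- one token with a memory: position and memory along the alternating word -/
def trun {Y : Type} (f : C.P.Col → Bool → Y → Y) (x : C.P.X) (a b : ι) (q : C.Pn) (μ : Y) :
    ℕ → C.Pn × Y
  | 0 => (q, μ)
  | n + 1 => (C.mv (C.P.cc x a b n) (trun f x a b q μ n).1,
      if (trun f x a b q μ n).1 = C.pan (C.P.go x a b n) (el a b n) then
        f (C.P.cc x a b n) (C.e (C.P.go x a b n) (C.P.cc x a b n)) (trun f x a b q μ n).2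
      else (trun f x a b q μ n).2)

/-- the states: chamber, token of the wall, labelling data, tokens and their memories -/
structure St where
  x : C.P.X
  tl : C.Pn
  L : C.P.X × ι × ι → C.tr.D
  pos : Set C.Fl → C.Pn
  mem : Set C.Fl → (Q × Q → Q)

/-- transport of all labelling data -/
def TL (L : C.P.X × ι × ι → C.tr.D) : C.P.X × ι × ι → C.tr.D :=
  fun w => C.tr.T (C.M w.2.1 w.2.2) (L w)

/-- the transition by the letter `a` -/
def step (a : ι) (s : C.St) : C.St where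
  x := C.P.r a s.x
  tl := C.mv (C.P.col s.x a) s.tl
  L := if s.tl = C.pan s.x a then (if C.P.col s.x a = C.c then C.TL s.L else s.L) else s.L
  pos := fun i => C.mv (C.P.col s.x a) (s.pos i)
  mem := fun i => if s.pos i = C.pan s.x a then s.mem i * dirn (C.e s.x (C.P.col s.x a))
    else s.mem i

/-- `(x, t, g)` is a base of the vertex `(y; a, b)`: the panel `[x, g]` has the colour `c` -/
def IsBs (y : C.P.X) (a b : ι) (w : C.P.X × ι × ι) : Prop :=
  C.P.Res y a b w.1 ∧ Same a b w.2.1 w.2.2 ∧ C.P.col w.1 w.2.2 = C.c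

/-- a chosen base -/
def bs (y : C.P.X) (a b : ι) : C.P.X × ι × ι := @Classical.epsilon _ ⟨(y, a, b)⟩ (C.IsBs y a b)

/-- the number of a chamber in the walk from the base -/
def idx (w : C.P.X × ι × ι) (y : C.P.X) : ℕ :=
  Classical.epsilon fun n => n < 2 * C.M w.2.1 w.2.2 ∧ C.P.go w.1 w.2.1 w.2.2 n = y

/-- the label of the edge `(y, a)` read from the data `d` -/
def raw (d : C.tr.D) (w : C.P.X × ι × ι) (y : C.P.X) (a : ι) : Q :=
  if a = el w.2.1 w.2.2 (C.idx w y) then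
    (C.tr.PF (C.M w.2.1 w.2.2) d (C.idx w y % C.M w.2.1 w.2.2))⁻¹ *
      C.tr.PF (C.M w.2.1 w.2.2) d (C.idx w y % C.M w.2.1 w.2.2 + 1)
  else C.tr.PR (C.M w.2.1 w.2.2) d (C.idx w y % C.M w.2.1 w.2.2) *
      (C.tr.PR (C.M w.2.1 w.2.2) d (C.idx w y % C.M w.2.1 w.2.2 - 1))⁻¹

/-- the labels of the two edges of the panel of a flag -/
def rp (s : C.St) (φ : C.Fl) : Q × Q :=
  (C.raw (s.L (C.bs φ.1.z φ.1.a φ.2)) (C.bs φ.1.z φ.1.a φ.2) φ.1.z φ.1.a,
    C.raw (s.L (C.bs φ.1.z φ.1.a φ.2)) (C.bs φ.1.z φ.1.a φ.2) (C.P.r φ.1.a φ.1.z) φ.1.a)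

/-- the token of the wall is matched at the vertex -/
def LM (s : C.St) (y : C.P.X) (a b : ι) : Prop :=
  ∃ ψ, C.At ψ y a b ∧ C.pc ψ.1 = C.c ∧ C.Mt s.x s.tl ψ

/-- a chamber of the panel touches the wall -/
def Xt (φ : C.Fl) : Prop :=
  ∃ y, (y = φ.1.z ∨ y = C.P.r φ.1.a φ.1.z) ∧ C.P.col y φ.2 = C.c

/-- apex data at the vertex `(y; a, b)` -/
def ApAt (y : C.P.X) (a b : ι) (z : C.P.X) (g u u' : ι) : Prop :=
  C.P.Res y a b z ∧ Same a b g u ∧ C.P.col z g = C.c ∧ u' ≠ g ∧ Adj C.M u u'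

variable [LinearOrder ι]

/-- the flag of the extra token at an apex -/
def tf (z : C.P.X) (u u' : ι) : C.Fl := C.wf z (min u u') (max u u') 3

/-- the flags of the tokens that belong to the vertex `(y; a, b)` of the wall -/
def Fam (y : C.P.X) (a b : ι) (φ : C.Fl) : Prop :=
  (C.At φ y a b ∧ C.pc φ.1 ≠ C.c) ∨ ∃ z g u u', C.ApAt y a b z g u u' ∧ φ = C.tf z u u'

/-- all tokens of the vertex are matched, except those in `Z` -/
def On (s : C.St) (y : C.P.X) (a b : ι) (Z : Set (Set C.Fl)) : Prop :=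
  C.LM s y a b ∧ ∀ φ, C.Fam y a b φ → C.tok φ ∉ Z → C.Mt s.x (s.pos (C.tok φ)) φ

/-- labels of a panel at a vertex of the wall -/
def LA (s : C.St) (φ : C.Fl) : Q × Q :=
  if C.On s φ.1.z φ.1.a φ.2 {C.tok φ} then C.rp s φ else 1

/-- the status of the panel `[z, u]` seen from the apex `(z; u, u')` -/
def EfOn (s : C.St) (z : C.P.X) (g u u' : ι) : Prop :=
  Adj C.M g u ∧ C.On s z u g {C.tok (C.pan z u, g), C.tok (C.tf z u u')} ∧
    C.Mt s.x (s.pos (C.tok (C.pan z u, g))) (C.pan z u, u')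

/-- the labels of the panel `[z, u]` seen from the apex `(z; u, u')` -/
def eff (s : C.St) (z : C.P.X) (g u u' : ι) : Q × Q :=
  if C.EfOn s z g u u' then C.rp s (C.pan z u, g) else 1

/-- the label of the edge that leaves `z` -/
def eo (s : C.St) (z : C.P.X) (g u u' : ι) : Q := dirn (C.e z (C.P.col z u)) (C.eff s z g u u')

/-- the label of the edge that comes back to `z` -/
def ei (s : C.St) (z : C.P.X) (g u u' : ι) : Q := dirn (!C.e z (C.P.col z u)) (C.eff s z g u u')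

/-- labels of the extra wall at an apex -/
def LC (s : C.St) (z : C.P.X) (g t1 t2 : ι) : Q × Q :=
  ord (C.e (C.P.go z t1 t2 3) (C.P.cc z t1 t2 3))
    ((C.eo s z g t1 t2)⁻¹ * (C.ei s z g t2 t1)⁻¹) ((C.eo s z g t2 t1)⁻¹ * (C.ei s z g t1 t2)⁻¹)

omit [LinearOrder ι] in
/-- the places that carry labels -/
inductive Slot where
  | A (φ : C.Fl)
  | B (z : C.P.X) (g u u' : ι)
  | T (z : C.P.X) (g t1 t2 : ι) (side : Bool)

/-- ordered apex data -/
def TOk (z : C.P.X) (g t1 t2 : ι) : Prop :=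
  C.P.col z g = C.c ∧ t1 < t2 ∧ Adj C.M t1 t2 ∧ g ≠ t1 ∧ g ≠ t2 ∧ (Adj C.M g t1 ∨ Adj C.M g t2)

/-- admissible slots -/
def Val : C.Slot → Prop
  | .A φ => C.Ok φ ∧ C.P.Thru φ.1.z φ.1.a φ.2 C.c ∧ C.pc φ.1 ≠ C.c
  | .B z g u u' => C.P.col z g = C.c ∧ Adj C.M g u ∧ Adj C.M u u' ∧ u' ≠ g
  | .T z g t1 t2 _ => C.TOk z g t1 t2

/-- the panel of a slot with its inner vertex -/
def fl : C.Slot → C.Fl
  | .A φ => φ
  | .B z _ u u' => C.op (C.pan z u, u')
  | .T z _ t1 t2 false => C.tf z t1 t2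
  | .T z _ t1 t2 true => C.op (C.tf z t1 t2)

/-- the token of a slot -/
def tk : C.Slot → Set C.Fl
  | .A φ => C.tok φ
  | .B z g u _ => C.tok (C.pan z u, g)
  | .T z _ t1 t2 _ => C.tok (C.tf z t1 t2)

/-- the labels of a slot -/
def Lb (s : C.St) : C.Slot → Q × Q
  | .A φ => C.LA s φ
  | .B z g u _ => (C.LA s (C.pan z u, g)).swap
  | .T z g t1 t2 false => C.LC s z g t1 t2
  | .T z g t1 t2 true => (C.LC s z g t1 t2).swap

omit [LinearOrder ι] in
/-- the slot is closed by caps at its other vertices -/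
def Capd : C.Slot → Prop
  | .A φ => ¬ C.Xt φ
  | _ => True

/-- `b` gives an outer vertex of the slot -/
def Out (S : C.Slot) (b : ι) : Prop := C.Ok ((C.fl S).1, b) ∧ b ≠ (C.fl S).2 ∧ C.Capd S

/-- the cap of the slot at the outer vertex -/
def cap (S : C.Slot) (b : ι) : C.P.Col := C.gate ((C.fl S).1, b)

omit [LinearOrder ι] in
/-- the slot belongs to the vertex `(x; g0, t)` of the wall -/
def Ob (x : C.P.X) (g0 t : ι) : C.Slot → Prop
  | .A φ => C.At φ x g0 t
  | .B z g u _ => C.P.Res x g0 t z ∧ Same g0 t g u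
  | .T z g t1 t2 _ => C.P.Res x g0 t z ∧ (Same g0 t g t1 ∨ Same g0 t g t2)

/-- events: the token is hit at the slot, leaves it through a cap, or comes back -/
def Ev (s : C.St) (a : ι) (q : Q) : Prop :=
  ∃ S, C.Val S ∧ C.Lb s S ≠ 1 ∧
    ((s.pos (C.tk S) = (C.fl S).1 ∧ (C.fl S).1 = C.pan s.x a ∧
        q = dirn (C.e s.x (C.P.col s.x a)) (C.Lb s S)) ∨
      ∃ b, C.Out S b ∧ C.P.col s.x a = C.cap S b ∧
        ((s.pos (C.tk S) = (C.fl S).1 ∧ q = (s.mem (C.tk S) (C.Lb s S))⁻¹) ∨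
          (s.pos (C.tk S) = (C.op ((C.fl S).1, b)).1 ∧ q = s.mem (C.tk S) (C.Lb s S))))

/-- the label of a transition -/
def kap (a : ι) (s : C.St) : Q := if h : ∃ q, C.Ev s a q then h.choose else 1

/-- the potential of a slot -/
def hp (S : C.Slot) (l : Q × Q) (s : C.St) : Q :=
  if s.pos (C.tk S) = (C.fl S).1 then s.mem (C.tk S) l else 1

/-- no cap of an active slot passes through the vertex `(s.x; a, b)` -/
def NA (s : C.St) (a b : ι) : Prop :=
  ∀ S b', C.Val S → C.Out S b' → C.P.Thru s.x a b (C.cap S b') → C.Lb s S = 1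

/-- the vertex `(s.x; a, b)` is an apex of the panel of the token of the wall -/
def ApW (s : C.St) (a b : ι) : Prop :=
  ∃ z g t1 t2, C.TOk z g t1 t2 ∧ C.P.Res z t1 t2 s.x ∧ Same t1 t2 a b ∧ s.tl = C.pan z g

/-- the extra token of the apex is matched -/
def TM (s : C.St) (z : C.P.X) (t1 t2 : ι) : Prop :=
  C.Mt s.x (s.pos (C.tok (C.tf z t1 t2))) (C.tf z t1 t2)

/-- forward labels around an apex -/
def FW (s : C.St) (z : C.P.X) (g t1 t2 : ι) (n : ℕ) : Q :=
  if n % C.M t1 t2 = 0 then C.eo s z g t1 t2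
  else if n % C.M t1 t2 = 3 then (C.eo s z g t1 t2)⁻¹ * (C.ei s z g t2 t1)⁻¹
  else if n % C.M t1 t2 + 1 = C.M t1 t2 then C.ei s z g t2 t1 else 1

/-- backward labels around an apex -/
def RW (s : C.St) (z : C.P.X) (g t1 t2 : ι) (n : ℕ) : Q :=
  if n % C.M t1 t2 = 0 then C.ei s z g t1 t2
  else if n % C.M t1 t2 = 3 then (C.eo s z g t2 t1)⁻¹ * (C.ei s z g t1 t2)⁻¹
  else if n % C.M t1 t2 + 1 = C.M t1 t2 then C.eo s z g t2 t1 else 1

/-- the states met along the chain -/
def GoodS (L0 : C.P.X × ι × ι → C.tr.D) (s : C.St) : Prop :=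
  s.L = L0 ∧ ∀ y a b, Adj C.M a b → C.P.Thru y a b C.c →
    (∀ φ, C.Fam y a b φ → C.Mt s.x (s.pos (C.tok φ)) φ) ∧ (y = s.x → C.LM s y a b)

end Ctx

end

end Pool.Agent.P.MP_e794d7_al.X
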