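import Pool.Agent.P.MP_e794d7_al.X.MSt

/-! Two active slots do not disturb each other. -/

set_option autoImplicit false

namespace Pool.Agent.P.MP_e794d7_al.X

namespace MExcl

open Ctx

variable {ι Q : Type} [Group Q] {C : Ctx ι Q}

/-- two apex data at the vertex of one flag agree -/
theorem apex_eq {x z z' : C.P.X} {g0 t t' g u u' g' v v' : ι} {φ : C.Fl} (h1 : Adj C.M g0 t)
    (h2 : Adj C.M g0 t') (hc : C.P.col x g0 = C.c) (ha : C.ApAt x g0 t z g u u')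
    (ha' : C.ApAt x g0 t' z' g' v v') (hφ : C.At φ z u u') (hφ' : C.At φ z' v v') :
    z' = z ∧ g' = g ∧ Same u u' v v' := by
  obtain ⟨τ, hτ, -⟩ := ex_deep1 ha.2.2.2.2 z C.c
  obtain ⟨τ', hτ', -⟩ := ex_deep1 ha'.2.2.2.2 z' C.c
  rcases C.hG.tt x g0 t z u u' τ t' z' v v' τ' (ha.ap h1 hc) hτ (ha'.ap h2 hc) hτ' with h | h
  · exact (h.not_thru (hφ.ok ha.2.2.2.2) ((hφ.thru ha.2.2.2.2).2 hτ.thru)
      ((hφ'.thru ha'.2.2.2.2).2 hτ'.thru)).elim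
  · obtain ⟨rfl, h⟩ := h
    exact ⟨rfl, C.hB.x2 _ _ _ (ha'.2.2.1.trans ha.2.2.1.symm), h⟩

/-- the vertex of apex data does not lie on the wall -/
theorem apex_not {x z : C.P.X} {g0 t g u u' : ι} {φ : C.Fl} (h1 : Adj C.M g0 t)
    (ha : C.ApAt x g0 t z g u u') (hφ : C.At φ z u u') :
    ¬ C.P.Thru φ.1.z φ.1.a φ.2 C.c := fun ht =>
  apex_not_thru ha.2.2.1 (C.hB.big.adj_same h1 ha.2.1) ha.2.2.2.2 ha.2.2.2.1
    ((hφ.thru ha.2.2.2.2).1 ht)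

/-- the exception of the mixed case does not occur -/
theorem no_exc {x z y : C.P.X} {g0 t t' g u u' a b : ι} (h1 : Adj C.M g0 t)
    (hc : C.P.col x g0 = C.c) (ha : C.ApAt x g0 t z g u u') (ho : C.P.O1 C.M x g0 t' y a b)
    (hi : C.P.In1 x g0 t' y a) (hz : y = z ∨ C.P.r a y = z) : False := by
  have hz' : z = y ∨ z = C.P.r a y := hz.imp Eq.symm Eq.symm
  by_cases e : t = t'
  · subst e
    refine hi z hz' g ?_ (ha.2.2.1.trans hc.symm)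
    rcases ha.2.1 with ⟨h, -⟩ | ⟨-, h⟩
    exacts [Or.inl h.symm, Or.inr h.symm]
  have hr : C.P.Res x g0 t' z := by
    rcases hz' with rfl | rfl
    exacts [ho.res, C.hB.res_trans ho.adj ho.res (C.hB.res_r ho.adj ho.mem y)]
  obtain ⟨k, -, h2, h3⟩ := C.hB.x1 z g0 t g0 t' _ h1 ho.adj (not_same_of_ne h1.1 e)
    ((C.hB.thru_res h1 ha.1).1 (Pos.thru_col x g0 t))
    ((C.hB.thru_res ho.adj hr).1 (Pos.thru_col x g0 t'))
  exact hi z hz' k h2 h3.symm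

variable [LinearOrder ι]

theorem apB {x z : C.P.X} {g0 t g u u' : ι} (hv : C.Val (.B z g u u'))
    (ho : C.Ob x g0 t (.B z g u u')) :
    C.ApAt x g0 t z g u u' ∧ C.At (C.fl (.B z g u u')) z u u' :=
  ⟨⟨ho.1, ho.2, hv.1, hv.2.2.2, hv.2.2.1⟩, (at_pan hv.2.2.1 z).op hv.2.2.1⟩

theorem memT (z : C.P.X) (g t1 t2 : ι) (sd : Bool) :
    C.fl (.T z g t1 t2 sd) ∈ C.tok (C.tf z t1 t2) := by
  cases sd
  exacts [self_mem_tok _, mem_tok.2 (Or.inr rfl)]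

theorem apT {x z : C.P.X} {g0 t g t1 t2 : ι} {sd : Bool} (hv : C.Val (.T z g t1 t2 sd))
    (ho : C.Ob x g0 t (.T z g t1 t2 sd)) : ∃ u u', Same t1 t2 u u' ∧
    C.ApAt x g0 t z g u u' ∧ C.At (C.fl (.T z g t1 t2 sd)) z u u' := by
  obtain ⟨h1, -, h3, h4, h5, -⟩ := hv
  have h6 := (at_tf h3 z).of_mem h3 (memT z g t1 t2 sd)
  rcases ho with ⟨h7, h8 | h8⟩
  · exact ⟨t1, t2, Same.refl _ _, ⟨h7, h8, h1, h5.symm, h3⟩, h6⟩
  · exact ⟨t2, t1, Same.swap _ _, ⟨h7, h8, h1, h4.symm, C.hB.big.adj_symm h3⟩,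
      h6.congr h3 (Pos.Res.refl _ _ _) (Same.swap _ _)⟩

theorem bt_ne {x z z' : C.P.X} {g0 t t' g u u' g' t1 t2 : ι} {sd : Bool} (h1 : Adj C.M g0 t)
    (h2 : Adj C.M g0 t') (hc : C.P.col x g0 = C.c) (hv : C.Val (.B z g u u'))
    (hv' : C.Val (.T z' g' t1 t2 sd)) (ho : C.Ob x g0 t (.B z g u u'))
    (ho' : C.Ob x g0 t' (.T z' g' t1 t2 sd)) :
    C.fl (.T z' g' t1 t2 sd) ≠ C.fl (.B z g u u') := fun e => by
  obtain ⟨a1, a2⟩ := apB hv ho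
  obtain ⟨v, v', b0, b1, b2⟩ := apT hv' ho'
  obtain ⟨rfl, -, hs⟩ := apex_eq h1 h2 hc a1 b1 a2 (e ▸ b2)
  have h3 : Adj C.M t1 t2 := hv'.2.2.1
  have e1 := pc_of_mem (ok_tf h3 z') (memT z' g' t1 t2 sd)
  rw [e, show C.fl (.B z' g u u') = C.op (C.pan z' u, u') from rfl, pc_op (ok_pan.2 hv.2.2.1),
    pc_pan] at e1
  refine C.hB.deep1_ne h3 (deep1_tf h3 z') ?_ e1.symm
  rcases hs.trans b0.symm with ⟨h, -⟩ | ⟨h, -⟩
  exacts [Or.inl h, Or.inr h]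

/-- a slot is determined by its flag -/
theorem slot_eq {x : C.P.X} {g0 t t' : ι} (h1 : Adj C.M g0 t) (h2 : Adj C.M g0 t')
    (hc : C.P.col x g0 = C.c) : ∀ {S S' : C.Slot}, C.Val S → C.Val S' → C.Ob x g0 t S →
    C.Ob x g0 t' S' → C.fl S' = C.fl S → S' = S
  | .A φ, .A φ', _, _, _, _, e => congrArg Slot.A e
  | .A φ, .B z g u u', hv, hv', _, ho', e =>
    (apex_not h2 (apB hv' ho').1 (apB hv' ho').2 (by rw [e]; exact hv.2.1)).elim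
  | .A φ, .T z g t1 t2 sd, hv, hv', _, ho', e => by
    obtain ⟨v, v', -, b1, b2⟩ := apT hv' ho'
    exact (apex_not h2 b1 b2 (by rw [e]; exact hv.2.1)).elim
  | .B z g u u', .A φ, hv, hv', ho, _, e =>
    (apex_not h1 (apB hv ho).1 (apB hv ho).2 (by rw [← e]; exact hv'.2.1)).elim
  | .T z g t1 t2 sd, .A φ, hv, hv', ho, _, e => by
    obtain ⟨v, v', -, b1, b2⟩ := apT hv ho
    exact (apex_not h1 b1 b2 (by rw [← e]; exact hv'.2.1)).elim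
  | .B z g u u', .B z' g' v v', hv, hv', ho, ho', e => by
    obtain ⟨rfl, rfl, -⟩ := apex_eq h1 h2 hc (apB hv ho).1 (apB hv' ho').1 (apB hv ho).2
      (e ▸ (apB hv' ho').2)
    have e1 : C.op (C.op (C.pan z' v, v')) = C.op (C.op (C.pan z' u, u')) := congrArg C.op e
    rw [op_op (ok_pan.2 hv.2.2.1), op_op (ok_pan.2 hv'.2.2.1), Prod.mk.injEq, pan_eq_iff] at e1
    rw [e1.1.1, e1.2]
  | .B z g u u', .T z' g' t1 t2 sd, hv, hv', ho, ho', e => (bt_ne h1 h2 hc hv hv' ho ho' e).elim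
  | .T z' g' t1 t2 sd, .B z g u u', hv, hv', ho, ho', e =>
    (bt_ne h2 h1 hc hv' hv ho' ho e.symm).elim
  | .T z g t1 t2 sd, .T z' g' t1' t2' sd', hv, hv', ho, ho', e => by
    obtain ⟨u, u', a0, a1, a2⟩ := apT hv ho
    obtain ⟨v, v', b0, b1, b2⟩ := apT hv' ho'
    obtain ⟨rfl, rfl, hs⟩ := apex_eq h1 h2 hc a1 b1 a2 (e ▸ b2)
    rcases (a0.trans hs).trans b0.symm with ⟨rfl, rfl⟩ | ⟨rfl, rfl⟩
    · have h3 := op_ne (ok_tf hv.2.2.1 z')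
      cases sd <;> cases sd'
      exacts [rfl, (h3 (congrArg Prod.fst e)).elim, (h3 (congrArg Prod.fst e.symm)).elim, rfl]
    · exact (lt_asymm hv.2.1 hv'.2.1).elim

theorem inn (H : Cls C) {x : C.P.X} {g0 t t' b b' : ι} {S S' : C.Slot} (h1 : Adj C.M g0 t)
    (h2 : Adj C.M g0 t') (hc : C.P.col x g0 = C.c) (hv : C.Val S) (hv' : C.Val S')
    (ho : C.Ob x g0 t S) (ho' : C.Ob x g0 t' S') (hb : C.Out S b) (hk : C.Ok ((C.fl S').1, b'))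
    (hn : ¬ C.Out S' b') : ¬ C.P.Thru (C.fl S').1.z (C.fl S').1.a b' (C.cap S b) := fun ht => by
  rcases H.inn S' x g0 t' b' hv' h2 hc ho' hk hn with h | ⟨z', g', v, v', ha', hφ⟩
  · exact (H.capc S b hv hb).not_thru hk ht h
  obtain ⟨τ, hτ, hne⟩ := ex_deep1 ha'.2.2.2.2 z' (C.pc (C.fl S).1)
  refine Pos.NX.not_thru ?_ ha'.2.2.2.2 ((hφ.thru ha'.2.2.2.2).1 ht) hτ.thru
  rcases H.out S x g0 t b hv h1 hc ho hb with ⟨h3, h4⟩ | ⟨z, g, u, u', ha, h3⟩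
  · exact C.hG.b1 _ _ _ _ _ _ _ _ _ _ _ _ h3 h4 (gate_deep hb.1) (ha'.ap h2 hc) hτ
  · exact C.hG.b2 _ _ _ _ _ _ _ _ _ _ _ _ _ _ _ (ha.ap h1 hc) h3 (gate_deep hb.1) (ha'.ap h2 hc)
      hτ hne

theorem caps (H : Cls C) {x : C.P.X} {g0 t t' b b' : ι} {S S' : C.Slot} (h1 : Adj C.M g0 t)
    (h2 : Adj C.M g0 t') (hc : C.P.col x g0 = C.c) (hv : C.Val S) (hv' : C.Val S')
    (ho : C.Ob x g0 t S) (ho' : C.Ob x g0 t' S') (hb : C.Out S b) (hb' : C.Out S' b') :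
    C.P.NX C.M (C.cap S b) (C.cap S' b') ∨ (S' = S ∧ b' = b) := by
  have d := gate_deep hb.1
  have d' := gate_deep hb'.1
  have key : C.P.NX C.M (C.cap S b) (C.cap S' b') ∨
      C.P.SameO (C.fl S).1.z (C.fl S).1.a b (C.fl S').1.z (C.fl S').1.a b' := by
    rcases H.out S x g0 t b hv h1 hc ho hb with ⟨h3, h4⟩ | ⟨z, g, u, u', ha, h3⟩ <;>
      rcases H.out S' x g0 t' b' hv' h2 hc ho' hb' with ⟨h5, h6⟩ | ⟨z', g', v, v', ha', h5⟩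
    · exact C.hG.g11 _ _ _ _ _ _ _ _ _ _ _ _ h3 h4 d h5 d'
    · exact Or.inl ((C.hG.g21 _ _ _ _ _ _ _ _ _ _ _ _ _ _ _ (ha'.ap h2 hc) h5 d' h3 d).resolve_right
        fun h => no_exc h2 hc ha' h3 h4 h.1).symm
    · exact Or.inl ((C.hG.g21 _ _ _ _ _ _ _ _ _ _ _ _ _ _ _ (ha.ap h1 hc) h3 d h5 d').resolve_right
        fun h => no_exc h1 hc ha h5 h6 h.1)
    · exact C.hG.g22 _ _ _ _ _ _ _ _ _ _ _ _ _ _ _ _ _ _ (ha.ap h1 hc) h3 d (ha'.ap h2 hc) h5 d'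
  refine key.imp_right fun ⟨e1, e2, e3⟩ => ⟨slot_eq h1 h2 hc hv hv' ho ho' ?_, e2⟩
  have e : (C.fl S').1 = (C.fl S).1 := (eq_pan_iff.2 ⟨e1, e3⟩).trans (pan_self _)
  refine Prod.ext e ?_
  by_contra hne
  have hk : C.Ok (C.fl S') := (H.ok S' hv').1
  have hk' : C.Ok ((C.fl S).1, (C.fl S').2) := e ▸ hk
  refine inn H h1 h2 hc hv hv' ho ho' ⟨hk', hne, hb.2.2⟩ hk (fun h => h.2.1 rfl) ?_
  rw [e]
  exact gate_thru hk'

end MExcl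

theorem m_excl (hCls : S_Cls) : S_Excl := fun ι Q _ _ C => by
  have H := hCls ι Q C
  refine ⟨fun s S S' b b' hv hv' hl hl' hb hb' => ?_, fun s S S' b b' hv hv' hl hl' hb hk hn => ?_⟩
  all_goals
    obtain ⟨t, h1, hc, ho, -⟩ := H.act s S hv hl
    obtain ⟨t', h2, -, ho', -⟩ := H.act s S' hv' hl'
  exacts [MExcl.caps H h1 h2 hc hv hv' ho ho' hb hb', MExcl.inn H h1 h2 hc hv hv' ho ho' hb hk hn]

end Pool.Agent.P.MP_e794d7_al.X
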