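import Pool.Agent.P.MP_e794d7_al.X.MSt

/-! Every labelling of a chain extends to a finite state cocycle. -/

set_option autoImplicit false

namespace Pool.Agent.P.MP_e794d7_al.X

theorem m_ext (hTrn : S_Trn) (hAct : S_Act) (hBij : S_Bij) (hRun : S_Run) (hCell : S_Cell)
    (hStepU : S_StepU) (hSurj : S_Surj) (hGood : S_Good) : S_Ext := by
  intro ι _ _ M P e π hX hB hG he hπ c Q _ lam g₀
  rcases isEmpty_or_nonempty ι with hι | hι
  · exact ⟨fun _ => 1, fun _ a => isEmptyElim a, fun _ => ⟨⊤, inferInstance, fun _ _ _ => rfl⟩⟩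
  obtain ⟨K, hK, hK2⟩ : ∃ K, (∀ a b, M a b ≤ K) ∧ 2 ≤ K :=
    ⟨Finset.univ.sup (fun p : ι × ι => M p.1 p.2) + 2, fun a b =>
      (Finset.le_sup (f := fun p : ι × ι => M p.1 p.2) (Finset.mem_univ (a, b))).trans
        (Nat.le_add_right _ _), by omega⟩
  obtain ⟨tr⟩ := hTrn Q K
  let C : Ctx ι Q := ⟨M, P, e, c, K, tr, hB, hG, he, hK, hK2⟩
  obtain ⟨L0, hL0⟩ := hSurj ι Q C lam (e (π g₀) c)
  obtain ⟨hex, hstep⟩ := hGood ι Q C L0
  obtain ⟨s0, hs0, hg0⟩ := hex hι (π g₀)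
  obtain ⟨σ, F, h0, hσ, hfin⟩ := hAct ι M C.St Q C.step C.kap (hBij ι Q C).1
    (fun s a b hab => ⟨hRun ι Q C s a b hab, hCell ι Q C s a b hab⟩) s0 g₀
  have hx : ∀ g, (σ g).x = π g := by
    let S : Subgroup (Art M) :=
      { carrier := {k | ∀ g, (σ (g * k)).x = π (g * k) ↔ (σ g).x = π g}
        one_mem' := fun g => by rw [mul_one]
        mul_mem' := fun {k k'} hk hk' g => by rw [← mul_assoc, hk', hk]
        inv_mem' := fun {k} hk g => by rw [← hk, inv_mul_cancel_right] }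
    have hS : S = ⊤ := Art.eq_top fun a g => by
      rw [(hσ g a).1, hπ g a, Ctx.step_x]
      exact (hB.r_inj a).eq_iff
    intro g
    have : g₀⁻¹ * g ∈ S := hS ▸ Subgroup.mem_top _
    have h1 := (this g₀).2 (by rw [h0, hs0])
    rwa [mul_inv_cancel_left] at h1
  have hch : ∀ g h, P.Ch M c π g h → ((C.GoodS L0 (σ g) ∧ e (π g) c = e (π g₀) c) ↔
      (C.GoodS L0 (σ h) ∧ e (π h) c = e (π g₀) c)) := by
    intro g h hgh
    induction hgh with
    | rel g h hr =>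
      obtain ⟨a, h1, rfl⟩ := hr
      rw [(hσ g a).1, hstep (σ g) a (by rw [hx]; exact h1), hπ g a, Pos.Bas.e_r_ne he h1.1]
    | refl g => exact Iff.rfl
    | symm g h _ ih => exact ih.symm
    | trans g h k _ _ ih ih' => exact ih.trans ih'
  refine ⟨F, fun g a hg ha => ?_, fun hQ => hfin ((hBij ι Q C).2 inferInstance hX hQ) hQ⟩
  obtain ⟨h1, h2⟩ := (hch _ _ hg).1 ⟨h0 ▸ hg0, rfl⟩
  obtain ⟨h3, b, hab, ht⟩ := ha
  rw [← hx] at h2 h3 ht
  obtain ⟨h4, h5⟩ := h1.2 _ a b hab ht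
  rw [(hσ g a).2, (hStepU ι Q C (σ g) a b hab ht).2.2.1 ⟨h5 rfl, fun φ hφ _ => h4 φ hφ⟩ h3, h1.1,
    hL0 _ a b hab ht h3 h2, hx]

end Pool.Agent.P.MP_e794d7_al.X
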