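import Pool.Agent.P.MP_e794d7_al.X.MSt

/-! The states met along the chain exist and are kept by the edges of the chain. -/

set_option autoImplicit false

namespace Pool.Agent.P.MP_e794d7_al.X

open Ctx

namespace MGood

variable {ι Q : Type} [Group Q] {C : Ctx ι Q}

theorem at_pan' {a b : ι} (hab : Adj C.M a b) (y : C.P.X) : C.At (C.pan y b, a) y a b :=
  (at_pan (C.hB.big.adj_symm hab) y).congr (C.hB.big.adj_symm hab) (Pos.Res.refl _ _ _)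
    (Same.swap _ _)

/-- the panel of the wall at a chamber is matched at each of its vertices -/
theorem loc {x : C.P.X} {a b g : ι} (hab : Adj C.M a b) (hg : g = a ∨ g = b)
    (hc : C.P.col x g = C.c) :
    ∃ ψ, C.At ψ x a b ∧ C.pc ψ.1 = C.c ∧ C.Mt x (C.pan x g) ψ := by
  rcases hg with rfl | rfl
  · exact ⟨_, at_pan hab x, (pc_pan _ _).trans hc, mt_loc hab x⟩
  · exact ⟨_, at_pan' hab x, (pc_pan _ _).trans hc, mt_loc (C.hB.big.adj_symm hab) x⟩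

theorem ex_pos (a0 : ι) (x : C.P.X) (i : Set C.Fl) :
    ∃ q, ∀ φ, C.Ok φ → C.tok φ = i → C.Mt x q φ := by
  by_cases h : ∃ φ, C.Ok φ ∧ C.tok φ = i
  · obtain ⟨φ0, h0, rfl⟩ := h
    obtain ⟨q, hq⟩ := mt_ex h0 x
    exact ⟨q, fun φ _ e1 => (mt_of_mem h0 (mem_of_tok e1)).2 hq⟩
  · exact ⟨C.pan x a0, fun φ h1 h2 => (h ⟨φ, h1, h2⟩).elim⟩

theorem ex_tl (a0 : ι) (x : C.P.X) : ∃ q, ∀ a b, Adj C.M a b → C.P.Thru x a b C.c →
    ∃ ψ, C.At ψ x a b ∧ C.pc ψ.1 = C.c ∧ C.Mt x q ψ := by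
  by_cases h : ∃ a b, Adj C.M a b ∧ C.P.Thru x a b C.c
  swap
  · exact ⟨C.pan x a0, fun a b h1 h2 => (h ⟨a, b, h1, h2⟩).elim⟩
  obtain ⟨a1, b1, h1, t1⟩ := h
  by_cases h : ∃ a b, Adj C.M a b ∧ C.P.Thru x a b C.c ∧ ¬ Same a1 b1 a b
  · obtain ⟨a2, b2, h2, t2, hs⟩ := h
    obtain ⟨g, -, -, hg⟩ := C.hB.x1 x a1 b1 a2 b2 _ h1 h2 hs t1 t2
    refine ⟨C.pan x g, fun a b hab ht => ?_⟩
    have key : ∃ g', (g' = a ∨ g' = b) ∧ C.c = C.P.col x g' := by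
      by_cases h3 : Same a1 b1 a b
      · obtain ⟨g', -, h4, h5⟩ := C.hB.x1 x a2 b2 a b _ h2 hab
          (fun h4 => hs (h3.trans h4.symm)) t2 ht
        exact ⟨g', h4, h5⟩
      · obtain ⟨g', -, h4, h5⟩ := C.hB.x1 x a1 b1 a b _ h1 hab h3 t1 ht
        exact ⟨g', h4, h5⟩
    obtain ⟨g', h4, h5⟩ := key
    obtain rfl : g = g' := C.hB.x2 x _ _ (hg.symm.trans h5)
    exact loc hab h4 hg.symm
  · obtain ⟨n, hn⟩ := t1
    obtain ⟨q, hq⟩ := mt_ex (ok_wf h1 x n) x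
    refine ⟨q, fun a b hab ht => ⟨_, (at_wf x n).congr h1 (Pos.Res.refl _ _ _) ?_,
      (pc_wf _ _ _ _).trans hn, hq⟩⟩
    by_contra h3
    exact h ⟨a, b, hab, ht, h3⟩

theorem che_r {x : C.P.X} {a : ι} (h : C.P.ChE C.M C.c x a) : C.P.ChE C.M C.c (C.P.r a x) a := by
  obtain ⟨h1, b, hab, ht⟩ := h
  exact ⟨by rwa [C.hB.col_r], b, hab,
    (C.hB.thru_res hab (C.hB.res_r hab (Or.inl rfl) x)).1 ht⟩

variable [LinearOrder ι]

theorem fwd (hC : Cls C) {L0 : C.P.X × ι × ι → C.tr.D} {s : C.St} {a : ι}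
    (h : C.P.ChE C.M C.c s.x a) (hs : C.GoodS L0 s) : C.GoodS L0 (C.step a s) := by
  obtain ⟨h1, b, hab, ht⟩ := h
  refine ⟨(step_L_ne h1).trans hs.1, fun y a' b' hab' ht' => ⟨fun φ hφ => ?_, fun hy => ?_⟩⟩
  · refine ((hs.2 y a' b' hab' ht').1 φ hφ).step (hφ.ok hab') fun b0 b'' hb0 hb hne e1 => ?_
    exact (hC.famc y a' b' φ _ b0 b'' hab' ht' hφ hb0 hb hne).not_thru hab
      (e1 ▸ Pos.thru_col s.x a b) ht
  · obtain rfl : y = C.P.r a s.x := hy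
    have hr := C.hB.res_r hab (Or.inl rfl) s.x
    obtain ⟨ψ, a1, a2, a3⟩ := (hs.2 s.x a b hab ht).2 rfl
    have hl : C.LM (C.step a s) (C.P.r a s.x) a b :=
      ⟨ψ, a1.congr hab hr (Same.refl _ _), a2,
        a3.cell (a1.ok hab) ((a1.thru hab).2 (Pos.thru_col _ _ _))⟩
    by_cases h2 : Same a b a' b'
    · exact hl.congr hab (Pos.Res.refl _ _ _) h2
    obtain ⟨g, h3, h4, h5⟩ := C.hB.x1 _ a b a' b' _ hab hab' h2
      ((C.hB.thru_res hab hr).1 ht) ht'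
    obtain rfl : g = b := h3.resolve_left fun e1 => h1 (by rw [h5, e1, C.hB.col_r])
    have h6 : (C.step a s).tl = C.pan (C.P.r a s.x) g :=
      ((lm_iff hab (at_pan' hab _) ((pc_pan _ _).trans h5.symm)).1 hl).hit (C.hB.big.adj_symm hab)
    obtain ⟨ψ', b1, b2, b3⟩ := loc hab' h4 h5.symm
    exact ⟨ψ', b1, b2, h6 ▸ b3⟩

end MGood

theorem m_good (hCls : S_Cls) : S_Good := by
  intro ι Q _ _ C L0
  refine ⟨fun ⟨a0⟩ x => ?_, fun s a h => ⟨fun hs => ?_, MGood.fwd (hCls ι Q C) h⟩⟩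
  · choose pos hpos using MGood.ex_pos (C := C) a0 x
    obtain ⟨tl, htl⟩ := MGood.ex_tl (C := C) a0 x
    refine ⟨⟨x, tl, L0, pos, fun _ => 1⟩, rfl, rfl, fun y a b hab ht =>
      ⟨fun φ hφ => hpos _ φ (hφ.ok hab) rfl, ?_⟩⟩
    rintro rfl
    exact htl a b hab ht
  · have h' := MGood.che_r h
    have h1 := MGood.fwd (hCls ι Q C) (s := C.step a s) h' hs
    refine ⟨(step_L_ne h.1).symm.trans hs.1, ?_⟩
    simpa only [LM, step_step_x, step_step_tl, step_step_pos] using h1.2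

end Pool.Agent.P.MP_e794d7_al.X
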