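import Pool.Agent.P.MP_e794d7_al.X.MSt

/-! The labels of a slot do not change at a vertex of one of its caps. -/

set_option autoImplicit false

namespace Pool.Agent.P.MP_e794d7_al.X

namespace MInv

open Ctx

variable {ι Q : Type} [Group Q] {C : Ctx ι Q}

theorem sameO_eq {p q : C.Pn} {b b' : ι} (h : C.P.SameO p.z p.a b q.z q.a b') : q = p :=
  (eq_pan_iff.2 ⟨h.1, h.2.2⟩).trans (pan_self p)

theorem col_step (a : ι) (s : C.St) : C.P.col (C.step a s).x a = C.P.col s.x a :=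
  C.hB.col_r _ _

variable [LinearOrder ι]

/-- the colour is not a gate that destroys a status at the vertex -/
def Saf (C : Ctx ι Q) (γ : C.P.Col) (y : C.P.X) (a b : ι) (Z : Set (Set C.Fl)) : Prop :=
  (∀ q t t', C.At (q, t) y a b → C.pc q = C.c → C.Ok (q, t') → t' ≠ t → γ ≠ C.gate (q, t')) ∧
    ∀ φ q b1 b2, C.Fam y a b φ → C.tok φ ∉ Z → (q, b1) ∈ C.tok φ → C.Ok (q, b2) → b2 ≠ b1 →
      γ ≠ C.gate (q, b2)

theorem on_step {s : C.St} {a a0 b0 : ι} {y : C.P.X} {Z : Set (Set C.Fl)} (hab : Adj C.M a0 b0)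
    (hS : Saf C (C.P.col s.x a) y a0 b0 Z) (h : C.On s y a0 b0 Z) :
    C.On (C.step a s) y a0 b0 Z := by
  obtain ⟨⟨ψ, h1, h2, h3⟩, h4⟩ := h
  refine ⟨⟨ψ, h1, h2, h3.step (h1.ok hab) fun t t' ht hk hne => ?_⟩, fun φ hφ hZ => ?_⟩
  · exact hS.1 _ t t' (h1.of_mem hab ht) ((pc_of_mem (h1.ok hab) ht).trans h2) hk hne
  · exact (h4 φ hφ hZ).step (hφ.ok hab) fun b1 b2 hm hk hne => hS.2 φ _ b1 b2 hφ hZ hm hk hne

theorem on_iff {s : C.St} {a a0 b0 : ι} {y : C.P.X} {Z : Set (Set C.Fl)} (hab : Adj C.M a0 b0)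
    (hS : Saf C (C.P.col s.x a) y a0 b0 Z) :
    C.On (C.step a s) y a0 b0 Z ↔ C.On s y a0 b0 Z :=
  ⟨fun h => (on_step hab (by rwa [col_step]) h).of_eq (step_step_x a s).symm
    (step_step_tl a s).symm (step_step_pos a s).symm, on_step hab hS⟩

/-- slots at a vertex of the wall -/
theorem safA {φ : C.Fl} {b' : ι} {γ : C.P.Col} (hk : C.Ok φ)
    (ht : C.P.Thru φ.1.z φ.1.a φ.2 C.c) (hp : C.pc φ.1 ≠ C.c) (hb : C.Ok (φ.1, b'))
    (hne : b' ≠ φ.2) (hx : ¬ C.Xt φ) (hγ : ∀ τ, C.P.NX C.M (C.gate (φ.1, b')) τ → γ ≠ τ) :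
    Saf C γ φ.1.z φ.1.a φ.2 {C.tok φ} := by
  have hd := gate_deep hb
  constructor
  · intro q t t' h1 h2 h3 h4
    have h5 : C.At φ q.z q.a t := (at_self φ).congr hk h1.1 h1.2
    have h6 : C.Ok (q, t) := h1.ok hk
    refine hγ _ (C.hG.a1 q.z q.a t _ _ _ _ t' _ (h5.o1 h6 h2 hp hb hne) (h5.in1 h2 hp hx) hd h3
      (gate_thru h3) fun e1 => gate_not_thru h3 h6 h4 ?_)
    rw [e1]
    exact h5.thru_pc h6
  · intro φ' q b1 b2 hF hZ hm h3 h4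
    obtain ⟨w1, w2, w3⟩ := bs_spec hk ht
    generalize C.bs φ.1.z φ.1.a φ.2 = w at w1 w2 w3
    obtain ⟨x0, t, g0⟩ := w
    have hs : Same φ.1.a φ.2 g0 t := w2.trans (Same.swap _ _)
    have hA : Adj C.M g0 t := C.hB.big.adj_same hk hs
    have h5 : C.At φ x0 g0 t := (at_self φ).congr hk w1 hs
    have o1 := h5.o1 hA w3 hp hb hne
    have i1 := h5.in1 w3 hp hx
    rcases hF.congr hk w1 hs with ⟨f1, f2⟩ | ⟨z, g, u, u', f1, rfl⟩
    · have f3 : C.At (q, b1) x0 g0 t := f1.of_mem hA hm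
      have f4 : C.pc q ≠ C.c := by rwa [← pc_of_mem (f1.ok hA) hm] at f2
      rcases C.hG.g11 x0 g0 t _ _ _ _ t _ _ _ _ o1 i1 hd (f3.o1 hA w3 f4 h3 h4) (gate_deep h3)
        with h7 | h7
      · exact hγ _ h7
      · refine (hZ ?_).elim
        rw [← tok_of_mem (f1.ok hA) hm, h5.eq f3 hA (sameO_eq h7)]
        exact Set.mem_singleton _
    · rcases C.hG.g21 x0 g0 t z u u' _ _ _ _ t _ _ _ _ (f1.ap hA w3)
        (o2_tf f1.2.2.2.2 z hm h3 h4) (gate_deep h3) o1 hd with h7 | ⟨h7, -⟩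
      · exact hγ _ h7.symm
      · refine (i1 z (h7.imp Eq.symm Eq.symm) g ?_ (f1.2.2.1.trans w3.symm)).elim
        rcases f1.2.1 with ⟨h8, -⟩ | ⟨-, h8⟩
        exacts [Or.inl h8.symm, Or.inr h8.symm]

/-- slots at an apex -/
theorem safP {z : C.P.X} {g u u' b' : ι} {p : C.Pn} {γ : C.P.Col} {Z : Set (Set C.Fl)}
    (hc : C.P.col z g = C.c) (hg : Adj C.M g u) (hu : Adj C.M u u') (hne : u' ≠ g)
    (hb : C.Ok (p, b')) (o2 : C.P.O2 C.M z u u' p.z p.a b')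
    (hpc : C.P.Thru z u g (C.pc p) ∨ C.P.NX C.M (C.pc p) C.c) (hZ1 : C.tok (C.pan z u, g) ∈ Z)
    (hZ2 : ∀ z' g' u1 u1' b1, C.ApAt z g u z' g' u1 u1' → (p, b1) ∈ C.tok (C.tf z' u1 u1') →
      C.tok (C.tf z' u1 u1') ∈ Z)
    (hγ : ∀ τ, C.P.NX C.M (C.gate (p, b')) τ → γ ≠ τ) : Saf C γ z u g Z := by
  have hd := gate_deep hb
  have hg' := C.hB.big.adj_symm hg
  have ap0 : C.ApAt z g u z g u u' := ⟨Pos.Res.refl _ _ _, Same.refl _ _, hc, hne, hu⟩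
  constructor
  · intro q t t' h1 h2 h3 h4
    have h6 : C.Ok (q, t) := h1.ok hg'
    have ap : C.ApAt q.z q.a t z g u u' :=
      ap0.congr hg (C.hB.res_swap hg' h1.1) ((Same.swap _ _).trans h1.2)
    refine hγ _ (C.hG.a2 q.z q.a t z u u' _ _ _ _ t' _ (ap.ap h6 h2) o2 hd h3 (gate_thru h3)
      fun e1 => ?_)
    rcases hpc with h7 | h7
    · refine gate_not_thru h3 h6 h4 ?_
      rw [e1]
      exact (h1.thru hg').2 h7
    · refine h7.not_thru h3 (x := q.z) ?_ ?_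
      · rw [pc, ← e1]
        exact gate_thru h3
      · rw [← h2]
        exact Pos.thru_col _ _ _
  · intro φ' q b1 b2 hF hZ hm h3 h4
    rcases hF.congr hg' (Pos.Res.refl _ _ _) (Same.swap _ _) with
      ⟨f1, f2⟩ | ⟨z', g', u1, u1', f1, rfl⟩
    · have f3 : C.At (q, b1) z g u := f1.of_mem hg hm
      have f4 : C.pc q ≠ C.c := by rwa [← pc_of_mem (f1.ok hg) hm] at f2
      rcases C.hG.g21 z g u z u u' _ _ _ _ u _ _ _ _ (ap0.ap hg hc) o2 hd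
        (f3.o1 hg hc f4 h3 h4) (gate_deep h3) with h7 | ⟨h7, h8⟩
      · exact hγ _ h7
      · refine (hZ ?_).elim
        have h9 : q.a = u := by
          rcases h8 with ⟨h8, -⟩ | ⟨h8, -⟩
          · exact h8
          · rcases f3.2 with ⟨h9, -⟩ | ⟨-, h9⟩
            · exact (hne (h8.symm.trans h9.symm)).elim
            · exact h9.symm
        have h10 : q = C.pan z u := by
          refine eq_pan_iff.2 ⟨h9, h7.imp id fun e1 => ?_⟩
          rw [← e1, ← h9, C.hB.rr]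
        have h11 : C.At (C.pan z u, g) z g u :=
          (at_pan hg' z).congr hg' (Pos.Res.refl _ _ _) (Same.swap _ _)
        rw [← tok_of_mem (f1.ok hg) hm, h11.eq f3 hg h10]
        exact hZ1
    · rcases C.hG.g22 z g u z u u' _ _ _ _ u z' u1 u1' _ _ _ _ (ap0.ap hg hc) o2 hd (f1.ap hg hc)
        (o2_tf f1.2.2.2.2 z' hm h3 h4) (gate_deep h3) with h7 | h7
      · exact hγ _ h7
      · have e1 : q = p := sameO_eq h7
        rw [e1] at hm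
        exact (hZ (hZ2 z' g' u1 u1' b1 f1 hm)).elim

omit [LinearOrder ι] in
/-- an apex at a vertex of the wall -/
theorem apAt_adj {y z : C.P.X} {a b g u u' : ι} (h : C.ApAt y a b z g u u') (hab : Adj C.M a b) :
    Adj C.M g u := C.hB.big.adj_same hab h.2.1

theorem safB {z : C.P.X} {g u u' b' : ι} {γ : C.P.Col}
    (hc : C.P.col z g = C.c) (hg : Adj C.M g u) (hu : Adj C.M u u') (hne : u' ≠ g)
    (hb : C.Ok ((C.op (C.pan z u, u')).1, b')) (hb' : b' ≠ (C.op (C.pan z u, u')).2)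
    (hγ : ∀ τ, C.P.NX C.M (C.gate ((C.op (C.pan z u, u')).1, b')) τ → γ ≠ τ) :
    Saf C γ z u g {C.tok (C.pan z u, g)} := by
  have e1 : C.pc (C.op (C.pan z u, u')).1 = C.P.col z u := by
    rw [pc_op (ok_pan.2 hu), pc_pan]
  refine safP hc hg hu hne hb (o2_op hu z hb hb') (Or.inl ?_) (Set.mem_singleton _) ?_ hγ
  · rw [e1]
    exact Pos.thru_col _ _ _
  · intro z' g' u1 u1' b1 f1 hm
    have h1 := deep1_nx_c f1.2.2.1 (apAt_adj f1 hg) f1.2.2.2.2 f1.2.2.2.1 (deep1_tf f1.2.2.2.2 z')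
    rw [← pc_of_mem (ok_tf f1.2.2.2.2 z') hm, e1, ← hc] at h1
    exact (h1.not_thru hg (C.hB.thru_col' hg z) (Pos.thru_col _ _ _)).elim

theorem safT {z : C.P.X} {g u u' b' : ι} {γ : C.P.Col} {ψ : C.Fl}
    (hc : C.P.col z g = C.c) (hg : Adj C.M g u) (hu : Adj C.M u u') (hne : u' ≠ g)
    (hψ : ψ ∈ C.tok (C.tf z u u')) (hb : C.Ok (ψ.1, b')) (hb' : b' ≠ ψ.2)
    (hγ : ∀ τ, C.P.NX C.M (C.gate (ψ.1, b')) τ → γ ≠ τ) :
    Saf C γ z u g {C.tok (C.pan z u, g), C.tok (C.tf z u u')} := by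
  have ap0 : C.ApAt z g u z g u u' := ⟨Pos.Res.refl _ _ _, Same.refl _ _, hc, hne, hu⟩
  refine safP hc hg hu hne hb (o2_tf hu z hψ hb hb') (Or.inr ?_) (Set.mem_insert _ _) ?_ hγ
  · rw [pc_of_mem (ok_tf hu z) hψ]
    exact deep1_nx_c hc hg hu hne (deep1_tf hu z)
  · intro z' g' u1 u1' b1 f1 hm
    have hu1 := f1.2.2.2.2
    by_cases h1 : b1 = ψ.2
    · rw [h1] at hm
      rw [← tok_of_mem (ok_tf hu1 z') hm, tok_of_mem (ok_tf hu z) hψ]
      exact Set.mem_insert_of_mem _ (Set.mem_singleton _)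
    · have h2 : C.Ok (ψ.1, b1) := ok_of_mem (ok_tf hu1 z') hm
      obtain ⟨τ, h3, h4⟩ := ex_deep1 hu1 z' (C.pc ψ.1)
      have h5 := C.hG.b2 z g u z u u' _ _ _ _ u z' u1 u1' τ (ap0.ap hg hc) (o2_tf hu z hψ h2 h1)
        (gate_deep h2) (f1.ap hg hc) h3 h4
      exact (h5.not_thru hu1 (((at_tf hu1 z').of_mem hu1 hm).thru_gate hu1) h3.thru).elim

/-- the token of the panel at the apex -/
theorem safE {z : C.P.X} {g u u' b' : ι} {γ : C.P.Col} {ψ : C.Fl}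
    (hc : C.P.col z g = C.c) (hg : Adj C.M g u) (hu : Adj C.M u u') (hne : u' ≠ g)
    (hψ : ψ ∈ C.tok (C.tf z u u')) (hb : C.Ok (ψ.1, b')) (hb' : b' ≠ ψ.2)
    (hγ : ∀ τ, C.P.NX C.M (C.gate (ψ.1, b')) τ → γ ≠ τ) (q : C.Pn) (b1 b2 : ι)
    (hm : (q, b1) ∈ C.tok (C.pan z u, u')) (h3 : C.Ok (q, b2)) (h4 : b2 ≠ b1) :
    γ ≠ C.gate (q, b2) := by
  have hg' := C.hB.big.adj_symm hg
  have ap0 : C.ApAt z g u z g u u' := ⟨Pos.Res.refl _ _ _, Same.refl _ _, hc, hne, hu⟩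
  have o2 := o2_tf hu z hψ hb hb'
  have hd := gate_deep hb
  have d1 : C.P.Deep1 C.M z u u' (C.pc ψ.1) := by
    rw [pc_of_mem (ok_tf hu z) hψ]
    exact deep1_tf hu z
  have h11 : C.At (C.pan z u, g) z g u :=
    (at_pan hg' z).congr hg' (Pos.Res.refl _ _ _) (Same.swap _ _)
  rcases mem_tok.1 hm with e1 | e1
  · obtain ⟨rfl, rfl⟩ := Prod.mk.inj e1
    by_cases h5 : b2 = g
    · subst h5
      refine hγ _ (C.hG.a2 z b2 u z u b1 _ _ _ _ u _ (ap0.ap hg hc) o2 hd hg (h11.thru_gate hg)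
        fun e2 => (deep1_nx_c hc hg hu hne d1).not_thru hg (x := z) ?_ ?_)
      · rw [pc, ← e2]
        exact h11.thru_gate hg
      · rw [← hc]
        exact Pos.thru_col _ _ _
    · have h6 : C.pc (C.pan z u) ≠ C.c := by
        rw [pc_pan, ← hc]
        exact fun e2 => hg.1 (C.hB.x2 z _ _ e2).symm
      rcases C.hG.g21 z g u z u b1 _ _ _ _ u _ _ _ _ (ap0.ap hg hc) o2 hd
        (h11.o1 hg hc h6 h3 h5) (gate_deep h3) with h7 | ⟨-, ⟨-, h7⟩ | ⟨h7, -⟩⟩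
      · exact hγ _ h7
      · exact (h4 h7).elim
      · exact (hu.1 ((pan_a z u).symm.trans h7)).elim
  · have e2 : q = (C.op (C.pan z u, u')).1 := congrArg Prod.fst e1
    have e3 : b1 = (C.op (C.pan z u, u')).2 := congrArg Prod.snd e1
    subst e2 e3
    rcases C.hG.g22 z g u z u u' _ _ _ _ u z u u' _ _ _ _ (ap0.ap hg hc) o2 hd (ap0.ap hg hc)
      (o2_op hu z h3 h4) (gate_deep h3) with h7 | h7
    · exact hγ _ h7
    · refine (C.hB.deep1_ne hu d1 (Or.inl rfl) ?_).elim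
      rw [← sameO_eq h7, pc_op (ok_pan.2 hu), pc_pan]

theorem ef_step {s : C.St} {z : C.P.X} {a g u u' b' : ι} {ψ : C.Fl}
    (hc : C.P.col z g = C.c) (hu : Adj C.M u u') (hne : u' ≠ g)
    (hψ : ψ ∈ C.tok (C.tf z u u')) (hb : C.Ok (ψ.1, b')) (hb' : b' ≠ ψ.2)
    (hγ : ∀ τ, C.P.NX C.M (C.gate (ψ.1, b')) τ → C.P.col s.x a ≠ τ) (h : C.EfOn s z g u u') :
    C.EfOn (C.step a s) z g u u' :=
  ⟨h.1, on_step (C.hB.big.adj_symm h.1) (safT hc h.1 hu hne hψ hb hb' hγ) h.2.1,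
    h.2.2.step (ok_pan.2 hu) fun b1 b2 => safE hc h.1 hu hne hψ hb hb' hγ _ b1 b2⟩

theorem eff_step {s : C.St} {z : C.P.X} {a g u u' b' : ι} {ψ : C.Fl}
    (hc : C.P.col z g = C.c) (hu : Adj C.M u u') (hne : u' ≠ g)
    (hψ : ψ ∈ C.tok (C.tf z u u')) (hb : C.Ok (ψ.1, b')) (hb' : b' ≠ ψ.2)
    (hγ : ∀ τ, C.P.NX C.M (C.gate (ψ.1, b')) τ → C.P.col s.x a ≠ τ) (hn : C.P.col s.x a ≠ C.c) :
    C.eff (C.step a s) z g u u' = C.eff s z g u u' := by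
  by_cases h : C.EfOn s z g u u'
  · rw [eff, eff, if_pos h, if_pos (ef_step hc hu hne hψ hb hb' hγ h), rp_congr (step_L_ne hn)]
  · rw [eff, eff, if_neg h, if_neg fun h1 => h ((ef_step hc hu hne hψ hb hb'
      (by rwa [col_step]) h1).of_eq (step_step_x a s).symm (step_step_tl a s).symm
      (step_step_pos a s).symm)]

theorem la_step {s : C.St} {a : ι} {φ : C.Fl}
    (h : C.On (C.step a s) φ.1.z φ.1.a φ.2 {C.tok φ} ↔ C.On s φ.1.z φ.1.a φ.2 {C.tok φ})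
    (hn : C.P.col s.x a ≠ C.c) : C.LA (C.step a s) φ = C.LA s φ := by
  by_cases h1 : C.On s φ.1.z φ.1.a φ.2 {C.tok φ}
  · rw [LA, LA, if_pos h1, if_pos (h.2 h1), rp_congr (step_L_ne hn)]
  · rw [LA, LA, if_neg h1, if_neg (mt h.1 h1)]

theorem lc_step {s : C.St} {z : C.P.X} {a g t1 t2 b' : ι} {ψ : C.Fl} (hV : C.TOk z g t1 t2)
    (hψ : ψ ∈ C.tok (C.tf z t1 t2)) (hb : C.Ok (ψ.1, b')) (hb' : b' ≠ ψ.2)
    (hγ : ∀ τ, C.P.NX C.M (C.gate (ψ.1, b')) τ → C.P.col s.x a ≠ τ) (hn : C.P.col s.x a ≠ C.c) :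
    C.LC (C.step a s) z g t1 t2 = C.LC s z g t1 t2 := by
  obtain ⟨hc, -, hu, h1, h2, -⟩ := hV
  have e1 := eff_step hc hu h2.symm hψ hb hb' hγ hn
  have e2 := eff_step hc (C.hB.big.adj_symm hu) h1.symm (by rwa [tf_comm]) hb hb' hγ hn
  simp only [LC, eo, ei, e1, e2]

end MInv

open Ctx MInv in
theorem m_inv (hCls : S_Cls) : S_Inv := by
  intro ι Q _ _ C s S b' a b hV hO hab ht
  have hγ : ∀ τ, C.P.NX C.M (C.cap S b') τ → C.P.col s.x a ≠ τ := fun τ h e1 =>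
    h.not_thru hab ht (e1 ▸ Pos.thru_col _ _ _)
  have hn : C.P.col s.x a ≠ C.c := hγ _ ((hCls ι Q C).capc S b' hV hO)
  rcases S with φ | ⟨z, g, u, u'⟩ | ⟨z, g, t1, t2, _ | _⟩
  · exact la_step (on_iff hV.1 (safA hV.1 hV.2.1 hV.2.2 hO.1 hO.2.1 hO.2.2 hγ)) hn
  · obtain ⟨hc, hg, hu, hne⟩ := hV
    have hg' := C.hB.big.adj_symm hg
    have e1 : ∀ s' : C.St, C.On s' (C.pan z u).z (C.pan z u).a g {C.tok (C.pan z u, g)} ↔
        C.On s' z u g {C.tok (C.pan z u, g)} := fun s' =>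
      on_congr hg' (res_pan hg' (Or.inl rfl) z) (by rw [pan_a]; exact Same.refl _ _)
    refine congrArg Prod.swap (la_step (φ := (C.pan z u, g)) ?_ hn)
    exact (e1 _).trans ((on_iff hg' (safB hc hg hu hne hO.1 hO.2.1 hγ)).trans (e1 _).symm)
  · exact lc_step hV (self_mem_tok _) hO.1 hO.2.1 hγ hn
  · exact congrArg Prod.swap (lc_step hV (mem_tok.2 (Or.inr rfl)) hO.1 hO.2.1 hγ hn)

end Pool.Agent.P.MP_e794d7_al.X
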