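import Pool.Agent.P.MP_e794d7_al.X.MSt

/-! The statuses at an apex do not change along the walk around the apex. -/

set_option autoImplicit false

namespace Pool.Agent.P.MP_e794d7_al.X

namespace MInvW

open Ctx

variable {ι Q : Type} [Group Q] {C : Ctx ι Q}

/-- the gates of the panel of the wall do not pass through the apex -/
theorem gate_wall {z : C.P.X} {g u u' b : ι} (h : Adj C.M u u') (h1 : g ≠ u) (h2 : g ≠ u')
    (hb : Adj C.M g b) : ¬ C.P.Thru z u u' (C.gate (C.pan z g, b)) :=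
  deep1_not_thru hb h (by
    rintro (⟨e1, -⟩ | ⟨e1, -⟩)
    exacts [h1 e1, h2 e1]) (gate_deep_pan hb z).deep1

theorem mv_wall {z x : C.P.X} {g u u' a : ι} (h : Adj C.M u u') (h1 : g ≠ u) (h2 : g ≠ u')
    (hr : C.P.Res z u u' x) (ha : a = u ∨ a = u') :
    C.mv (C.P.col x a) (C.pan z g) = C.pan z g :=
  mv_ne fun _ hb e1 => gate_wall h h1 h2 (ok_pan.1 hb) (e1 ▸ C.hB.thru_of_res h hr ha)

theorem e_wall {z x : C.P.X} {g u u' b : ι} (h : Adj C.M u u') (h1 : g ≠ u) (h2 : g ≠ u')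
    (hb : Adj C.M g b) (hr : C.P.Res z u u' x) :
    C.e x (C.gate (C.pan z g, b)) = C.e (C.pan z g).z (C.gate (C.pan z g, b)) := by
  rw [e_pan_gate hb]
  exact Pos.Bas.e_res C.he hr (gate_wall h h1 h2 hb)

theorem res_step {z : C.P.X} {u u' a : ι} (h : Adj C.M u u') {s : C.St}
    (hr : C.P.Res z u u' s.x) (ha : a = u ∨ a = u') : C.P.Res z u u' (C.step a s).x :=
  C.hB.res_trans h hr (C.hB.res_r h ha s.x)

variable [LinearOrder ι]

theorem tm_step {z : C.P.X} {u u' a : ι} (h : Adj C.M u u') {s : C.St}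
    (hr : C.P.Res z u u' s.x) (ha : a = u ∨ a = u') (hm : C.TM s z u u') :
    C.TM (C.step a s) z u u' :=
  Mt.cell (ok_tf h z) hm (((at_tf h z).thru h).2 (C.hB.thru_of_res h hr ha))

/-- the gates at the other vertices of a token do not pass through the apex -/
theorem gate_tok {z : C.P.X} {g u u' b0 b : ι} (hc : C.P.col z g = C.c) (hg : Adj C.M g u)
    (h : Adj C.M u u') (hne : u' ≠ g) {φ : C.Fl} (hφ : C.Fam z u g φ)
    (hZ : C.tok φ ≠ C.tok (C.pan z u, g)) {q : C.Pn} (hq : (q, b0) ∈ C.tok φ) (hb : C.Ok (q, b))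
    (hb0 : b ≠ b0) : ¬ C.P.Thru z u u' (C.gate (q, b)) := by
  have hg' := C.hB.big.adj_symm hg
  have hap : C.P.Ap C.M z g u z u u' :=
    ApAt.ap (g := g) ⟨Pos.Res.refl _ _ _, Same.refl _ _, hc, hne, h⟩ hg hc
  have hd : C.P.Deep C.M q.z q.a b (C.gate (q, b)) := gate_deep hb
  have hk := hφ.ok hg'
  obtain ⟨τ, hτ, hτ'⟩ := ex_deep1 h z (C.P.col q.z q.a)
  rcases hφ with ⟨h1, h2⟩ | ⟨z', g', u1, u1', h1, rfl⟩
  · have a1 : C.At (q, b0) z g u :=
      (h1.of_mem hg' hq).congr hg' (Pos.Res.refl _ _ _) (Same.swap _ _)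
    have a2 : C.pc q ≠ C.c := fun e1 => h2 ((pc_of_mem hk hq).symm.trans e1)
    by_cases hx : C.Xt (q, b0)
    · obtain ⟨y, hy, hyc⟩ := hx
      have hqa : q.a = g ∨ q.a = u := by
        rcases a1.2 with ⟨e1, -⟩ | ⟨-, e1⟩
        exacts [Or.inl e1.symm, Or.inr e1.symm]
      have r1 : C.P.Res z g u y := by
        rcases hy with rfl | rfl
        exacts [a1.1, C.hB.res_trans hg a1.1 (C.hB.res_r hg hqa _)]
      have hap' : C.P.Ap C.M z g u y q.a b :=
        ApAt.ap (g := b0) ⟨r1, a1.2.trans (Same.swap _ _), hyc, hb0, hb⟩ hg hc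
      have hd' : C.P.Deep C.M y q.a b (C.gate (q, b)) := by
        rcases hy with rfl | rfl
        exacts [hd, C.hB.deep_r hb hd]
      rcases C.hG.tt z g u z u u' τ u y q.a b _ hap hτ hap' hd'.deep1 with h3 | ⟨h3, -⟩
      · exact h3.not_thru h hτ.thru
      · subst h3
        have e0 : b0 = g := C.hB.x2 y _ _ (hyc.trans hc.symm)
        subst e0
        have e1 : q.a = u := by
          rcases hqa with e1 | e1
          · exact ((ok_of_mem hk hq).1 e1).elim
          · exact e1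
        have e2 : q = C.pan y u := by
          refine eq_pan_iff.2 ⟨e1, ?_⟩
          rcases hy with e2 | e2
          · exact Or.inl e2.symm
          · refine Or.inr ?_
            rw [e2, ← e1]
            exact (C.hB.rr _ _).symm
        exact (hZ (by rw [← e2]; exact (tok_of_mem hk hq).symm)).elim
    · exact (C.hG.b1 z g u q.z q.a b _ u z u u' τ (a1.o1 hg hc a2 hb hb0) (a1.in1 hc a2 hx) hd
        hap hτ).symm.not_thru h hτ.thru
  · have hap' : C.P.Ap C.M z g u z' u1 u1' :=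
      (h1.congr hg' (Pos.Res.refl _ _ _) (Same.swap _ _)).ap hg hc
    exact (C.hG.b2 z g u z' u1 u1' q.z q.a b _ u z u u' τ hap' (o2_tf h1.2.2.2.2 z' hq hb hb0) hd
      hap hτ hτ').symm.not_thru h hτ.thru

theorem efon_step {z : C.P.X} {g u u' a : ι} (hc : C.P.col z g = C.c) (h : Adj C.M u u')
    (hne : u' ≠ g) {s : C.St} (hr : C.P.Res z u u' s.x) (ha : a = u ∨ a = u')
    (hm : C.EfOn s z g u u') : C.EfOn (C.step a s) z g u u' := by
  obtain ⟨hg, ⟨h1, h2⟩, h3⟩ := hm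
  have hg' := C.hB.big.adj_symm hg
  have ht := C.hB.thru_of_res h hr ha
  have a1 : C.At (C.pan z g, u) z u g :=
    (at_pan hg z).congr hg (Pos.Res.refl _ _ _) (Same.swap _ _)
  have a2 : C.pc (C.pan z g, u).1 = C.c := (pc_pan z g).trans hc
  refine ⟨hg, ⟨?_, fun φ hφ hZ => ?_⟩, Mt.cell (ok_pan.2 h) h3 (((at_pan h z).thru h).2 ht)⟩
  · have e1 : s.tl = C.pan z g :=
      ((lm_iff hg' a1 a2).1 h1).eq (ok_pan.2 hg) (e_wall h hg.1 hne.symm hg hr)
    rw [lm_iff hg' a1 a2, step_tl, e1, mv_wall h hg.1 hne.symm hr ha]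
    exact mt_self (φ := (C.pan z g, u)) (e_wall h hg.1 hne.symm hg (res_step h hr ha))
  · refine Mt.step (hφ.ok hg') (h2 φ hφ hZ) fun b0 b hq hb hb0 e1 => ?_
    exact gate_tok hc hg h hne hφ (fun e2 => hZ (Or.inl e2)) hq hb hb0 (e1 ▸ ht)

theorem eff_step {z : C.P.X} {g u u' a : ι} (hc : C.P.col z g = C.c) (h : Adj C.M u u')
    (hne : u' ≠ g) {s : C.St} (hr : C.P.Res z u u' s.x) (ha : a = u ∨ a = u') :
    C.eff (C.step a s) z g u u' = C.eff s z g u u' := by
  have key : C.EfOn (C.step a s) z g u u' ↔ C.EfOn s z g u u' :=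
    ⟨fun hm => (efon_step hc h hne (res_step h hr ha) ha hm).of_eq (step_step_x a s).symm
      (step_step_tl a s).symm (step_step_pos a s).symm, efon_step hc h hne hr ha⟩
  by_cases hm : C.EfOn s z g u u'
  · rw [eff, eff, if_pos hm, if_pos (key.2 hm)]
    refine rp_congr (step_L_ne fun e1 => apex_not_thru hc hm.1 h hne ?_) _
    exact e1 ▸ C.hB.thru_of_res h hr ha
  · rw [eff, eff, if_neg hm, if_neg fun h1 => hm (key.1 h1)]

end MInvW

open MInvW in
theorem m_invw : S_InvW := by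
  intro ι Q _ _ C s z g t1 t2 a hT hr ha
  obtain ⟨hc, -, h, h1, h2, -⟩ := hT
  refine ⟨mv_wall h h1 h2 hr ha, ⟨fun hm => ?_, tm_step h hr ha⟩, eff_step hc h h2.symm hr ha,
    eff_step hc (C.hB.big.adj_symm h) h1.symm (C.hB.res_swap h hr) ha.symm⟩
  have := tm_step h (res_step h hr ha) ha hm
  rwa [Ctx.TM, Ctx.step_step_x, Ctx.step_step_pos] at this

end Pool.Agent.P.MP_e794d7_al.X
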