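import Pool.Agent.P.MP_e794d7_al.X.MSt

/-! The machine respects the braid relations: every component of a run is a run of one token. -/

set_option autoImplicit false

namespace Pool.Agent.P.MP_e794d7_al.X

namespace MRun

variable {ι Q : Type} [Group Q] {C : Ctx ι Q}

open scoped Classical in
theorem tl_L (s : C.St) (a b : ι) : ∀ n,
    ((grun C.step s a b n).tl, (grun C.step s a b n).L) =
      C.trun (fun γ _ L => if γ = C.c then C.TL L else L) s.x a b s.tl s.L n
  | 0 => rfl
  | n + 1 => by
    rw [Ctx.trun, ← tl_L s a b n, grun]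
    simp only [Ctx.step, Ctx.grun_x]
    rfl

theorem pos_mem (s : C.St) (a b : ι) (i : Set C.Fl) : ∀ n,
    ((grun C.step s a b n).pos i, (grun C.step s a b n).mem i) =
      C.trun (fun _ β μ => μ * dirn β) s.x a b (s.pos i) (s.mem i) n
  | 0 => rfl
  | n + 1 => by
    rw [Ctx.trun, ← pos_mem s a b i n, grun, Pos.cc, ← Ctx.grun_x]
    rfl

theorem St.ext' {s s' : C.St} (h1 : s.x = s'.x) (h2 : s.tl = s'.tl) (h3 : s.L = s'.L)
    (h4 : s.pos = s'.pos) (h5 : s.mem = s'.mem) : s = s' := by
  cases s; cases s'; cases h1; cases h2; cases h3; cases h4; cases h5; rfl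

end MRun

open MRun in
theorem m_run (hTrun : S_Trun) : S_Run := by
  intro ι Q _ C s a b hab
  have h1 := (tl_L s a b (C.M a b)).trans
    ((hTrun ι Q C _ _ s.x a b s.tl s.L hab).trans (tl_L s b a (C.M a b)).symm)
  have h2 := fun i => (pos_mem s a b i (C.M a b)).trans
    ((hTrun ι Q C _ _ s.x a b (s.pos i) (s.mem i) hab).trans (pos_mem s b a i (C.M a b)).symm)
  refine St.ext' ?_ (congrArg Prod.fst h1) (congrArg Prod.snd h1)
    (funext fun i => congrArg Prod.fst (h2 i)) (funext fun i => congrArg Prod.snd (h2 i))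
  rw [Ctx.grun_x, Ctx.grun_x]
  exact C.hB.braid s.x a b hab

end Pool.Agent.P.MP_e794d7_al.X
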