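import Pool.Agent.P.MP_e794d7_al.X.Tk2

/-! Interface statements for the machine. Each is proved in its own file of this folder. -/

set_option autoImplicit false

namespace Pool.Agent.P.MP_e794d7_al.X

/-- an automaton that respects the braid relations gives an action of the Artin group -/
def S_Act : Prop := ∀ (ι : Type) (M : ι → ι → ℕ) (S Q : Type) [Group Q] (st : ι → S → S)
  (κ : ι → S → Q), (∀ a, Function.Bijective (st a)) →
  (∀ s a b, Adj M a b → grun st s a b (M a b) = grun st s b a (M a b) ∧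
    glab st κ s a b (M a b) = glab st κ s b a (M a b)) →
  ∀ (s0 : S) (g0 : Art M), ∃ (σ : Art M → S) (F : Art M → Q), σ g0 = s0 ∧
    (∀ g a, σ (g * Art.gen M a) = st a (σ g) ∧ F (g * Art.gen M a) = F g * κ a (σ g)) ∧
    (Finite S → Finite Q → ∃ H : Subgroup (Art M), H.FiniteIndex ∧ ∀ h ∈ H, ∀ g, F (h * g) = F g)

def S_Bij : Prop := ∀ (ι Q : Type) [Group Q] (C : Ctx ι Q),
  (∀ a, Function.Bijective (C.step a)) ∧ (Finite ι → Finite C.P.X → Finite Q → Finite C.St)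

def S_Trun : Prop := ∀ (ι Q : Type) [Group Q] (C : Ctx ι Q) (Y : Type)
  (f : C.P.Col → Bool → Y → Y) (x : C.P.X) (a b : ι) (q : C.Pn) (μ : Y), Adj C.M a b →
  C.trun f x a b q μ (C.M a b) = C.trun f x b a q μ (C.M a b)

def S_Run : Prop := ∀ (ι Q : Type) [Group Q] (C : Ctx ι Q) (s : C.St) (a b : ι), Adj C.M a b →
  grun C.step s a b (C.M a b) = grun C.step s b a (C.M a b)

/-- slots in the terms of the geometry -/
structure Cls {ι Q : Type} [Group Q] [LinearOrder ι] (C : Ctx ι Q) : Prop where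
  ok : ∀ S, C.Val S → C.Ok (C.fl S) ∧ C.pc (C.fl S).1 ≠ C.c
  stat : ∀ S, C.Val S → ∃ x g0 t, Adj C.M g0 t ∧ C.P.col x g0 = C.c ∧ C.Ob x g0 t S
  act : ∀ s S, C.Val S → C.Lb s S ≠ 1 → ∃ t, Adj C.M s.tl.a t ∧ C.pc s.tl = C.c ∧
    C.Ob s.tl.z s.tl.a t S ∧ C.Mt s.x s.tl (s.tl, t)
  out : ∀ S x g0 t b, C.Val S → Adj C.M g0 t → C.P.col x g0 = C.c → C.Ob x g0 t S → C.Out S b →
    (C.P.O1 C.M x g0 t (C.fl S).1.z (C.fl S).1.a b ∧ C.P.In1 x g0 t (C.fl S).1.z (C.fl S).1.a) ∨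
      ∃ z g u u', C.ApAt x g0 t z g u u' ∧ C.P.O2 C.M z u u' (C.fl S).1.z (C.fl S).1.a b
  inn : ∀ S x g0 t b, C.Val S → Adj C.M g0 t → C.P.col x g0 = C.c → C.Ob x g0 t S →
    C.Ok ((C.fl S).1, b) → ¬ C.Out S b → C.P.Thru (C.fl S).1.z (C.fl S).1.a b C.c ∨
      ∃ z g u u', C.ApAt x g0 t z g u u' ∧ C.At ((C.fl S).1, b) z u u'
  capc : ∀ S b, C.Val S → C.Out S b → C.P.NX C.M (C.cap S b) C.c
  famc : ∀ y a b φ q b0 b', Adj C.M a b → C.P.Thru y a b C.c → C.Fam y a b φ →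
    (q, b0) ∈ C.tok φ → C.Ok (q, b') → b' ≠ b0 → C.P.NX C.M (C.gate (q, b')) C.c

def S_Cls : Prop := ∀ (ι Q : Type) [Group Q] [LinearOrder ι] (C : Ctx ι Q), Cls C

/-- two active slots do not disturb each other -/
structure Excl {ι Q : Type} [Group Q] [LinearOrder ι] (C : Ctx ι Q) : Prop where
  caps : ∀ s S S' b b', C.Val S → C.Val S' → C.Lb s S ≠ 1 → C.Lb s S' ≠ 1 → C.Out S b →
    C.Out S' b' → C.P.NX C.M (C.cap S b) (C.cap S' b') ∨ (S' = S ∧ b' = b)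
  inn : ∀ s S S' b b', C.Val S → C.Val S' → C.Lb s S ≠ 1 → C.Lb s S' ≠ 1 → C.Out S b →
    C.Ok ((C.fl S').1, b') → ¬ C.Out S' b' →
      ¬ C.P.Thru (C.fl S').1.z (C.fl S').1.a b' (C.cap S b)

def S_Excl : Prop := ∀ (ι Q : Type) [Group Q] [LinearOrder ι] (C : Ctx ι Q), Excl C

/-- the labels of a slot do not change at a vertex of one of its caps -/
def S_Inv : Prop := ∀ (ι Q : Type) [Group Q] [LinearOrder ι] (C : Ctx ι Q) (s : C.St)
  (S : C.Slot) (b' a b : ι), C.Val S → C.Out S b' → Adj C.M a b →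
  C.P.Thru s.x a b (C.cap S b') → C.Lb (C.step a s) S = C.Lb s S

def S_StepA : Prop := ∀ (ι Q : Type) [Group Q] [LinearOrder ι] (C : Ctx ι Q) (s : C.St)
  (S : C.Slot) (b' a b : ι), C.Val S → C.Out S b' → Adj C.M a b →
  C.P.Thru s.x a b (C.cap S b') → C.Lb s S ≠ 1 →
  C.kap a s = (C.hp S (C.Lb s S) s)⁻¹ * C.hp S (C.Lb s S) (C.step a s)

def S_StepU : Prop := ∀ (ι Q : Type) [Group Q] [LinearOrder ι] (C : Ctx ι Q) (s : C.St)
  (a b : ι), Adj C.M a b → C.P.Thru s.x a b C.c →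
  (C.On (C.step a s) s.x a b ∅ ↔ C.On s s.x a b ∅) ∧ (¬ C.On s s.x a b ∅ → C.kap a s = 1) ∧
  (C.On s s.x a b ∅ → C.P.col s.x a ≠ C.c →
    C.kap a s = C.raw (s.L (C.bs s.x a b)) (C.bs s.x a b) s.x a) ∧
  (C.On s s.x a b ∅ → C.P.col s.x a = C.c → C.kap a s = 1 ∧ (C.step a s).L = C.TL s.L)

def S_CellU : Prop := ∀ (ι Q : Type) [Group Q] [LinearOrder ι] (C : Ctx ι Q) (s : C.St)
  (a b : ι), Adj C.M a b → C.P.Thru s.x a b C.c →
  glab C.step C.kap s a b (C.M a b) = glab C.step C.kap s b a (C.M a b)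

def S_InvW : Prop := ∀ (ι Q : Type) [Group Q] [LinearOrder ι] (C : Ctx ι Q) (s : C.St)
  (z : C.P.X) (g t1 t2 a : ι), C.TOk z g t1 t2 → C.P.Res z t1 t2 s.x → (a = t1 ∨ a = t2) →
  C.mv (C.P.col s.x a) (C.pan z g) = C.pan z g ∧
  (C.TM (C.step a s) z t1 t2 ↔ C.TM s z t1 t2) ∧
  C.eff (C.step a s) z g t1 t2 = C.eff s z g t1 t2 ∧
  C.eff (C.step a s) z g t2 t1 = C.eff s z g t2 t1

open scoped Classical in
def S_StepW : Prop := ∀ (ι Q : Type) [Group Q] [LinearOrder ι] (C : Ctx ι Q) (s : C.St)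
  (z : C.P.X) (g t1 t2 : ι) (n : ℕ), C.TOk z g t1 t2 → s.tl = C.pan z g → C.NA s t1 t2 →
  n < 2 * C.M t1 t2 →
  (s.x = C.P.go z t1 t2 n →
    C.kap (el t1 t2 n) s = if C.TM s z t1 t2 then C.FW s z g t1 t2 n else 1) ∧
  (s.x = C.P.go z t1 t2 (n + 1) →
    C.kap (el t1 t2 n) s = if C.TM s z t1 t2 then C.RW s z g t1 t2 n else 1)

def S_CellW : Prop := ∀ (ι Q : Type) [Group Q] [LinearOrder ι] (C : Ctx ι Q) (s : C.St)
  (a b : ι), Adj C.M a b → C.NA s a b → C.ApW s a b →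
  glab C.step C.kap s a b (C.M a b) = glab C.step C.kap s b a (C.M a b)

def S_StepN : Prop := ∀ (ι Q : Type) [Group Q] [LinearOrder ι] (C : Ctx ι Q) (s : C.St)
  (a b : ι), Adj C.M a b → ¬ C.P.Thru s.x a b C.c → C.NA s a b → ¬ C.ApW s a b → C.kap a s = 1

def S_Cell : Prop := ∀ (ι Q : Type) [Group Q] [LinearOrder ι] (C : Ctx ι Q) (s : C.St)
  (a b : ι), Adj C.M a b →
  glab C.step C.kap s a b (C.M a b) = glab C.step C.kap s b a (C.M a b)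

/-- every labelling of one side of the wall is given by some data -/
def S_Surj : Prop := ∀ (ι Q : Type) [Group Q] (C : Ctx ι Q) (lam : C.P.X → ι → Q) (β : Bool),
  ∃ L0 : C.P.X × ι × ι → C.tr.D, ∀ x a b, Adj C.M a b → C.P.Thru x a b C.c →
    C.P.col x a ≠ C.c → C.e x C.c = β → C.raw (L0 (C.bs x a b)) (C.bs x a b) x a = lam x a

def S_Good : Prop := ∀ (ι Q : Type) [Group Q] [LinearOrder ι] (C : Ctx ι Q)
  (L0 : C.P.X × ι × ι → C.tr.D), (Nonempty ι → ∀ x, ∃ s : C.St, s.x = x ∧ C.GoodS L0 s) ∧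
  ∀ s a, C.P.ChE C.M C.c s.x a → (C.GoodS L0 (C.step a s) ↔ C.GoodS L0 s)

end Pool.Agent.P.MP_e794d7_al.X
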