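import Pool.Agent.P.MP_e794d7_al.X.MSt

/-! The label of one step at a vertex of a cap of an active slot. -/

set_option autoImplicit false

namespace Pool.Agent.P.MP_e794d7_al.X

namespace MStepA

open Ctx

variable {ι Q : Type} [Group Q] [LinearOrder ι] {C : Ctx ι Q}

/-- every event comes from the given slot and uses the given letter -/
theorem ev_cases (hE : Excl C) {s : C.St} {S : C.Slot} {b' a b : ι} (hV : C.Val S)
    (hO : C.Out S b') (hab : Adj C.M a b) (ht : C.P.Thru s.x a b (C.cap S b'))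
    (hL : C.Lb s S ≠ 1) {q : Q} (h : C.Ev s a q) :
    (s.pos (C.tk S) = (C.fl S).1 ∧ (C.fl S).1 = C.pan s.x a ∧
        q = dirn (C.e s.x (C.P.col s.x a)) (C.Lb s S)) ∨
      (C.P.col s.x a = C.cap S b' ∧
        ((s.pos (C.tk S) = (C.fl S).1 ∧ q = (s.mem (C.tk S) (C.Lb s S))⁻¹) ∨
          (s.pos (C.tk S) = (C.op ((C.fl S).1, b')).1 ∧ q = s.mem (C.tk S) (C.Lb s S)))) := by
  obtain ⟨S', hV', hL', h | ⟨b'', hO', hγ, h⟩⟩ := h
  · have hk : C.Ok ((C.fl S').1, b) := by rw [h.2.1]; exact ok_pan.2 hab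
    by_cases hO' : C.Out S' b
    · rcases hE.caps s S S' b' b hV hV' hL hL' hO hO' with h1 | ⟨h1, -⟩
      · refine (h1.not_thru hab ht ?_).elim
        rw [cap, h.2.1]
        exact (at_pan hab s.x).thru_gate hab
      · subst h1
        exact Or.inl h
    · refine (hE.inn s S S' b' b hV hV' hL hL' hO hk hO' ?_).elim
      rw [h.2.1, pan_a]
      exact (thru_pan hab s.x).2 ht
  · rcases hE.caps s S S' b' b'' hV hV' hL hL' hO hO' with h1 | ⟨h1, h2⟩
    · refine (h1.not_thru hab ht ?_).elim
      rw [← hγ]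
      exact Pos.thru_col _ _ _
    · subst h1
      subst h2
      exact Or.inr ⟨hγ, h⟩

omit [LinearOrder ι] in
/-- the only gate of the panel through the vertex is the given one -/
theorem gate_uniq {p : C.Pn} {x : C.P.X} {b' b'' a b : ι} (hk : C.Ok (p, b'))
    (hab : Adj C.M a b) (ht : C.P.Thru x a b (C.gate (p, b'))) (hk' : C.Ok (p, b''))
    (hγ : C.P.col x a = C.gate (p, b'')) : b'' = b' := by
  by_contra hne
  refine (gate_gate_nx hk hk' fun e1 => hne e1.symm).not_thru hab ht ?_
  rw [← hγ]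
  exact Pos.thru_col _ _ _

end MStepA

open Ctx in
theorem m_stepa (hCls : S_Cls) (hExcl : S_Excl) : S_StepA := by
  intro ι Q _ _ C s S b' a b hV hO hab ht hL
  have _ := hCls
  have hE := hExcl ι Q C
  have ev := fun q => MStepA.ev_cases (q := q) hE hV hO hab ht hL
  have hk : C.Ok ((C.fl S).1, b') := hO.1
  have hσ : C.cap S b' ≠ C.pc (C.fl S).1 := gate_ne_pc hk
  have hop : (C.op ((C.fl S).1, b')).1 ≠ (C.fl S).1 := op_ne hk
  have hmv : C.mv (C.cap S b') (C.fl S).1 = (C.op ((C.fl S).1, b')).1 := mv_gate hk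
  by_cases hpos : s.pos (C.tk S) = (C.fl S).1
  · by_cases hit : (C.fl S).1 = C.pan s.x a
    · have hγ : C.P.col s.x a = C.pc (C.fl S).1 := by rw [hit, pc_pan]
      have h1 : C.mv (C.P.col s.x a) (C.fl S).1 = (C.fl S).1 :=
        mv_ne fun b'' hb e1 => gate_ne_pc hb (e1.symm.trans hγ)
      have h2 : C.kap a s = dirn (C.e s.x (C.P.col s.x a)) (C.Lb s S) := by
        refine kap_eq (fun q hq => ?_) fun _ => ⟨S, hV, hL, Or.inl ⟨hpos, hit, rfl⟩⟩
        rcases ev q hq with h | h
        · exact h.2.2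
        · exact (hσ (h.1.symm.trans hγ)).elim
      have h3 : (C.step a s).pos (C.tk S) = (C.fl S).1 := by rw [step_pos, hpos, h1]
      have h4 : (C.step a s).mem (C.tk S) =
          s.mem (C.tk S) * dirn (C.e s.x (C.P.col s.x a)) := if_pos (hpos.trans hit)
      rw [h2, hp, hp, if_pos hpos, if_pos h3, h4, Pi.mul_apply, inv_mul_cancel_left]
    · have h4 : (C.step a s).mem (C.tk S) = s.mem (C.tk S) :=
        if_neg fun e1 => hit (hpos.symm.trans e1)
      by_cases hγ : C.P.col s.x a = C.cap S b'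
      · have h2 : C.kap a s = (s.mem (C.tk S) (C.Lb s S))⁻¹ := by
          refine kap_eq (fun q hq => ?_) fun _ =>
            ⟨S, hV, hL, Or.inr ⟨b', hO, hγ, Or.inl ⟨hpos, rfl⟩⟩⟩
          rcases ev q hq with h | ⟨-, h | h⟩
          · exact (hit h.2.1).elim
          · exact h.2
          · exact (hop (h.1.symm.trans hpos)).elim
        have h3 : (C.step a s).pos (C.tk S) ≠ (C.fl S).1 := by
          rw [step_pos, hpos, hγ, hmv]; exact hop
        rw [h2, hp, hp, if_pos hpos, if_neg h3, mul_one]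
      · have h1 : C.mv (C.P.col s.x a) (C.fl S).1 = (C.fl S).1 :=
          mv_ne fun b'' hb e1 => hγ (by
            rw [MStepA.gate_uniq hk hab ht hb e1] at e1; exact e1)
        have h2 : C.kap a s = 1 := by
          refine kap_eq (fun q hq => ?_) fun h => (h rfl).elim
          rcases ev q hq with h | h
          · exact (hit h.2.1).elim
          · exact (hγ h.1).elim
        have h3 : (C.step a s).pos (C.tk S) = (C.fl S).1 := by rw [step_pos, hpos, h1]
        rw [h2, hp, hp, if_pos hpos, if_pos h3, h4, inv_mul_cancel]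
  · by_cases h3 : (C.step a s).pos (C.tk S) = (C.fl S).1
    · have h5 : s.pos (C.tk S) = C.mv (C.P.col s.x a) (C.fl S).1 := mv_eq_iff.1 h3
      rcases mv_cases (C.P.col s.x a) (C.fl S).1 with ⟨-, h6⟩ | ⟨b'', hb, hγ, h6⟩
      · exact (hpos (h5.trans h6)).elim
      · obtain rfl : b'' = b' := MStepA.gate_uniq hk hab ht hb hγ
        have h7 : s.pos (C.tk S) = (C.op ((C.fl S).1, b'')).1 := h5.trans h6
        have h4 : (C.step a s).mem (C.tk S) = s.mem (C.tk S) := by
          refine if_neg fun e1 => hσ ?_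
          have h8 := pc_op hk
          rw [← h7, e1, pc_pan] at h8
          exact hγ.symm.trans h8
        have h2 : C.kap a s = s.mem (C.tk S) (C.Lb s S) := by
          refine kap_eq (fun q hq => ?_) fun _ =>
            ⟨S, hV, hL, Or.inr ⟨b'', hO, hγ, Or.inr ⟨h7, rfl⟩⟩⟩
          rcases ev q hq with h | ⟨-, h | h⟩
          · exact (hpos h.1).elim
          · exact (hpos h.1).elim
          · exact h.2
        rw [h2, hp, hp, if_neg hpos, if_pos h3, h4, inv_one, one_mul]
    · have h2 : C.kap a s = 1 := by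
        refine kap_eq (fun q hq => ?_) fun h => (h rfl).elim
        rcases ev q hq with h | ⟨hγ, h | h⟩
        · exact (hpos h.1).elim
        · exact (hpos h.1).elim
        · refine (h3 ?_).elim
          rw [step_pos, mv_eq_iff, hγ, hmv]
          exact h.1
      rw [h2, hp, hp, if_neg hpos, if_neg h3, inv_one, one_mul]

end Pool.Agent.P.MP_e794d7_al.X
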