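import Pool.Agent.P.MP_e794d7_al.X.MSt

/-! No event happens at a vertex that carries no wall, no cap and no apex. -/

set_option autoImplicit false

namespace Pool.Agent.P.MP_e794d7_al.X

namespace MStepN

open Ctx

variable {ι Q : Type} [Group Q] {C : Ctx ι Q}

/-- the token of the wall sits at the panel of the apex chamber -/
theorem tl_eq {s : C.St} {t g u u' : ι} {z : C.P.X} (ht : Adj C.M s.tl.a t)
    (hc : C.pc s.tl = C.c) (hm : C.Mt s.x s.tl (s.tl, t)) (hA : C.ApAt s.tl.z s.tl.a t z g u u')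
    (hr : C.P.Res z u u' s.x) : s.tl = C.pan z g := by
  obtain ⟨h1, h2, h3, h4, h5⟩ := hA
  have hgu : Adj C.M g u := C.hB.big.adj_same ht h2
  have h6 : (s.tl, t) ∈ C.tok (C.pan z g, u) :=
    (at_pan hgu z).mem_tok ((at_self (s.tl, t)).congr ht h1 h2) hgu
      (by rw [pc_pan, h3]; exact hc)
  have hk : C.Ok (C.pan z g, u) := ok_pan.2 hgu
  refine ((mt_of_mem hk h6).1 hm).eq hk ?_
  rw [e_pan_gate hgu]
  refine Pos.Bas.e_res C.he hr (deep1_not_thru hgu h5 ?_ (gate_deep_pan hgu z).deep1)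
  rintro (⟨e1, -⟩ | ⟨e1, -⟩)
  exacts [hgu.1 e1, h4 e1.symm]

theorem tok_min_max [LinearOrder ι] {z : C.P.X} {g u u' : ι} (hc : C.P.col z g = C.c)
    (hgu : Adj C.M g u) (h : Adj C.M u u') (hne : u' ≠ g) : C.TOk z g (min u u') (max u u') := by
  rcases lt_or_gt_of_ne h.1 with h1 | h1
  · rw [min_eq_left h1.le, max_eq_right h1.le]
    exact ⟨hc, h1, h, hgu.1, hne.symm, Or.inl hgu⟩
  · rw [min_eq_right h1.le, max_eq_left h1.le]
    exact ⟨hc, h1, C.hB.big.adj_symm h, hne.symm, hgu.1, Or.inr hgu⟩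

end MStepN

open Ctx MStepN in
theorem m_stepn (hCls : S_Cls) : S_StepN := by
  intro ι Q _ _ C s a b hab hc hN hW
  refine kap_eq ?_ fun h => (h rfl).elim
  rintro q ⟨S, hS, hL, ⟨-, hp, -⟩ | ⟨b', hb', hγ, -⟩⟩
  · exfalso
    have hK := hCls ι Q C
    have hk : C.Ok ((C.fl S).1, b) := by rw [hp]; exact ok_pan.2 hab
    have hO : ¬ C.Out S b := fun h => hL (hN S b hS h (by
      rw [cap, hp]; exact (at_pan hab s.x).thru_gate hab))
    obtain ⟨t, ht, h1, h2, h3⟩ := hK.act s S hS hL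
    rcases hK.inn S _ _ t b hS ht h1 h2 hk hO with h4 | ⟨z, g, u, u', h4, h5⟩
    · rw [hp, pan_a] at h4
      exact hc ((thru_pan hab s.x).1 h4)
    · rw [hp] at h5
      obtain ⟨h6, h7⟩ := h5
      simp only [pan_a] at h6 h7
      have huu : Adj C.M u u' := h4.2.2.2.2
      have hr : C.P.Res z u u' s.x := C.hB.res_trans huu h6 (C.hB.res_same hab h7.symm
        (C.hB.res_symm hab (res_pan hab (Or.inl rfl) s.x)))
      exact hW ⟨z, g, min u u', max u u',
        tok_min_max h4.2.2.1 (C.hB.big.adj_same ht h4.2.1) huu h4.2.2.2.1,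
        C.hB.res_same huu (same_min_max u u') hr, (same_min_max u u').symm.trans h7,
        tl_eq ht h1 h3 h4 hr⟩
  · exact (hL (hN S b' hS hb' (hγ ▸ Pos.thru_col s.x a b))).elim

end Pool.Agent.P.MP_e794d7_al.X
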