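import Pool.Agent.P.MP_e794d7_al.X.MSt

/-! One step of the machine at a vertex of the wall. -/

set_option autoImplicit false

namespace Pool.Agent.P.MP_e794d7_al.X

namespace MStepU

open Ctx

variable {ι Q : Type} [Group Q] [LinearOrder ι] {C : Ctx ι Q}

/-- the full status of a vertex of the wall is kept by a colour through the vertex -/
theorem on_step (hc : Cls C) {s : C.St} {y : C.P.X} {a b g : ι} (hab : Adj C.M a b)
    (ht : C.P.Thru y a b C.c) (hg : C.P.Thru y a b (C.P.col s.x g)) (h : C.On s y a b ∅) :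
    C.On (C.step g s) y a b ∅ := by
  obtain ⟨⟨ψ, h1, h2, h3⟩, h4⟩ := h
  refine ⟨⟨ψ, h1, h2, h3.cell (h1.ok hab) ((h1.thru hab).2 hg)⟩, fun φ hφ hZ => ?_⟩
  refine (h4 φ hφ hZ).step (hφ.ok hab) fun b0 b' hb0 hb' hne e1 => ?_
  exact (hc.famc y a b φ _ b0 b' hab ht hφ hb0 hb' hne).not_thru hab (e1 ▸ hg) ht

/-- a slot whose panel lies at a vertex of the wall is the slot of this flag -/
theorem slot_eq (hc : Cls C) {x : C.P.X} {a b : ι} (hab : Adj C.M a b)
    (ht : C.P.Thru x a b C.c) {S : C.Slot} (hS : C.Val S) (hp : (C.fl S).1 = C.pan x a) :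
    S = .A (C.pan x a, b) := by
  have hok : C.Ok ((C.fl S).1, b) := by rw [hp]; exact ok_pan.2 hab
  have hat : C.At ((C.fl S).1, b) x a b := by rw [hp]; exact at_pan hab x
  have hno : ¬ C.Out S b := fun ho =>
    (hc.capc S b hS ho).not_thru hab (hat.thru_gate hab) ht
  have key : C.Capd S → C.P.Thru (C.fl S).1.z (C.fl S).1.a (C.fl S).2 C.c := fun hd => by
    have hb : b = (C.fl S).2 := by
      by_contra hb
      exact hno ⟨hok, hb, hd⟩
    rw [← hb]
    exact (hat.thru hab).2 ht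
  cases S with
  | A φ =>
    obtain ⟨h1, h2, h3⟩ := hS
    have hp' : φ.1 = C.pan x a := hp
    have hb : φ.2 = b := by
      by_contra hb
      obtain ⟨g, h4, h5, h6⟩ := C.hB.x1 φ.1.z φ.1.a φ.2 φ.1.a b C.c h1 hok
        (not_same_of_ne h1.1 hb) h2 ((hat.thru hab).2 ht)
      rcases h4 with h4 | h4
      · exact h3 (by rw [pc, h6, h4])
      · rcases h5 with h5 | h5
        · exact h3 (by rw [pc, h6, h5])
        · exact hb (h4.symm.trans h5)
    rw [← hp', ← hb]
  | B z g u u' =>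
    obtain ⟨h1, h2, h3, h4⟩ := hS
    exact (apex_not_thru h1 h2 h3 h4 ((((at_pan h3 z).op h3).thru h3).1 (key trivial))).elim
  | T z g t1 t2 side =>
    obtain ⟨h1, -, h3, h4, h5, h6⟩ := hS
    have h7 : C.P.Thru z t1 t2 C.c := by
      cases side
      · exact ((at_tf h3 z).thru h3).1 (key trivial)
      · exact (((at_tf h3 z).op h3).thru h3).1 (key trivial)
    rcases h6 with h6 | h6
    · exact (apex_not_thru h1 h6 h3 h5.symm h7).elim
    · exact (apex_not_thru h1 h6 (C.hB.big.adj_symm h3) h4.symm (C.hB.thru_swap h3 h7)).elim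

theorem on_pan {s : C.St} {a b : ι} (hab : Adj C.M a b) {x : C.P.X} {Z : Set (Set C.Fl)} :
    C.On s (C.pan x a).z (C.pan x a).a b Z ↔ C.On s x a b Z := by
  rw [pan_a]
  exact on_congr hab (res_pan hab (Or.inl rfl) x) (Same.refl _ _)

/-- every event at a vertex of the wall is the hit of the token of the panel -/
theorem ev_spec (hc : Cls C) {s : C.St} {a b : ι} (hab : Adj C.M a b)
    (ht : C.P.Thru s.x a b C.c) {q : Q} (h : C.Ev s a q) :
    C.On s s.x a b ∅ ∧ C.P.col s.x a ≠ C.c ∧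
      q = C.raw (s.L (C.bs s.x a b)) (C.bs s.x a b) s.x a := by
  obtain ⟨S, hS, hL, ⟨h1, h2, h3⟩ | ⟨b', h1, h2, -⟩⟩ := h
  · have hne := (hc.ok S hS).2
    rw [h2, pc_pan] at hne
    obtain rfl := slot_eq hc hab ht hS h2
    have hon : C.On s (C.pan s.x a).z (C.pan s.x a).a b {C.tok (C.pan s.x a, b)} := by
      by_contra hon
      exact hL (if_neg hon)
    have hLA : C.Lb s (.A (C.pan s.x a, b)) = C.rp s (C.pan s.x a, b) := if_pos hon
    rw [on_pan hab] at hon
    refine ⟨⟨hon.1, fun φ hφ _ => ?_⟩, hne, by rw [h3, hLA, dirn_rp hab]⟩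
    by_cases e1 : C.tok φ = C.tok (C.pan s.x a, b)
    · have h4 : s.pos (C.tok (C.pan s.x a, b)) = C.pan s.x a := h1
      rw [e1, h4, mt_of_mem (ok_pan.2 hab) (mem_of_tok e1)]
      exact mt_loc hab _
    · exact hon.2 φ hφ e1
  · exact ((hc.capc S b' hS h1).not_thru hab (h2 ▸ Pos.thru_col _ _ _) ht).elim

theorem ev_of_on {s : C.St} {a b : ι} (hab : Adj C.M a b) (ht : C.P.Thru s.x a b C.c)
    (hon : C.On s s.x a b ∅) (hne : C.P.col s.x a ≠ C.c)
    (h1 : C.raw (s.L (C.bs s.x a b)) (C.bs s.x a b) s.x a ≠ 1) :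
    C.Ev s a (C.raw (s.L (C.bs s.x a b)) (C.bs s.x a b) s.x a) := by
  have hpc : C.pc (C.pan s.x a) ≠ C.c := by rwa [pc_pan]
  have hon' : C.On s (C.pan s.x a).z (C.pan s.x a).a b {C.tok (C.pan s.x a, b)} :=
    (on_pan hab).2 ⟨hon.1, fun φ hφ _ => hon.2 φ hφ (Set.notMem_empty _)⟩
  have hLA : C.Lb s (.A (C.pan s.x a, b)) = C.rp s (C.pan s.x a, b) := if_pos hon'
  refine ⟨.A (C.pan s.x a, b), ⟨ok_pan.2 hab, ((at_pan hab s.x).thru hab).2 ht, hpc⟩, ?_,
    Or.inl ⟨?_, rfl, by rw [hLA, dirn_rp hab]⟩⟩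
  · intro e1
    apply h1
    rw [← dirn_rp hab, ← hLA, e1, dirn_one]
  · exact (hon.2 _ (Or.inl ⟨at_pan hab s.x, hpc⟩) (Set.notMem_empty _)).hit hab

end MStepU

open Ctx MStepU in
theorem m_stepu (hCls : S_Cls) : S_StepU := by
  intro ι Q _ _ C s a b hab ht
  have hc := hCls ι Q C
  refine ⟨⟨fun h => ?_, on_step hc hab ht (Pos.thru_col _ _ _)⟩, fun h => ?_, fun h hne => ?_,
    fun h he => ⟨?_, ?_⟩⟩
  · refine (on_step hc (g := a) hab ht ?_ h).of_eq (step_step_x a s).symm (step_step_tl a s).symm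
      (step_step_pos a s).symm
    rw [step_x, C.hB.col_r]
    exact Pos.thru_col _ _ _
  · exact kap_eq (fun q hq => (h (ev_spec hc hab ht hq).1).elim) fun h1 => (h1 rfl).elim
  · exact kap_eq (fun q hq => (ev_spec hc hab ht hq).2.2) (ev_of_on hab ht h hne)
  · exact kap_eq (fun q hq => ((ev_spec hc hab ht hq).2.1 he).elim) fun h1 => (h1 rfl).elim
  · have h1 : s.tl = C.pan s.x a :=
      ((lm_iff hab (at_pan hab s.x) (by rw [pc_pan, he])).1 h.1).hit hab
    simp [Ctx.step, h1, he]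

end Pool.Agent.P.MP_e794d7_al.X
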