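import Pool.Agent.P.MP_e794d7_al.X.MSt

/-! The labels around an apex of the panel of the token of the wall. -/

set_option autoImplicit false

namespace Pool.Agent.P.MP_e794d7_al.X

open scoped Classical

namespace StepW

open Ctx

variable {ι Q : Type} [Group Q] [LinearOrder ι] {C : Ctx ι Q} {s : C.St} {z : C.P.X}
  {g t1 t2 u u' : ι} {n : ℕ}

theorem swap_ne {l : Q × Q} (h : l.swap ≠ 1) : l ≠ 1 := fun e => h (by rw [e]; rfl)

theorem swap_ne' {l : Q × Q} (h : l ≠ 1) : l.swap ≠ 1 := fun e =>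
  h (by rw [← Prod.swap_swap l, e]; rfl)

/-- the apex at the vertex is unique -/
theorem apu (hT : C.TOk z g t1 t2) {t g' : ι} {z' : C.P.X} (ht : Adj C.M g t)
    (hA : C.ApAt (C.pan z g).z g t z' g' u u') (hr : C.P.Res z t1 t2 z') (hs : Same t1 t2 u u') :
    z' = z ∧ g' = g := by
  obtain ⟨hc, -, h12, g1, g2, hg⟩ := hT
  have hc0 : C.P.col (C.pan z g).z g = C.c := by
    have h1 := pc_pan (C := C) z g
    rw [Ctx.pc, pan_a] at h1
    rw [h1, hc]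
  have huu : Adj C.M u u' := hA.2.2.2.2
  obtain ⟨τ, hτ, -⟩ := ex_deep1 huu z' C.c
  have hτ' : C.P.Thru z t1 t2 τ :=
    (C.hB.thru_res h12 hr).2 (C.hB.thru_same huu hs.symm hτ.thru)
  have key : z = z' := by
    rcases hg with hg | hg
    · obtain ⟨σ, hσ, -⟩ := ex_deep1 h12 z C.c
      have hA' : C.ApAt (C.pan z g).z g t1 z g t1 t2 :=
        ⟨C.hB.res_symm hg (res_pan hg (Or.inl rfl) z), Same.refl _ _, hc, g2.symm, h12⟩
      rcases C.hG.tt _ _ _ _ _ _ _ _ _ _ _ _ (hA.ap ht hc0) hτ (hA'.ap hg hc0) hσ with h | h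
      · exact absurd hσ.thru (h.not_thru h12 hτ')
      · exact h.1
    · have h21 := C.hB.big.adj_symm h12
      obtain ⟨σ, hσ, -⟩ := ex_deep1 h21 z C.c
      have hA' : C.ApAt (C.pan z g).z g t2 z g t2 t1 :=
        ⟨C.hB.res_symm hg (res_pan hg (Or.inl rfl) z), Same.refl _ _, hc, g1.symm, h21⟩
      rcases C.hG.tt _ _ _ _ _ _ _ _ _ _ _ _ (hA.ap ht hc0) hτ (hA'.ap hg hc0) hσ with h | h
      · exact absurd (C.hB.thru_swap h21 hσ.thru) (h.not_thru h12 hτ')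
      · exact h.1
  subst key
  exact ⟨rfl, C.hB.x2 _ _ _ (hA.2.2.1.trans hc.symm)⟩

theorem on_to (hc : C.P.col z g = C.c) (huu : Adj C.M u u') (hu' : u' ≠ g) (hug : Adj C.M u g)
    (hL : C.LA s (C.pan z u, g) ≠ 1)
    (hm : C.Mt s.x (s.pos (C.tok (C.pan z u, g))) (C.pan z u, u')) :
    C.Mt s.x (s.pos (C.tok (C.tf z u u'))) (C.tf z u u') ∧
      C.LA s (C.pan z u, g) = C.eff s z g u u' := by
  have hO : C.On s (C.pan z u).z (C.pan z u).a g {C.tok (C.pan z u, g)} := by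
    by_contra h
    exact hL (if_neg h)
  have hL' : C.LA s (C.pan z u, g) = C.rp s (C.pan z u, g) := if_pos hO
  rw [pan_a] at hO
  have hO' : C.On s z u g {C.tok (C.pan z u, g)} :=
    (on_congr hug (res_pan hug (Or.inl rfl) z) (Same.refl _ _)).1 hO
  refine ⟨hO'.2 _ (Or.inr ⟨z, g, u, u', ⟨Pos.Res.refl _ _ _, Same.swap _ _, hc, hu', huu⟩, rfl⟩)
    fun h => ?_, ?_⟩
  · have h1 := pc_of_mem (ok_pan.2 hug) (mem_of_tok (Set.mem_singleton_iff.1 h))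
    rw [pc_pan] at h1
    exact C.hB.deep1_ne huu (deep1_tf huu z) (Or.inl rfl) h1
  · have hE : C.EfOn s z g u u' := ⟨C.hB.big.adj_symm hug,
      ⟨hO'.1, fun φ hφ hn => hO'.2 φ hφ fun h => hn (Or.inl h)⟩, hm⟩
    rw [hL', Ctx.eff, if_pos hE]

theorem of_on (huu : Adj C.M u u')
    (hT : C.Mt s.x (s.pos (C.tok (C.tf z u u'))) (C.tf z u u')) (hE : C.eff s z g u u' ≠ 1) :
    Adj C.M g u ∧ C.LA s (C.pan z u, g) = C.eff s z g u u' ∧
      C.Mt s.x (s.pos (C.tok (C.pan z u, g))) (C.pan z u, u') := by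
  have hF : C.EfOn s z g u u' := by
    by_contra h
    exact hE (if_neg h)
  have hug := C.hB.big.adj_symm hF.1
  have hO : C.On s z u g {C.tok (C.pan z u, g)} := by
    refine ⟨hF.2.1.1, fun φ hφ hn => ?_⟩
    by_cases h : C.tok φ = C.tok (C.tf z u u')
    · rw [h]
      exact (mt_of_mem (ok_tf huu z) (mem_of_tok h)).2 hT
    · exact hF.2.1.2 φ hφ fun h' => h'.elim hn h
  have hO' : C.On s (C.pan z u).z (C.pan z u).a g {C.tok (C.pan z u, g)} := by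
    rw [pan_a]
    exact (on_congr hug (res_pan hug (Or.inl rfl) z) (Same.refl _ _)).2 hO
  have hL' : C.LA s (C.pan z u, g) = C.rp s (C.pan z u, g) := if_pos hO'
  exact ⟨hF.1, by rw [hL', Ctx.eff, if_pos hF], hF.2.2⟩

variable (C s z g t1 t2 n) in
/-- the six panels that carry labels -/
def Cs (l : Q × Q) : Prop :=
  (n = 0 ∧ l = C.eff s z g t1 t2) ∨ (n = C.M t1 t2 ∧ l = (C.eff s z g t1 t2).swap) ∨
    (n = 2 * C.M t1 t2 - 1 ∧ l = C.eff s z g t2 t1) ∨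
    (n = C.M t1 t2 - 1 ∧ l = (C.eff s z g t2 t1).swap) ∨
    (n = 3 ∧ l = C.LC s z g t1 t2) ∨ (n = 3 + C.M t1 t2 ∧ l = (C.LC s z g t1 t2).swap)

omit [LinearOrder ι] in
theorem wf_last (h12 : Adj C.M t1 t2) (z : C.P.X) :
    C.wf z t1 t2 (2 * C.M t1 t2 - 1) = (C.pan z t2, t1) := by
  have h6 := C.hB.big.six _ _ h12
  rw [← wf_zero, wf_rev h12 z (by omega), Nat.sub_zero]

omit [LinearOrder ι] in
theorem wf_mid (h12 : Adj C.M t1 t2) (z : C.P.X) :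
    C.wf z t1 t2 (C.M t1 t2 - 1) = C.op (C.pan z t2, t1) := by
  have h6 := C.hB.big.six _ _ h12
  rw [op_pan (C.hB.big.adj_symm h12), C.hB.big.symm t2 t1, wf_rev h12 z (by omega)]
  congr 1
  omega

omit [LinearOrder ι] in
theorem same_vertex {φ : C.Fl} {z' : C.P.X} (h12 : Adj C.M t1 t2) (huu : Adj C.M u u')
    (h : C.At φ z t1 t2) (h' : C.At φ z' u u') : C.P.Res z t1 t2 z' ∧ Same t1 t2 u u' := by
  have hs : Same t1 t2 u u' := h.2.trans h'.2.symm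
  exact ⟨C.hB.res_trans h12 h.1 (C.hB.res_same huu hs.symm (C.hB.res_symm huu h'.1)), hs⟩

theorem ev_to (hCls : Cls C) (hT : C.TOk z g t1 t2) (htl : s.tl = C.pan z g)
    (hNA : C.NA s t1 t2) (hn : n < 2 * C.M t1 t2)
    (hw : C.wf z t1 t2 n = (C.pan s.x (el t1 t2 n), el t1 t2 (n + 1))) {q : Q}
    (hq : C.Ev s (el t1 t2 n) q) : C.TM s z t1 t2 ∧
      ∃ l, Cs C s z g t1 t2 n l ∧ q = dirn (C.e s.x (C.P.col s.x (el t1 t2 n))) l := by
  obtain ⟨hc, hlt, h12, g1, g2, hg⟩ := id hT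
  have h6 := C.hB.big.six _ _ h12
  have h21 := C.hB.big.adj_symm h12
  have hab : Adj C.M (el t1 t2 n) (el t1 t2 (n + 1)) := C.hB.big.adj_el h12 n
  have hsab := same_el t1 t2 n
  have hnc : ¬ C.P.Thru z t1 t2 C.c := by
    rcases hg with hg | hg
    · exact apex_not_thru hc hg h12 g2.symm
    · exact fun h => apex_not_thru hc hg h21 g1.symm (C.hB.thru_swap h12 h)
  have hat : C.At (C.pan s.x (el t1 t2 n), el t1 t2 (n + 1)) z t1 t2 := hw ▸ at_wf z n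
  have hloc := mt_loc hab s.x
  have hinj : ∀ k, k < 2 * C.M t1 t2 → (C.wf z t1 t2 k).1 = C.pan s.x (el t1 t2 n) → n = k :=
    fun k hk e => wf_inj h12 z hk hn (by rw [e, hw])
  generalize el t1 t2 n = a at *
  generalize el t1 t2 (n + 1) = b at *
  obtain ⟨S, hV, hL, ⟨hp, hf, rfl⟩ | ⟨b', hO, hcap, -⟩⟩ := hq
  swap
  · exact absurd (hNA S b' hV hO
      (hcap ▸ C.hB.thru_same hab hsab.symm (Pos.thru_col _ _ _))) hL
  have hok : C.Ok ((C.fl S).1, b) := by rw [hf]; exact ok_pan.2 hab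
  have hno : ¬ C.Out S b := fun hO => by
    refine hL (hNA S b hV hO (C.hB.thru_same hab hsab.symm ?_))
    rw [Ctx.cap, hf]
    exact (at_pan hab s.x).thru_gate hab
  obtain ⟨t, ht, -, hOb, -⟩ := hCls.act s S hV hL
  rw [htl, pan_a] at ht hOb
  cases S with
  | A φ =>
    obtain ⟨p, b0⟩ := φ
    change p = C.pan s.x a at hf
    subst hf
    obtain ⟨v1, v2, -⟩ := hV
    have hb : b ≠ b0 := fun e => hnc ((hat.thru h12).1 (e ▸ v2))
    have hX : C.Xt (C.pan s.x a, b0) := by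
      by_contra h
      exact hno ⟨hok, hb, h⟩
    obtain ⟨y, hy, hyc⟩ := hX
    have hOb' : C.At (C.pan s.x a, b0) (C.pan z g).z g t := hOb
    obtain ⟨o1, o2⟩ := hOb'
    obtain ⟨a1, -⟩ := hat
    simp only [pan_a] at hy hyc o1 o2 a1
    have hm1 : a = g ∨ a = t := by
      rcases o2 with h | h
      exacts [Or.inl h.1.symm, Or.inr h.2.symm]
    have hm2 : a = t1 ∨ a = t2 := by
      rcases hsab with h | h
      exacts [Or.inl h.1.symm, Or.inr h.2.symm]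
    have r1 : C.P.Res (C.pan z g).z g t y := by
      rcases hy with rfl | rfl
      exacts [o1, C.hB.res_trans ht o1 (C.hB.res_r ht hm1 _)]
    have r2 : C.P.Res z t1 t2 y := by
      rcases hy with rfl | rfl
      exacts [a1, C.hB.res_trans h12 a1 (C.hB.res_r h12 hm2 _)]
    obtain ⟨rfl, rfl⟩ := apu hT ht (u := a) (u' := b)
      ⟨r1, o2.trans (Same.swap _ _), hyc, hb, hab⟩ r2 hsab
    have hpan : C.pan y a = C.pan s.x a := by
      have h1 := pan_self (C.pan s.x a)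
      rw [pan_a] at h1
      rw [← h1]
      exact pan_eq_iff.2 ⟨rfl, hy⟩
    have hp' : s.pos (C.tok (C.pan s.x a, b0)) = C.pan s.x a := hp
    have hL' : C.LA s (C.pan s.x a, b0) ≠ 1 := hL
    have hab0 : Adj C.M a b0 := ok_pan.1 v1
    change C.TM s y t1 t2 ∧ ∃ l, Cs C s y b0 t1 t2 n l ∧ dirn _ (C.LA s (C.pan s.x a, b0)) = _
    rw [← hpan] at hp' hL' hloc hinj ⊢
    obtain ⟨k1, k2⟩ := on_to hc hab hb hab0 hL' (by rw [hp']; exact hloc)
    rcases hsab with ⟨rfl, rfl⟩ | ⟨rfl, rfl⟩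
    · exact ⟨k1, _, Or.inl ⟨hinj 0 (by omega) (by rw [wf_zero]), k2⟩, rfl⟩
    · rw [tf_comm] at k1
      exact ⟨k1, _, Or.inr (Or.inr (Or.inl ⟨hinj _ (by omega) (by rw [wf_last h12]), k2⟩)), rfl⟩
  | B z' g' u u' =>
    obtain ⟨v1, v2, v3, v4⟩ := hV
    have hb : b = (C.op (C.pan z' u, u')).2 := by
      by_contra h
      exact hno ⟨hok, h, trivial⟩
    have hfl : C.op (C.pan z' u, u') = (C.pan s.x a, b) := Prod.ext hf hb.symm
    obtain ⟨r1, r2⟩ := same_vertex h12 v3 hat (hfl ▸ (at_pan v3 z').op v3)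
    obtain ⟨rfl, rfl⟩ := apu hT ht (u := u) (u' := u') ⟨hOb.1, hOb.2, v1, v4, v3⟩ r1 r2
    have hp' : s.pos (C.tok (C.pan z' u, g')) = C.pan s.x a := hp.trans hf
    have hL' : (C.LA s (C.pan z' u, g')).swap ≠ 1 := hL
    obtain ⟨k1, k2⟩ := on_to hc v3 v4 (C.hB.big.adj_symm v2) (swap_ne hL')
      ((mt_op (ok_pan.2 v3)).1 (by rw [hp', hfl]; exact hloc))
    change C.TM s z' t1 t2 ∧
      ∃ l, Cs C s z' g' t1 t2 n l ∧ dirn _ (C.LA s (C.pan z' u, g')).swap = _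
    rcases r2 with ⟨rfl, rfl⟩ | ⟨rfl, rfl⟩
    · exact ⟨k1, _, Or.inr (Or.inl ⟨hinj _ (by omega) (by rw [← op_pan h12, hfl]),
        by rw [k2]⟩), rfl⟩
    · rw [tf_comm] at k1
      exact ⟨k1, _, Or.inr (Or.inr (Or.inr (Or.inl ⟨hinj _ (by omega)
        (by rw [wf_mid h12, hfl]), by rw [k2]⟩))), rfl⟩
  | T z' g' u u' side =>
    obtain ⟨v1, v2, v3, v4, v5, -⟩ := hV
    have hb : b = (C.fl (.T z' g' u u' side)).2 := by
      by_contra h
      exact hno ⟨hok, h, trivial⟩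
    have hfl : C.fl (.T z' g' u u' side) = (C.pan s.x a, b) := Prod.ext hf hb.symm
    have hat' : C.At (C.fl (.T z' g' u u' side)) z' u u' := by
      cases side
      exacts [at_tf v3 z', (at_tf v3 z').op v3]
    obtain ⟨r1, r2⟩ := same_vertex h12 v3 hat (hfl ▸ hat')
    have hzg : z' = z ∧ g' = g := by
      rcases hOb.2 with h | h
      · exact apu hT ht ⟨hOb.1, h, v1, v5.symm, v3⟩ r1 r2
      · exact apu hT ht ⟨hOb.1, h, v1, v4.symm, C.hB.big.adj_symm v3⟩ r1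
          (r2.trans (Same.swap _ _))
    obtain ⟨rfl, rfl⟩ := hzg
    rcases r2 with ⟨rfl, rfl⟩ | ⟨rfl, rfl⟩
    swap
    · exact absurd hlt (not_lt.2 v2.le)
    have hp' : s.pos (C.tok (C.tf z' t1 t2)) = C.pan s.x a := hp.trans hf
    cases side
    · have hfl' : C.tf z' t1 t2 = (C.pan s.x a, b) := hfl
      refine ⟨?_, _, Or.inr (Or.inr (Or.inr (Or.inr (Or.inl ⟨hinj _ (by omega)
        (by rw [← tf_lt z' hlt, hfl']), rfl⟩)))), rfl⟩
      rw [Ctx.TM, hp', hfl']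
      exact hloc
    · have hfl' : C.op (C.tf z' t1 t2) = (C.pan s.x a, b) := hfl
      refine ⟨?_, _, Or.inr (Or.inr (Or.inr (Or.inr (Or.inr ⟨hinj _ (by omega)
        (by rw [← op_wf h12, ← tf_lt z' hlt, hfl']), rfl⟩)))), rfl⟩
      rw [Ctx.TM, hp']
      exact (mt_op (ok_tf h12 z')).1 (by rw [hfl']; exact hloc)

theorem evA {a b : ι} (hc : C.P.col z g = C.c) (hab : Adj C.M a b) (hag : a ≠ g)
    (hw : C.pan z a = C.pan s.x a)
    (hT : C.Mt s.x (s.pos (C.tok (C.tf z a b))) (C.tf z a b)) (hE : C.eff s z g a b ≠ 1) :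
    C.Ev s a (dirn (C.e s.x (C.P.col s.x a)) (C.eff s z g a b)) := by
  obtain ⟨k1, k2, k3⟩ := of_on hab hT hE
  have hag' := C.hB.big.adj_symm k1
  refine ⟨.A (C.pan z a, g), ⟨ok_pan.2 hag', ?_, ?_⟩, ?_, Or.inl ⟨?_, hw, ?_⟩⟩
  · change C.P.Thru (C.pan z a).z (C.pan z a).a g C.c
    rw [pan_a, thru_pan hag', ← hc]
    exact C.hB.thru_col' hag' z
  · change C.pc (C.pan z a) ≠ C.c
    rw [pc_pan, ← hc]
    exact fun e => hag (C.hB.x2 _ _ _ e)
  · change C.LA s (C.pan z a, g) ≠ 1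
    rwa [k2]
  · change s.pos (C.tok (C.pan z a, g)) = C.pan z a
    generalize s.pos (C.tok (C.pan z a, g)) = q at k3 ⊢
    rw [hw] at k3 ⊢
    exact k3.hit hab
  · change _ = dirn _ (C.LA s (C.pan z a, g))
    rw [k2]

theorem evB {a b : ι} (hc : C.P.col z g = C.c) (huu : Adj C.M u u') (hu' : u' ≠ g)
    (hab : Adj C.M a b) (hw : C.op (C.pan z u, u') = (C.pan s.x a, b))
    (hT : C.Mt s.x (s.pos (C.tok (C.tf z u u'))) (C.tf z u u'))
    (hE : (C.eff s z g u u').swap ≠ 1) :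
    C.Ev s a (dirn (C.e s.x (C.P.col s.x a)) (C.eff s z g u u').swap) := by
  obtain ⟨k1, k2, k3⟩ := of_on huu hT (swap_ne hE)
  refine ⟨.B z g u u', ⟨hc, k1, huu, hu'⟩, ?_, Or.inl ⟨?_, ?_, ?_⟩⟩
  · change (C.LA s (C.pan z u, g)).swap ≠ 1
    rwa [k2]
  · change s.pos (C.tok (C.pan z u, g)) = (C.op (C.pan z u, u')).1
    have k4 := (mt_op (ok_pan.2 huu)).2 k3
    rw [hw] at k4 ⊢
    exact k4.hit hab
  · change (C.op (C.pan z u, u')).1 = _
    rw [hw]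
  · change _ = dirn _ (C.LA s (C.pan z u, g)).swap
    rw [k2]

theorem to_ev (hT : C.TOk z g t1 t2)
    (hw : C.wf z t1 t2 n = (C.pan s.x (el t1 t2 n), el t1 t2 (n + 1))) (hM : C.TM s z t1 t2)
    {l : Q × Q} (hl : Cs C s z g t1 t2 n l) (h1 : l ≠ 1) :
    C.Ev s (el t1 t2 n) (dirn (C.e s.x (C.P.col s.x (el t1 t2 n))) l) := by
  obtain ⟨hc, hlt, h12, g1, g2, hg⟩ := id hT
  have h21 := C.hB.big.adj_symm h12
  have hab : Adj C.M (el t1 t2 n) (el t1 t2 (n + 1)) := C.hB.big.adj_el h12 n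
  have hM' : C.Mt s.x (s.pos (C.tok (C.tf z t2 t1))) (C.tf z t2 t1) := by
    rw [tf_comm]
    exact hM
  generalize el t1 t2 n = a at *
  generalize el t1 t2 (n + 1) = b at *
  rcases hl with ⟨rfl, rfl⟩ | ⟨rfl, rfl⟩ | ⟨rfl, rfl⟩ | ⟨rfl, rfl⟩ | ⟨rfl, rfl⟩ | ⟨rfl, rfl⟩
  · rw [wf_zero] at hw
    have e1 : C.pan z t1 = C.pan s.x a := congrArg Prod.fst hw
    obtain rfl : t1 = a := (pan_eq_iff.1 e1).1
    exact evA hc h12 g1.symm e1 hM h1
  · rw [← op_pan h12] at hw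
    exact evB hc h12 g2.symm hab hw hM h1
  · rw [wf_last h12] at hw
    have e1 : C.pan z t2 = C.pan s.x a := congrArg Prod.fst hw
    obtain rfl : t2 = a := (pan_eq_iff.1 e1).1
    exact evA hc h21 g2.symm e1 hM' h1
  · rw [wf_mid h12] at hw
    exact evB hc h21 g1.symm hab hw hM' h1
  · rw [← tf_lt z hlt] at hw
    refine ⟨.T z g t1 t2 false, hT, h1, Or.inl ⟨?_, congrArg Prod.fst hw, rfl⟩⟩
    change s.pos (C.tok (C.tf z t1 t2)) = (C.tf z t1 t2).1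
    unfold Ctx.TM at hM
    generalize s.pos (C.tok (C.tf z t1 t2)) = q at hM ⊢
    rw [hw] at hM ⊢
    exact hM.hit hab
  · rw [← op_wf h12, ← tf_lt z hlt] at hw
    refine ⟨.T z g t1 t2 true, hT, h1, Or.inl ⟨?_, congrArg Prod.fst hw, rfl⟩⟩
    change s.pos (C.tok (C.tf z t1 t2)) = (C.op (C.tf z t1 t2)).1
    have k4 := (mt_op (ok_tf h12 z)).2 hM
    rw [hw] at k4 ⊢
    exact k4.hit hab

theorem core (hCls : Cls C) (hT : C.TOk z g t1 t2) (htl : s.tl = C.pan z g)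
    (hNA : C.NA s t1 t2) (hn : n < 2 * C.M t1 t2)
    (hw : C.wf z t1 t2 n = (C.pan s.x (el t1 t2 n), el t1 t2 (n + 1))) {v : Q}
    (h1 : ∀ l, Cs C s z g t1 t2 n l → dirn (C.e s.x (C.P.col s.x (el t1 t2 n))) l = v)
    (h2 : v ≠ 1 → ∃ l, Cs C s z g t1 t2 n l) :
    C.kap (el t1 t2 n) s = if C.TM s z t1 t2 then v else 1 := by
  by_cases hM : C.TM s z t1 t2
  · rw [if_pos hM]
    refine kap_eq (fun q hq => ?_) fun hv => ?_
    · obtain ⟨-, l, hl, rfl⟩ := ev_to hCls hT htl hNA hn hw hq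
      exact h1 l hl
    · obtain ⟨l, hl⟩ := h2 hv
      rw [← h1 l hl] at hv ⊢
      exact to_ev hT hw hM hl fun e => hv (by rw [e, dirn_one])
  · rw [if_neg hM]
    exact kap_eq (fun q hq => absurd (ev_to hCls hT htl hNA hn hw hq).1 hM)
      fun h => absurd rfl h

theorem ex_cs (h6 : 6 ≤ C.M t1 t2) (hn : n < 2 * C.M t1 t2)
    (h : n % C.M t1 t2 = 0 ∨ n % C.M t1 t2 = 3 ∨ n % C.M t1 t2 + 1 = C.M t1 t2) :
    ∃ l, Cs C s z g t1 t2 n l := by
  have hm : (n < C.M t1 t2 ∧ n % C.M t1 t2 = n) ∨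
      (C.M t1 t2 ≤ n ∧ n % C.M t1 t2 = n - C.M t1 t2) := by
    rcases lt_or_ge n (C.M t1 t2) with h1 | h1
    · exact Or.inl ⟨h1, Nat.mod_eq_of_lt h1⟩
    · exact Or.inr ⟨h1, by rw [Nat.mod_eq_sub_mod h1, Nat.mod_eq_of_lt (by omega)]⟩
  have h7 : n = 0 ∨ n = C.M t1 t2 ∨ n = 2 * C.M t1 t2 - 1 ∨ n = C.M t1 t2 - 1 ∨ n = 3 ∨
      n = 3 + C.M t1 t2 := by omega
  rcases h7 with h | h | h | h | h | h
  · exact ⟨_, Or.inl ⟨h, rfl⟩⟩
  · exact ⟨_, Or.inr (Or.inl ⟨h, rfl⟩)⟩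
  · exact ⟨_, Or.inr (Or.inr (Or.inl ⟨h, rfl⟩))⟩
  · exact ⟨_, Or.inr (Or.inr (Or.inr (Or.inl ⟨h, rfl⟩)))⟩
  · exact ⟨_, Or.inr (Or.inr (Or.inr (Or.inr (Or.inl ⟨h, rfl⟩))))⟩
  · exact ⟨_, Or.inr (Or.inr (Or.inr (Or.inr (Or.inr ⟨h, rfl⟩))))⟩

theorem mods {m : ℕ} (h6 : 6 ≤ m) : (2 * m - 1) % m = m - 1 ∧ (m - 1) % m = m - 1 ∧ 3 % m = 3 ∧
    (3 + m) % m = 3 := by
  have h1 : (m - 1) % m = m - 1 := Nat.mod_eq_of_lt (by omega)
  have h2 : 3 % m = 3 := Nat.mod_eq_of_lt (by omega)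
  refine ⟨?_, h1, h2, by rw [Nat.add_mod_right, h2]⟩
  rw [show 2 * m - 1 = m - 1 + m by omega, Nat.add_mod_right, h1]

theorem fw (h12 : Adj C.M t1 t2) {l : Q × Q} (hl : Cs C s z g t1 t2 n l) :
    dirn (C.e (C.P.go z t1 t2 n) (C.P.cc z t1 t2 n)) l = C.FW s z g t1 t2 n ∧
      dirn (!C.e (C.P.go z t1 t2 n) (C.P.cc z t1 t2 n)) l = C.RW s z g t1 t2 n := by
  have h6 := C.hB.big.six _ _ h12
  obtain ⟨m1, m2, m3, m4⟩ := mods h6
  have c0 : C.P.cc z t1 t2 0 = C.P.col z t1 := Pos.cc_zero _ _ _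
  have c1 : C.P.cc z t1 t2 (C.M t1 t2 - 1) = C.P.col z t2 := C.hB.cc_last h12 z
  unfold Ctx.FW Ctx.RW
  rcases hl with ⟨rfl, rfl⟩ | ⟨rfl, rfl⟩ | ⟨rfl, rfl⟩ | ⟨rfl, rfl⟩ | ⟨rfl, rfl⟩ | ⟨rfl, rfl⟩
  · rw [Nat.zero_mod, if_pos rfl, if_pos rfl, c0]
    exact ⟨rfl, rfl⟩
  · rw [Nat.mod_self, if_pos rfl, if_pos rfl, ← C.hB.cc_mod h12, Nat.mod_self,
      C.hB.e_go_mid C.he h12 z (j := 0) (by omega) (by omega) (by omega), dirn_swap, dirn_swap,
      Bool.not_not, c0]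
    exact ⟨rfl, rfl⟩
  · rw [m1, if_neg (by omega), if_neg (by omega), if_pos (by omega), if_neg (by omega),
      if_neg (by omega), if_pos (by omega), ← C.hB.cc_mod h12, m1,
      C.hB.e_go_mid C.he h12 z (j := C.M t1 t2 - 1) (by omega) (by omega) (by omega),
      Bool.not_not, c1]
    exact ⟨rfl, rfl⟩
  · rw [m2, if_neg (by omega), if_neg (by omega), if_pos (by omega), if_neg (by omega),
      if_neg (by omega), if_pos (by omega),
      C.hB.e_go_le C.he h12 z (j := C.M t1 t2 - 1) (by omega) le_rfl, dirn_swap, dirn_swap,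
      Bool.not_not, c1]
    exact ⟨rfl, rfl⟩
  · rw [m3, if_neg (by omega), if_pos rfl, if_neg (by omega), if_pos rfl]
    exact ⟨dirn_ord _ _ _, dirn_ord' _ _ _⟩
  · rw [m4, if_neg (by omega), if_pos rfl, if_neg (by omega), if_pos rfl, ← C.hB.cc_mod h12, m4,
      C.hB.e_go_mid C.he h12 z (j := 3) (by omega) (by omega) (by omega),
      ← C.hB.e_go_le C.he h12 z (j := 3) (n := 3) (by omega) le_rfl, dirn_swap, dirn_swap,
      Bool.not_not]
    exact ⟨dirn_ord _ _ _, dirn_ord' _ _ _⟩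

end StepW

open StepW in
theorem m_stepw (hCls : S_Cls) : S_StepW := by
  intro ι Q _ _ C s z g t1 t2 n hT htl hNA hn
  have h12 : Adj C.M t1 t2 := hT.2.2.1
  have h6 := C.hB.big.six _ _ h12
  refine ⟨fun hx => ?_, fun hx => ?_⟩
  · refine core (hCls ι Q C) hT htl hNA hn (by rw [hx]; rfl) (fun l hl => ?_) fun hv => ?_
    · rw [hx]
      exact (fw h12 hl).1
    · refine ex_cs h6 hn ?_
      by_contra h
      rw [not_or, not_or] at h
      exact hv (by rw [Ctx.FW, if_neg h.1, if_neg h.2.1, if_neg h.2.2])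
  · refine core (hCls ι Q C) hT htl hNA hn ?_ (fun l hl => ?_) fun hv => ?_
    · rw [hx]
      exact Prod.ext (Ctx.wf_fst' z t1 t2 n) rfl
    · rw [hx, C.hB.col_go_succ, Pos.go_succ, Pos.cc, Pos.Bas.e_r_col C.he]
      exact (fw h12 hl).2
    · refine ex_cs h6 hn ?_
      by_contra h
      rw [not_or, not_or] at h
      exact hv (by rw [Ctx.RW, if_neg h.1, if_neg h.2.1, if_neg h.2.2])

end Pool.Agent.P.MP_e794d7_al.X
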