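import Pool.Agent.P.MP_e794d7_al.X.MSt

/-! Every labelling of one side of the wall is given by some data. -/

set_option autoImplicit false

namespace Pool.Agent.P.MP_e794d7_al.X

namespace MSurj

variable {ι Q : Type} [Group Q]

/-- data for one base -/
theorem ex_data (C : Ctx ι Q) (lam : C.P.X → ι → Q) (x0 : C.P.X) (t g : ι) (h : ℕ) :
    ∃ d : C.tr.D, Adj C.M t g → ∀ i, i + 1 < C.M t g →
      (C.tr.PF (C.M t g) d i)⁻¹ * C.tr.PF (C.M t g) d (i + 1) =
          lam (C.P.go x0 t g (h + i)) (el t g (h + i)) ∧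
        C.tr.PR (C.M t g) d (i + 1) * (C.tr.PR (C.M t g) d i)⁻¹ =
          lam (C.P.go x0 t g (h + i + 1)) (el t g (h + i)) := by
  by_cases hA : Adj C.M t g
  · have hm := C.hB.big.six _ _ hA
    obtain ⟨d, hd⟩ := C.tr.surj (C.M t g) (by omega) (C.hK _ _)
      (fun i => lam (C.P.go x0 t g (h + i)) (el t g (h + i)))
      (fun i => lam (C.P.go x0 t g (h + i + 1)) (el t g (h + i)))
    exact ⟨d, fun _ => hd⟩
  · obtain ⟨d, -⟩ := C.tr.surj 2 le_rfl C.hK2 (fun _ => 1) (fun _ => 1)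
    exact ⟨d, fun h' => (hA h').elim⟩

/-- reading the data at the chamber number `h + k` -/
theorem raw_eq (C : Ctx ι Q) (lam : C.P.X → ι → Q) {x0 : C.P.X} {t g : ι} (hA : Adj C.M t g)
    (hc : C.P.col x0 g = C.c) {h k : ℕ} (hh : h = 0 ∨ h = C.M t g) (hk : k < C.M t g)
    {d : C.tr.D} (hd : ∀ i, i + 1 < C.M t g →
      (C.tr.PF (C.M t g) d i)⁻¹ * C.tr.PF (C.M t g) d (i + 1) =
          lam (C.P.go x0 t g (h + i)) (el t g (h + i)) ∧
        C.tr.PR (C.M t g) d (i + 1) * (C.tr.PR (C.M t g) d i)⁻¹ =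
          lam (C.P.go x0 t g (h + i + 1)) (el t g (h + i)))
    {a : ι} (ha : a = t ∨ a = g) (hne : C.P.col (C.P.go x0 t g (h + k)) a ≠ C.c) :
    C.raw d (x0, t, g) (C.P.go x0 t g (h + k)) a = lam (C.P.go x0 t g (h + k)) a := by
  have hm := C.hB.big.six _ _ hA
  have hc' : C.P.cc x0 t g (C.M t g - 1) = C.c := (C.hB.cc_last hA x0).trans hc
  have hmod : (h + k) % C.M t g = k := by
    rcases hh with rfl | rfl
    · rw [zero_add, Nat.mod_eq_of_lt hk]
    · rw [Nat.add_mod_left, Nat.mod_eq_of_lt hk]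
  have hidx : C.idx (x0, t, g) (C.P.go x0 t g (h + k)) = h + k :=
    Ctx.idx_go hA x0 (by omega)
  by_cases h1 : a = el t g (h + k)
  · rw [Ctx.raw, hidx, if_pos h1]
    simp only [hmod]
    subst h1
    have h2 : k + 1 < C.M t g := by
      by_contra h3
      apply hne
      rw [← hc']
      exact (C.hB.cc_eq_iff hA x0 (h + k) _).2 (by
        rw [hmod, Nat.mod_eq_of_lt (a := C.M t g - 1) (by omega)]; omega)
    exact (hd k h2).1
  · rw [Ctx.raw, hidx, if_neg h1]
    simp only [hmod]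
    have h2 : a = el t g (h + k + 1) := by
      rcases el_cases t g (h + k) with ⟨h3, h4⟩ | ⟨h3, h4⟩ <;> rw [h3] at h1 <;> rw [h4]
      · exact ha.resolve_left h1
      · exact ha.resolve_right h1
    rcases k with _ | j
    · exfalso
      apply hne
      rcases hh with rfl | rfl
      · rw [h2]
        simpa using hc
      · obtain ⟨n, hn⟩ : ∃ n, C.M t g = n + 1 := ⟨C.M t g - 1, by omega⟩
        rw [h2, ← hc', hn, add_zero, Nat.add_sub_cancel, el_congr t g (n := n + 1 + 1) (n' := n)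
          (by omega), C.hB.col_go_succ]
    · rw [h2, Nat.add_sub_cancel, el_congr t g (n := h + (j + 1) + 1) (n' := h + j) (by omega)]
      exact (hd j hk).2

end MSurj

theorem m_surj : S_Surj := by
  intro ι Q _ C lam β
  choose L hL using fun w : C.P.X × ι × ι => MSurj.ex_data C lam w.1 w.2.1 w.2.2
    (if C.e w.1 C.c = β then 0 else C.M w.2.1 w.2.2)
  refine ⟨L, fun x a b hab ht hne he => ?_⟩
  have hb := Ctx.bs_spec hab ht
  have hw := hL (C.bs x a b)
  generalize L (C.bs x a b) = d at hw ⊢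
  generalize C.bs x a b = w at hb hw ⊢
  obtain ⟨x0, t, g⟩ := w
  obtain ⟨h1, h2, h3⟩ := hb
  simp only at h1 h2 h3 hw
  have hA : Adj C.M t g := C.hB.big.adj_same hab h2
  have hm := C.hB.big.six _ _ hA
  have ha : a = t ∨ a = g := by
    rcases h2 with ⟨h4, -⟩ | ⟨h4, -⟩
    exacts [Or.inl h4, Or.inr h4]
  obtain ⟨n, hn, rfl⟩ := C.hB.res_lt hA (C.hB.res_same hab h2 (C.hB.res_symm hab h1))
  have hc' : C.P.cc x0 t g (C.M t g - 1) = C.c := (C.hB.cc_last hA x0).trans h3
  rcases lt_or_ge n (C.M t g) with h4 | h4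
  · have h5 := C.hB.e_go_le C.he hA x0 (j := C.M t g - 1) (n := n) (by omega) (by omega)
    rw [hc', he] at h5
    rw [if_pos h5.symm] at hw
    have := MSurj.raw_eq C lam hA h3 (h := 0) (k := n) (Or.inl rfl) h4 (hw hA) ha
      (by rwa [zero_add])
    rwa [zero_add] at this
  · have h5 := C.hB.e_go_mid C.he hA x0 (j := C.M t g - 1) (n := n) (by omega) (by omega)
      (by omega)
    rw [hc', he] at h5
    rw [if_neg (by rw [h5]; cases C.e x0 C.c <;> simp)] at hw
    obtain ⟨k, rfl⟩ : ∃ k, n = C.M t g + k := ⟨n - C.M t g, by omega⟩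
    exact MSurj.raw_eq C lam hA h3 (Or.inr rfl) (by omega) (hw hA) ha hne

end Pool.Agent.P.MP_e794d7_al.X
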