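import Pool.Agent.P.MP_e794d7_al.X.MSt

/-! One token with a memory respects the braid relation. -/

set_option autoImplicit false

namespace Pool.Agent.P.MP_e794d7_al.X

namespace Trun

open Ctx
open scoped Classical

variable {ι Q : Type} [Group Q] {C : Ctx ι Q} {Y : Type} (f : C.P.Col → Bool → Y → Y)

theorem fst_succ (x : C.P.X) (a b : ι) (q : C.Pn) (μ : Y) (n : ℕ) :
    (C.trun f x a b q μ (n + 1)).1 = C.mv (C.P.cc x a b n) (C.trun f x a b q μ n).1 := rfl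

theorem snd_succ (x : C.P.X) (a b : ι) (q : C.Pn) (μ : Y) (n : ℕ) :
    (C.trun f x a b q μ (n + 1)).2 =
      if (C.trun f x a b q μ n).1 = (C.wf x a b n).1 then
        f (C.P.cc x a b n) (C.e (C.P.go x a b n) (C.P.cc x a b n)) (C.trun f x a b q μ n).2
      else (C.trun f x a b q μ n).2 := rfl

theorem pc_run (x : C.P.X) (a b : ι) (q : C.Pn) (μ : Y) :
    ∀ n, C.pc (C.trun f x a b q μ n).1 = C.pc q
  | 0 => rfl
  | n + 1 => by rw [fst_succ, pc_mv, pc_run x a b q μ n]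

/-- the token is hit at the step `i` -/
abbrev Hit (x : C.P.X) (a b : ι) (q : C.Pn) (μ : Y) (i : ℕ) : Prop :=
  (C.trun f x a b q μ i).1 = (C.wf x a b i).1

theorem Hit.cc {x : C.P.X} {a b : ι} {q : C.Pn} {μ : Y} {i : ℕ} (h : Hit f x a b q μ i) :
    C.P.cc x a b i = C.pc q := by
  rw [← pc_wf, ← pc_run f x a b q μ i, h]

theorem mem_run {a b : ι} (hab : Adj C.M a b) (x : C.P.X) (q : C.Pn) (μ : Y) :
    ∀ n, n ≤ C.M a b →
      ((∃ i, i < n ∧ Hit f x a b q μ i) →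
        (C.trun f x a b q μ n).2 = f (C.pc q) (C.e x (C.pc q)) μ) ∧
      ((¬ ∃ i, i < n ∧ Hit f x a b q μ i) → (C.trun f x a b q μ n).2 = μ)
  | 0, _ => ⟨fun ⟨_, h, _⟩ => absurd h (Nat.not_lt_zero _), fun _ => rfl⟩
  | n + 1, hn => by
    obtain ⟨ih1, ih2⟩ := mem_run hab x q μ n (by omega)
    by_cases hh : Hit f x a b q μ n
    · have hno : ¬ ∃ i, i < n ∧ Hit f x a b q μ i := by
        rintro ⟨i, hi, h1⟩
        have := C.hB.inj x a b i n hab (by omega) (by omega) ((Hit.cc f h1).trans (Hit.cc f hh).symm)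
        omega
      refine ⟨fun _ => ?_, fun h1 => (h1 ⟨n, by omega, hh⟩).elim⟩
      rw [snd_succ, if_pos hh, ih2 hno, C.hB.e_go_le C.he hab x (by omega) le_rfl, Hit.cc f hh]
    · rw [snd_succ, if_neg hh]
      refine ⟨fun ⟨i, hi, h1⟩ => ih1 ⟨i, ?_, h1⟩, fun h1 => ih2 fun ⟨i, hi, h2⟩ =>
        h1 ⟨i, by omega, h2⟩⟩
      rcases Nat.lt_succ_iff_lt_or_eq.1 hi with h2 | rfl
      exacts [h2, (hh h1).elim]

/-- a panel has at most one gate through a vertex -/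
theorem uniq {a b : ι} (hab : Adj C.M a b) {x : C.P.X} {φ ψ : C.Fl} (h : C.Ok φ) (h' : C.Ok ψ)
    (ht : C.P.Thru x a b (C.gate φ)) (ht' : C.P.Thru x a b (C.gate ψ)) (e1 : ψ.1 = φ.1) :
    ψ = φ := by
  obtain ⟨p, b1⟩ := φ
  obtain ⟨p', b2⟩ := ψ
  obtain rfl : p' = p := e1
  by_cases hne : b1 = b2
  · rw [hne]
  · exact ((gate_gate_nx h h' hne).not_thru hab ht ht').elim

theorem stay {a b : ι} (hab : Adj C.M a b) {x : C.P.X} {φ : C.Fl} (h : C.Ok φ)
    (ht : C.P.Thru x a b (C.gate φ)) {γ : C.P.Col} (hγ : C.P.Thru x a b γ) (hne : γ ≠ C.gate φ) :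
    C.mv γ φ.1 = φ.1 :=
  mv_ne fun b' hb e1 => hne (by rw [← uniq hab h hb ht (e1 ▸ hγ) rfl]; exact e1)

theorem pos_run {a b : ι} (hab : Adj C.M a b) {x : C.P.X} {φ : C.Fl} (h : C.Ok φ) {j : ℕ}
    (hj : j < C.M a b) (hg : C.P.cc x a b j = C.gate φ) (μ : Y) :
    ∀ n, n ≤ C.M a b → (n ≤ j → (C.trun f x a b φ.1 μ n).1 = φ.1) ∧
      (j < n → (C.trun f x a b φ.1 μ n).1 = (C.op φ).1)
  | 0, _ => ⟨fun _ => rfl, fun h1 => absurd h1 (Nat.not_lt_zero _)⟩
  | n + 1, hn => by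
    obtain ⟨ih1, ih2⟩ := pos_run hab h hj hg μ n (by omega)
    have hne : n ≠ j → C.P.cc x a b n ≠ C.gate φ := fun h1 e1 =>
      h1 (C.hB.inj x a b n j hab (by omega) hj (e1.trans hg.symm))
    rw [fst_succ]
    refine ⟨fun h1 => ?_, fun h1 => ?_⟩
    · rw [ih1 (by omega)]
      exact stay hab h ⟨j, hg⟩ ⟨n, rfl⟩ (hne (by omega))
    · rcases Nat.lt_succ_iff_lt_or_eq.1 h1 with h2 | rfl
      · rw [ih2 h2]
        exact stay hab (ok_op h) (by rw [gate_op h]; exact ⟨j, hg⟩) ⟨n, rfl⟩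
          (by rw [gate_op h]; exact hne (by omega))
      · rw [ih1 le_rfl, hg, mv_gate h]

theorem const_run {a b : ι} (hab : Adj C.M a b) {x : C.P.X} {q : C.Pn}
    (h : ∀ b', C.Ok (q, b') → ¬ C.P.Thru x a b (C.gate (q, b'))) (μ : Y) :
    ∀ n, C.trun f x a b q μ n = (q, μ)
  | 0 => rfl
  | n + 1 => by
    have ih := const_run hab h μ n
    refine Prod.ext ?_ ?_
    · rw [fst_succ, ih]
      exact mv_ne fun b' hb e1 => h b' hb ⟨n, e1⟩
    · rw [snd_succ, ih, if_neg]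
      intro e1
      have e2 : (q, (C.wf x a b n).2) = C.wf x a b n := Prod.ext e1 rfl
      refine h (C.wf x a b n).2 (by rw [e2]; exact ok_wf hab x n) ?_
      rw [e2]
      exact (at_wf x n).thru_gate hab

theorem hit_rev {a b : ι} (hab : Adj C.M a b) {x : C.P.X} {φ : C.Fl} (h : C.Ok φ)
    (ht : C.P.Thru x a b (C.gate φ)) (μ : Y) {i : ℕ} (hi : i < C.M a b)
    (hh : Hit f x a b φ.1 μ i) : Hit f x b a φ.1 μ (C.M a b - 1 - i) := by
  obtain ⟨j, hj, hg⟩ := C.hB.thru_lt hab ht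
  have hba := C.hB.big.adj_symm hab
  have hm : C.M b a = C.M a b := C.hB.big.symm b a
  have hg' : C.P.cc x b a (C.M a b - 1 - j) = C.gate φ := by
    rw [C.hB.cc_rev hab x _ (by omega), ← hg]
    congr 1
    omega
  obtain ⟨p1, p2⟩ := pos_run f hab h hj hg μ i hi.le
  obtain ⟨r1, r2⟩ := pos_run f hba h (by omega) hg' μ (C.M a b - 1 - i) (by omega)
  have hw : C.wf x b a (C.M a b - 1 - i) = C.op (C.wf x a b i) := by
    rw [wf_rev hab x (by omega), op_wf hab]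
    congr 1
    omega
  have hij : i ≠ j := by
    rintro rfl
    exact gate_ne_pc h (hg.symm.trans (Hit.cc f hh))
  have hok := ok_wf hab x i
  have hth := (at_wf (C := C) x i).thru_gate hab
  rw [Hit, hw]
  rcases lt_or_gt_of_ne hij with h1 | h1
  · rw [uniq hab h hok ht hth (hh.symm.trans (p1 h1.le))]
    exact r2 (by omega)
  · rw [uniq hab (ok_op h) hok (by rw [gate_op h]; exact ht) hth (hh.symm.trans (p2 h1)), op_op h]
    exact r1 (by omega)

end Trun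

open Ctx Trun in
theorem m_trun : S_Trun := by
  intro ι Q _ C Y f x a b q μ hab
  have hba := C.hB.big.adj_symm hab
  have hm : C.M b a = C.M a b := C.hB.big.symm b a
  by_cases h : ∀ b', C.Ok (q, b') → ¬ C.P.Thru x a b (C.gate (q, b'))
  · rw [const_run f hab h, const_run f hba fun b' hb ht => h b' hb (C.hB.thru_swap hba ht)]
  push Not at h
  obtain ⟨b', hb, ht⟩ := h
  have ht' := C.hB.thru_swap hab ht
  refine Prod.ext ?_ ?_
  · obtain ⟨j, hj, hg⟩ := C.hB.thru_lt hab ht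
    obtain ⟨j', hj', hg'⟩ := C.hB.thru_lt hba ht'
    exact ((pos_run f hab hb hj hg μ _ le_rfl).2 hj).trans
      ((pos_run f hba hb hj' hg' μ _ hm.ge).2 (by omega)).symm
  · obtain ⟨m1, m2⟩ := mem_run f hab x q μ _ le_rfl
    obtain ⟨m3, m4⟩ := mem_run f hba x q μ _ hm.ge
    have h0 := Nat.pos_of_ne_zero hab.2
    by_cases hh : ∃ i, i < C.M a b ∧ Hit f x a b q μ i
    · obtain ⟨i, hi, h1⟩ := hh
      rw [m1 ⟨i, hi, h1⟩, m3 ⟨_, by omega, hit_rev f hab hb ht μ hi h1⟩]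
    · rw [m2 hh, m4 fun ⟨i, hi, h1⟩ =>
        hh ⟨_, by omega, hit_rev f hba hb ht' μ (by omega) h1⟩]

end Pool.Agent.P.MP_e794d7_al.X
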