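import Pool.Agent.P.MP_e794d7_al.X.BasX

/-! Roots with a small product have disjoint negative sides; ping-pong for two such walls. -/

set_option autoImplicit false

namespace Pool.Agent.P.MP_e794d7_al.X

namespace PBSD

open scoped Classical

variable {ι : Type} [Fintype ι] {M : ι → ι → ℕ}

theorem B_aa (a : ι) : Bf M (al a) (al a) = 2 := by
  have : Bf M (al a) (al a) = if a = a then 2 else -cst (M a a) := Matrix.toBilin'_single _ a a
  rw [this, if_pos rfl]

theorem B_symm (h : Big M) (x y : ι → ℝ) : Bf M x y = Bf M y x := by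
  simp only [Bf, Matrix.toBilin'_apply, Matrix.of_apply]
  rw [Finset.sum_comm]
  refine Finset.sum_congr rfl fun a _ => Finset.sum_congr rfl fun b _ => ?_
  by_cases e : a = b
  · subst e; ring
  · rw [if_neg e, if_neg (Ne.symm e), h.symm]; ring

omit [Fintype ι] in
theorem al_self (a : ι) : al a a = 1 := Pi.single_eq_same _ _

omit [Fintype ι] in
theorem al_ne {a b : ι} (h : b ≠ a) : al a b = 0 := Pi.single_eq_of_ne h _

variable (R : Rep M)

theorem act_mul (w w' : R.W) (v : ι → ℝ) : R.act (w * w') v = R.act w (R.act w' v) := by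
  rw [map_mul, LinearEquiv.mul_apply]

theorem act_one (v : ι → ℝ) : R.act 1 v = v := by
  rw [map_one]; rfl

theorem act_al (a : ι) : R.act (R.σ a) (al a) = -al a := by
  rw [R.act_σ, B_aa]
  module

theorem sq_one (a : ι) : R.σ a * R.σ a = 1 := by
  apply R.inj
  ext1 v
  rw [act_mul, act_one, R.act_σ a v, map_sub, map_smul, act_al, R.act_σ]
  module

theorem inv_σ (a : ι) : (R.σ a)⁻¹ = R.σ a := inv_eq_of_mul_eq_one_right (sq_one R a)

theorem act_inv (w : R.W) (v : ι → ℝ) : R.act w (R.act w⁻¹ v) = v := by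
  rw [← act_mul, mul_inv_cancel, act_one]

theorem B_act (h : Big M) (w : R.W) (x y : ι → ℝ) :
    Bf M (R.act w x) (R.act w y) = Bf M x y := by
  have hw : w ∈ Subgroup.closure (Set.range R.σ) := by rw [R.gen]; trivial
  induction hw using Subgroup.closure_induction generalizing x y with
  | mem w hw =>
    obtain ⟨a, rfl⟩ := hw
    simp only [R.act_σ, map_sub, map_smul, LinearMap.sub_apply, LinearMap.smul_apply,
      smul_eq_mul, B_aa, B_symm h x (al a)]
    ring
  | one => rw [act_one, act_one]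
  | mul w w' _ _ ih ih' => rw [act_mul, act_mul, ih, ih']
  | inv w _ ih => rw [← ih, act_inv, act_inv]

variable {R}

theorem root_act {β : ι → ℝ} (hβ : R.IsRoot β) (g : R.W) : R.IsRoot (R.act g β) := by
  obtain ⟨w, a, rfl⟩ := hβ
  exact ⟨g * w, a, (act_mul R g w _).symm⟩

theorem root_B (h : Big M) {β : ι → ℝ} (hβ : R.IsRoot β) : Bf M β β = 2 := by
  obtain ⟨w, a, rfl⟩ := hβ
  rw [B_act R h, B_aa]

theorem root_not_le (h : Big M) {β : ι → ℝ} (hβ : R.IsRoot β) (h0 : 0 ≤ β) : ¬ β ≤ 0 := by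
  intro h1
  have h2 := root_B h hβ
  rw [le_antisymm h1 h0, map_zero] at h2
  norm_num at h2

/-- a positive root other than the simple one stays positive -/
theorem pos_σ (hSign : S_Sign) (h : Big M) {β : ι → ℝ} (hβ : R.IsRoot β) (h0 : 0 ≤ β) (a : ι) :
    0 ≤ R.act (R.σ a) β ∨ β = al a := by
  refine (hSign ι M R h _ (root_act hβ (R.σ a))).imp_right fun h1 => ?_
  have h2 : β = β a • al a := by
    funext i
    rw [Pi.smul_apply, smul_eq_mul]
    by_cases e : i = a
    · rw [e, al_self, mul_one]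
    · have h3 := h1 i
      rw [R.act_σ, Pi.sub_apply, Pi.smul_apply, al_ne e, smul_zero, sub_zero] at h3
      rw [al_ne e, mul_zero]
      exact le_antisymm h3 (h0 i)
  have h3 := root_B h hβ
  have h4 : (0 : ℝ) ≤ β a := h0 a
  generalize β a = s at h2 h4
  rw [h2] at h3
  simp only [map_smul, LinearMap.smul_apply, smul_eq_mul, B_aa] at h3
  have h5 : s = 1 := by nlinarith
  rw [h2, h5, one_smul]

/-- the property that is proved by induction on a word -/
def Ok (R : Rep M) (g : R.W) : Prop :=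
  ∀ β γ, R.IsRoot β → R.IsRoot γ → 0 ≤ β → 0 ≤ γ → Bf M β γ ≤ -2 →
    R.act g β ≤ 0 → R.act g γ ≤ 0 → False

theorem ok_simple (hSign : S_Sign) (h : Big M) {g : R.W} (hg : Ok R g) (a : ι) {γ : ι → ℝ}
    (hγ : R.IsRoot γ) (h0 : 0 ≤ γ) (hB : Bf M (al a) γ ≤ -2)
    (h1 : R.act (g * R.σ a) (al a) ≤ 0) (h2 : R.act (g * R.σ a) γ ≤ 0) : False := by
  rw [act_mul] at h1 h2
  rw [act_al, map_neg, neg_nonpos] at h1
  rcases pos_σ hSign h hγ h0 a with h3 | h3
  · refine hg γ _ hγ (root_act hγ (R.σ a)) h0 h3 ?_ ?_ h2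
    · rw [R.act_σ, map_sub, map_smul, root_B h hγ, B_symm h γ (al a), smul_eq_mul]
      nlinarith
    · rw [R.act_σ, map_sub, map_smul] at h2
      intro i
      have e1 := h1 i
      have e2 := h2 i
      simp only [Pi.zero_apply, Pi.sub_apply, Pi.smul_apply, smul_eq_mul] at e1 e2 ⊢
      nlinarith
  · rw [h3, B_aa] at hB
    norm_num at hB

theorem ok_mul (hSign : S_Sign) (h : Big M) {g : R.W} (hg : Ok R g) (a : ι) :
    Ok R (g * R.σ a) := by
  intro β γ hβ hγ b0 c0 hB b1 c1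
  rcases pos_σ hSign h hβ b0 a with b2 | rfl
  · rcases pos_σ hSign h hγ c0 a with c2 | rfl
    · rw [act_mul] at b1 c1
      exact hg _ _ (root_act hβ _) (root_act hγ _) b2 c2 (by rwa [B_act R h]) b1 c1
    · exact ok_simple hSign h hg a hβ b0 (by rwa [B_symm h]) c1 b1
  · exact ok_simple hSign h hg a hγ c0 hB b1 c1

theorem ok (hSign : S_Sign) (h : Big M) (g : R.W) : Ok R g := by
  have hw : g ∈ Subgroup.closure (Set.range R.σ) := by rw [R.gen]; trivial
  induction hw using Subgroup.closure_induction_right with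
  | one =>
    intro β γ hβ _ b0 _ _ b1 _
    rw [act_one] at b1
    exact root_not_le h hβ b0 b1
  | mul_right x _ y hy ih =>
    obtain ⟨t, rfl⟩ := hy
    exact ok_mul hSign h ih t
  | mul_inv_cancel x _ y hy ih =>
    obtain ⟨t, rfl⟩ := hy
    rw [inv_σ]
    exact ok_mul hSign h ih t

/-- the reflection sends the positive side to the negative side -/
theorem ng_col (hSign : S_Sign) (h : Big M) (w : R.W) (a : ι) {g : R.W}
    (hg : ¬ R.Ng g (R.act w (al a))) : R.Ng (w * R.σ a * w⁻¹ * g) (R.act w (al a)) := by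
  have e : (w * R.σ a * w⁻¹ * g)⁻¹ * w = g⁻¹ * w * R.σ a := by
    rw [mul_inv_rev, mul_inv_rev, mul_inv_rev, inv_σ]
    group
  rw [Rep.Ng, ← act_mul, e, act_mul, act_al, map_neg, neg_nonpos, act_mul]
  exact (hSign ι M R h _ (root_act ⟨w, a, rfl⟩ g⁻¹)).resolve_right hg

theorem free2 (hSign : S_Sign) (h : Big M) (w : R.W) (a : ι) (w' : R.W) (a' : ι)
    (hs : R.SD (R.act w (al a)) (R.act w' (al a'))) :
    R.Free2 (w * R.σ a * w⁻¹) (w' * R.σ a' * w'⁻¹) := by
  obtain ⟨hd, D, d1, d2⟩ := hs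
  have step : ∀ g, ¬ R.Ng g (R.act w' (al a')) →
      R.Ng (w * R.σ a * w⁻¹ * (w' * R.σ a' * w'⁻¹) * g) (R.act w (al a)) := fun g hg => by
    rw [mul_assoc]
    exact ng_col hSign h w a fun h1 => hd _ ⟨h1, ng_col hSign h w' a' hg⟩
  have key : ∀ n, R.Ng ((w * R.σ a * w⁻¹ * (w' * R.σ a' * w'⁻¹)) ^ (n + 1) * D)
      (R.act w (al a)) := by
    intro n
    induction n with
    | zero => rw [zero_add, pow_one]; exact step D d2
    | succ n ih =>
      rw [pow_succ', mul_assoc]
      rw [← mul_assoc] 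
      rw [mul_assoc _ _ D]
      exact step _ fun h1 => hd _ ⟨ih, h1⟩
  intro n hn e
  obtain ⟨k, rfl⟩ : ∃ k, n = k + 1 := ⟨n - 1, by omega⟩
  have := key k
  rw [e, one_mul] at this
  exact d1 this

end PBSD

open PBSD in
theorem p_bsd (hSign : S_Sign) : S_BSD := fun _ _ M R h =>
  ⟨fun β γ hβ hγ b0 c0 hB =>
    ⟨fun g hg => ok hSign h g⁻¹ β γ hβ hγ b0 c0 hB hg.1 hg.2, 1,
      by rw [Rep.Ng, inv_one, act_one]; exact root_not_le h hβ b0,
      by rw [Rep.Ng, inv_one, act_one]; exact root_not_le h hγ c0⟩,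
    fun w a w' a' hs => free2 hSign h w a w' a' hs⟩

end Pool.Agent.P.MP_e794d7_al.X
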