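import Pool.Agent.P.MP_e794d7_al.X.BasX

/-! The family statement over a free set. -/

set_option autoImplicit false

namespace Pool.Agent.P.MP_e794d7_al.X

theorem p_fgfree : S_FGfree := by
  intro G Y _ _ hY n X _ _ hne A _ _ N hN z hz hinv
  obtain ⟨x0⟩ := hne
  obtain ⟨f, -, hf⟩ := equiv_choice (G := G) (Y := Y) (C := X) (fun g x => g • x)
    (fun c => one_smul G c) (fun g h c => mul_smul g h c) N (fun _ _ => True)
    (fun _ _ _ _ _ => trivial)
    (fun y => ⟨x0, trivial, fun g _ hg => by rw [hY g y hg, one_smul]⟩)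
  refine ⟨N, hN, le_rfl, fun y w => z y (Fin.cons (f y) w), fun y => exact_D (z y) (hz y) (f y),
    fun g hg y w => ?_⟩
  have h1 : (Fin.cons (f (g • y)) (g • w) : Fin (n + 2) → X) =
      g • (Fin.cons (f y) w : Fin (n + 2) → X) := by
    funext i
    refine Fin.cases ?_ (fun i => ?_) i
    · simp [hf g hg y]
    · simp
  beta_reduce
  rw [h1, hinv g hg]

end Pool.Agent.P.MP_e794d7_al.X
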