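import Pool.Agent.P.MP_e794d7_al.X.BasX

/-! Families of cocycles over an action on a forest. -/

set_option autoImplicit false

namespace Pool.Agent.P.MP_e794d7_al.X

theorem p_fgtree : S_FGtree := by
  intro G V E Y _ _ _ _ o t p ho ht hp hsurj hpe conn forest n hV hE X _ hX hne A _ hA N hN z hz
    hinv
  obtain ⟨N1, hN1, hle1, c, hc, hc'⟩ := hV X hX hne A hA N hN (fun v => z (p v))
    (fun v => hz _) fun g hg v x => by rw [hp, hinv g hg]
  obtain ⟨N2, hN2, hle, d, hd, hd'⟩ := hE X hX hne A hA N1 hN1 (fun e => c (t e) - c (o e))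
    (fun e => by rw [D_sub, hc, hc, hpe, sub_self]) fun g hg e x => by
      simp only [Pi.sub_apply, ho, ht, hc' g hg]
  obtain ⟨a, ha, ha'⟩ := equiv_choice (G := G) (Y := Fin (n + 1) → X)
    (fun g (a : V → A) v => a (g⁻¹ • v)) (by simp)
    (fun g h c => by funext x; rw [mul_inv_rev, mul_smul]) N2
    (fun x a => ∀ e, a (t e) - a (o e) = d e x)
    (fun g hg x a h e => by
      beta_reduce
      rw [← ht, ← ho, h, ← hd' g hg, smul_inv_smul]) (fun x => by
      obtain ⟨a, ha⟩ := forest A fun e => d e x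
      refine ⟨a, ha, fun g _ h => ?_⟩
      rw [hX g (x 0) (congrFun h 0)]
      simp)
  let c' : V → (Fin (n + 2) → X) → A := fun v => c v - D fun x => a x v
  have h1 : ∀ v v', p v = p v' → c' v = c' v' := conn _ c' fun e => by
    have : (fun x => a x (t e)) - (fun x => a x (o e)) = d e := funext fun x => ha x e
    have h2 := hd e
    rw [← this, D_sub] at h2
    simp only [c']
    rw [sub_eq_sub_iff_sub_eq_sub, h2]
  choose s hs using hsurj
  refine ⟨N2, hN2, hle.trans hle1, fun y => c' (s y), fun y => ?_, fun g hg y x => ?_⟩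
  · simp only [c']
    rw [D_sub, DD, hc, sub_zero, hs]
  · beta_reduce
    rw [h1 (s (g • y)) (g • s y) (by rw [hs, hp, hs])]
    simp only [c', Pi.sub_apply]
    rw [hc' g (hle hg), ← D_smul]
    congr 2
    funext w
    rw [ha' g hg]
    simp only [inv_smul_smul]

end Pool.Agent.P.MP_e794d7_al.X
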