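import Pool.Agent.P.MP_e794d7_al.X.BasX

/-! The family statement in the lowest degree, for full stabilisers. -/

set_option autoImplicit false

namespace Pool.Agent.P.MP_e794d7_al.X

open MulAction

namespace PFGzero

/-- one member of the family, with a full stabiliser -/
theorem one {G X A : Type} [Group G] [MulAction G X] [AddCommGroup A] (S : Subgroup G)
    (hS : Full S.subtype) (hne : Nonempty X) (hA : Finite A) (N : Subgroup G) [N.FiniteIndex]
    (z : (Fin 2 → X) → A) (hz : D z = 0) (hinv : ∀ g ∈ S, g ∈ N → ∀ x, z (g • x) = z x) :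
    ∃ N' : Subgroup G, N'.FiniteIndex ∧ ∃ c : (Fin 1 → X) → A,
      D c = z ∧ ∀ g ∈ S, g ∈ N' → ∀ x, c (g • x) = c x := by
  haveI := fi_comap S.subtype N
  obtain ⟨K, hK, c, hc, hc'⟩ := deg_one (G := S) hne hA (N.comap S.subtype) z hz
    fun g hg x => hinv (g : G) g.2 hg x
  obtain ⟨N', hN', hle⟩ := hS K hK
  exact ⟨N', hN', c, hc, fun g hg hg' x => hc' ⟨g, hg⟩ (hle hg') x⟩

end PFGzero

theorem p_fgzero : S_FGzero := by
  intro G Y _ _ hfin hst X _ _ hne A _ hA N hN z hz hinv
  let T := (G ⧸ N.normalCore) × orbitRel.Quotient G Y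
  let r : T → Y := fun t => t.1.out • t.2.out
  have h1 : ∀ y, ∃ t, ∃ m ∈ N, y = m • r t := fun y => by
    obtain ⟨g, hg⟩ : y ∈ orbit G (Quotient.mk (orbitRel G Y) y).out :=
      (orbitRel G Y).symm (Quotient.mk_out (s := orbitRel G Y) y)
    obtain ⟨h, hh⟩ := QuotientGroup.mk_out_eq_mul N.normalCore g
    refine ⟨(QuotientGroup.mk g, Quotient.mk _ y), g * (h : G)⁻¹ * g⁻¹,
      (N.normalCore.inv_mem h.2) g, ?_⟩
    simp only [r, hh, smul_smul]
    rw [show g * (h : G)⁻¹ * g⁻¹ * (g * h) = g by group]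
    exact hg.symm
  have h2 := fun t : T => PFGzero.one (stabilizer G (r t)) (hst _) hne hA N (z (r t)) (hz _)
    fun g hg hg' x => by
      have := hinv g hg' (r t) x
      rwa [mem_stabilizer_iff.mp hg] at this
  choose N' hN' c hc hc' using h2
  let N1 := (N ⊓ ⨅ t, N' t).normalCore
  haveI : (⨅ t, N' t).FiniteIndex := Subgroup.finiteIndex_iInf hN'
  have hle : N1 ≤ N := fun g hg => (Subgroup.normalCore_le _ hg).1
  obtain ⟨f, hf, hf'⟩ := equiv_choice (G := G) (Y := Y)
    (fun g (c : (Fin 1 → X) → A) x => c (g⁻¹ • x)) (by simp)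
    (fun g h c => by funext x; rw [mul_inv_rev, mul_smul]) N1 (fun y c => D c = z y)
    (fun g hg y c h => by
      funext x
      rw [D_smul, h, ← hinv g (hle hg), smul_inv_smul]) (fun y => by
      obtain ⟨t, m, hm, rfl⟩ := h1 y
      refine ⟨fun x => c t (m⁻¹ • x), ?_, fun g hg h => ?_⟩
      · funext x
        rw [D_smul, hc, ← hinv m hm, smul_inv_smul]
      · funext x
        have h3 : m⁻¹ * g⁻¹ * m ∈ N' t := by
          have := (N1.inv_mem hg) m⁻¹
          rw [inv_inv] at this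
          exact Subgroup.mem_iInf.mp this.2 t
        have h4 : m⁻¹ * g⁻¹ * m ∈ stabilizer G (r t) := by
          rw [mem_stabilizer_iff, mul_smul, mul_smul, inv_smul_eq_iff, inv_smul_eq_iff, h]
        have := hc' t _ h4 h3 (m⁻¹ • x)
        rwa [smul_smul, mul_inv_cancel_right, mul_smul] at this)
  refine ⟨N1, inferInstance, hle, f, hf, fun g hg y x => ?_⟩
  rw [hf' g hg]
  simp only [inv_smul_smul]

end Pool.Agent.P.MP_e794d7_al.X
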