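import Pool.Agent.P.MP_e794d7_al.X.PGeo2

/-! The local geometry of the reflection group. -/

set_option autoImplicit false

namespace Pool.Agent.P.MP_e794d7_al.X

namespace PGeo

open Pos
open scoped Classical

variable {ι : Type} [Fintype ι] {M : ι → ι → ℕ} (R : Rep M)

theorem bf_symm (hM : Big M) (u v : ι → ℝ) : Bf M u v = Bf M v u := by
  simp only [Bf, Matrix.toBilin'_apply, Matrix.of_apply]
  rw [Finset.sum_comm]
  refine Finset.sum_congr rfl fun i _ => Finset.sum_congr rfl fun j _ => ?_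
  by_cases h : i = j
  · subst h
    ring
  · rw [if_neg h, if_neg (Ne.symm h), hM.symm j i]
    ring

theorem bf_al (a : ι) : Bf M (al a) (al a) = 2 := by
  simp [Bf, al, Matrix.toBilin'_single]

theorem act_inv (w : R.W) (v : ι → ℝ) : R.act w⁻¹ (R.act w v) = v := by
  rw [← LinearEquiv.mul_apply, ← map_mul, inv_mul_cancel, map_one]
  rfl

theorem act_inv' (w : R.W) (v : ι → ℝ) : R.act w (R.act w⁻¹ v) = v := by
  rw [← LinearEquiv.mul_apply, ← map_mul, mul_inv_cancel, map_one]
  rfl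

theorem act_mul (w w' : R.W) (v : ι → ℝ) : R.act (w * w') v = R.act w (R.act w' v) := by
  rw [map_mul, LinearEquiv.mul_apply]

theorem bf_act (hM : Big M) (w : R.W) : ∀ u v, Bf M (R.act w u) (R.act w v) = Bf M u v := by
  have hw : w ∈ Subgroup.closure (Set.range R.σ) := by
    rw [R.gen]
    trivial
  induction hw using Subgroup.closure_induction with
  | mem x hx =>
    obtain ⟨a, rfl⟩ := hx
    intro u v
    rw [R.act_σ, R.act_σ]
    simp only [map_sub, map_smul, LinearMap.sub_apply, LinearMap.smul_apply, smul_eq_mul, bf_al,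
      bf_symm hM u (al a)]
    ring
  | one => intro u v; rw [map_one]; rfl
  | mul x y _ _ hx hy => intro u v; rw [act_mul, act_mul, hx, hy]
  | inv x _ hx => intro u v; rw [← hx, act_inv', act_inv']

theorem act_col (hM : Big M) (w : R.W) (a : ι) (v : ι → ℝ) :
    R.act (R.pos.col w a) v = v - Bf M (R.act w (al a)) v • R.act w (al a) := by
  change R.act (w * R.σ a * w⁻¹) v = _
  rw [act_mul, act_mul, R.act_σ, map_sub, map_smul, act_inv', ← bf_act R hM w, act_inv']

theorem col_of_root (hM : Big M) {w w' : R.W} {a a' : ι}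
    (h : R.act w (al a) = R.act w' (al a')) : R.pos.col w a = R.pos.col w' a' :=
  R.inj (LinearEquiv.ext fun v => by rw [act_col R hM, act_col R hM, h])

theorem root_of_col (hM : Big M) {w w' : R.W} {a a' : ι} (h : R.pos.col w a = R.pos.col w' a') :
    R.act w (al a) = R.act w' (al a') ∨ R.act w (al a) = -R.act w' (al a') := by
  have h1 := act_col R hM w a (R.act w (al a))
  rw [h, act_col R hM, bf_act R hM, bf_al, sub_right_inj] at h1
  set t := Bf M (R.act w' (al a')) (R.act w (al a)) with ht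
  have h2 : R.act w (al a) = (t / 2) • R.act w' (al a') := by
    rw [div_eq_inv_mul, mul_smul, h1, smul_smul]
    norm_num
  have h3 := bf_act R hM w (al a) (al a)
  rw [h2, map_smul, map_smul, LinearMap.smul_apply, bf_act R hM, bf_al, bf_al, smul_eq_mul,
    smul_eq_mul] at h3
  have h4 : (t / 2 - 1) * (t / 2 + 1) = 0 := by linarith
  rcases mul_eq_zero.1 h4 with h5 | h5
  · left
    rw [h2, show t / 2 = 1 by linarith, one_smul]
  · right
    rw [h2, show t / 2 = -1 by linarith, neg_one_smul]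

theorem act_sg (w : R.W) (a : ι) : R.act (w * R.σ a) (al a) = -R.act w (al a) := by
  rw [act_mul, R.act_σ, bf_al, ← map_neg]
  congr 1
  rw [two_smul]
  abel

theorem root_ne (hM : Big M) (w : R.W) (a : ι) : R.act w (al a) ≠ 0 := fun h => by
  have := bf_act R hM w (al a) (al a)
  rw [h, map_zero, bf_al] at this
  norm_num at this

variable (hS : ∀ β, R.IsRoot β → 0 ≤ β ∨ β ≤ 0)
include hS

theorem ng_neg (hM : Big M) (g w : R.W) (a : ι) :
    R.Ng g (-R.act w (al a)) ↔ ¬ R.Ng g (R.act w (al a)) := by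
  unfold Rep.Ng
  rw [map_neg, neg_nonpos, ← act_mul]
  exact ⟨fun h h' => root_ne R hM _ a (le_antisymm h' h),
    fun h => (hS _ ⟨_, a, rfl⟩).resolve_right h⟩

omit hS in
theorem not_ng (g : R.W) (a : ι) : ¬ R.Ng g (R.act g (al a)) := fun h => by
  unfold Rep.Ng at h
  rw [act_inv] at h
  have := h a
  simp [al] at this
  linarith

theorem ng_step (hB : R.pos.Bas M) {g w : R.W} {a b : ι} (hc : R.pos.col g a ≠ R.pos.col w b)
    (h : R.Ng (g * R.σ a) (R.act w (al b))) : R.Ng g (R.act w (al b)) := by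
  have hM := hB.big
  have hs : (R.σ a)⁻¹ = R.σ a := by
    have : 1 * R.σ a * R.σ a = 1 := hB.rr a (1 : R.W)
    rw [one_mul] at this
    exact inv_eq_of_mul_eq_one_right this
  unfold Rep.Ng at h ⊢
  rw [mul_inv_rev, act_mul, hs, R.act_σ] at h
  have hr : R.act g⁻¹ (R.act w (al b)) = R.act (g⁻¹ * w) (al b) := (act_mul R _ _ _).symm
  set δ := R.act g⁻¹ (R.act w (al b)) with hδ
  refine (hS δ ⟨_, b, hr⟩).resolve_left fun h0 => hc ?_
  have h1 : δ = δ a • al a := by
    funext i
    by_cases hi : i = a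
    · subst hi
      simp [al]
    · have h2 := h i
      have h3 := h0 i
      simp [al, hi] at h2 h3 ⊢
      exact le_antisymm h2 h3
  have h2 := bf_act R hM (g⁻¹ * w) (al b) (al b)
  rw [← hr, h1, map_smul, map_smul, LinearMap.smul_apply, bf_al, bf_al, smul_eq_mul,
    smul_eq_mul] at h2
  have h3 : δ a = 1 := by
    have h4 : 0 ≤ δ a := h0 a
    nlinarith
  rw [h3, one_smul] at h1
  refine col_of_root R hM ?_
  rw [← h1, hδ, act_inv']

omit hS in
/-- the side function -/
noncomputable def ee (g c : R.W) : Bool :=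
  decide (∃ w a, c = R.pos.col w a ∧ 0 ≤ R.act w (al a) ∧ R.Ng g (R.act w (al a)))

omit hS in
theorem ee_pos (hM : Big M) (g w : R.W) (a : ι) (h0 : 0 ≤ R.act w (al a)) :
    ee R g (R.pos.col w a) = true ↔ R.Ng g (R.act w (al a)) := by
  unfold ee
  rw [decide_eq_true_iff]
  refine ⟨?_, fun h => ⟨w, a, rfl, h0, h⟩⟩
  rintro ⟨w', a', h1, h2, h3⟩
  rcases root_of_col R hM h1 with h4 | h4
  · rwa [h4]
  · rw [h4, neg_nonneg] at h0
    exact (root_ne R hM _ _ (le_antisymm h0 h2)).elim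

theorem ee_iff (hB : R.pos.Bas M) (g D w : R.W) (a : ι) :
    ee R g (R.pos.col w a) = ee R D (R.pos.col w a) ↔
      (R.Ng g (R.act w (al a)) ↔ R.Ng D (R.act w (al a))) := by
  have hM := hB.big
  rcases hS _ ⟨w, a, rfl⟩ with h | h
  · rw [Bool.eq_iff_iff, ee_pos R hM g w a h, ee_pos R hM D w a h]
  · have h0 : 0 ≤ R.act (w * R.σ a) (al a) := by rwa [act_sg, neg_nonneg]
    have e1 : R.pos.col (w * R.σ a) a = R.pos.col w a := hB.col_r a w
    rw [← e1, Bool.eq_iff_iff, ee_pos R hM g _ a h0, ee_pos R hM D _ a h0, act_sg,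
      ng_neg R hS hM, ng_neg R hS hM, not_iff_not]

theorem ee_eps (hB : R.pos.Bas M) : R.pos.Eps (ee R) := by
  intro a (x : R.W) (c : R.W)
  by_cases h : R.pos.col x a = c
  · subst h
    have h1 := (ee_iff R hS hB (R.pos.r a x) x x a).not.2 fun h => by
      have h2 := not_ng R (x * R.σ a) a
      rw [act_sg, ng_neg R hS hB.big, not_not] at h2
      exact not_ng R x a (h.1 h2)
    revert h1
    cases ee R (R.pos.r a x) (R.pos.col x a) <;> cases ee R x (R.pos.col x a) <;> simp
  · rw [decide_eq_false h, Bool.xor_false]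
    by_cases hc : ∃ w b, c = R.pos.col w b
    · obtain ⟨w, b, rfl⟩ := hc
      refine (ee_iff R hS hB _ x w b).2 ⟨ng_step R hS hB h, fun h1 => ?_⟩
      refine ng_step R hS hB (g := x * R.σ a) (a := a) ((hB.col_r a x).trans_ne h) ?_
      have e1 : x * R.σ a * R.σ a = x := hB.rr a x
      rwa [e1]
    · have key : ∀ g, ee R g c = false := fun g =>
        decide_eq_false fun ⟨w, b, h1, _⟩ => hc ⟨w, b, h1⟩
      exact (key _).trans (key _).symm

theorem sep_of_sd (hB : R.pos.Bas M) {D w w' : R.W} {a a' : ι}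
    (h : R.SD (R.act w (al a)) (R.act w' (al a')))
    (h1 : ee R w (R.pos.col w a) = ee R D (R.pos.col w a))
    (h2 : ee R w' (R.pos.col w' a') = ee R D (R.pos.col w' a')) :
    Sep (P := R.pos) (ee R) D (R.pos.col w a) (R.pos.col w' a') := by
  intro (g : R.W)
  rw [← h1, ← h2]
  refine Or.imp (ee_iff R hS hB g w w a).2 (ee_iff R hS hB g w' w' a').2 ?_
  have h3 := h.1 g
  have h4 := not_ng R w a
  have h5 := not_ng R w' a'
  tauto

theorem orient (hB : R.pos.Bas M) (D w : R.W) (a : ι) :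
    ∃ u, R.pos.col u a = R.pos.col w a ∧ ¬ R.Ng D (R.act u (al a)) := by
  by_cases h : R.Ng D (R.act w (al a))
  · exact ⟨w * R.σ a, hB.col_r a w, by rwa [act_sg, ng_neg R hS hB.big, not_not]⟩
  · exact ⟨w, rfl, h⟩

theorem sd_of_sep (hB : R.pos.Bas M) {D w w' : R.W} {a a' : ι}
    (h : Sep (P := R.pos) (ee R) D (R.pos.col w a) (R.pos.col w' a'))
    (h1 : ¬ R.Ng D (R.act w (al a))) (h2 : ¬ R.Ng D (R.act w' (al a'))) :
    R.SD (R.act w (al a)) (R.act w' (al a')) := by
  refine ⟨fun g => ?_, D, h1, h2⟩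
  have h3 := h g
  rw [ee_iff R hS hB, ee_iff R hS hB] at h3
  tauto

end PGeo

open PGeo in
theorem p_geo (hSign : S_Sign) (hBas : S_Bas) (hBSD : S_BSD) (hNC : S_NC) : S_Geo := by
  intro ι _ M R hM
  have hS := hSign ι M R hM
  have hB := hBas ι M R hM
  obtain ⟨n1, n2, n3⟩ := hNC ι M R hM
  have he := ee_eps R hS hB
  have H : Ctx R.pos M (ee R) := by
    refine ⟨hB, he, ?_, ?_, ?_⟩
    · intro D a b b' n n' h1 h2 h3 h4 h5 h6 h7 h8 h9
      exact sep_of_sd R hS hB (n1 D a b b' n n' h1 h2 h3 h4 h5 h6 h7 h8 h9)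
        (hB.e_go_le he h1 D h5 le_rfl) (hB.e_go_le he h2 D h7 le_rfl)
    · intro D a b a' b' n n' h1 h2 h3 h4 h5 h6 h7 h8 h9
      exact sep_of_sd R hS hB (n2 D a b a' b' n n' h1 h2 h3 h4 h5 h6 h7 h8 h9)
        (hB.e_go_le he h1 D (by omega) le_rfl) (hB.e_go_le he h2 D h9 le_rfl)
    · intro D a b h1 h2
      exact sep_of_sd R hS hB (n3 D a b h1 h2) rfl rfl
  refine H.geo fun D w a w' a' h => ?_
  obtain ⟨u, e1, h1⟩ := orient R hS hB D w a
  obtain ⟨u', e2, h2⟩ := orient R hS hB D w' a'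
  rw [← e1, ← e2] at h ⊢
  exact (hBSD ι M R hM).2 u a u' a' (sd_of_sep R hS hB h h1 h2)

end Pool.Agent.P.MP_e794d7_al.X
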