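import Pool.Agent.P.MP_e794d7_al.X.BasX

/-! Every root is positive or negative. -/

set_option autoImplicit false

namespace Pool.Agent.P.MP_e794d7_al.X

namespace Sign

open scoped Classical

theorem U_sin (θ : ℝ) : ∀ n : ℕ, U (2 * Real.cos θ) n * Real.sin θ = Real.sin (n * θ)
  | 0 => by simp [U]
  | 1 => by simp [U]
  | n + 2 => by
    have h1 := U_sin θ (n + 1)
    have h2 := U_sin θ n
    have e1 : ((n + 2 : ℕ) : ℝ) * θ = ((n + 1 : ℕ) : ℝ) * θ + θ := by push_cast; ring
    have e2 : (n : ℝ) * θ = ((n + 1 : ℕ) : ℝ) * θ - θ := by push_cast; ring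
    rw [e2, Real.sin_sub] at h2
    rw [U, e1, Real.sin_add]
    linear_combination (2 * Real.cos θ) * h1 - h2

theorem U_two : ∀ n : ℕ, U (2 : ℝ) n = n
  | 0 => by simp [U]
  | 1 => by simp [U]
  | n + 2 => by
    rw [U, U_two (n + 1), U_two n]
    push_cast
    ring

theorem sin_pos {m : ℕ} (hm : 2 ≤ m) : 0 < Real.sin (Real.pi / m) := by
  have h1 : (2 : ℝ) ≤ m := by exact_mod_cast hm
  refine Real.sin_pos_of_pos_of_lt_pi (div_pos Real.pi_pos (by linarith)) ?_
  exact div_lt_self Real.pi_pos (by linarith)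

theorem U_top {m : ℕ} (hm : 2 ≤ m) : U (cst m) m = 0 := by
  have h1 : (2 : ℝ) ≤ m := by exact_mod_cast hm
  have h2 := U_sin (Real.pi / m) m
  rw [mul_div_cancel₀ _ (by linarith : (m : ℝ) ≠ 0), Real.sin_pi] at h2
  rw [cst, if_neg (by omega)]
  exact (mul_eq_zero.1 h2).resolve_right (sin_pos hm).ne'

theorem U_nonneg {m n : ℕ} (hm : 2 ≤ m) (hn : n ≤ m) : 0 ≤ U (cst m) n := by
  have h1 : (2 : ℝ) ≤ m := by exact_mod_cast hm
  have h3 : (n : ℝ) ≤ m := by exact_mod_cast hn
  have h2 := U_sin (Real.pi / m) n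
  have h4 : 0 ≤ Real.sin (n * (Real.pi / m)) := by
    refine Real.sin_nonneg_of_nonneg_of_le_pi (by have := Real.pi_pos; positivity) ?_
    rw [← mul_div_assoc, div_le_iff₀ (by linarith)]
    have := Real.pi_pos
    nlinarith
  rw [cst, if_neg (by omega)]
  rw [← h2] at h4
  exact nonneg_of_mul_nonneg_left h4 (sin_pos hm)

variable {ι : Type} [Fintype ι] {M : ι → ι → ℕ} (R : Rep M)

theorem Bf_al (a b : ι) : Bf M (al a) (al b) = if a = b then 2 else -cst (M a b) :=
  Matrix.toBilin'_single _ a b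

theorem Bf_aa (a : ι) : Bf M (al a) (al a) = 2 := by rw [Bf_al, if_pos rfl]

theorem act_al (a : ι) : R.act (R.σ a) (al a) = -al a := by
  rw [R.act_σ, Bf_aa]
  module

theorem sq (a : ι) : R.σ a * R.σ a = 1 := by
  apply R.inj
  rw [map_mul, map_one]
  ext v : 1
  rw [LinearEquiv.mul_apply, R.act_σ a v, map_sub, map_smul, act_al, R.act_σ]
  simp

theorem rk (h : Big M) {a b : ι} (hab : a ≠ b) :
    Rk2 (Bf M) (cst (M a b)) (al a) (al b) (R.act (R.σ a)) (R.act (R.σ b)) :=
  ⟨Bf_aa a, Bf_aa b, by rw [Bf_al, if_neg hab], by rw [Bf_al, if_neg hab.symm, h.symm],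
    R.act_σ a, R.act_σ b⟩

/-- the walk, with values in the group -/
def wk (w : R.W) (a b : ι) : ℕ → R.W
  | 0 => w
  | n + 1 => wk w a b n * R.σ (el a b n)

theorem wk_alt (w : R.W) (a b : ι) (n : ℕ) : wk R w a b n = w * alt (R.σ a) (R.σ b) n := by
  induction n with
  | zero => simp [wk, alt_zero]
  | succ n ih => rw [wk, ih, alt_succ, mul_assoc, el, apply_ite R.σ]

theorem wk_back (w : R.W) (a b : ι) (n : ℕ) :
    wk R w a b n * alt (R.σ (el a b (n + 1))) (R.σ (el a b n)) n = w := by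
  induction n with
  | zero => simp [wk, alt_zero]
  | succ n ih =>
    rw [wk, alt_succ', el_add_two, mul_assoc, ← mul_assoc (R.σ _), sq, one_mul, ih]

theorem braid (h : Big M) {a b : ι} (hab : Adj M a b) :
    alt (R.σ a) (R.σ b) (M a b) = alt (R.σ b) (R.σ a) (M a b) := by
  apply R.inj
  rw [map_alt, map_alt]
  exact (rk R h hab.1).braid (U_top (by have := h.six a b hab; omega))

/-- `w` is a product of `n` generators -/
def Wd : ℕ → R.W → Prop
  | 0, w => w = 1
  | n + 1, w => ∃ t, Wd n (w * R.σ t)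

theorem wd_mul {n : ℕ} {w : R.W} (h : Wd R n w) (t : ι) : Wd R (n + 1) (w * R.σ t) :=
  ⟨t, by rwa [mul_assoc, sq, mul_one]⟩

theorem exists_wd (w : R.W) : ∃ n, Wd R n w := by
  have hw : w ∈ Subgroup.closure (Set.range R.σ) := by rw [R.gen]; trivial
  induction hw using Subgroup.closure_induction_right with
  | one => exact ⟨0, rfl⟩
  | mul_right x _ y hy ih =>
    obtain ⟨t, rfl⟩ := hy
    obtain ⟨n, hn⟩ := ih
    exact ⟨n + 1, wd_mul R hn t⟩
  | mul_inv_cancel x _ y hy ih =>
    obtain ⟨t, rfl⟩ := hy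
    obtain ⟨n, hn⟩ := ih
    rw [inv_eq_of_mul_eq_one_right (sq R t)]
    exact ⟨n + 1, wd_mul R hn t⟩

/-- the length -/
noncomputable def len (w : R.W) : ℕ := Nat.find (exists_wd R w)

theorem len_mul (w : R.W) (t : ι) : len R (w * R.σ t) ≤ len R w + 1 :=
  Nat.find_min' _ (wd_mul R (Nat.find_spec (exists_wd R w)) t)

theorem len_le (w : R.W) (t : ι) : len R w ≤ len R (w * R.σ t) + 1 := by
  have := len_mul R (w * R.σ t) t
  rwa [mul_assoc, sq, mul_one] at this

theorem len_cases (w : R.W) : w = 1 ∨ ∃ t, len R (w * R.σ t) + 1 ≤ len R w := by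
  have h : Wd R (len R w) w := Nat.find_spec (exists_wd R w)
  rcases e : len R w with _ | n
  · rw [e] at h
    exact Or.inl h
  · rw [e] at h
    obtain ⟨t, ht⟩ := h
    exact Or.inr ⟨t, Nat.succ_le_succ (Nat.find_min' _ ht)⟩

theorem len_wk (w : R.W) (a b : ι) (n : ℕ) : len R w ≤ len R (wk R w a b n) + n := by
  induction n with
  | zero => simp [wk]
  | succ n ih =>
    have := len_le R (wk R w a b n) (el a b n)
    rw [wk]
    omega

omit [Fintype ι] in
theorem al_nonneg (a : ι) : 0 ≤ al a := by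
  intro i
  rw [al, Pi.single_apply]
  split_ifs <;> simp

theorem pos_of_asc (h : Big M) : ∀ (n : ℕ) (w : R.W), len R w ≤ n → ∀ s,
    len R w ≤ len R (w * R.σ s) → 0 ≤ R.act w (al s) := by
  intro n
  induction n using Nat.strong_induction_on with
  | _ n ih =>
  intro w hw s hs
  rcases len_cases R w with rfl | ⟨t, ht⟩
  · rw [map_one]
    exact al_nonneg s
  have hts : t ≠ s := by
    rintro rfl
    omega
  have hex : ∃ k, len R w < len R (wk R w t s (k + 1)) + (k + 1) := ⟨len R w, by omega⟩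
  have k1 := Nat.find_spec hex
  have k2 : ∀ j, j ≤ Nat.find hex → len R (wk R w t s j) + j ≤ len R w := by
    intro j hj
    rcases j with _ | j
    · simp [wk]
    · exact not_lt.1 (Nat.find_min hex (by omega))
  have k0 : Nat.find hex ≠ 0 := by
    intro e
    rw [e] at k1
    simp only [wk, el_zero] at k1
    omega
  generalize Nat.find hex = k at k1 k2 k0
  obtain ⟨j, rfl⟩ : ∃ j, k = j + 1 := ⟨k - 1, by omega⟩
  have k3 := k2 (j + 1) le_rfl
  have p1 : 0 ≤ R.act (wk R w t s (j + 1)) (al (el t s (j + 1))) := by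
    refine ih (len R (wk R w t s (j + 1))) (by omega) _ le_rfl _ ?_
    rw [wk] at k1
    omega
  have p2 : 0 ≤ R.act (wk R w t s (j + 1)) (al (el t s (j + 1 + 1))) := by
    refine ih (len R (wk R w t s (j + 1))) (by omega) _ le_rfl _ ?_
    have e : wk R w t s (j + 1) * R.σ (el t s (j + 1 + 1)) = wk R w t s j := by
      rw [wk, el_add_two, mul_assoc, sq, mul_one]
    have := len_wk R w t s j
    rw [e]
    omega
  have hU : ∀ i, i ≤ j + 1 + 1 → 0 ≤ U (cst (M t s)) i := by
    intro i hi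
    by_cases h0 : M t s = 0
    · rw [h0, cst, if_pos rfl, U_two]
      exact Nat.cast_nonneg i
    have h6 := h.six t s ⟨hts, h0⟩
    refine U_nonneg (by omega) (hi.trans ?_)
    by_contra hc
    have k4 := k2 (M t s) (by omega)
    obtain ⟨m, hm⟩ : ∃ m, M t s = m + 1 := ⟨M t s - 1, by omega⟩
    have e : wk R w t s (M t s) = wk R (w * R.σ s) t s m := by
      rw [wk_alt, wk_alt, braid R h ⟨hts, h0⟩, hm, alt_succ', mul_assoc]
    have := len_wk R (w * R.σ s) t s m
    rw [e] at k4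
    omega
  have hne : el t s (j + 1 + 1) ≠ el t s (j + 1) := by
    rcases el_cases t s (j + 1) with ⟨e1, e2⟩ | ⟨e1, e2⟩ <;> rw [e1, e2]
    exacts [hts.symm, hts]
  have hM : M (el t s (j + 1 + 1)) (el t s (j + 1)) = M t s := by
    rw [h.symm, h.M_el]
  have hr := (rk R h hne).root (j + 1)
  have e1 : (if Even (j + 1) then al (el t s (j + 1 + 1)) else al (el t s (j + 1))) = al s := by
    by_cases hj : Even (j + 1)
    · rw [if_pos hj, el, if_neg (by rw [Nat.even_add_one]; simpa using hj)]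
    · rw [if_neg hj, el, if_neg hj]
  rw [e1, hM, ← map_alt R.act] at hr
  rw [← wk_back R w t s (j + 1), map_mul, LinearEquiv.mul_apply, hr, map_add, map_smul, map_smul]
  exact add_nonneg (smul_nonneg (hU _ le_rfl) p2) (smul_nonneg (hU _ (by omega)) p1)

end Sign

theorem p_sign : S_Sign := by
  rintro ι _ M R h β ⟨w, a, rfl⟩
  rcases le_total (Sign.len R w) (Sign.len R (w * R.σ a)) with h1 | h1
  · exact Or.inl (Sign.pos_of_asc R h _ w le_rfl a h1)
  · have h2 := Sign.pos_of_asc R h _ (w * R.σ a) le_rfl a (by rwa [mul_assoc, Sign.sq, mul_one])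
    rw [map_mul, LinearEquiv.mul_apply, Sign.act_al, map_neg] at h2
    exact Or.inr (neg_nonneg.1 h2)

end Pool.Agent.P.MP_e794d7_al.X
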