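import Pool.Agent.P.MP_e794d7_al.X.BasX

/-! Transfer of the local properties along morphisms of position systems. -/

set_option autoImplicit false

namespace Pool.Agent.P.MP_e794d7_al.X

namespace Tr

variable {ι : Type} {M : ι → ι → ℕ}

/-- chambers within `n` steps of the base chamber -/
def Bl (U : Pos ι) (o : U.X) : ℕ → U.X → Prop
  | 0, w => w = o
  | n + 1, w => Bl U o n w ∨ ∃ a v, Bl U o n v ∧ w = U.r a v

theorem bl_mono {U : Pos ι} {o w : U.X} {n n' : ℕ} (h : n ≤ n') (hw : Bl U o n w) :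
    Bl U o n' w := by
  induction h with
  | refl => exact hw
  | step _ ih => exact Or.inl ih

theorem bl_go {U : Pos ι} {o w : U.X} {n : ℕ} (hw : Bl U o n w) (a b : ι) :
    ∀ k, Bl U o (n + k) (U.go w a b k)
  | 0 => hw
  | k + 1 => Or.inr ⟨_, _, bl_go hw a b k, rfl⟩

theorem bl_fin [Finite ι] (U : Pos ι) (o : U.X) : ∀ n, {w | Bl U o n w}.Finite
  | 0 => Set.finite_singleton o
  | n + 1 => by
    refine ((bl_fin U o n).union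
      (Set.Finite.image2 U.r Set.finite_univ (bl_fin U o n))).subset ?_
    rintro w (h | ⟨a, v, h, rfl⟩)
    · exact Or.inl h
    · exact Or.inr ⟨a, trivial, v, h, rfl⟩

/-- colours near the base chamber -/
def Nc (U : Pos ι) (o : U.X) (L : ℕ) (c : U.Col) : Prop := ∃ w a, Bl U o L w ∧ c = U.col w a

/-- a morphism that is faithful near the base chamber -/
structure Mor (M : ι → ι → ℕ) (U P : Pos ι) (N : U.Col → U.Col → Prop) (o : U.X) (m₀ : ℕ) where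
  φ : U.X → P.X
  ψ : U.Col → P.Col
  bound : ∀ a b, M a b ≤ m₀
  φ_r : ∀ a w, φ (U.r a w) = P.r a (φ w)
  ψ_col : ∀ w a, ψ (U.col w a) = P.col (φ w) a
  inj : ∀ c c', Nc U o (3 * (2 * m₀)) c → Nc U o (3 * (2 * m₀)) c' → ψ c = ψ c' → c = c'
  nx : ∀ c c', Nc U o (3 * (2 * m₀)) c → Nc U o (3 * (2 * m₀)) c' → N c c' → P.NX M (ψ c) (ψ c')

namespace Mor

variable {U P : Pos ι} {N : U.Col → U.Col → Prop} {o : U.X} {m₀ : ℕ} (F : Mor M U P N o m₀)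

theorem φ_go (w : U.X) (a b : ι) : ∀ n, F.φ (U.go w a b n) = P.go (F.φ w) a b n
  | 0 => rfl
  | n + 1 => by rw [Pos.go_succ, Pos.go_succ, F.φ_r, φ_go w a b n]

theorem ψ_cc (w : U.X) (a b : ι) (n : ℕ) : F.ψ (U.cc w a b n) = P.cc (F.φ w) a b n := by
  rw [Pos.cc, Pos.cc, F.ψ_col, F.φ_go]

theorem bl_lv {j : ℕ} {w : U.X} (hw : Bl U o (j * (2 * m₀)) w) (a b : ι) {k : ℕ}
    (hk : k ≤ 2 * m₀) : Bl U o ((j + 1) * (2 * m₀)) (U.go w a b k) :=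
  bl_mono (by rw [add_mul, one_mul]; omega) (bl_go hw a b k)

theorem nc_col {j : ℕ} (hj : j ≤ 3) {w : U.X} (hw : Bl U o (j * (2 * m₀)) w) (a : ι) :
    Nc U o (3 * (2 * m₀)) (U.col w a) := ⟨w, a, bl_mono (Nat.mul_le_mul_right _ hj) hw, rfl⟩

theorem nc_cc {j : ℕ} (hj : j ≤ 2) {w : U.X} (hw : Bl U o (j * (2 * m₀)) w) (a b : ι) {k : ℕ}
    (hk : k ≤ 2 * m₀) : Nc U o (3 * (2 * m₀)) (U.cc w a b k) :=
  nc_col (j := j + 1) (by omega) (bl_lv hw a b hk) _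

theorem bl_o : Bl U o (0 * (2 * m₀)) o := by rw [Nat.zero_mul]; rfl

theorem lift_res (hB : U.Bas M) {j : ℕ} {w : U.X} (hw : Bl U o (j * (2 * m₀)) w) {a b : ι}
    (hab : Adj M a b) {y : P.X} (hy : P.Res (F.φ w) a b y) :
    ∃ v, U.Res w a b v ∧ Bl U o ((j + 1) * (2 * m₀)) v ∧ y = F.φ v := by
  obtain ⟨n, rfl⟩ := hy
  obtain ⟨k, hk, e⟩ := hB.res_lt hab (Pos.res_go w a b n)
  have := F.bound a b
  exact ⟨_, ⟨k, rfl⟩, bl_lv hw a b (by omega), by rw [e, F.φ_go]⟩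

theorem lift_thru (hB : U.Bas M) {j : ℕ} (hj : j ≤ 2) {w : U.X} (hw : Bl U o (j * (2 * m₀)) w)
    {a b : ι} (hab : Adj M a b) {c : P.Col} (hc : P.Thru (F.φ w) a b c) :
    ∃ c₀, U.Thru w a b c₀ ∧ Nc U o (3 * (2 * m₀)) c₀ ∧ c = F.ψ c₀ := by
  obtain ⟨n, rfl⟩ := hc
  obtain ⟨k, hk, e⟩ := hB.thru_lt hab (⟨n, rfl⟩ : U.Thru w a b (U.cc w a b n))
  have := F.bound a b
  exact ⟨_, ⟨k, rfl⟩, nc_cc hj hw a b (by omega), by rw [e, F.ψ_cc]⟩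

theorem lift_deep {j : ℕ} (hj : j ≤ 2) {w : U.X} (hw : Bl U o (j * (2 * m₀)) w) {a b : ι}
    {c : P.Col} (hc : P.Deep M (F.φ w) a b c) :
    ∃ c₀, U.Deep M w a b c₀ ∧ Nc U o (3 * (2 * m₀)) c₀ ∧ c = F.ψ c₀ := by
  obtain ⟨k, h1, h2, rfl⟩ := hc
  have := F.bound a b
  exact ⟨_, ⟨k, h1, h2, rfl⟩, nc_cc hj hw a b (by omega), by rw [F.ψ_cc]⟩

theorem lift_deep1 {j : ℕ} (hj : j ≤ 2) {w : U.X} (hw : Bl U o (j * (2 * m₀)) w) {a b : ι}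
    {c : P.Col} (hc : P.Deep1 M (F.φ w) a b c) :
    ∃ c₀, U.Deep1 M w a b c₀ ∧ Nc U o (3 * (2 * m₀)) c₀ ∧ c = F.ψ c₀ := by
  obtain ⟨k, h1, h2, rfl⟩ := hc
  have := F.bound a b
  exact ⟨_, ⟨k, h1, h2, rfl⟩, nc_cc hj hw a b (by omega), by rw [F.ψ_cc]⟩

theorem lift_O1 (hB : U.Bas M) {s t a b : ι} {y : P.X} (h : P.O1 M (F.φ o) s t y a b) :
    ∃ v, U.O1 M o s t v a b ∧ Bl U o (1 * (2 * m₀)) v ∧ y = F.φ v := by
  obtain ⟨v, h1, h2, rfl⟩ := F.lift_res hB bl_o h.adj h.res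
  refine ⟨v, ⟨h.adj, h1, h.mem, fun e => h.ne ⟨e.1, ?_⟩, h.bs, h.bt, h.adj'⟩, h2, rfl⟩
  rcases e.2 with rfl | rfl
  · exact Or.inl rfl
  · exact Or.inr (F.φ_r _ _)

theorem lift_In1 {s t a : ι} {v : U.X} (h : P.In1 (F.φ o) s t (F.φ v) a) : U.In1 o s t v a := by
  intro y hy g hg e
  refine h (F.φ y) ?_ g hg (by rw [← F.ψ_col, ← F.ψ_col, e])
  rcases hy with rfl | rfl
  · exact Or.inl rfl
  · exact Or.inr (F.φ_r _ _)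

theorem lift_Ap (hB : U.Bas M) {s t t1 t2 : ι} {z : P.X} (h : P.Ap M (F.φ o) s t z t1 t2) :
    ∃ v, U.Ap M o s t v t1 t2 ∧ Bl U o (1 * (2 * m₀)) v ∧ z = F.φ v := by
  obtain ⟨v, h1, h2, rfl⟩ := F.lift_res hB bl_o h.adj h.res
  obtain ⟨g, g1, g2, g3⟩ := h.wall
  refine ⟨v, ⟨h.adj, h1, h.mem, ⟨g, g1, g2, ?_⟩, h.ts, h.tt, h.adj'⟩, h2, rfl⟩
  exact F.inj _ _ (nc_col (by omega) h2 _) (nc_col (by omega) bl_o _)
    (by rw [F.ψ_col, F.ψ_col, g3])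

theorem lift_O2 (hB : U.Bas M) {t1 t2 a b : ι} {z : U.X} (hz : Bl U o (1 * (2 * m₀)) z)
    (ht : Adj M t1 t2) {y : P.X} (h : P.O2 M (F.φ z) t1 t2 y a b) :
    ∃ v, U.O2 M z t1 t2 v a b ∧ Bl U o (2 * (2 * m₀)) v ∧ y = F.φ v := by
  obtain ⟨v, h1, h2, rfl⟩ := F.lift_res hB hz ht h.res
  refine ⟨v, ⟨h1, h.mem, fun y hy => ?_, h.b1, h.b2, h.adj'⟩, h2, rfl⟩
  have h3 := h.far (F.φ y) (by
    rcases hy with rfl | rfl
    · exact Or.inl rfl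
    · exact Or.inr (F.φ_r _ _))
  exact ⟨fun e => h3.1 (by rw [e]), fun e => h3.2.1 (by rw [e, F.φ_r]),
    fun e => h3.2.2 (by rw [e, F.φ_r])⟩

theorem push_same {y y' : U.X} {a b a' b' : ι} (h : U.SameO y a b y' a' b') :
    P.SameO (F.φ y) a b (F.φ y') a' b' := by
  refine ⟨h.1, h.2.1, ?_⟩
  rcases h.2.2 with rfl | rfl
  · exact Or.inl rfl
  · exact Or.inr (F.φ_r _ _)

theorem ne_col {c : U.Col} {w : U.X} {a : ι} (h : F.ψ c ≠ P.col (F.φ w) a) : c ≠ U.col w a :=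
  fun e => h (by rw [e, F.ψ_col])

end Mor

variable {U P : Pos ι} {N : U.Col → U.Col → Prop} {o : U.X} {m₀ : ℕ}

theorem bas_of (hB : U.Bas M) (hF : ∀ x, ∃ F : Mor M U P N o m₀, F.φ o = x) : P.Bas M where
  big := hB.big
  rr a x := by
    obtain ⟨F, rfl⟩ := hF x
    rw [← F.φ_r, ← F.φ_r, hB.rr]
  col_r a x := by
    obtain ⟨F, rfl⟩ := hF x
    rw [← F.φ_r, ← F.ψ_col, ← F.ψ_col, hB.col_r]
  braid x a b hab := by
    obtain ⟨F, rfl⟩ := hF x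
    rw [← F.φ_go, ← F.φ_go, hB.braid o a b hab]
  per x a b hab := by
    obtain ⟨F, rfl⟩ := hF x
    rw [← F.ψ_cc, ← F.ψ_col, hB.per o a b hab]
  inj x a b i j hab hi hj e := by
    obtain ⟨F, rfl⟩ := hF x
    have := F.bound a b
    rw [← F.ψ_cc, ← F.ψ_cc] at e
    exact hB.inj o a b i j hab hi hj (F.inj _ _ (Mor.nc_cc (by omega) Mor.bl_o a b (by omega))
      (Mor.nc_cc (by omega) Mor.bl_o a b (by omega)) e)
  x2 x a b e := by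
    obtain ⟨F, rfl⟩ := hF x
    rw [← F.ψ_col, ← F.ψ_col] at e
    exact hB.x2 o a b (F.inj _ _ (Mor.nc_col (by omega) Mor.bl_o a)
      (Mor.nc_col (by omega) Mor.bl_o b) e)
  x1 x a b a' b' c hab hab' hs h1 h2 := by
    obtain ⟨F, rfl⟩ := hF x
    obtain ⟨c1, t1, n1, rfl⟩ := F.lift_thru hB (by omega) Mor.bl_o hab h1
    obtain ⟨c2, t2, n2, e⟩ := F.lift_thru hB (by omega) Mor.bl_o hab' h2
    obtain rfl := F.inj _ _ n1 n2 e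
    obtain ⟨g, g1, g2, rfl⟩ := hB.x1 o a b a' b' c1 hab hab' hs t1 t2
    exact ⟨g, g1, g2, F.ψ_col _ _⟩

theorem geo_of (hB : U.Bas M) (hG : U.Geo M N) (hF : ∀ x, ∃ F : Mor M U P N o m₀, F.φ o = x) :
    P.Geo M (P.NX M) where
  ncs x a b a' b' σ c hab hab' hs h1 h2 h3 h4 := by
    obtain ⟨F, rfl⟩ := hF x
    obtain ⟨σ, d1, n1, rfl⟩ := F.lift_deep1 (by omega) Mor.bl_o h1
    obtain ⟨c, t2, n2, rfl⟩ := F.lift_thru hB (by omega) Mor.bl_o hab' h2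
    exact F.nx _ _ n1 n2 (hG.ncs o a b a' b' σ c hab hab' hs d1 t2 (F.ne_col h3) (F.ne_col h4))
  g11 x s t y a b σ t' y' a' b' σ' h1 h2 h3 h4 h5 := by
    obtain ⟨F, rfl⟩ := hF x
    obtain ⟨y, o1, l1, rfl⟩ := F.lift_O1 hB h1
    obtain ⟨σ, d1, n1, rfl⟩ := F.lift_deep (by omega) l1 h3
    obtain ⟨y', o2, l2, rfl⟩ := F.lift_O1 hB h4
    obtain ⟨σ', d2, n2, rfl⟩ := F.lift_deep (by omega) l2 h5
    exact (hG.g11 o s t y a b σ t' y' a' b' σ' o1 (F.lift_In1 h2) d1 o2 d2).imp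
      (F.nx _ _ n1 n2) F.push_same
  g21 x s t z t1 t2 y a b σ t' y' a' b' σ' h1 h2 h3 h4 h5 := by
    obtain ⟨F, rfl⟩ := hF x
    obtain ⟨z, a1, k1, rfl⟩ := F.lift_Ap hB h1
    obtain ⟨y, o1, l1, rfl⟩ := F.lift_O2 hB k1 a1.adj' h2
    obtain ⟨σ, d1, n1, rfl⟩ := F.lift_deep (by omega) l1 h3
    obtain ⟨y', o2, l2, rfl⟩ := F.lift_O1 hB h4
    obtain ⟨σ', d2, n2, rfl⟩ := F.lift_deep (by omega) l2 h5
    refine (hG.g21 o s t z t1 t2 y a b σ t' y' a' b' σ' a1 o1 d1 o2 d2).imp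
      (F.nx _ _ n1 n2) fun e => ⟨?_, e.2⟩
    rcases e.1 with rfl | rfl
    · exact Or.inl rfl
    · exact Or.inr (F.φ_r _ _).symm
  g22 x s t z t1 t2 y a b σ t' z' t1' t2' y' a' b' σ' h1 h2 h3 h4 h5 h6 := by
    obtain ⟨F, rfl⟩ := hF x
    obtain ⟨z, a1, k1, rfl⟩ := F.lift_Ap hB h1
    obtain ⟨y, o1, l1, rfl⟩ := F.lift_O2 hB k1 a1.adj' h2
    obtain ⟨σ, d1, n1, rfl⟩ := F.lift_deep (by omega) l1 h3
    obtain ⟨z', a2, k2, rfl⟩ := F.lift_Ap hB h4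
    obtain ⟨y', o2, l2, rfl⟩ := F.lift_O2 hB k2 a2.adj' h5
    obtain ⟨σ', d2, n2, rfl⟩ := F.lift_deep (by omega) l2 h6
    exact (hG.g22 o s t z t1 t2 y a b σ t' z' t1' t2' y' a' b' σ' a1 o1 d1 a2 o2 d2).imp
      (F.nx _ _ n1 n2) F.push_same
  a1 x s t y a b σ t' c h1 h2 h3 h4 h5 h6 := by
    obtain ⟨F, rfl⟩ := hF x
    obtain ⟨y, o1, l1, rfl⟩ := F.lift_O1 hB h1
    obtain ⟨σ, d1, n1, rfl⟩ := F.lift_deep (by omega) l1 h3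
    obtain ⟨c, t2, n2, rfl⟩ := F.lift_thru hB (by omega) Mor.bl_o h4 h5
    exact F.nx _ _ n1 n2 (hG.a1 o s t y a b σ t' c o1 (F.lift_In1 h2) d1 h4 t2 (F.ne_col h6))
  a2 x s t z t1 t2 y a b σ t' c h1 h2 h3 h4 h5 h6 := by
    obtain ⟨F, rfl⟩ := hF x
    obtain ⟨z, a1, k1, rfl⟩ := F.lift_Ap hB h1
    obtain ⟨y, o1, l1, rfl⟩ := F.lift_O2 hB k1 a1.adj' h2
    obtain ⟨σ, d1, n1, rfl⟩ := F.lift_deep (by omega) l1 h3
    obtain ⟨c, u2, n2, rfl⟩ := F.lift_thru hB (by omega) Mor.bl_o h4 h5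
    exact F.nx _ _ n1 n2 (hG.a2 o s t z t1 t2 y a b σ t' c a1 o1 d1 h4 u2 (F.ne_col h6))
  b1 x s t y a b σ t' z' t1' t2' τ h1 h2 h3 h4 h5 := by
    obtain ⟨F, rfl⟩ := hF x
    obtain ⟨y, o1, l1, rfl⟩ := F.lift_O1 hB h1
    obtain ⟨σ, d1, n1, rfl⟩ := F.lift_deep (by omega) l1 h3
    obtain ⟨z', a2, k2, rfl⟩ := F.lift_Ap hB h4
    obtain ⟨τ, d2, n2, rfl⟩ := F.lift_deep1 (by omega) k2 h5
    exact F.nx _ _ n1 n2 (hG.b1 o s t y a b σ t' z' t1' t2' τ o1 (F.lift_In1 h2) d1 a2 d2)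
  b2 x s t z t1 t2 y a b σ t' z' t1' t2' τ h1 h2 h3 h4 h5 h6 := by
    obtain ⟨F, rfl⟩ := hF x
    obtain ⟨z, a1, k1, rfl⟩ := F.lift_Ap hB h1
    obtain ⟨y, o1, l1, rfl⟩ := F.lift_O2 hB k1 a1.adj' h2
    obtain ⟨σ, d1, n1, rfl⟩ := F.lift_deep (by omega) l1 h3
    obtain ⟨z', a2, k2, rfl⟩ := F.lift_Ap hB h4
    obtain ⟨τ, d2, n2, rfl⟩ := F.lift_deep1 (by omega) k2 h5
    exact F.nx _ _ n1 n2
      (hG.b2 o s t z t1 t2 y a b σ t' z' t1' t2' τ a1 o1 d1 a2 d2 (F.ne_col h6))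
  tt x s t z t1 t2 τ t' z' t1' t2' τ' h1 h2 h3 h4 := by
    obtain ⟨F, rfl⟩ := hF x
    obtain ⟨z, a1, k1, rfl⟩ := F.lift_Ap hB h1
    obtain ⟨τ, d1, n1, rfl⟩ := F.lift_deep1 (by omega) k1 h2
    obtain ⟨z', a2, k2, rfl⟩ := F.lift_Ap hB h3
    obtain ⟨τ', d2, n2, rfl⟩ := F.lift_deep1 (by omega) k2 h4
    exact (hG.tt o s t z t1 t2 τ t' z' t1' t2' τ' a1 d1 a2 d2).imp
      (F.nx _ _ n1 n2) fun e => ⟨by rw [e.1], e.2⟩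

end Tr

end Pool.Agent.P.MP_e794d7_al.X
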