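import Pool.Agent.P.MP_e794d7_al.X.PTr1
import Pool.Agent.P.MP_e794d7_al.X.PTr2

/-! Transfer of the local geometry to a finite quotient. -/

set_option autoImplicit false

namespace Pool.Agent.P.MP_e794d7_al.X

namespace Tr

open scoped Classical

variable {ι : Type} [Fintype ι] {M : ι → ι → ℕ} (R : Rep M)

theorem exists_fin (T : Set R.W) (hT : T.Finite) :
    ∃ (K : Type) (_ : Group K) (_ : Finite K) (f : R.W →* K), ∀ t ∈ T, t ≠ 1 → f t ≠ 1 := by
  induction T, hT using Set.Finite.induction_on with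
  | empty => exact ⟨PUnit, inferInstance, inferInstance, 1, fun t ht => ht.elim⟩
  | @insert t T _ _ ih =>
    obtain ⟨K, _, _, f, hf⟩ := ih
    by_cases h1 : t = 1
    · refine ⟨K, inferInstance, inferInstance, f, ?_⟩
      rintro u (rfl | hu) h
      · exact (h h1).elim
      · exact hf u hu h
    obtain ⟨K', _, _, f', hf'⟩ := R.rf t h1
    refine ⟨K × K', inferInstance, inferInstance, f.prod f', ?_⟩
    rintro u (rfl | hu) h e
    · exact hf' (congrArg Prod.snd e)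
    · exact hf u hu h (congrArg Prod.fst e)

theorem cc_eq (n : ℕ) : ∀ (w : R.W) (a b : ι),
    R.pos.cc w a b n = w * ((R.σ a * R.σ b) ^ n * R.σ a) * w⁻¹ := by
  induction n with
  | zero => intro w a b; rw [Pos.cc_zero, pow_zero, one_mul]; rfl
  | succ n ih =>
    intro w a b
    rw [Pos.cc_succ', ih]
    change w * R.σ a * ((R.σ b * R.σ a) ^ n * R.σ b) * (w * R.σ a)⁻¹ = _
    rw [mul_inv_rev, σ_inv, mul_pow_mul (R.σ b), pow_succ']
    simp only [mul_assoc]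

theorem cc_pow (hB : R.pos.Bas M) {a b : ι} (hab : Adj M a b) (i j : ℕ) :
    (((R.σ a * R.σ b) ^ i * R.σ a) * ((R.σ a * R.σ b) ^ j * R.σ a)) ^ M a b = 1 := by
  have h1 : (R.σ a * R.σ b) ^ M a b = 1 := by
    have h := hB.per (1 : R.W) a b hab
    rw [cc_eq] at h
    have h' : (1 : R.W) * ((R.σ a * R.σ b) ^ M a b * R.σ a) * 1⁻¹ = 1 * R.σ a * 1⁻¹ := h
    simpa using h'
  have h2 : R.σ a * ((R.σ a * R.σ b) ^ j * R.σ a) = ((R.σ a * R.σ b) ^ j)⁻¹ := by
    rw [mul_pow_mul, ← mul_assoc, Sign.sq, one_mul, ← inv_pow, mul_inv_rev, σ_inv, σ_inv]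
  rw [mul_assoc, h2]
  generalize R.σ a * R.σ b = ρ at h1
  rw [Commute.mul_pow ((Commute.refl ρ).pow_pow i j).inv_right, inv_pow, ← pow_mul, ← pow_mul,
    mul_comm i, mul_comm j, pow_mul, pow_mul, h1]
  simp

variable {K : Type} [Group K] (f : R.W →* K)

/-- the finite position system -/
@[reducible] noncomputable def fp : Pos ι where
  X := K × (K → ZMod 2)
  Col := K
  r a x := (x.1 * f (R.σ a), x.2 + Pi.single (x.1 * f (R.σ a) * x.1⁻¹) 1)
  col x a := x.1 * f (R.σ a) * x.1⁻¹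

variable (ν : R.W → R.W →₀ ZMod 2)

/-- the chamber map -/
noncomputable def ph (x : K × (K → ZMod 2)) (w : R.W) : K × (K → ZMod 2) :=
  (x.1 * f w, x.2 + ⇑(Finsupp.mapDomain (fun c => x.1 * f c * x.1⁻¹) (ν w)))

theorem ps_col (k : K) (w : R.W) (a : ι) :
    k * f (w * R.σ a * w⁻¹) * k⁻¹ = k * f w * f (R.σ a) * (k * f w)⁻¹ := by
  simp only [map_mul, map_inv, mul_inv_rev, mul_assoc]

theorem ph_r (hν : ∀ w s, ν (w * R.σ s) = ν w + Finsupp.single (cl R w s) 1)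
    (x : K × (K → ZMod 2)) (a : ι) (w : R.W) :
    ph R f ν x (w * R.σ a) = (fp R f).r a (ph R f ν x w) := by
  refine Prod.ext ?_ ?_
  · simp only [ph, map_mul, mul_assoc]
  · simp only [ph]
    rw [hν, Finsupp.mapDomain_add, Finsupp.mapDomain_single, Finsupp.coe_add, add_assoc, cl,
      ps_col, Finsupp.single_eq_pi_single]

theorem ph_one (h0 : ν 1 = 0) (x : K × (K → ZMod 2)) : ph R f ν x 1 = x := by
  refine Prod.ext ?_ ?_
  · simp only [ph, map_one, mul_one]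
  · simp only [ph, h0, Finsupp.mapDomain_zero, Finsupp.coe_zero, add_zero]

theorem fp_cc (n : ℕ) : ∀ (x : K × (K → ZMod 2)) (a b : ι),
    (fp R f).cc x a b n = x.1 * f ((R.σ a * R.σ b) ^ n * R.σ a) * x.1⁻¹ := by
  induction n with
  | zero => intro w a b; rw [Pos.cc_zero, pow_zero, one_mul]
  | succ n ih =>
    intro x a b
    rw [Pos.cc_succ', ih]
    have e : (R.σ a * R.σ b) ^ (n + 1) * R.σ a =
        R.σ a * ((R.σ b * R.σ a) ^ n * R.σ b) * (R.σ a)⁻¹ := by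
      rw [σ_inv, mul_pow_mul (R.σ b), pow_succ']
      simp only [mul_assoc]
    rw [e]
    simp only [map_mul, map_inv, mul_inv_rev, mul_assoc]

theorem col_sq (w : R.W) (a : ι) : w * R.σ a * w⁻¹ * (w * R.σ a * w⁻¹) = 1 := by
  rw [conj_mul, Sign.sq]; simp

theorem exists_mor (hB : R.pos.Bas M) (m₀ : ℕ) (hm : ∀ a b, M a b ≤ m₀) (h0 : ν 1 = 0)
    (hν : ∀ w s, ν (w * R.σ s) = ν w + Finsupp.single (cl R w s) 1)
    (hf : ∀ c c' : R.W, Nc R.pos (1 : R.W) (3 * (2 * m₀)) c → Nc R.pos (1 : R.W) (3 * (2 * m₀)) c' →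
      (c * c' ≠ 1 → f (c * c') ≠ 1) ∧
        ((c * c') ^ m₀.factorial ≠ 1 → f ((c * c') ^ m₀.factorial) ≠ 1))
    (x : K × (K → ZMod 2)) :
    ∃ F : Mor M R.pos (fp R f) R.Free2 (1 : R.W) m₀, F.φ (1 : R.W) = x := by
  have hinj : ∀ c c' : R.W, Nc R.pos (1 : R.W) (3 * (2 * m₀)) c →
      Nc R.pos (1 : R.W) (3 * (2 * m₀)) c' →
      x.1 * f c * x.1⁻¹ = x.1 * f c' * x.1⁻¹ → c * c' = 1 ∧ c' * c' = 1 := by
    intro c c' n1 n2 e
    have e1 : f c = f c' := mul_left_cancel (mul_right_cancel e)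
    have e2 : c' * c' = 1 := by
      obtain ⟨w, a, -, rfl⟩ := n2
      exact col_sq R w a
    refine ⟨?_, e2⟩
    by_contra h
    exact (hf c c' n1 n2).1 h (by rw [map_mul, e1, ← map_mul, e2, map_one])
  refine ⟨⟨ph R f ν x, fun c : R.W => x.1 * f c * x.1⁻¹, hm, fun a w => ph_r R f ν hν x a w,
    fun w a => ps_col R f x.1 w a, fun (c c' : R.W) n1 n2 e => ?_,
    fun (c c' : R.W) n1 n2 hN => ⟨fun e => ?_, ?_⟩⟩,
    ph_one R f ν h0 x⟩
  · obtain ⟨e1, e2⟩ := hinj c c' n1 n2 e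
    exact mul_right_cancel (G := R.W) (e1.trans e2.symm)
  · exact hN 1 le_rfl (by rw [pow_one]; exact (hinj c c' n1 n2 e).1)
  · rintro y a b hab ⟨i, hi⟩ ⟨j, hj⟩
    refine (hf c c' n1 n2).2 (hN _ m₀.factorial_pos) ?_
    rw [fp_cc] at hi hj
    obtain ⟨q, hq⟩ : M a b ∣ m₀.factorial := Nat.dvd_factorial (Nat.pos_of_ne_zero hab.2) (hm a b)
    have e1 := congrArg₂ (fun u v : K => (u * v) ^ M a b) hi hj
    simp only [conj_mul, conj_pow] at e1
    rw [← map_mul, ← map_pow, cc_pow R hB hab, map_one, ← map_mul, ← map_pow] at e1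
    have e2 : f ((c * c') ^ M a b) = 1 := by
      have e3 : x.1 * f ((c * c') ^ M a b) * x.1⁻¹ = 1 := by rw [← e1]; simp
      simpa using e3
    rw [hq, pow_mul, map_pow, e2, one_pow]

end Tr

open scoped Classical in
theorem p_tr : S_Tr := by
  intro ι _ M R hB hG
  obtain ⟨ν, h0, hν⟩ := Tr.exists_nu R hB.big
  obtain ⟨m₀, hm⟩ : ∃ m₀, ∀ a b, M a b ≤ m₀ :=
    ⟨Finset.univ.sup fun p : ι × ι => M p.1 p.2, fun a b =>
      Finset.le_sup (f := fun p : ι × ι => M p.1 p.2) (Finset.mem_univ (a, b))⟩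
  have hN : {c : R.W | Tr.Nc R.pos (1 : R.W) (3 * (2 * m₀)) c}.Finite := by
    refine (Set.Finite.image2 R.pos.col (Tr.bl_fin R.pos (1 : R.W) (3 * (2 * m₀)))
      Set.finite_univ).subset ?_
    rintro c ⟨w, a, h, rfl⟩
    exact ⟨w, h, a, trivial, rfl⟩
  obtain ⟨K, _, _, f, hf⟩ := Tr.exists_fin R _
    ((Set.Finite.image2 (fun c c' : R.W => c * c') hN hN).union
      (Set.Finite.image2 (fun c c' : R.W => (c * c') ^ m₀.factorial) hN hN))
  have hF := Tr.exists_mor R f ν hB m₀ hm h0 hν fun c c' n1 n2 =>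
    ⟨hf _ (Or.inl ⟨c, n1, c', n2, rfl⟩), hf _ (Or.inr ⟨c, n1, c', n2, rfl⟩)⟩
  have hbr : ∀ a b, alt (R.σ a) (R.σ b) (M a b) = alt (R.σ b) (R.σ a) (M a b) := by
    intro a b
    by_cases e : a = b
    · rw [e]
    by_cases e0 : M a b = 0
    · rw [e0, alt_zero, alt_zero]
    exact Sign.braid R hB.big ⟨e, e0⟩
  refine ⟨Tr.fp R f, fun x c => decide (x.2 c = 1), fun g => Tr.ph R f ν (1, 0) (Art.lift R.σ hbr g),
    inferInstanceAs (Finite (K × (K → ZMod 2))), Tr.bas_of hB hF, Tr.geo_of hB hG hF, ?_, ?_⟩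
  · intro a x c
    have key : ∀ u : ZMod 2, (u + 1 = 1) ↔ ¬ u = 1 := by decide
    by_cases e : x.1 * f (R.σ a) * x.1⁻¹ = c
    · subst e
      simp only [Pi.add_apply, Pi.single_eq_same, key, decide_true, Bool.xor_true, decide_not]
    · simp only [Pi.add_apply, Pi.single_eq_of_ne (Ne.symm e), add_zero, e, decide_false,
        Bool.xor_false]
  · intro g a
    simp only [map_mul, Art.lift_gen]
    exact Tr.ph_r R f ν hν _ a _

end Pool.Agent.P.MP_e794d7_al.X
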