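import Pool.Agent.P.MP_e794d7_al.X.BasX

/-! Transport data for labellings of a chain of bigons. -/

set_option autoImplicit false

namespace Pool.Agent.P.MP_e794d7_al.X

namespace PTrn

variable {Q : Type} [Group Q] {K : ℕ}

/-- a natural number as an index -/
def ix (K i : ℕ) : Fin (K + 1) := ⟨min i K, by omega⟩

theorem ix_val {i : ℕ} (h : i ≤ K) : (ix K i : ℕ) = i := min_eq_left h

/-- the transport -/
def tr (Q : Type) [Group Q] (K m : ℕ) : (Fin (K + 1) → Q) ≃ (Fin (K + 1) → Q) where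
  toFun Z := fun k => (Z (ix K 0))⁻¹ * Z k * (Z (ix K (m - 1)))⁻¹
  invFun Z := fun k => (Z (ix K (m - 1)))⁻¹ * Z k * (Z (ix K 0))⁻¹
  left_inv Z := by
    funext k
    group
  right_inv Z := by
    funext k
    group

/-- the first potential -/
def pf (m : ℕ) (d : (Fin (K + 1) → Q) × (Fin (K + 1) → Q)) (i : ℕ) : Q :=
  if i = 0 then 1 else if i = m - 1 then d.2 (ix K 0) else d.1 (ix K i)

/-- products from the left -/
def pa (f : ℕ → Q) : ℕ → Q
  | 0 => 1
  | i + 1 => pa f i * f i

/-- products from the right -/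
def pb (r : ℕ → Q) : ℕ → Q
  | 0 => 1
  | i + 1 => r i * pb r i

end PTrn

open PTrn in
theorem p_trn : S_Trn := by
  intro Q _ K
  refine ⟨{
    D := (Fin (K + 1) → Q) × (Fin (K + 1) → Q)
    T := fun m => (Equiv.refl _).prodCongr (tr Q K m)
    PF := pf
    PR := fun m d i => (pf m d i)⁻¹ * d.2 (ix K 0) * (d.2 (ix K i))⁻¹
    fin := fun _ => inferInstance
    PF0 := fun m d => by simp [pf]
    PR0 := fun m d => by simp [pf]
    rel := fun m d k h2 _ _ => ?_
    surj := fun m h2 hK f r => ?_ }⟩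
  · have e : ∀ d' : (Fin (K + 1) → Q) × (Fin (K + 1) → Q), pf m d' (m - 1) = d'.2 (ix K 0) := by
      intro d'
      rw [pf, if_neg (by omega), if_pos rfl]
    have e2 : ∀ j, (((Equiv.refl _).prodCongr (tr Q K m)) d).2 j =
        (d.2 (ix K 0))⁻¹ * d.2 j * (d.2 (ix K (m - 1)))⁻¹ := fun _ => rfl
    rw [e, e, e2, e2, e2]
    group
  · let d : (Fin (K + 1) → Q) × (Fin (K + 1) → Q) :=
      (fun i => pa f i, fun i => (pb r i)⁻¹ * (pa f i)⁻¹ * pa f (m - 1))
    have z : ∀ i, i ≤ K → d.2 (ix K i) = (pb r i)⁻¹ * (pa f i)⁻¹ * pa f (m - 1) := by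
      intro i hi
      change (pb r (ix K i))⁻¹ * (pa f (ix K i))⁻¹ * pa f (m - 1) = _
      rw [ix_val hi]
    have z0 : d.2 (ix K 0) = pa f (m - 1) := by
      rw [z 0 (by omega)]
      simp [pa, pb]
    have e : ∀ i, i < m → pf m d i = pa f i := by
      intro i hi
      unfold pf
      split_ifs with h1 h3
      · rw [h1, pa]
      · rw [z0, h3]
      · change pa f (ix K i) = _
        rw [ix_val (by omega)]
    refine ⟨d, fun i hi => ?_⟩
    rw [e i (by omega), e (i + 1) hi, z0, z i (by omega), z (i + 1) (by omega), pa, pb]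
    constructor <;> group

end Pool.Agent.P.MP_e794d7_al.X
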