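import Pool.Agent.P.MP_e794d7_al.X.PRep
import Pool.Agent.P.MP_e794d7_al.X.PSign
import Pool.Agent.P.MP_e794d7_al.X.PBas
import Pool.Agent.P.MP_e794d7_al.X.PBSD
import Pool.Agent.P.MP_e794d7_al.X.PNC
import Pool.Agent.P.MP_e794d7_al.X.PGeo
import Pool.Agent.P.MP_e794d7_al.X.PTr
import Pool.Agent.P.MP_e794d7_al.X.PFGfree
import Pool.Agent.P.MP_e794d7_al.X.PFGtree
import Pool.Agent.P.MP_e794d7_al.X.PFGzero
import Pool.Agent.P.MP_e794d7_al.X.PFGgood
import Pool.Agent.P.MP_e794d7_al.X.PForest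
import Pool.Agent.P.MP_e794d7_al.X.PFull
import Pool.Agent.P.MP_e794d7_al.X.PHier
import Pool.Agent.P.MP_e794d7_al.X.PTrn
import Pool.Agent.P.MP_e794d7_al.X.MAct
import Pool.Agent.P.MP_e794d7_al.X.MBij
import Pool.Agent.P.MP_e794d7_al.X.MTrun
import Pool.Agent.P.MP_e794d7_al.X.MRun
import Pool.Agent.P.MP_e794d7_al.X.MCls
import Pool.Agent.P.MP_e794d7_al.X.MExcl
import Pool.Agent.P.MP_e794d7_al.X.MInv
import Pool.Agent.P.MP_e794d7_al.X.MStepA
import Pool.Agent.P.MP_e794d7_al.X.MStepU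
import Pool.Agent.P.MP_e794d7_al.X.MCellU
import Pool.Agent.P.MP_e794d7_al.X.MInvW
import Pool.Agent.P.MP_e794d7_al.X.MStepW
import Pool.Agent.P.MP_e794d7_al.X.MCellW
import Pool.Agent.P.MP_e794d7_al.X.MStepN
import Pool.Agent.P.MP_e794d7_al.X.MCell
import Pool.Agent.P.MP_e794d7_al.X.MSurj
import Pool.Agent.P.MP_e794d7_al.X.MGood
import Pool.Agent.P.MP_e794d7_al.X.MExt

/-! Artin groups with all labels at least six are good. -/

set_option autoImplicit false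

namespace Pool.Agent.P.MP_e794d7_al.X

theorem ext_all : S_Ext :=
  m_ext p_trn m_act m_bij (m_run m_trun)
    (m_cell (m_run m_trun) (m_inv m_cls) (m_stepa m_cls (m_excl m_cls)) (m_cellu (m_stepu m_cls))
      (m_cellw (m_inv m_cls) m_invw (m_stepw m_cls)) (m_stepn m_cls) m_invw)
    (m_stepu m_cls) m_surj (m_good m_cls)

theorem good_big (ι : Type) [Fintype ι] [LinearOrder ι] (M : ι → ι → ℕ) (hM : Big M) :
    Good (Art M) := by
  obtain ⟨R⟩ := p_rep ι M hM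
  obtain ⟨P, e, π, hX, hB, hG, he, hπ⟩ := p_tr ι M R (p_bas p_sign ι M R hM)
    (p_geo p_sign (p_bas p_sign) (p_bsd p_sign) (p_nc (p_bsd p_sign)) ι M R hM)
  exact p_hier p_fgfree p_fgtree p_fgzero p_fggood p_forest p_full ι M P e π hX hB he hπ
    (ext_all ι M P e π hX hB hG he hπ)

end Pool.Agent.P.MP_e794d7_al.X
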