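import Pool.Agent.P.MP_e794d7_al.X.BasX

set_option autoImplicit false

namespace Pool.Agent.P.MP_e794d7_al.X

namespace Forest

/-- a step together with a translation -/
def step {G A : Type} [Group G] [AddCommGroup A] (s : G) (b : G → A) : Equiv.Perm (G × A) where
  toFun p := (p.1 * s, p.2 + b p.1)
  invFun p := (p.1 * s⁻¹, p.2 - b (p.1 * s⁻¹))
  left_inv p := by simp
  right_inv p := by simp

theorem one_class {ι : Type} {M : ι → ι → ℕ} {P : Pos ι} {π : Art M → P.X} (hE : P.Ext M π)
    (c : P.Col) {A : Type} [AddCommGroup A] (β : Art M → ι → A) (g₀ : Art M) :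
    ∃ α : Art M → A, ∀ g a, P.Ch M c π g₀ g → P.ChE M c (π g) a →
      α (g * Art.gen M a) - α g = β g a := by
  obtain ⟨F, hF, -⟩ := hE c (Equiv.Perm (Art M × A))ᵐᵒᵖ
    (fun _ a => MulOpposite.op (step (Art.gen M a) fun g => β g a)) g₀
  set p : Art M × A := (F g₀).unop⁻¹ (g₀, 0) with hp
  have hs : ∀ g a, P.Ch M c π g₀ g → P.ChE M c (π g) a → (F (g * Art.gen M a)).unop p =
      (((F g).unop p).1 * Art.gen M a, ((F g).unop p).2 + β ((F g).unop p).1 a) := by
    intro g a h1 h2
    rw [hF g a h1 h2]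
    rfl
  have key : ∀ g h, P.Ch M c π g h → P.Ch M c π g₀ g →
      (((F g).unop p).1 = g ↔ ((F h).unop p).1 = h) := by
    intro g h hgh
    induction hgh with
    | rel g h hr =>
      obtain ⟨a, ha, rfl⟩ := hr
      intro h0
      rw [hs g a h0 ha]
      exact mul_left_inj _ |>.symm
    | refl g => exact fun _ => Iff.rfl
    | symm g h hgh ih => exact fun h0 => (ih (h0.trans _ _ _ (hgh.symm _ _))).symm
    | trans g h k hgh _ ih1 ih2 => exact fun h0 => (ih1 h0).trans (ih2 (h0.trans _ _ _ hgh))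
  refine ⟨fun g => ((F g).unop p).2, fun g a h1 h2 => ?_⟩
  have h3 : ((F g).unop p).1 = g :=
    (key g₀ g h1 (Relation.EqvGen.refl _)).1 (by simp [hp])
  simp only [hs g a h1 h2, h3, add_sub_cancel_left]

end Forest

theorem p_forest : S_Forest := by
  intro ι M P π hE c A _ β
  choose α hα using Forest.one_class hE c β
  let r : Art M → Art M → Prop := fun g h => ∃ a, P.ChE M c (π g) a ∧ h = g * Art.gen M a
  refine ⟨fun g => α (Quot.mk r g).out g, fun g a h => ?_⟩
  have e : Quot.mk r (g * Art.gen M a) = Quot.mk r g := (Quot.sound ⟨a, h, rfl⟩).symm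
  simp only [e]
  exact hα _ g a (Quot.eqvGen_exact (Quot.out_eq _)) h

end Pool.Agent.P.MP_e794d7_al.X
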