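import Pool.Agent.P.MP_e794d7_al.X.BasX

/-! Separation of walls in terms of a side function: local facts. -/

set_option autoImplicit false

namespace Pool.Agent.P.MP_e794d7_al.X

namespace PGeo

open Pos

variable {ι : Type} {M : ι → ι → ℕ} {P : Pos ι}

/-- the sides of `c` and `c'` that do not contain `D` are disjoint -/
def Sep (e : P.X → P.Col → Bool) (D : P.X) (c c' : P.Col) : Prop :=
  ∀ g, e g c = e D c ∨ e g c' = e D c'

/-- the far side of `c` lies in the far side of `y` -/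
def Sub (e : P.X → P.Col → Bool) (D : P.X) (c y : P.Col) : Prop :=
  ∀ g, e g y = e D y → e g c = e D c

variable {e : P.X → P.Col → Bool}

theorem Sep.symm {D : P.X} {c c' : P.Col} (h : Sep e D c c') : Sep e D c' c :=
  fun g => (h g).symm

theorem Sep.rebase {D D' : P.X} {c c' : P.Col} (h : Sep e D c c') (h1 : e D c = e D' c)
    (h2 : e D c' = e D' c') : Sep e D' c c' := fun g => by
  rw [← h1, ← h2]
  exact h g

theorem Sep.sub {D D' : P.X} {c y : P.Col} (h : Sep e D' c y) (h1 : e D' y = !e D y) :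
    Sub e D c y := by
  have key : ∀ g, e g y = e D y → e g c = e D' c := fun g hg =>
    (h g).resolve_right (by rw [hg, h1]; simp)
  intro g hg
  rw [key g hg, key D rfl]

theorem Sub.sep {D : P.X} {c y c' : P.Col} (h : Sub e D c y) (h1 : Sep e D y c') :
    Sep e D c c' := fun g => (h1 g).imp_left (h g)

theorem Sub.trans {D : P.X} {c y y' : P.Col} (h : Sub e D c y) (h1 : Sub e D y y') :
    Sub e D c y' := fun g hg => h g (h1 g hg)

theorem Sub.refl (D : P.X) (c : P.Col) : Sub e D c c := fun _ hg => hg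

/-- the two chambers of a panel -/
def Pn (P : Pos ι) (y : P.X) (a : ι) (y' : P.X) : Prop := y' = y ∨ y' = P.r a y

theorem Pn.refl (y : P.X) (a : ι) : Pn P y a y := Or.inl rfl

theorem Pn.symm (h : P.Bas M) {y y' : P.X} {a : ι} (hp : Pn P y a y') : Pn P y' a y := by
  rcases hp with rfl | rfl
  exacts [Or.inl rfl, Or.inr (h.rr _ _).symm]

theorem Pn.trans (h : P.Bas M) {y y' y'' : P.X} {a : ι} (hp : Pn P y a y') (hp' : Pn P y' a y'') :
    Pn P y a y'' := by
  rcases hp with rfl | rfl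
  · exact hp'
  · rcases hp' with rfl | rfl
    exacts [Or.inr rfl, Or.inl (h.rr _ _)]

theorem Pn.deep (h : P.Bas M) {y y' : P.X} {a b : ι} {σ : P.Col} (hp : Pn P y a y')
    (hab : Adj M a b) (hd : P.Deep M y a b σ) : P.Deep M y' a b σ := by
  rcases hp with rfl | rfl
  exacts [hd, h.deep_r hab hd]

theorem Pn.col (h : P.Bas M) {y y' : P.X} {a : ι} (hp : Pn P y a y') : P.col y' a = P.col y a := by
  rcases hp with rfl | rfl
  exacts [rfl, h.col_r _ _]

theorem cc_one (x : P.X) (a b : ι) : P.cc x a b 1 = P.col (P.r a x) b := by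
  rw [cc_succ', cc_zero]

theorem cc_two (x : P.X) (a b : ι) : P.cc x a b 2 = P.col (P.r b (P.r a x)) a := by
  rw [cc_succ', cc_one]

theorem go_two' (x : P.X) (a b : ι) : P.go x a b 2 = P.r b (P.r a x) := by
  rw [go_succ, go_one, el_one]

theorem same_cases (a b a' b' : ι) : (∃ b'', Same a' b' a b'') ∨ (∃ b'', Same a' b' b b'') ∨
    (a ≠ a' ∧ a ≠ b' ∧ b ≠ a' ∧ b ≠ b') := by
  by_cases h1 : a = a'
  · exact Or.inl ⟨b', h1 ▸ Same.refl _ _⟩
  by_cases h2 : a = b'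
  · exact Or.inl ⟨a', h2 ▸ Same.swap _ _⟩
  by_cases h3 : b = a'
  · exact Or.inr (Or.inl ⟨b', h3 ▸ Same.refl _ _⟩)
  by_cases h4 : b = b'
  · exact Or.inr (Or.inl ⟨a', h4 ▸ Same.swap _ _⟩)
  exact Or.inr (Or.inr ⟨h1, h2, h3, h4⟩)

theorem same_mem {a b a' b' g : ι} (hs : Same a b a' b') : (g = a ∨ g = b) ↔ (g = a' ∨ g = b') := by
  rcases hs with ⟨rfl, rfl⟩ | ⟨rfl, rfl⟩
  exacts [Iff.rfl, or_comm]

theorem other {s t a : ι} (h : a = s ∨ a = t) : ∃ a', Same s t a a' := by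
  rcases h with rfl | rfl
  exacts [⟨_, Same.refl _ _⟩, ⟨_, Same.swap _ _⟩]

/-- the local non-crossing facts -/
structure Ctx (P : Pos ι) (M : ι → ι → ℕ) (e : P.X → P.Col → Bool) : Prop where
  bas : P.Bas M
  eps : P.Eps e
  nc1 : ∀ D a b b' n n', Adj M a b → Adj M a b' → b ≠ b' → 1 ≤ n → n < M a b → 1 ≤ n' →
    n' < M a b' → ¬ (n = 1 ∧ n' = 1) → ¬ (n + 1 = M a b ∧ n' + 1 = M a b') →
    Sep e D (P.cc D a b n) (P.cc D a b' n')
  nc2 : ∀ D a b a' b' n n', Adj M a b → Adj M a' b' → a ≠ a' → a ≠ b' → b ≠ a' → b ≠ b' →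
    1 ≤ n → n + 2 ≤ M a b → n' < M a' b' → Sep e D (P.cc D a b n) (P.cc D a' b' n')
  nc3 : ∀ D a b, a ≠ b → M a b = 0 → Sep e D (P.col D a) (P.col D b)

/-- `c` is not the wall of a common letter -/
def Wk (P : Pos ι) (D : P.X) (a b a' b' : ι) (c : P.Col) : Prop :=
  ∀ g, g = a ∨ g = b → g = a' ∨ g = b' → c ≠ P.col D g

/-- `β` is separated from the walls of the vertex other than the wall of the panel -/
def SP (e : P.X → P.Col → Bool) (D : P.X) (a b : ι) (β : P.Col) : Prop :=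
  β ≠ P.col D a ∧ ∀ c, P.Thru D a b c → c ≠ P.col D a → Sep e D β c

/-- objects that behave like deep walls of the vertex `(C; t, a)` -/
structure Apx (M : ι → ι → ℕ) (e : P.X → P.Col → Bool) (C : P.X) (t a : ι) (β : P.Col) :
    Prop where
  adj : Adj M t a
  i1 : ∀ a' b' c, Adj M a' b' → ¬ Same t a a' b' → P.Thru C a' b' c → Wk P C t a a' b' c →
    Sep e C β c
  i2 : ∀ g a' b' γ, g = t ∨ g = a → Adj M a' b' → ¬ Same t a a' b' →
    P.Deep1 M (P.r g C) a' b' γ → Sep e C β γ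
  i3 : ∃ k, 1 ≤ k ∧ k + 2 ≤ M t a ∧ Sub e C β (P.cc C t a k)

theorem Apx.of_sub {C : P.X} {t a : ι} {β y : P.Col} (h : Apx M e C t a y) (hs : Sub e C β y) :
    Apx M e C t a β where
  adj := h.adj
  i1 := fun a' b' c h1 h2 h3 h4 => hs.sep (h.i1 a' b' c h1 h2 h3 h4)
  i2 := fun g a' b' γ h1 h2 h3 h4 => hs.sep (h.i2 g a' b' γ h1 h2 h3 h4)
  i3 := by
    obtain ⟨k, h1, h2, h3⟩ := h.i3
    exact ⟨k, h1, h2, hs.trans h3⟩

namespace Ctx

variable (H : Ctx P M e)
include H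

theorem cc_ne {a b : ι} (hab : Adj M a b) (x : P.X) {i j : ℕ} (hi : i < M a b) (hj : j < M a b)
    (hij : i ≠ j) : P.cc x a b i ≠ P.cc x a b j :=
  fun h => hij (H.bas.inj x a b i j hab hi hj h)

theorem int_ne {a b g : ι} (hab : Adj M a b) (x : P.X) {k : ℕ} (h1 : 1 ≤ k) (h2 : k + 2 ≤ M a b)
    (hg : g = a ∨ g = b) : P.cc x a b k ≠ P.col x g := by
  rcases hg with rfl | rfl
  · rw [← cc_zero x g b]
    exact H.cc_ne hab x (by omega) (by omega) (by omega)
  · rw [← H.bas.cc_last hab]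
    exact H.cc_ne hab x (by omega) (by omega) (by omega)

theorem er {a : ι} {x : P.X} {c : P.Col} (hc : c ≠ P.col x a) : e (P.r a x) c = e x c :=
  Bas.e_r_ne H.eps hc.symm

theorem not_sep {a b : ι} (hab : Adj M a b) {D : P.X} {c : P.Col} (ht : P.Thru D a b c) :
    ¬ Sep e D c c := by
  obtain ⟨j, hj, rfl⟩ := H.bas.thru_lt hab ht
  intro hs
  have h1 := H.bas.e_go_mid H.eps hab D (n := j + 1) hj (by omega) (by omega)
  have h2 := (hs (P.go D a b (j + 1))).elim id id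
  rw [h1] at h2
  simp at h2

theorem not_thru {a b a' b' : ι} (hab : Adj M a b) (hab' : Adj M a' b') (hs : ¬ Same a b a' b')
    {D : P.X} {c : P.Col} (ht : P.Thru D a' b' c) (hw : Wk P D a b a' b' c) :
    ¬ P.Thru D a b c := fun ht' => by
  obtain ⟨g, h1, h2, h3⟩ := H.bas.x1 D a b a' b' c hab hab' hs ht' ht
  exact hw g h1 h2 h3

theorem wk_ne {a b a' b' g : ι} (hab : Adj M a b) (hab' : Adj M a' b') (hs : ¬ Same a b a' b')
    {D : P.X} {c : P.Col} (ht : P.Thru D a' b' c) (hw : Wk P D a b a' b' c)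
    (hg : g = a ∨ g = b) : c ≠ P.col D g := fun h =>
  H.not_thru hab hab' hs ht hw (h ▸ H.bas.thru_of_res hab (Res.refl D a b) hg)

theorem deep_wk {a b a' b' : ι} (hab' : Adj M a' b') {D : P.X} {γ : P.Col}
    (hd : P.Deep1 M D a' b' γ) : Wk P D a b a' b' γ := fun _ _ hg => H.bas.deep1_ne hab' hd hg

theorem nc_first {a b b' : ι} (hab : Adj M a b) (hab' : Adj M a b') (hb : b ≠ b') {D : P.X}
    {k : ℕ} (h1 : 1 ≤ k) (h2 : k + 2 ≤ M a b) {c : P.Col} (ht : P.Thru D a b' c)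
    (hc : c ≠ P.col D a) :
    Sep e D (P.cc D a b k) c ∨ (k = 1 ∧ c = P.col (P.r a D) b') := by
  obtain ⟨n, hn, rfl⟩ := H.bas.thru_lt hab' ht
  have h0 : n ≠ 0 := fun h => hc (by rw [h, cc_zero])
  by_cases h : k = 1 ∧ n = 1
  · exact Or.inr ⟨h.1, by rw [h.2, cc_one]⟩
  · exact Or.inl (H.nc1 D a b b' k n hab hab' hb h1 (by omega) (by omega) hn h (by omega))

theorem ncg {a b a' b' : ι} (hab : Adj M a b) (hab' : Adj M a' b') (hs : ¬ Same a b a' b')
    {D : P.X} {k : ℕ} (h1 : 1 ≤ k) (h2 : k + 3 ≤ M a b) {c : P.Col} (ht : P.Thru D a' b' c)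
    (hw : Wk P D a b a' b' c) : Sep e D (P.cc D a b k) c ∨
      (k = 1 ∧ ∃ u, u ≠ a ∧ u ≠ b ∧ c = P.col (P.r a D) u) := by
  rcases same_cases a b a' b' with ⟨u, hu⟩ | ⟨u, hu⟩ | ⟨n1, n2, n3, n4⟩
  · have hau := H.bas.big.adj_same hab' hu
    have hb : b ≠ u := fun h => hs (h ▸ hu.symm)
    rcases H.nc_first hab hau hb h1 (by omega) (H.bas.thru_same hab' hu ht)
      (hw a (Or.inl rfl) ((same_mem hu).2 (Or.inl rfl))) with h | ⟨h3, h4⟩
    exacts [Or.inl h, Or.inr ⟨h3, u, hau.1.symm, hb.symm, h4⟩]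
  · have hbu := H.bas.big.adj_same hab' hu
    have ha : a ≠ u := fun h => hs ((Same.swap a b).trans (h ▸ hu.symm))
    have hm : M b a = M a b := H.bas.big.symm _ _
    rcases H.nc_first (H.bas.big.adj_symm hab) hbu ha (k := M a b - 1 - k) (by omega) (by omega)
      (H.bas.thru_same hab' hu ht) (hw b (Or.inr rfl) ((same_mem hu).2 (Or.inl rfl))) with
      h | ⟨h3, -⟩
    · rw [H.bas.cc_rev hab D _ (by omega), show M a b - 1 - (M a b - 1 - k) = k by omega] at h
      exact Or.inl h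
    · omega
  · obtain ⟨n, hn, rfl⟩ := H.bas.thru_lt hab' ht
    exact Or.inl (H.nc2 D a b a' b' k n hab hab' n1 n2 n3 n4 h1 (by omega) hn)

theorem ncs {a b a' b' : ι} (hab : Adj M a b) (hab' : Adj M a' b') (hs : ¬ Same a b a' b')
    {D : P.X} {σ c : P.Col} (hd : P.Deep1 M D a b σ) (ht : P.Thru D a' b' c)
    (hw : Wk P D a b a' b' c) : Sep e D σ c := by
  obtain ⟨k, h1, h2, rfl⟩ := hd
  rcases H.ncg hab hab' hs (by omega) h2 ht hw with h | ⟨h, -⟩
  exacts [h, by omega]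

theorem dd {a b a' b' : ι} (hab : Adj M a b) (hab' : Adj M a' b') (hs : ¬ Same a b a' b')
    {D : P.X} {σ σ' : P.Col} (hd : P.Deep1 M D a b σ) (hd' : P.Deep1 M D a' b' σ') :
    Sep e D σ σ' := H.ncs hab hab' hs hd hd'.thru (H.deep_wk hab' hd')

/-! ### the property `SP` -/

theorem sp_res {a b : ι} (hab : Adj M a b) {D E : P.X} {β : P.Col} (h : SP e D a b β)
    (hr : P.Res D a b E) : e E β = e D β :=
  Bas.e_res H.eps hr fun ht => H.not_sep hab ht (h.2 β ht h.1)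

theorem sp_r {a b : ι} (hab : Adj M a b) {D : P.X} {β : P.Col} (h : SP e D a b β) :
    SP e (P.r a D) a b β := by
  refine ⟨by rw [H.bas.col_r]; exact h.1, fun c ht hc => ?_⟩
  rw [H.bas.col_r] at hc
  rw [← H.bas.thru_res hab (H.bas.res_r hab (Or.inl rfl) D)] at ht
  exact (h.2 c ht hc).rebase (H.er h.1).symm (H.er hc).symm

theorem sp_pn {a b : ι} (hab : Adj M a b) {D D' : P.X} {β : P.Col} (h : SP e D a b β)
    (hp : Pn P D a D') : SP e D' a b β := by
  rcases hp with rfl | rfl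
  exacts [h, H.sp_r hab h]

theorem sp_of_deep {a b u : ι} (hab : Adj M a b) (hau : Adj M a u) (hb : b ≠ u) {D : P.X}
    {β : P.Col} (hd : P.Deep1 M D a b β) : SP e D a u β := by
  refine ⟨H.bas.deep1_ne hab hd (Or.inl rfl), fun c ht hc => H.ncs hab hau ?_ hd ht ?_⟩
  · rintro (⟨-, h⟩ | ⟨h, -⟩)
    exacts [hb h, hau.1 h]
  · rintro g (rfl | rfl) h
    · exact hc
    · rcases h with h | h
      exacts [(hab.1 h.symm).elim, (hb h).elim]

theorem sp_of_apx {a b u : ι} (hau : Adj M a u) (hb : b ≠ u) {D : P.X}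
    {β : P.Col} (h : Apx M e D a b β) : SP e D a u β := by
  refine ⟨?_, fun c ht hc => h.i1 a u c hau ?_ ht ?_⟩
  · obtain ⟨k, h1, h2, h3⟩ := h.i3
    have := h3 _ (H.er (H.int_ne h.adj D h1 h2 (Or.inl rfl)))
    rintro rfl
    rw [Bas.e_r_col H.eps] at this
    simp at this
  · rintro (⟨-, h⟩ | ⟨h, -⟩)
    exacts [hb h, hau.1 h]
  · rintro g (rfl | rfl) h'
    · exact hc
    · rcases h' with h' | h'
      exacts [(h.adj.1 h'.symm).elim, (hb h').elim]

theorem sp_idx {a b : ι} (hab : Adj M a b) {D : P.X} {β c : P.Col} {n : ℕ}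
    (h : SP e (P.go D a b n) (el a b n) (el a b (n + 1)) β) (ht : P.Thru D a b c)
    (hc : c ≠ P.cc D a b n) : Sep e (P.go D a b n) β c :=
  h.2 c (H.bas.thru_same hab (same_el a b n) ((H.bas.thru_res hab (res_go D a b n)).1 ht)) hc

theorem sp_sub {a b : ι} (hab : Adj M a b) {D : P.X} {β : P.Col} {n j : ℕ}
    (h : SP e (P.go D a b n) (el a b n) (el a b (n + 1)) β) (hj : j < M a b) (h1 : j < n)
    (h2 : n < j + M a b) : Sub e D β (P.cc D a b j) := by
  refine (H.sp_idx hab h ⟨j, rfl⟩ fun h3 => ?_).sub (H.bas.e_go_mid H.eps hab D hj h1 h2.le)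
  rw [H.bas.cc_eq_iff hab, Nat.mod_eq_of_lt hj] at h3
  rcases lt_or_ge n (M a b) with h5 | h5
  · rw [Nat.mod_eq_of_lt h5] at h3; omega
  · rw [Nat.mod_eq_sub_mod h5, Nat.mod_eq_of_lt (by omega)] at h3; omega

theorem sv {a b : ι} (hab : Adj M a b) {D : P.X} {β β' : P.Col} {n : ℕ} (h : SP e D a b β)
    (h' : SP e (P.go D a b n) (el a b n) (el a b (n + 1)) β') (h1 : 2 ≤ n)
    (h2 : n + 2 ≤ 2 * M a b) : Sep e D β β' := by
  have hm := H.bas.big.six a b hab
  have key : ∀ j, 1 ≤ j → j < M a b → j < n → n < j + M a b → Sep e D β β' := by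
    intro j j1 j2 j3 j4
    refine ((H.sp_sub hab h' j2 j3 j4).sep (h.2 _ ⟨j, rfl⟩ ?_).symm).symm
    rw [← cc_zero D a b]
    exact H.cc_ne hab D j2 (by omega) (by omega)
  rcases le_or_gt n (M a b) with h3 | h3
  · exact key 1 le_rfl (by omega) (by omega) (by omega)
  · exact key (M a b - 1) (by omega) (by omega) (by omega) (by omega)

/-- two panels at one vertex are far, equal or adjacent -/
theorem tri {a b g g' : ι} (hab : Adj M a b) (hs : Same a b g g') {y y' : P.X} {β β' : P.Col}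
    (hr : P.Res y a b y') (h : SP e y a b β) (h' : SP e y' g g' β') :
    Sep e y β β' ∨ (g = a ∧ Pn P y a y') ∨ (g = b ∧ Pn P y b y') ∨
      (g = b ∧ Pn P (P.r a y) b y') := by
  have hm := H.bas.big.six a b hab
  obtain ⟨n, hn, e1, e2⟩ := H.bas.panel_idx hab hr ((same_mem hs).2 (Or.inl rfl))
  have hp : Pn P (P.go y a b n) g y' := by
    rcases e2 with h2 | h2
    exacts [Or.inl h2, Or.inr (by rw [h2, go_succ, e1])]
  by_cases n0 : n = 0
  · subst n0
    rw [el_zero] at e1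
    exact Or.inr (Or.inl ⟨e1, e1 ▸ hp⟩)
  by_cases n1 : n = 1
  · subst n1
    rw [el_one] at e1
    rw [go_one] at hp
    exact Or.inr (Or.inr (Or.inr ⟨e1, e1 ▸ hp⟩))
  by_cases n2 : n + 1 = 2 * M a b
  · have e3 : g = b := by rw [e1, el_congr a b (n' := 1) (by omega), el_one]
    have e4 : P.r g (P.go y a b n) = y := by rw [e1, ← go_succ, n2, H.bas.go_two hab]
    have hp' : Pn P y g (P.go y a b n) := Pn.symm H.bas (Or.inr e4.symm)
    exact Or.inr (Or.inr (Or.inl ⟨e3, e3 ▸ hp'.trans H.bas hp⟩))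
  have e5 : g' = el a b (n + 1) := by
    have h3 := (hs.symm.trans (same_el a b n))
    rcases h3 with ⟨-, h3⟩ | ⟨h3, -⟩
    · exact h3
    · exact ((H.bas.big.adj_el hab n).1 (e1.symm.trans h3)).elim
  have h3 := H.sp_pn (H.bas.big.adj_same hab hs) h' (hp.symm H.bas)
  rw [e1, e5] at h3
  exact Or.inl (H.sv hab h h3 (by omega) (by omega))

/-- two deep walls at panels of one vertex -/
theorem v11 {a a' g b b' : ι} (haa : Adj M a a') (hg : g = a ∨ g = a') (hab : Adj M a b)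
    (hgb : Adj M g b') (hb : b ≠ a') (hb1 : b' ≠ a) (hb2 : b' ≠ a') {y y' : P.X}
    {β β' : P.Col} (hr : P.Res y a a' y') (h : P.Deep M y a b β) (h' : P.Deep M y' g b' β') :
    (∃ D, Sep e D β β') ∨ P.SameO y a b y' g b' := by
  obtain ⟨g', hs⟩ := other hg
  have hb' : b' ≠ g' := by
    rcases (same_mem hs).2 (Or.inr rfl) with h | h <;> rw [h]
    exacts [hb1, hb2]
  have ns : ¬ Same a b a' b' := by
    rintro (⟨h, -⟩ | ⟨h, -⟩)
    exacts [haa.1 h, hb1 h.symm]
  rcases H.tri haa hs hr (H.sp_of_deep hab haa hb h.deep1)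
    (H.sp_of_deep hgb (H.bas.big.adj_same haa hs) hb' h'.deep1) with
    h1 | ⟨rfl, hp⟩ | ⟨rfl, hp⟩ | ⟨rfl, hp⟩
  · exact Or.inl ⟨_, h1⟩
  · by_cases e1 : b' = b
    · exact Or.inr ⟨rfl, e1, hp⟩
    · refine Or.inl ⟨y, H.dd hab hgb ?_ h.deep1 ((hp.symm H.bas).deep H.bas hgb h').deep1⟩
      rintro (⟨-, h⟩ | ⟨h, -⟩)
      exacts [e1 h.symm, hb1 h.symm]
  · exact Or.inl ⟨y, H.dd hab hgb ns h.deep1 ((hp.symm H.bas).deep H.bas hgb h').deep1⟩
  · exact Or.inl ⟨_, H.dd hab hgb ns (H.bas.deep_r hab h).deep1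
      ((hp.symm H.bas).deep H.bas hgb h').deep1⟩

/-! ### apex objects -/

theorem apx_swap {C : P.X} {t a : ι} {β : P.Col} (h : Apx M e C t a β) : Apx M e C a t β where
  adj := H.bas.big.adj_symm h.adj
  i1 := fun a' b' c h1 h2 h3 h4 => h.i1 a' b' c h1 (fun h5 => h2 ((Same.swap _ _).trans h5)) h3
    fun g hg => h4 g hg.symm
  i2 := fun g a' b' γ h1 h2 h3 h4 => h.i2 g a' b' γ h1.symm h2
    (fun h5 => h3 ((Same.swap _ _).trans h5)) h4
  i3 := by
    obtain ⟨k, h1, h2, h3⟩ := h.i3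
    have hm : M a t = M t a := H.bas.big.symm _ _
    refine ⟨M t a - 1 - k, by omega, by omega, ?_⟩
    rwa [H.bas.cc_rev h.adj C _ (by omega), show M t a - 1 - (M t a - 1 - k) = k by omega]

theorem i2_aux {t a a' b' : ι} (hta : Adj M t a) (hab' : Adj M a' b') (hs : ¬ Same t a a' b')
    {C : P.X} {k : ℕ} (h1 : 2 ≤ k) (h2 : k < M t a) {γ : P.Col}
    (hd : P.Deep1 M (P.r t C) a' b' γ) : Sep e C (P.cc C t a k) γ := by
  have n0 : P.cc C t a k ≠ P.col C t := by
    rw [← cc_zero C t a]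
    exact H.cc_ne hta C h2 (by omega) (by omega)
  have n1 : γ ≠ P.col C t := by
    rw [← H.bas.col_r t C]
    exact H.wk_ne hta hab' hs hd.thru (H.deep_wk hab' hd) (Or.inl rfl)
  refine (H.ncs hab' hta (fun h => hs h.symm) hd
    ((H.bas.thru_res hta (H.bas.res_r hta (Or.inl rfl) C)).1 ⟨k, rfl⟩) ?_).symm.rebase
    (H.er n0) (H.er n1)
  rintro g - (rfl | rfl)
  · rwa [H.bas.col_r]
  · rw [← cc_one]
    exact H.cc_ne hta C h2 (by omega) (by omega)

theorem i2_aux' {t a a' b' : ι} (hta : Adj M t a) (hab' : Adj M a' b') (hs : ¬ Same t a a' b')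
    {C : P.X} {k : ℕ} (h2 : k + 3 ≤ M t a) {γ : P.Col}
    (hd : P.Deep1 M (P.r a C) a' b' γ) : Sep e C (P.cc C t a k) γ := by
  have hm : M a t = M t a := H.bas.big.symm _ _
  have := H.i2_aux (H.bas.big.adj_symm hta) hab' (fun h5 => hs ((Same.swap _ _).trans h5))
    (k := M t a - 1 - k) (by omega) (by omega) hd
  rwa [H.bas.cc_rev hta C _ (by omega), show M t a - 1 - (M t a - 1 - k) = k by omega] at this

theorem apx_of_deep {t a : ι} (hta : Adj M t a) {C : P.X} {β : P.Col}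
    (hd : P.Deep1 M C t a β) : Apx M e C t a β where
  adj := hta
  i1 := fun a' b' c h1 h2 h3 h4 => H.ncs hta h1 h2 hd h3 h4
  i2 := by
    obtain ⟨k, k1, k2, rfl⟩ := hd
    rintro g a' b' γ (rfl | rfl) h2 h3 h4
    exacts [H.i2_aux hta h2 h3 k1 (by omega) h4, H.i2_aux' hta h2 h3 k2 h4]
  i3 := by
    obtain ⟨k, k1, k2, rfl⟩ := hd
    exact ⟨k, by omega, by omega, Sub.refl _ _⟩

theorem aa {t a t' a' : ι} {C : P.X} {β β' : P.Col} (h : Apx M e C t a β)
    (h' : Apx M e C t' a' β') (hs : ¬ Same t a t' a') : Sep e C β β' := by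
  obtain ⟨k, h1, h2, h3⟩ := h'.i3
  exact (h3.sep (h.i1 t' a' _ h'.adj hs ⟨k, rfl⟩
    fun g _ hg => H.int_ne h'.adj C h1 h2 hg).symm).symm

theorem apx_two {t a b : ι} (hta : Adj M t a) (htb : Adj M t b) (hb : b ≠ a) {C : P.X}
    {β : P.Col} (hd : P.Deep1 M (P.r a (P.r t C)) t b β) : Apx M e C t a β := by
  have hm := H.bas.big.six t a hta
  have sp : SP e (P.r a (P.r t C)) t a β := H.sp_of_deep htb hta hb hd
  have sp2 : SP e (P.go C t a 2) (el t a 2) (el t a (2 + 1)) β := by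
    rwa [go_two', el_add_two t a 0, el_add_two t a 1, el_zero, el_one]
  have sub : Sub e C β (P.cc C t a 1) := H.sp_sub hta sp2 (by omega) (by omega) (by omega)
  have eβ : e (P.r a (P.r t C)) β = e C β := by
    refine (H.sp_res hta sp (H.bas.res_symm hta ?_)).symm
    rw [← go_two']
    exact res_go _ _ _ _
  have n1 : P.cc C t a 1 ≠ P.col C t := H.int_ne hta C le_rfl (by omega) (Or.inl rfl)
  have nsa : ∀ u, ¬ Same t b a u := by
    rintro u (⟨h, -⟩ | ⟨-, h⟩)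
    exacts [hta.1 h, hb h]
  have far : ∀ u k, Adj M a u → u ≠ t → k ≠ 0 → k ≠ 1 → k < M a u →
      P.cc (P.r t C) a u k ≠ P.col C t → Sep e C β (P.cc (P.r t C) a u k) := by
    intro u k hau hu k0 k1 k2 hc
    have h0 : P.cc (P.r t C) a u k ≠ P.col (P.r t C) a := by
      rw [← cc_zero (P.r t C) a u]
      exact H.cc_ne hau _ k2 (by omega) k0
    refine (H.ncs htb hau (nsa u) hd
      ((H.bas.thru_res hau (H.bas.res_r hau (Or.inl rfl) _)).1 ⟨k, rfl⟩) ?_).rebase eβ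
      ((H.er h0).trans (H.er hc))
    rintro g - (rfl | rfl)
    · rwa [H.bas.col_r]
    · rw [← cc_one]
      exact H.cc_ne hau _ k2 (by omega) k1
  refine ⟨hta, fun a' b' c h1 h2 h3 h4 => ?_, ?_, ⟨1, le_rfl, by omega, sub⟩⟩
  · rcases H.ncg hta h1 h2 (k := 1) le_rfl (by omega) h3 h4 with h5 | ⟨-, u, u1, u2, rfl⟩
    · exact sub.sep h5
    have n2 := H.wk_ne hta h1 h2 h3 h4 (Or.inl rfl)
    by_cases h0 : M a u = 0
    · refine sub.sep ?_
      have := H.nc3 (P.r t C) a u u2.symm h0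
      rw [← cc_one] at this
      exact this.rebase (H.er n1) (H.er n2)
    · have hau : Adj M a u := ⟨u2.symm, h0⟩
      have h6 := H.bas.big.six a u hau
      rw [← H.bas.cc_last hau] at n2 ⊢
      exact far u _ hau u1 (by omega) (by omega) (by omega) n2
  · rintro g a' b' γ (rfl | rfl) h2 h3 h4
    · have n2 : γ ≠ P.col C g := by
        rw [← H.bas.col_r g C]
        exact H.wk_ne hta h2 h3 h4.thru (H.deep_wk h2 h4) (Or.inl rfl)
      by_cases h5 : a = a' ∨ a = b'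
      · obtain ⟨u, hu⟩ := other h5
        have hau := H.bas.big.adj_same h2 hu
        have h6 : P.Deep1 M (P.r g C) a u γ := by
          rcases hu with ⟨rfl, rfl⟩ | ⟨rfl, rfl⟩
          exacts [h4, H.bas.deep1_swap h2 h4]
        obtain ⟨k, k1, k2, rfl⟩ := h6
        refine far u k hau ?_ (by omega) (by omega) (by omega) n2
        rintro rfl
        exact h3 ((Same.swap _ _).trans hu.symm)
      · refine sub.sep ((H.ncs h2 hta (fun h => h3 h.symm) h4
          ((H.bas.thru_res hta (H.bas.res_r hta (Or.inl rfl) C)).1 ⟨1, rfl⟩) ?_).symm.rebase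
          (H.er n1) (H.er n2))
        rintro g' h6 (rfl | rfl)
        · rwa [H.bas.col_r]
        · exact (h5 h6).elim
    · exact sub.sep (H.i2_aux' hta h2 h3 (by omega) h4)

theorem apx_idx {t a b : ι} (hta : Adj M t a) (hbt : b ≠ t) (hba : b ≠ a) {C : P.X} {n : ℕ}
    (hadj : Adj M (el t a n) b) (h1 : 2 ≤ n) (h2 : n ≤ M t a + 1) {β : P.Col}
    (hd : P.Deep1 M (P.go C t a n) (el t a n) b β) : Apx M e C t a β := by
  have hm := H.bas.big.six t a hta
  rcases h1.eq_or_lt with rfl | h3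
  · rw [el_add_two t a 0, el_zero] at hadj hd
    rw [go_two'] at hd
    exact H.apx_two hta hadj hba hd
  · have hb : b ≠ el t a (n + 1) := by
      rcases el_mem t a (n + 1) with h | h <;> rw [h]
      exacts [hbt, hba]
    exact (H.apx_of_deep hta ⟨2, le_rfl, by omega, rfl⟩).of_sub
      (H.sp_sub hta (H.sp_of_deep hadj (H.bas.big.adj_el hta n) hb hd) (by omega) h3 (by omega))

theorem apx_of_far {t1 t2 a b : ι} (ht : Adj M t1 t2) {z y : P.X} {σ : P.Col}
    (h : P.O2 M z t1 t2 y a b) (hd : P.Deep M y a b σ) : Apx M e z t1 t2 σ := by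
  have hm := H.bas.big.six t1 t2 ht
  obtain ⟨n, hn, e1, e2⟩ := H.bas.panel_idx ht h.res h.mem
  have hp : Pn P (P.go z t1 t2 n) a y := by
    rcases e2 with h2 | h2
    exacts [Or.inl h2, Or.inr (by rw [h2, go_succ, e1])]
  have hp0 : Pn P y a (P.go z t1 t2 n) := hp.symm H.bas
  have hp1 : Pn P y a (P.go z t1 t2 (n + 1)) := hp0.trans H.bas (Or.inr (by rw [go_succ, e1]))
  have f0 := h.far _ hp0
  have f1 := h.far _ hp1
  have n0 : n ≠ 0 := fun h => f0.1 (by rw [h, go_zero])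
  have n1 : n ≠ 1 := fun h => f0.2.1 (by rw [h, go_one])
  have n2 : n + 1 ≠ 2 * M t1 t2 := fun h => f1.1 (by rw [h, H.bas.go_two ht])
  have n3 : n + 1 ≠ 2 * M t1 t2 - 1 := fun h => f1.2.2 (by
    rw [h, ← H.bas.go_rev ht z 1 (by omega), go_one])
  have hadj := h.adj'
  rcases le_or_gt n (M t1 t2 + 1) with h1 | h1
  · have h2 := (hp0.deep H.bas hadj hd).deep1
    rw [e1] at h2 hadj
    exact H.apx_idx ht h.b1 h.b2 hadj (by omega) h1 h2
  · have h2 := (hp1.deep H.bas hadj hd).deep1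
    have hm' : M t2 t1 = M t1 t2 := H.bas.big.symm _ _
    have e3 : a = el t2 t1 (2 * M t1 t2 - 1 - n) := by
      rw [e1]
      exact el_congr' _ _ (by omega)
    have e4 : P.go z t1 t2 (n + 1) = P.go z t2 t1 (2 * M t1 t2 - 1 - n) := by
      rw [H.bas.go_rev ht z _ (by omega)]
      congr 1
      omega
    rw [e4] at h2
    rw [e3] at h2 hadj
    exact H.apx_swap (H.apx_idx (H.bas.big.adj_symm ht) h.b2 h.b1 hadj (by omega) (by omega) h2)

end Ctx

end PGeo

end Pool.Agent.P.MP_e794d7_al.X
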