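import Pool.Agent.P.MP_e794d7_al.X.PGeo1

/-! Separation of walls in terms of a side function: objects along a wall. -/

set_option autoImplicit false

namespace Pool.Agent.P.MP_e794d7_al.X

namespace PGeo

open Pos

variable {ι : Type} {M : ι → ι → ℕ} {P : Pos ι} {e : P.X → P.Col → Bool}

/-- the chamber `y` touches the wall of `[x, s]` by a letter other than `a` -/
def Wall (P : Pos ι) (x : P.X) (s t : ι) (y : P.X) (a : ι) : Prop :=
  ∃ g, (g = s ∨ g = t) ∧ g ≠ a ∧ P.col y g = P.col x s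

/-- an object at a panel of the vertex `(x; s, t)` -/
def KK (M : ι → ι → ℕ) (e : P.X → P.Col → Bool) (x : P.X) (s t : ι) (y : P.X) (a b : ι)
    (β : P.Col) : Prop :=
  P.O1 M x s t y a b ∧ ((P.Deep M y a b β ∧ ∀ y', Pn P y a y' → ¬ Wall P x s t y' a) ∨
    (Wall P x s t y a ∧ Apx M e y a b β))

/-- an object with the index of its panel -/
structure Ob (M : ι → ι → ℕ) (e : P.X → P.Col → Bool) (D : P.X) (s t : ι) (n : ℕ) (y : P.X)
    (a b : ι) (β : P.Col) : Prop where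
  adj : Adj M t s
  lt : n < M t s
  bs : b ≠ s
  bt : b ≠ t
  sp : SP e (P.go D t s n) (el t s n) (el t s (n + 1)) β
  zero : n = 0 → y = D ∧ a = t ∧ Wall P D s t y a ∧ Apx M e D t b β
  one : n = 1 → Adj M s b ∧ P.Deep1 M (P.r t D) s b β

namespace Ctx

variable (H : Ctx P M e)
include H

theorem wall_r {x y : P.X} {s t a : ι} : Wall P (P.r s x) s t y a ↔ Wall P x s t y a := by
  unfold Wall
  rw [H.bas.col_r]

theorem kk_r {x y : P.X} {s t a b : ι} {β : P.Col} (h : KK M e x s t y a b β) :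
    KK M e (P.r s x) s t y a b β := by
  obtain ⟨o, h⟩ := h
  refine ⟨⟨o.adj, H.bas.res_trans o.adj
    (H.bas.res_symm o.adj (H.bas.res_r o.adj (Or.inl rfl) x)) o.res, o.mem, ?_, o.bs, o.bt,
    o.adj'⟩, ?_⟩
  · rw [H.bas.rr]
    exact fun h => o.ne ⟨h.1, h.2.symm⟩
  · simpa only [H.wall_r] using h

theorem kk_sp {x y : P.X} {s t a b a' : ι} {β : P.Col} (h : KK M e x s t y a b β)
    (hs : Same s t a a') : SP e y a a' β := by
  obtain ⟨o, h⟩ := h
  have hb : b ≠ a' := by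
    rcases (same_mem hs).2 (Or.inr rfl) with h | h <;> rw [h]
    exacts [o.bs, o.bt]
  rcases h with ⟨h, -⟩ | ⟨-, h⟩
  · exact H.sp_of_deep o.adj' (H.bas.big.adj_same o.adj hs) hb h.deep1
  · exact H.sp_of_apx (H.bas.big.adj_same o.adj hs) hb h

theorem o1_of_ap {x z : P.X} {s t t1 t2 : ι} (h : P.Ap M x s t z t1 t2) :
    P.O1 M x s t z t1 t2 := by
  refine ⟨h.adj, h.res, h.mem, ?_, h.ts, h.tt, h.adj'⟩
  rintro ⟨rfl, hz⟩
  obtain ⟨g, -, h1, h2⟩ := h.wall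
  rw [← Pn.col H.bas (y := x) (y' := z) hz] at h2
  exact h1 (H.bas.x2 _ _ _ h2)

theorem kk_of_ap {x z : P.X} {s t t1 t2 : ι} {β : P.Col} (h : P.Ap M x s t z t1 t2)
    (h' : Apx M e z t1 t2 β) : KK M e x s t z t1 t2 β :=
  ⟨H.o1_of_ap h, Or.inr ⟨h.wall, h'⟩⟩

omit H in
theorem kk_of_in {x y : P.X} {s t a b : ι} {β : P.Col} (h : P.O1 M x s t y a b)
    (hi : P.In1 x s t y a) (hd : P.Deep M y a b β) : KK M e x s t y a b β :=
  ⟨h, Or.inl ⟨hd, fun y' hp ⟨g, h1, _, h3⟩ => hi y' hp g h1 h3⟩⟩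

theorem kk_of_o1 {x y : P.X} {s t a b : ι} {β : P.Col} (h : P.O1 M x s t y a b)
    (hd : P.Deep M y a b β) : ∃ y', Pn P y a y' ∧ KK M e x s t y' a b β := by
  by_cases hw : ∀ y', Pn P y a y' → ¬ Wall P x s t y' a
  · exact ⟨y, Pn.refl _ _, h, Or.inl ⟨hd, hw⟩⟩
  push Not at hw
  obtain ⟨y', hp, hw⟩ := hw
  refine ⟨y', hp, ⟨h.adj, ?_, h.mem, ?_, h.bs, h.bt, h.adj'⟩,
    Or.inr ⟨hw, H.apx_of_deep h.adj' (hp.deep H.bas h.adj' hd).deep1⟩⟩
  · rcases hp with rfl | rfl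
    exacts [h.res, H.bas.res_trans h.adj h.res (H.bas.res_r h.adj h.mem y)]
  · rintro ⟨rfl, h1⟩
    exact h.ne ⟨rfl, Pn.trans H.bas h1 (hp.symm H.bas)⟩

theorem ob_of_idx {D y : P.X} {s t a b : ι} {β : P.Col} (h : KK M e D s t y a b β) {n : ℕ}
    (hn : n < M t s) (ha : a = el t s n) (hp : Pn P (P.go D t s n) a y) :
    Ob M e D s t n y a b β := by
  have hts := H.bas.big.adj_symm h.1.adj
  have hm := H.bas.big.six t s hts
  have sp := H.sp_pn (H.bas.big.adj_el hts n)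
    (ha ▸ H.kk_sp h (a' := el t s (n + 1)) (ha ▸ (Same.swap s t).trans (same_el t s n)))
    (ha ▸ hp.symm H.bas)
  refine ⟨hts, hn, h.1.bs, h.1.bt, sp, ?_, ?_⟩
  · rintro rfl
    rw [el_zero] at ha
    subst ha
    rw [go_zero] at hp
    rcases h.2 with ⟨-, h2⟩ | ⟨h2, h3⟩
    · exact (h2 D (hp.symm H.bas) ⟨s, Or.inl rfl, hts.1.symm, rfl⟩).elim
    · rcases hp with rfl | rfl
      · exact ⟨rfl, rfl, h2, h3⟩
      · obtain ⟨g, g1, g2, g3⟩ := h2
        rw [g1.resolve_right g2, ← cc_one, ← H.bas.cc_last hts] at g3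
        exact (H.cc_ne hts D (by omega) (by omega) (by omega) g3).elim
  · rintro rfl
    rw [el_one] at ha
    subst ha
    rw [go_one] at hp
    rcases h.2 with ⟨h2, -⟩ | ⟨⟨g, g1, g2, g3⟩, -⟩
    · exact ⟨h.1.adj', ((hp.symm H.bas).deep H.bas h.1.adj' h2).deep1⟩
    · rw [g1.resolve_left g2, ← H.bas.cc_last hts] at g3
      rcases hp with rfl | rfl
      · rw [H.bas.col_r, ← cc_zero D t a] at g3
        exact (H.cc_ne hts D (by omega) (by omega) (by omega) g3).elim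
      · rw [← cc_two] at g3
        exact (H.cc_ne hts D (by omega) (by omega) (by omega) g3).elim

theorem ob_of_kk {x y : P.X} {s t a b : ι} {β : P.Col} (h : KK M e x s t y a b β) :
    (∃ n, Ob M e x s t n y a b β) ∨ ∃ n, n + 1 < M t s ∧ Ob M e (P.r s x) s t n y a b β := by
  have hts := H.bas.big.adj_symm h.1.adj
  have hm := H.bas.big.six t s hts
  have hm' : M s t = M t s := H.bas.big.symm _ _
  obtain ⟨n, hn, e1, e2⟩ := H.bas.panel_idx hts (H.bas.res_swap h.1.adj h.1.res) h.1.mem.symm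
  have hp : Pn P (P.go x t s n) a y := by
    rcases e2 with h2 | h2
    exacts [Or.inl h2, Or.inr (by rw [h2, go_succ, e1])]
  rcases lt_or_ge n (M t s) with h1 | h1
  · exact Or.inl ⟨n, H.ob_of_idx h h1 e1 hp⟩
  have hp1 : Pn P (P.go x t s (n + 1)) a y :=
    Pn.trans H.bas (Pn.symm H.bas (Or.inr (by rw [go_succ, e1]))) hp
  have n2 : n + 1 ≠ 2 * M t s := fun h2 => by
    rw [h2, H.bas.go_two hts] at hp1
    have : a = s := by rw [e1, el_congr t s (n' := 1) (by omega), el_one]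
    exact h.1.ne ⟨this, this ▸ hp1⟩
  refine Or.inr ⟨2 * M t s - 2 - n, by omega, H.ob_of_idx (H.kk_r h) (by omega)
    (e1.trans (el_congr _ _ (by omega))) ?_⟩
  rwa [← go_succ', H.bas.go_rev hts x _ (by omega),
    show 2 * M t s - (2 * M t s - 2 - n + 1) = n + 1 by omega]

theorem ob_e {D y : P.X} {s t a b : ι} {β : P.Col} {n : ℕ} (h : Ob M e D s t n y a b β) :
    e (P.go D t s n) β = e D β :=
  (H.sp_res (H.bas.big.adj_el h.adj n) h.sp (H.bas.res_same h.adj (same_el t s n)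
    (H.bas.res_symm h.adj (res_go D t s n)))).symm

theorem ob_wall {D y : P.X} {s t a b : ι} {β : P.Col} {n : ℕ} (h : Ob M e D s t n y a b β)
    (hn : n + 1 < M t s) : Sep e D β (P.col D s) := by
  have h1 := h.lt
  rw [← H.bas.cc_last h.adj]
  exact (H.sp_idx h.adj h.sp ⟨_, rfl⟩ (H.cc_ne h.adj D (by omega) h.lt (by omega))).rebase
    (H.ob_e h) (H.bas.e_go_le H.eps h.adj D (by omega) (by omega))

theorem pt_opp {D y y' : P.X} {s t a b t' a' b' : ι} {β β' : P.Col} {n n' : ℕ}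
    (h : Ob M e D s t n y a b β) (hn : n + 1 < M t s)
    (h' : Ob M e (P.r s D) s t' n' y' a' b' β') (hn' : n' + 1 < M t' s) : Sep e D β β' := by
  have h1 := H.ob_wall h' hn'
  rw [H.bas.col_r] at h1
  exact ((h1.sub (Bas.e_r_col H.eps s D)).sep (H.ob_wall h hn).symm).symm

theorem zz {D y : P.X} {s t a b t' : ι} {β c : P.Col} {n : ℕ} (h : Ob M e D s t n y a b β)
    (ht : t ≠ t') (hadj : Adj M t' s) (hc : P.Thru D t' s c) (hc' : c ≠ P.col D s) :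
    Sep e D β c ∨ (n = 0 ∧ b = t' ∧ c = P.col D t') := by
  have hm := H.bas.big.six t s h.adj
  have hm' : M s t = M t s := H.bas.big.symm _ _
  have hst := H.bas.big.adj_symm h.adj
  have hst' := H.bas.big.adj_symm hadj
  have h1 := h.lt
  by_cases n0 : n = 0
  · by_cases h2 : b = t' ∧ c = P.col D t'
    · exact Or.inr ⟨n0, h2⟩
    refine Or.inl ((h.zero n0).2.2.2.i1 t' s c hadj ?_ hc ?_)
    · rintro (⟨h3, -⟩ | ⟨h3, -⟩)
      exacts [ht h3, h.adj.1 h3]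
    · rintro g (rfl | rfl) (h3 | h3)
      · exact (ht h3).elim
      · exact (h.adj.1 h3).elim
      · exact fun h4 => h2 ⟨h3, h3 ▸ h4⟩
      · exact (h.bs h3).elim
  left
  by_cases n1 : n = 1
  · have sub := H.sp_sub h.adj h.sp (j := 0) (by omega) (by omega) (by omega)
    rw [cc_zero] at sub
    by_cases h2 : c = P.col D t'
    · subst h2
      by_cases h0 : M t t' = 0
      · exact sub.sep (H.nc3 D t t' ht h0)
      have htt : Adj M t t' := ⟨ht, h0⟩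
      have h6 := H.bas.big.six t t' htt
      obtain ⟨h3, h4⟩ := h.one n1
      have e1 : P.col D t' = P.cc (P.r t D) t t' 1 := by rw [cc_one, H.bas.rr]
      have n2 : P.col D t' ≠ P.col D t := fun h => ht (H.bas.x2 _ _ _ h).symm
      have e2 := H.ob_e h
      rw [n1, go_one] at e2
      refine (H.ncs h3 htt ?_ h4 ⟨1, e1.symm⟩ ?_).rebase e2 (H.er n2)
      · rintro (⟨h5, -⟩ | ⟨-, h5⟩)
        exacts [h.adj.1 h5.symm, h.bt h5]
      · intro g _ hg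
        rw [e1]
        exact H.int_ne htt _ le_rfl (by omega) hg
    · refine sub.sep ?_
      obtain ⟨k, hk, rfl⟩ := H.bas.thru_lt hst' (H.bas.thru_swap hadj hc)
      rw [← H.bas.cc_last hst]
      refine H.nc1 D s t t' _ k hst hst' ht (by omega) (by omega) ?_ hk (by omega) ?_
      · exact Nat.pos_of_ne_zero fun h => hc' (by rw [h, cc_zero])
      · rintro ⟨-, h3⟩
        exact h2 (by rw [← H.bas.cc_last hst']; congr 1; omega)
  · refine (H.sp_sub h.adj h.sp (j := 1) (by omega) (by omega) (by omega)).sep ?_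
    rw [H.bas.cc_rev hst D 1 (by omega)]
    rcases H.nc_first hst hst' ht (k := M s t - 1 - 1) (by omega) (by omega)
      (H.bas.thru_swap hadj hc) hc' with h2 | ⟨h2, -⟩
    exacts [h2, by omega]

theorem pt_aux {D y y' : P.X} {s t a b t' a' b' : ι} {β β' : P.Col} {n n' : ℕ}
    (h : Ob M e D s t n y a b β) (h' : Ob M e D s t' n' y' a' b' β') (ht : t ≠ t')
    (hn' : n' ≠ 0) : Sep e D β β' := by
  have hm := H.bas.big.six t' s h'.adj
  have h1 := h'.lt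
  have key : ∀ j, j < n' → Sep e D β β' ∨ (n = 0 ∧ b = t' ∧ j = 0) := by
    intro j hj
    rcases H.zz h ht h'.adj ⟨j, rfl⟩ (by
      rw [← H.bas.cc_last h'.adj]
      exact H.cc_ne h'.adj D (by omega) (by omega) (by omega)) with h2 | ⟨h2, h3, h4⟩
    · exact Or.inl ((H.sp_sub h'.adj h'.sp (by omega) hj (by omega)).sep h2.symm).symm
    · rw [← cc_zero D t' s] at h4
      exact Or.inr ⟨h2, h3, H.bas.inj D t' s _ _ h'.adj (by omega) (by omega) h4⟩
  by_cases n1 : n' = 1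
  · rcases key 0 (by omega) with h2 | ⟨h2, h3, -⟩
    · exact h2
    obtain ⟨h4, h5⟩ := h'.one n1
    refine (h.zero h2).2.2.2.i2 t' s b' β' (Or.inr h3.symm) h4 ?_ h5
    rintro (⟨h6, -⟩ | ⟨-, h6⟩)
    exacts [h.adj.1 h6, h.bs h6]
  · rcases key 1 (by omega) with h2 | ⟨-, -, h2⟩
    exacts [h2, by omega]

theorem pt_diff {D y y' : P.X} {s t a b t' a' b' : ι} {β β' : P.Col} {n n' : ℕ}
    (h : Ob M e D s t n y a b β) (h' : Ob M e D s t' n' y' a' b' β') (ht : t ≠ t') :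
    Sep e D β β' ∨ (Wall P D s t y a ∧ y' = y ∧ Same a b a' b') := by
  by_cases n1 : n' = 0
  · by_cases n0 : n = 0
    · obtain ⟨rfl, rfl, w, p⟩ := h.zero n0
      obtain ⟨rfl, rfl, -, p'⟩ := h'.zero n1
      by_cases hs : Same a b a' b'
      exacts [Or.inr ⟨w, rfl, hs⟩, Or.inl (H.aa p p' hs)]
    · exact Or.inl (H.pt_aux h' h ht.symm n0).symm
  · exact Or.inl (H.pt_aux h h' ht n1)

/-- an apex object and any object at the same vertex -/
theorem pt_same {x y y' : P.X} {s t a b a' b' : ι} {β β' : P.Col}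
    (h : KK M e x s t y a b β) (w : Wall P x s t y a) (p : Apx M e y a b β)
    (h' : KK M e x s t y' a' b' β') : Sep e y β β' ∨ (y' = y ∧ Same a b a' b') := by
  obtain ⟨u, hu⟩ := other h.1.mem
  obtain ⟨u', hu'⟩ := other h'.1.mem
  have hau := H.bas.big.adj_same h.1.adj hu
  have hm := H.bas.big.six a u hau
  have wu : P.col y u = P.col x s := by
    obtain ⟨g, g1, g2, g3⟩ := w
    rwa [← ((same_mem hu).1 g1).resolve_left g2]
  have bu : b ≠ u := by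
    rcases (same_mem hu).2 (Or.inr rfl) with h1 | h1 <;> rw [h1]
    exacts [h.1.bs, h.1.bt]
  have ns : ¬ Same a b u b' := by
    rintro (⟨h1, -⟩ | ⟨-, h1⟩)
    exacts [hau.1 h1, bu h1]
  have tr := H.tri hau (hu.symm.trans hu')
    (H.bas.res_same h.1.adj hu (H.bas.res_trans h.1.adj (H.bas.res_symm h.1.adj h.1.res) h'.1.res))
    (H.kk_sp h hu) (H.kk_sp h' hu')
  rcases h'.2 with ⟨d', nw⟩ | ⟨⟨g, g1, g2, g3⟩, p'⟩
  · rcases tr with h1 | ⟨rfl, hp⟩ | ⟨rfl, hp⟩ | ⟨rfl, hp⟩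
    · exact Or.inl h1
    · exact (nw y (hp.symm H.bas) w).elim
    · have d := ((hp.symm H.bas).deep H.bas h'.1.adj' d').deep1
      exact Or.inl (p.i1 _ _ _ h'.1.adj' ns d.thru (H.deep_wk h'.1.adj' d))
    · exact Or.inl (p.i2 a _ _ _ (Or.inl rfl) h'.1.adj' ns
        ((hp.symm H.bas).deep H.bas h'.1.adj' d').deep1)
  · rw [← wu] at g3
    rw [same_mem hu] at g1
    rcases tr with h1 | ⟨rfl, hp⟩ | ⟨rfl, hp⟩ | ⟨rfl, hp⟩
    · exact Or.inl h1
    · rcases hp with rfl | rfl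
      · by_cases hs : Same a' b a' b'
        exacts [Or.inr ⟨rfl, hs⟩, Or.inl (H.aa p p' hs)]
      · rw [g1.resolve_left g2, ← cc_one] at g3
        exact (H.int_ne hau y le_rfl (by omega) (Or.inr rfl) g3).elim
    · rw [← hp.col H.bas] at g3
      exact (g2 (H.bas.x2 _ _ _ g3)).elim
    · rw [g1.resolve_right g2] at g3
      rcases hp with rfl | rfl
      · rw [H.bas.col_r] at g3
        exact (hau.1 (H.bas.x2 _ _ _ g3)).elim
      · rw [← cc_two] at g3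
        exact (H.int_ne hau y (by omega) (by omega) (Or.inr rfl) g3).elim

theorem pt {x y y' : P.X} {s t a b t' a' b' : ι} {β β' : P.Col}
    (h : KK M e x s t y a b β) (h' : KK M e x s t' y' a' b' β') :
    (∃ D, Sep e D β β') ∨ ((¬ Wall P x s t y a ∧ t = t') ∧ P.SameO y a b y' a' b') ∨
      (Wall P x s t y a ∧ y' = y ∧ Same a b a' b') := by
  by_cases ht : t = t'
  · subst ht
    rcases h.2 with ⟨d, nw⟩ | ⟨w, p⟩
    · rcases h'.2 with ⟨d', -⟩ | ⟨w', p'⟩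
      · obtain ⟨u, hu⟩ := other h.1.mem
        have ne : ∀ v, v ≠ s → v ≠ t → v ≠ a ∧ v ≠ u := fun v v1 v2 =>
          ⟨fun h1 => ((same_mem hu).2 (Or.inl h1)).elim v1 v2,
            fun h1 => ((same_mem hu).2 (Or.inr h1)).elim v1 v2⟩
        rcases H.v11 (H.bas.big.adj_same h.1.adj hu) ((same_mem hu).1 h'.1.mem) h.1.adj' h'.1.adj'
          (ne b h.1.bs h.1.bt).2 (ne b' h'.1.bs h'.1.bt).1 (ne b' h'.1.bs h'.1.bt).2
          (H.bas.res_same h.1.adj hu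
            (H.bas.res_trans h.1.adj (H.bas.res_symm h.1.adj h.1.res) h'.1.res)) d d' with h1 | h1
        exacts [Or.inl h1, Or.inr (Or.inl ⟨⟨nw y (Pn.refl _ _), rfl⟩, h1⟩)]
      · rcases H.pt_same h' w' p' h with h1 | ⟨rfl, ⟨rfl, -⟩ | ⟨-, rfl⟩⟩
        · exact Or.inl ⟨_, h1.symm⟩
        · exact (nw y (Pn.refl _ _) w').elim
        · exact (h.1.mem.elim h'.1.bs h'.1.bt).elim
    · rcases H.pt_same h w p h' with h1 | h1
      exacts [Or.inl ⟨_, h1⟩, Or.inr (Or.inr ⟨w, h1⟩)]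
  have opp : ∀ {D : P.X} {n n' : ℕ}, Ob M e D s t n y a b β → n + 1 < M t s →
      Ob M e (P.r s D) s t' n' y' a' b' β' → n' + 1 < M t' s → ∃ D, Sep e D β β' :=
    fun o1 l1 o2 l2 => ⟨_, H.pt_opp o1 l1 o2 l2⟩
  rcases H.ob_of_kk h' with ⟨n', o'⟩ | ⟨n', l', o'⟩
  · rcases H.ob_of_kk h with ⟨n, o⟩ | ⟨n, l, o⟩
    · exact (H.pt_diff o o' ht).imp (fun h1 => ⟨_, h1⟩) Or.inr
    · rcases H.ob_of_kk (H.kk_r h') with ⟨n2, o2⟩ | ⟨n2, l2, o2⟩
      · exact (H.pt_diff o o2 ht).imp (fun h1 => ⟨_, h1⟩)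
          fun h1 => Or.inr ⟨H.wall_r.1 h1.1, h1.2⟩
      · exact Or.inl (opp o l o2 l2)
  · rcases H.ob_of_kk (H.kk_r h) with ⟨n, o⟩ | ⟨n, l, o⟩
    · exact (H.pt_diff o o' ht).imp (fun h1 => ⟨_, h1⟩)
        fun h1 => Or.inr ⟨H.wall_r.1 h1.1, h1.2⟩
    · rw [H.bas.rr] at o
      exact Or.inl (opp o l o' l')

/-- an object and a wall through a vertex of the panel `[x, s]` -/
theorem aw {x y : P.X} {s t a b t' : ι} {β c : P.Col} (h : KK M e x s t y a b β)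
    (hadj : Adj M s t') (hc : P.Thru x s t' c) :
    (∃ D, Sep e D β c) ∨ c = P.col y a ∨ (Wall P x s t y a ∧ c = P.col y b) := by
  by_cases h0 : c = P.col y a
  · exact Or.inr (Or.inl h0)
  by_cases h1 : P.Thru x s t c
  · obtain ⟨u, hu⟩ := other h.1.mem
    exact Or.inl ⟨y, (H.kk_sp h hu).2 c
      (H.bas.thru_same h.1.adj hu ((H.bas.thru_res h.1.adj h.1.res).1 h1)) h0⟩
  have ht : t ≠ t' := fun h2 => h1 (h2 ▸ hc)
  have h2 : c ≠ P.col x s := fun h2 => h1 (h2 ▸ thru_col x s t)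
  have hts := H.bas.big.adj_symm hadj
  rcases H.ob_of_kk h with ⟨n, o⟩ | ⟨n, -, o⟩
  · rcases H.zz o ht hts (H.bas.thru_swap hadj hc) h2 with h3 | ⟨h3, rfl, h4⟩
    · exact Or.inl ⟨_, h3⟩
    · obtain ⟨rfl, -, w, -⟩ := o.zero h3
      exact Or.inr (Or.inr ⟨w, h4⟩)
  · rcases H.zz o ht hts (H.bas.thru_swap hadj
      ((H.bas.thru_res hadj (H.bas.res_r hadj (Or.inl rfl) x)).1 hc))
      (by rwa [H.bas.col_r]) with h3 | ⟨h3, rfl, h4⟩
    · exact Or.inl ⟨_, h3⟩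
    · obtain ⟨rfl, -, w, -⟩ := o.zero h3
      exact Or.inr (Or.inr ⟨H.wall_r.1 w, h4⟩)

theorem apex_sep {t1 t2 a b : ι} (ht : Adj M t1 t2) {z y : P.X} {σ c : P.Col}
    (h : P.O2 M z t1 t2 y a b) (hd : P.Deep M y a b σ) (hc : P.Thru z t1 t2 c)
    (hc' : c ≠ P.col y a) : Sep e y σ c := by
  obtain ⟨u, hu⟩ := other h.mem
  have bu : b ≠ u := by
    rcases (same_mem hu).2 (Or.inr rfl) with h1 | h1 <;> rw [h1]
    exacts [h.b1, h.b2]
  exact (H.sp_of_deep h.adj' (H.bas.big.adj_same ht hu) bu hd.deep1).2 c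
    (H.bas.thru_same ht hu ((H.bas.thru_res ht h.res).1 hc)) hc'

theorem geo {N : P.Col → P.Col → Prop}
    (hN : ∀ D w a w' a', Sep e D (P.col w a) (P.col w' a') → N (P.col w a) (P.col w' a')) :
    P.Geo M N := by
  have fin : ∀ {σ c : P.Col} {y y' : P.X} {a b a' b' : ι}, P.Thru y a b σ → P.Thru y' a' b' c →
      (∃ D, Sep e D σ c) → N σ c := by
    rintro _ _ y y' a b a' b' ⟨k, rfl⟩ ⟨k', rfl⟩ ⟨D, h⟩
    exact hN D _ _ _ _ h
  have nw : ∀ {x y y' : P.X} {s t a g : ι}, P.In1 x s t y a → Pn P y a y' →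
      ¬ Wall P x s t y' g := fun hi hp ⟨g, g1, _, g3⟩ => hi _ hp g g1 g3
  refine ⟨?_, ?_, ?_, ?_, ?_, ?_, ?_, ?_, ?_⟩
  · intro x a b a' b' σ c h1 h2 h3 h4 h5 h6 h7
    refine fin h4.thru h5 ⟨x, H.ncs h1 h2 h3 h4 h5 ?_⟩
    rintro g (rfl | rfl) -
    exacts [h6, h7]
  · intro x s t y a b σ t' y' a' b' σ' h1 h2 h3 h4 h5
    obtain ⟨y2, hp, k2⟩ := H.kk_of_o1 h4 h5
    rcases H.pt (kk_of_in h1 h2 h3) k2 with h | ⟨-, rfl, rfl, h⟩ | ⟨w, -⟩
    · exact Or.inl (fin h3.deep1.thru h5.deep1.thru h)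
    · exact Or.inr ⟨rfl, rfl, Pn.trans H.bas h (hp.symm H.bas)⟩
    · exact (nw h2 (Pn.refl _ _) w).elim
  · intro x s t z t1 t2 y a b σ t' y' a' b' σ' h1 h2 h3 h4 h5
    obtain ⟨y2, hp, k2⟩ := H.kk_of_o1 h4 h5
    rcases H.pt (H.kk_of_ap h1 (H.apx_of_far h1.adj' h2 h3)) k2 with h | ⟨w, -⟩ | ⟨-, rfl, h⟩
    · exact Or.inl (fin h3.deep1.thru h5.deep1.thru h)
    · exact (w.1 h1.wall).elim
    · exact Or.inr ⟨hp.imp Eq.symm Eq.symm, h.symm⟩
  · intro x s t z t1 t2 y a b σ t' z' t1' t2' y' a' b' σ' h1 h2 h3 h4 h5 h6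
    rcases H.pt (H.kk_of_ap h1 (H.apx_of_far h1.adj' h2 h3))
      (H.kk_of_ap h4 (H.apx_of_far h4.adj' h5 h6)) with h | ⟨w, -⟩ | ⟨-, rfl, h⟩
    · exact Or.inl (fin h3.deep1.thru h6.deep1.thru h)
    · exact (w.1 h1.wall).elim
    · obtain ⟨u, hu⟩ := other h2.mem
      have ne : ∀ v, v ≠ t1 → v ≠ t2 → v ≠ a ∧ v ≠ u := fun v v1 v2 =>
        ⟨fun h1 => ((same_mem hu).2 (Or.inl h1)).elim v1 v2,
          fun h1 => ((same_mem hu).2 (Or.inr h1)).elim v1 v2⟩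
      have n1 : b' ≠ t1 := fun h7 => ((same_mem h).1 (Or.inl h7)).elim h5.b1 h5.b2
      have n2 : b' ≠ t2 := fun h7 => ((same_mem h).1 (Or.inr h7)).elim h5.b1 h5.b2
      refine (H.v11 (H.bas.big.adj_same h1.adj' hu) ((same_mem hu).1 ((same_mem h).2 h5.mem))
        h2.adj' h5.adj' (ne b h2.b1 h2.b2).2 (ne b' n1 n2).1 (ne b' n1 n2).2
        (H.bas.res_same h1.adj' hu (H.bas.res_trans h1.adj' (H.bas.res_symm h1.adj' h2.res)
          (H.bas.res_same h4.adj' h.symm h5.res))) h3 h6).imp_left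
        (fin h3.deep1.thru h6.deep1.thru)
  · intro x s t y a b σ t' c h1 h2 h3 h4 h5 h6
    rcases H.aw (kk_of_in h1 h2 h3) h4 h5 with h | h | ⟨w, -⟩
    exacts [fin h3.deep1.thru h5 h, (h6 h).elim, (nw h2 (Pn.refl _ _) w).elim]
  · intro x s t z t1 t2 y a b σ t' c h1 h2 h3 h4 h5 h6
    refine fin h3.deep1.thru h5 ?_
    rcases H.aw (H.kk_of_ap h1 (H.apx_of_far h1.adj' h2 h3)) h4 h5 with h | h | ⟨-, h⟩
    · exact h
    · exact ⟨_, H.apex_sep h1.adj' h2 h3 (h ▸ thru_col _ _ _) h6⟩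
    · exact ⟨_, H.apex_sep h1.adj' h2 h3 (h ▸ H.bas.thru_col' h1.adj' _) h6⟩
  · intro x s t y a b σ t' z' t1' t2' τ h1 h2 h3 h4 h5
    rcases H.pt (kk_of_in h1 h2 h3) (H.kk_of_ap h4 (H.apx_of_deep h4.adj' h5)) with
      h | ⟨⟨-, rfl⟩, rfl, rfl, h⟩ | ⟨w, -⟩
    · exact fin h3.deep1.thru h5.thru h
    · exact (nw h2 h h4.wall).elim
    · exact (nw h2 (Pn.refl _ _) w).elim
  · intro x s t z t1 t2 y a b σ t' z' t1' t2' τ h1 h2 h3 h4 h5 h6
    refine fin h3.deep1.thru h5.thru ?_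
    rcases H.pt (H.kk_of_ap h1 (H.apx_of_far h1.adj' h2 h3))
      (H.kk_of_ap h4 (H.apx_of_deep h4.adj' h5)) with h | ⟨w, -⟩ | ⟨-, rfl, h⟩
    · exact h
    · exact (w.1 h1.wall).elim
    · exact ⟨_, H.apex_sep h1.adj' h2 h3 (H.bas.thru_same h4.adj' h.symm h5.thru) h6⟩
  · intro x s t z t1 t2 τ t' z' t1' t2' τ' h1 h2 h3 h4
    rcases H.pt (H.kk_of_ap h1 (H.apx_of_deep h1.adj' h2))
      (H.kk_of_ap h3 (H.apx_of_deep h3.adj' h4)) with h | ⟨w, -⟩ | ⟨-, h⟩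
    exacts [Or.inl (fin h2.thru h4.thru h), (w.1 h1.wall).elim, Or.inr h]

end Ctx

end PGeo

end Pool.Agent.P.MP_e794d7_al.X
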