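import Pool.Agent.P.MP_e794d7_al.X.BasX

/-! The hierarchy, part one: walks, the stabiliser of the positions, simple connectivity. -/

set_option autoImplicit false

namespace Pool.Agent.P.MP_e794d7_al.X

namespace Hier

open scoped Classical

noncomputable section

variable {ι : Type} {M : ι → ι → ℕ} {P : Pos ι}

/-- the walk along the alternating word in the Artin group -/
def wk (g : Art M) (a b : ι) : ℕ → Art M
  | 0 => g
  | n + 1 => wk g a b n * Art.gen M (el a b n)

theorem wk_succ (g : Art M) (a b : ι) (n : ℕ) :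
    wk g a b (n + 1) = wk g a b n * Art.gen M (el a b n) := rfl

theorem wk_eq (g : Art M) (a b : ι) (n : ℕ) :
    wk g a b n = g * alt (Art.gen M a) (Art.gen M b) n := by
  induction n with
  | zero => simp [wk, alt_zero]
  | succ n ih => rw [wk_succ, ih, alt_succ, mul_assoc, el, apply_ite (Art.gen M)]

theorem wk_mul (h g : Art M) (a b : ι) (n : ℕ) : wk (h * g) a b n = h * wk g a b n := by
  rw [wk_eq, wk_eq, mul_assoc]

theorem wk_rel (g : Art M) (a b : ι) : wk g a b (M a b) = wk g b a (M a b) := by
  rw [wk_eq, wk_eq, Art.rel]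

theorem pos_wk {π : Art M → P.X} (hπ : P.IsPos M π) (g : Art M) (a b : ι) (n : ℕ) :
    π (wk g a b n) = P.go (π g) a b n := by
  induction n with
  | zero => rfl
  | succ n ih => rw [wk_succ, hπ, ih, Pos.go_succ]

theorem col_wk {π : Art M → P.X} (hπ : P.IsPos M π) (g : Art M) (a b : ι) (n : ℕ) :
    P.col (π (wk g a b n)) (el a b n) = P.cc (π g) a b n := by
  rw [pos_wk hπ, Pos.cc]

/-- the elements that fix all positions -/
def N0 {X : Type} (π : Art M → X) : Subgroup (Art M) where
  carrier := {n | ∀ g, π (n * g) = π g}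
  one_mem' := fun g => by rw [one_mul]
  mul_mem' := fun {a b} ha hb g => by rw [mul_assoc, ha, hb]
  inv_mem' := fun {a} ha g => by rw [← ha, mul_inv_cancel_left]

theorem mem_N0 {π : Art M → P.X} (hB : P.Bas M) (hπ : P.IsPos M π) {g g' : Art M}
    (h : π g = π g') : g * g'⁻¹ ∈ N0 π := by
  have key : ∀ u : Art M, π (g * u) = π (g' * u) := by
    intro u
    have hu : u ∈ Subgroup.closure (Set.range (Art.gen M)) := by
      rw [Art.closure_gen]; trivial
    induction hu using Subgroup.closure_induction_right with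
    | one => simpa using h
    | mul_right x _ y hy ih =>
      obtain ⟨a, rfl⟩ := hy
      rw [← mul_assoc, ← mul_assoc, hπ, hπ, ih]
    | mul_inv_cancel x _ y hy ih =>
      obtain ⟨a, rfl⟩ := hy
      apply hB.r_inj a
      rw [← hπ, ← hπ]
      simpa [mul_assoc] using ih
  intro x
  have := key (g'⁻¹ * x)
  rwa [mul_inv_cancel_left, ← mul_assoc] at this

theorem N0_fi {π : Art M → P.X} (hX : Finite P.X) (hB : P.Bas M) (hπ : P.IsPos M π) :
    (N0 π).FiniteIndex := by
  have : Finite (Art M ⧸ N0 π) := by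
    refine Finite.of_injective (fun q : Art M ⧸ N0 π => π q.out⁻¹) fun q q' h => ?_
    have := mem_N0 hB hπ h
    rw [inv_inv] at this
    rw [← QuotientGroup.out_eq' q, ← QuotientGroup.out_eq' q']
    exact QuotientGroup.eq.mpr this
  exact Subgroup.finiteIndex_of_finite_quotient

/-- no colour of the cell lies in `C` -/
def Cfree (π : Art M → P.X) (C : Set P.Col) (g : Art M) (a b : ι) : Prop :=
  ∀ n, P.cc (π g) a b n ∉ C

theorem Cfree.swap {π : Art M → P.X} (hB : P.Bas M) {C : Set P.Col} {g : Art M} {a b : ι}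
    (hab : Adj M a b) (h : Cfree π C g a b) : Cfree π C g b a := by
  intro n hn
  obtain ⟨k, hk⟩ := hB.thru_swap (hB.big.adj_symm hab) (x := π g) ⟨n, rfl⟩
  exact h k (by rw [hk]; exact hn)

/-- the sum of a cochain along a walk -/
def sm {A : Type} [AddCommGroup A] (β : Art M → ι → A) (g : Art M) (a b : ι) (n : ℕ) : A :=
  ∑ i ∈ Finset.range n, β (wk g a b i) (el a b i)

/-- simple connectivity after the removal of the walls with colours in `C` -/
def SC (π : Art M → P.X) (C : Set P.Col) : Prop :=
  ∀ (A : Type) [AddCommGroup A] (β : Art M → ι → A),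
    (∀ g a b, Adj M a b → Cfree π C g a b → sm β g a b (M a b) = sm β g b a (M a b)) →
    ∃ α : Art M → A, ∀ g a, P.col (π g) a ∉ C → α (g * Art.gen M a) - α g = β g a

/-- the permutation attached to a letter -/
def prm {A : Type} [AddCommGroup A] (β : Art M → ι → A) (a : ι) : Equiv.Perm (Art M × A) where
  toFun x := (x.1 * Art.gen M a, x.2 + β x.1 a)
  invFun x := (x.1 * (Art.gen M a)⁻¹, x.2 - β (x.1 * (Art.gen M a)⁻¹) a)
  left_inv x := by simp
  right_inv x := by simp

theorem alt_prm {A : Type} [AddCommGroup A] (β : Art M → ι → A) (a b : ι) (n : ℕ)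
    (x : Art M × A) :
    (alt (MulOpposite.op (prm β a)) (MulOpposite.op (prm β b)) n).unop x =
      (wk x.1 a b n, x.2 + sm β x.1 a b n) := by
  induction n with
  | zero => simp [alt_zero, wk, sm]
  | succ n ih =>
    have h1 : (if Even n then MulOpposite.op (prm β a) else MulOpposite.op (prm β b)) =
        MulOpposite.op (prm β (el a b n)) := by
      unfold el
      split_ifs <;> rfl
    rw [alt_succ, h1, MulOpposite.unop_mul, MulOpposite.unop_op, Equiv.Perm.mul_apply, ih]
    simp only [sm, Finset.sum_range_succ, wk_succ, ← add_assoc]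
    rfl

theorem sc_empty (π : Art M → P.X) : SC π ∅ := by
  intro A _ β hβ
  let Φ : Art M →* (Equiv.Perm (Art M × A))ᵐᵒᵖ :=
    Art.lift (fun a => MulOpposite.op (prm β a)) fun a b => by
      by_cases hab : a = b
      · rw [hab]
      by_cases h0 : M a b = 0
      · rw [h0]; rfl
      apply MulOpposite.unop_injective
      ext1 x
      rw [alt_prm, alt_prm, wk_rel, hβ _ a b ⟨hab, h0⟩ fun _ h => h]
  have h1 : ∀ g : Art M, ∀ x, ((Φ g).unop x).1 = x.1 * g := by
    intro g
    have hg : g ∈ Subgroup.closure (Set.range (Art.gen M)) := by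
      rw [Art.closure_gen]; trivial
    induction hg using Subgroup.closure_induction with
    | mem y hy =>
      obtain ⟨a, rfl⟩ := hy
      intro x
      simp only [Φ, Art.lift_gen]
      rfl
    | one => intro x; simp
    | mul y z _ _ h1 h2 =>
      intro x
      rw [map_mul, MulOpposite.unop_mul, Equiv.Perm.mul_apply, h2, h1, mul_assoc]
    | inv y _ h1 =>
      intro x
      have := h1 ((Φ y⁻¹).unop x)
      rw [← Equiv.Perm.mul_apply, ← MulOpposite.unop_mul, ← map_mul, inv_mul_cancel,
        map_one] at this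
      rw [eq_mul_inv_iff_mul_eq, ← this]
      rfl
  refine ⟨fun g => ((Φ g).unop (1, 0)).2, fun g a _ => ?_⟩
  have h2 : Φ (Art.gen M a) = MulOpposite.op (prm β a) := Art.lift_gen _ _ _
  have h3 := h1 g (1, 0)
  rw [one_mul] at h3
  beta_reduce
  rw [map_mul, MulOpposite.unop_mul, Equiv.Perm.mul_apply, h2, MulOpposite.unop_op]
  change ((Φ g).unop (1, 0)).2 + β ((Φ g).unop (1, 0)).1 a - _ = _
  rw [h3, add_sub_cancel_left]

theorem sm_congr {A : Type} [AddCommGroup A] {β β' : Art M → ι → A} {g : Art M} {a b : ι}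
    (h : ∀ i, β (wk g a b i) (el a b i) = β' (wk g a b i) (el a b i)) (n : ℕ) :
    sm β g a b n = sm β' g a b n :=
  Finset.sum_congr rfl fun i _ => h i

theorem sm_tel {A : Type} [AddCommGroup A] {β : Art M → ι → A} {g : Art M} {a b : ι}
    (α : Art M → A) (h : ∀ i, β (wk g a b i) (el a b i) = α (wk g a b (i + 1)) - α (wk g a b i))
    (n : ℕ) : sm β g a b n = α (wk g a b n) - α g := by
  rw [sm, Finset.sum_congr rfl fun i _ => h i]
  exact Finset.sum_range_sub (fun i => α (wk g a b i)) n

/-- the edges of a cell through which the colour passes are edges of the chain -/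
theorem chE_wk {π : Art M → P.X} (hB : P.Bas M) (hπ : P.IsPos M π) {c : P.Col} {g : Art M}
    {a b : ι} (hab : Adj M a b) (ht : P.Thru (π g) a b c) (i : ℕ)
    (hi : P.cc (π g) a b i ≠ c) : P.ChE M c (π (wk g a b i)) (el a b i) := by
  refine ⟨by rw [col_wk hπ]; exact hi, el a b (i + 1), hB.big.adj_el hab i, ?_⟩
  rw [pos_wk hπ]
  exact hB.thru_same hab (same_el a b i) ((hB.thru_res hab (Pos.res_go _ a b i)).mp ht)

theorem sc_insert (hForest : S_Forest) {π : Art M → P.X} (hB : P.Bas M) (hπ : P.IsPos M π)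
    (hE : P.Ext M π) {C : Set P.Col} (c : P.Col) (h : SC π C) : SC π (insert c C) := by
  intro A _ β hβ
  obtain ⟨α0, h0⟩ := hForest ι M P π hE c A β
  let β' : Art M → ι → A := fun g a =>
    if P.col (π g) a = c then α0 (g * Art.gen M a) - α0 g else β g a
  have k1 : ∀ g a b, Adj M a b → P.Thru (π g) a b c → ∀ n,
      sm β' g a b n = α0 (wk g a b n) - α0 g := fun g a b hab ht => sm_tel α0 fun i => by
    by_cases hi : P.col (π (wk g a b i)) (el a b i) = c
    · exact if_pos hi
    · rw [wk_succ, h0 _ _ (chE_wk hB hπ hab ht i (by rwa [col_wk hπ] at hi))]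
      exact if_neg hi
  have k2 : ∀ g a b, ¬ P.Thru (π g) a b c → ∀ n, sm β' g a b n = sm β g a b n :=
    fun g a b ht => sm_congr fun i => if_neg fun hi => ht ⟨i, by rwa [col_wk hπ] at hi⟩
  obtain ⟨α, hα⟩ := h A β' fun g a b hab hf => by
    by_cases ht : P.Thru (π g) a b c
    · rw [k1 g a b hab ht, k1 g b a (hB.big.adj_symm hab) (hB.thru_swap hab ht), wk_rel]
    · rw [k2 g a b ht, k2 g b a fun h' => ht (hB.thru_swap (hB.big.adj_symm hab) h')]
      refine hβ g a b hab fun n hn => ?_
      rcases hn with hn | hn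
      · exact ht ⟨n, hn⟩
      · exact hf n hn
  refine ⟨α, fun g a hg => ?_⟩
  rw [hα g a fun h' => hg (Or.inr h')]
  exact if_neg fun h' => hg (Or.inl h')

theorem sc_finite (hForest : S_Forest) {π : Art M → P.X} (hB : P.Bas M) (hπ : P.IsPos M π)
    (hE : P.Ext M π) {C : Set P.Col} (hC : C.Finite) : SC π C := by
  induction C, hC using Set.Finite.induction_on with
  | empty => exact sc_empty π
  | insert _ _ ih => exact sc_insert hForest hB hπ hE _ ih

end

end Hier

end Pool.Agent.P.MP_e794d7_al.X
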