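import Pool.Agent.P.MP_e794d7_al.X.PSign

/-! The parity of the number of crossings of a wall is a function on the reflection group. -/

set_option autoImplicit false

namespace Pool.Agent.P.MP_e794d7_al.X

namespace Tr

open scoped Classical

variable {ι : Type} [Fintype ι] {M : ι → ι → ℕ} (R : Rep M)

theorem Bf_symm (h : Big M) (u v : ι → ℝ) : Bf M u v = Bf M v u := by
  simp only [Bf, Matrix.toBilin'_apply, Matrix.of_apply]
  rw [Finset.sum_comm]
  refine Finset.sum_congr rfl fun i _ => Finset.sum_congr rfl fun j _ => ?_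
  by_cases e : j = i
  · subst e; ring
  · rw [if_neg e, if_neg (Ne.symm e), h.symm j i]; ring

theorem Bf_σ (h : Big M) (a : ι) (u v : ι → ℝ) :
    Bf M (R.act (R.σ a) u) (R.act (R.σ a) v) = Bf M u v := by
  rw [R.act_σ, R.act_σ]
  simp only [map_sub, map_smul, LinearMap.sub_apply, LinearMap.smul_apply, smul_eq_mul,
    Sign.Bf_aa, Bf_symm h u (al a)]
  ring

theorem σ_inv (a : ι) : (R.σ a)⁻¹ = R.σ a := inv_eq_of_mul_eq_one_right (Sign.sq R a)

theorem ind {p : R.W → Prop} (h1 : p 1) (h2 : ∀ w a, p w → p (w * R.σ a)) (w : R.W) : p w := by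
  have hw : w ∈ Subgroup.closure (Set.range R.σ) := by rw [R.gen]; trivial
  induction hw using Subgroup.closure_induction_right with
  | one => exact h1
  | mul_right x _ y hy ih =>
    obtain ⟨t, rfl⟩ := hy
    exact h2 _ _ ih
  | mul_inv_cancel x _ y hy ih =>
    obtain ⟨t, rfl⟩ := hy
    rw [σ_inv]
    exact h2 _ _ ih

theorem act_mul (w w' : R.W) (v : ι → ℝ) : R.act (w * w') v = R.act w (R.act w' v) := by
  rw [map_mul, LinearEquiv.mul_apply]

theorem act_one (v : ι → ℝ) : R.act 1 v = v := by rw [map_one]; rfl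

theorem Bf_act (h : Big M) (w : R.W) : ∀ u v, Bf M (R.act w u) (R.act w v) = Bf M u v := by
  refine ind R (p := fun w => ∀ u v, Bf M (R.act w u) (R.act w v) = Bf M u v) ?_ ?_ w
  · intro u v; rw [act_one, act_one]
  · intro w a ih u v
    rw [act_mul, act_mul, ih, Bf_σ R h]

/-- the reflection of a panel -/
def cl (w : R.W) (a : ι) : R.W := w * R.σ a * w⁻¹

theorem act_cl (h : Big M) (w : R.W) (a : ι) (v : ι → ℝ) :
    R.act (cl R w a) v = v - Bf M (R.act w (al a)) v • R.act w (al a) := by
  have e : R.act w (R.act w⁻¹ v) = v := by rw [← act_mul, mul_inv_cancel, act_one]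
  rw [cl, act_mul, act_mul, R.act_σ, map_sub, map_smul, e, ← Bf_act R h w, e]

theorem Bf_root (h : Big M) (w : R.W) (a : ι) :
    Bf M (R.act w (al a)) (R.act w (al a)) = 2 := by rw [Bf_act R h, Sign.Bf_aa]

theorem root_ne (h : Big M) (w : R.W) (a : ι) : R.act w (al a) ≠ 0 := by
  intro e
  have := Bf_root R h w a
  rw [e] at this
  simp at this

theorem root_pm (h : Big M) {w w' : R.W} {a a' : ι} (e : cl R w a = cl R w' a') :
    R.act w (al a) = R.act w' (al a') ∨ R.act w (al a) = -R.act w' (al a') := by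
  have h1 := act_cl R h w a (R.act w (al a))
  rw [e, act_cl R h, Bf_root R h] at h1
  set t := Bf M (R.act w' (al a')) (R.act w (al a)) with ht
  have h2 : R.act w (al a) = (t / 2) • R.act w' (al a') := by
    have h3 : (2 : ℝ) • R.act w (al a) = t • R.act w' (al a') := (sub_right_injective h1).symm
    calc R.act w (al a) = (1 / 2 : ℝ) • ((2 : ℝ) • R.act w (al a)) := by module
      _ = (t / 2) • R.act w' (al a') := by rw [h3]; module
  have h4 := Bf_root R h w a
  rw [h2] at h4
  simp only [map_smul, LinearMap.smul_apply, smul_eq_mul, Bf_root R h] at h4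
  have h5 : (t / 2 - 1) * (t / 2 + 1) = 0 := by linarith
  rcases mul_eq_zero.1 h5 with h6 | h6
  · left; rw [h2, show t / 2 = 1 by linarith, one_smul]
  · right; rw [h2, show t / 2 = -1 by linarith, neg_one_smul]

theorem cl_of_pm (h : Big M) {w w' : R.W} {a a' : ι}
    (e : R.act w (al a) = R.act w' (al a') ∨ R.act w (al a) = -R.act w' (al a')) :
    cl R w a = cl R w' a' := by
  apply R.inj
  ext v : 1
  rw [act_cl R h, act_cl R h]
  rcases e with e | e <;> rw [e]
  simp

theorem act_rσ (w : R.W) (a : ι) : R.act (w * R.σ a) (al a) = -R.act w (al a) := by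
  rw [act_mul, Sign.act_al, map_neg]

theorem cl_rσ (w : R.W) (a : ι) : cl R (w * R.σ a) a = cl R w a := by
  rw [cl, cl, mul_inv_rev, σ_inv, mul_assoc w, Sign.sq, mul_one, mul_assoc]

/-- a negative root other than the simple one stays negative -/
theorem keep (h : Big M) (v : R.W) (a s : ι) (h0 : R.act v (al a) ≤ 0)
    (h1 : R.act v (al a) ≠ -al s) : R.act (R.σ s) (R.act v (al a)) ≤ 0 := by
  rcases p_sign ι M R h _ ⟨R.σ s * v, a, rfl⟩ with h2 | h2
  swap
  · rwa [act_mul] at h2
  exfalso
  rw [act_mul, R.act_σ] at h2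
  have h4 := Bf_root R h v a
  generalize R.act v (al a) = γ at h0 h1 h2 h4
  have h3 : γ = γ s • al s := by
    funext i
    by_cases e : i = s
    · subst e; simp [al]
    · have h5 := h2 i
      have h6 := h0 i
      simp only [al, Pi.sub_apply, Pi.smul_apply, Pi.single_eq_of_ne e, smul_eq_mul, mul_zero,
        sub_zero, Pi.zero_apply] at h5 h6 ⊢
      linarith
  have h7 : γ s ≤ 0 := h0 s
  generalize γ s = t at h3 h7
  subst h3
  simp only [map_smul, LinearMap.smul_apply, smul_eq_mul, Sign.Bf_aa] at h4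
  have h5 : (t - 1) * (t + 1) = 0 := by linarith
  rcases mul_eq_zero.1 h5 with h6 | h6
  · linarith
  · exact h1 (by rw [show t = -1 by linarith, neg_one_smul])

theorem keep_iff (h : Big M) (v : R.W) (a s : ι) (h1 : cl R v a ≠ cl R 1 s) :
    R.act (R.σ s) (R.act v (al a)) ≤ 0 ↔ R.act v (al a) ≤ 0 := by
  constructor
  · intro h2
    rw [← act_mul] at h2
    have := keep R h (R.σ s * v) a s h2 fun e => h1 (cl_of_pm R h (Or.inl ?_))
    · rwa [← act_mul, ← mul_assoc, Sign.sq, one_mul] at this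
    · have e2 := congrArg (R.act (R.σ s)) e
      rw [← act_mul, ← mul_assoc, Sign.sq, one_mul, map_neg, Sign.act_al, neg_neg] at e2
      rw [e2, act_one]
  · intro h2
    exact keep R h v a s h2 fun e => h1 (cl_of_pm R h (Or.inr (by rw [e, act_one])))

/-- the wall `c` separates the chamber `w` from the base chamber -/
def Sep (w c : R.W) : Prop :=
  ∃ u a, c = cl R u a ∧ 0 ≤ R.act u (al a) ∧ R.act w⁻¹ (R.act u (al a)) ≤ 0

theorem sep_one (h : Big M) (c : R.W) : ¬ Sep R 1 c := by
  rintro ⟨u, a, -, h1, h2⟩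
  rw [inv_one, act_one] at h2
  exact root_ne R h u a (le_antisymm h2 h1)

theorem sep_ne (h : Big M) (w c : R.W) (s : ι) (hc : cl R w s ≠ c) :
    Sep R (w * R.σ s) c ↔ Sep R w c := by
  refine exists_congr fun u => exists_congr fun a => and_congr_right fun e =>
    and_congr_right fun _ => ?_
  rw [mul_inv_rev, σ_inv, act_mul, ← act_mul R w⁻¹]
  refine keep_iff R h _ a s fun e2 => hc ?_
  rw [e]
  simp only [cl, one_mul, inv_one, mul_one] at e2 ⊢
  rw [← e2]
  group

theorem sep_self (h : Big M) (w : R.W) (s : ι) : Sep R w (cl R w s) ↔ R.act w (al s) ≤ 0 := by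
  have e0 : R.act w⁻¹ (R.act w (al s)) = al s := by rw [← act_mul, inv_mul_cancel, act_one]
  constructor
  · rintro ⟨u, a, e, h1, h2⟩
    rcases root_pm R h e.symm with e2 | e2
    · rw [e2, e0] at h2
      have := h2 s
      simp only [al, Pi.single_eq_same, Pi.zero_apply] at this
      linarith
    · rw [e2] at h1
      exact neg_nonneg.1 h1
  · intro h1
    refine ⟨w * R.σ s, s, (cl_rσ R w s).symm, ?_, ?_⟩
    · rw [act_rσ]; exact neg_nonneg.2 h1
    · rw [act_rσ, map_neg, e0]; exact neg_nonpos.2 (Sign.al_nonneg s)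

theorem sep_flip (h : Big M) (w : R.W) (s : ι) :
    Sep R (w * R.σ s) (cl R w s) ↔ ¬ Sep R w (cl R w s) := by
  rw [sep_self R h, ← cl_rσ, sep_self R h, act_rσ, neg_nonpos]
  constructor
  · intro h1 h2
    exact root_ne R h w s (le_antisymm h2 h1)
  · intro h1
    exact (p_sign ι M R h _ ⟨w, s, rfl⟩).resolve_right h1

/-- the crossing parities -/
theorem exists_nu (h : Big M) : ∃ ν : R.W → R.W →₀ ZMod 2, ν 1 = 0 ∧
    ∀ w s, ν (w * R.σ s) = ν w + Finsupp.single (cl R w s) 1 := by
  have step : ∀ w s c, (if Sep R (w * R.σ s) c then (1 : ZMod 2) else 0) =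
      (if Sep R w c then (1 : ZMod 2) else 0) + Finsupp.single (cl R w s) (1 : ZMod 2) c := by
    intro w s c
    by_cases hc : cl R w s = c
    · subst hc
      rw [Finsupp.single_eq_same]
      by_cases h1 : Sep R w (cl R w s)
      · rw [if_pos h1, if_neg (by rw [sep_flip R h]; exact not_not.2 h1)]; rfl
      · rw [if_neg h1, if_pos ((sep_flip R h w s).2 h1), zero_add]
    · rw [Finsupp.single_eq_of_ne (Ne.symm hc), add_zero]
      by_cases h1 : Sep R w c
      · rw [if_pos h1, if_pos ((sep_ne R h w c s hc).2 h1)]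
      · rw [if_neg h1, if_neg (by rw [sep_ne R h w c s hc]; exact h1)]
  have ex : ∀ w, ∃ n : R.W →₀ ZMod 2, ∀ c, n c = if Sep R w c then 1 else 0 := by
    refine ind R ⟨0, fun c => by rw [if_neg (sep_one R h c)]; rfl⟩ ?_
    rintro w s ⟨n, hn⟩
    exact ⟨n + Finsupp.single (cl R w s) 1, fun c => by rw [Finsupp.add_apply, hn, step]⟩
  choose ν hν using ex
  refine ⟨ν, ?_, fun w s => ?_⟩
  · ext c; rw [hν, if_neg (sep_one R h c)]; rfl
  · ext c; rw [Finsupp.add_apply, hν, hν, step]

end Tr

end Pool.Agent.P.MP_e794d7_al.X
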