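import Pool.Agent.P.MP_e794d7_al.X.Tk

/-! Basic facts on the machine. -/

set_option autoImplicit false

namespace Pool.Agent.P.MP_e794d7_al.X

@[simp] theorem dirn_false {Q : Type} (l : Q × Q) : dirn false l = l.1 := rfl

@[simp] theorem dirn_true {Q : Type} (l : Q × Q) : dirn true l = l.2 := rfl

theorem dirn_swap {Q : Type} (β : Bool) (l : Q × Q) : dirn β l.swap = dirn (!β) l := by
  cases β <;> rfl

theorem dirn_ord {Q : Type} (β : Bool) (f r : Q) : dirn β (ord β f r) = f := by cases β <;> rfl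

theorem dirn_ord' {Q : Type} (β : Bool) (f r : Q) : dirn (!β) (ord β f r) = r := by
  cases β <;> rfl

@[simp] theorem dirn_one {Q : Type} [Group Q] (β : Bool) : dirn β (1 : Q × Q) = 1 := by
  cases β <;> rfl

@[simp] theorem ord_one {Q : Type} [Group Q] (β : Bool) : ord β (1 : Q) 1 = 1 := by
  cases β <;> rfl

namespace Ctx

variable {ι Q : Type} [Group Q] {C : Ctx ι Q}

@[simp] theorem step_x (a : ι) (s : C.St) : (C.step a s).x = C.P.r a s.x := rfl

theorem step_tl (a : ι) (s : C.St) : (C.step a s).tl = C.mv (C.P.col s.x a) s.tl := rfl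

theorem step_pos (a : ι) (s : C.St) (i : Set C.Fl) :
    (C.step a s).pos i = C.mv (C.P.col s.x a) (s.pos i) := rfl

theorem step_L_ne {a : ι} {s : C.St} (h : C.P.col s.x a ≠ C.c) : (C.step a s).L = s.L := by
  simp [step, h]

theorem step_step_x (a : ι) (s : C.St) : (C.step a (C.step a s)).x = s.x := C.hB.rr _ _

theorem step_step_tl (a : ι) (s : C.St) : (C.step a (C.step a s)).tl = s.tl := by
  rw [step_tl, step_tl, step_x, C.hB.col_r, mv_mv]

theorem step_step_pos (a : ι) (s : C.St) : (C.step a (C.step a s)).pos = s.pos := by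
  funext i
  rw [step_pos, step_pos, step_x, C.hB.col_r, mv_mv]

theorem grun_x (s : C.St) (a b : ι) : ∀ n, (grun C.step s a b n).x = C.P.go s.x a b n
  | 0 => rfl
  | n + 1 => by rw [grun, step_x, grun_x s a b n, Pos.go_succ]

/-! ### bases -/

theorem bs_spec {a b : ι} (_hab : Adj C.M a b) {y : C.P.X} (ht : C.P.Thru y a b C.c) :
    C.IsBs y a b (C.bs y a b) := by
  obtain ⟨n, hn⟩ := ht
  exact @Classical.epsilon_spec _ (C.IsBs y a b)
    ⟨(C.P.go y a b n, el a b (n + 1), el a b n), Pos.res_go _ _ _ _,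
      (same_el a b n).trans (Same.swap _ _), hn⟩

theorem bs_congr {a b a' b' : ι} (hab : Adj C.M a b) {y y' : C.P.X} (hr : C.P.Res y a b y')
    (hs : Same a b a' b') : C.bs y' a' b' = C.bs y a b := by
  have : C.IsBs y' a' b' = C.IsBs y a b := by
    funext w
    refine propext ⟨fun h => ⟨?_, hs.trans h.2.1, h.2.2⟩, fun h => ⟨?_, hs.symm.trans h.2.1, h.2.2⟩⟩
    · exact C.hB.res_trans hab hr (C.hB.res_same (C.hB.big.adj_same hab hs) hs.symm h.1)
    · exact C.hB.res_same hab hs (C.hB.res_trans hab (C.hB.res_symm hab hr) h.1)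
  rw [bs, bs, this]

theorem idx_go {t g : ι} (h : Adj C.M t g) (x : C.P.X) {n : ℕ} (hn : n < 2 * C.M t g) :
    C.idx (x, t, g) (C.P.go x t g n) = n := by
  have := Classical.epsilon_spec
    (p := fun k => k < 2 * C.M t g ∧ C.P.go x t g k = C.P.go x t g n) ⟨n, hn, rfl⟩
  exact C.hB.go_inj C.he h x this.1 hn this.2

/-- the two labels of a panel are the labels of its two edges -/
theorem dirn_rp {a b : ι} (hab : Adj C.M a b) (s : C.St) (y : C.P.X) :
    dirn (C.e y (C.P.col y a)) (C.rp s (C.pan y a, b)) =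
      C.raw (s.L (C.bs y a b)) (C.bs y a b) y a := by
  have hb : C.bs (C.pan y a).z a b = C.bs y a b :=
    bs_congr hab (res_pan hab (Or.inl rfl) y) (Same.refl _ _)
  simp only [rp, pan_a, hb]
  cases h : C.e y (C.P.col y a)
  · rw [dirn_false, pan_z_false h]
  · rw [dirn_true, pan_z_true h, C.hB.rr]

theorem rp_congr {s s' : C.St} (h : s'.L = s.L) (φ : C.Fl) : C.rp s' φ = C.rp s φ := by
  rw [rp, rp, h]

theorem lm_iff {s : C.St} {y : C.P.X} {a b : ι} (hab : Adj C.M a b) {ψ : C.Fl}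
    (h : C.At ψ y a b) (hc : C.pc ψ.1 = C.c) : C.LM s y a b ↔ C.Mt s.x s.tl ψ := by
  refine ⟨?_, fun hm => ⟨ψ, h, hc, hm⟩⟩
  rintro ⟨ψ', h1, h2, h3⟩
  exact (mt_of_mem (h.ok hab) (h.mem_tok h1 hab (h2.trans hc.symm))).1 h3

/-- the token of the wall sits at the vertex -/
theorem LM.base {s : C.St} {y : C.P.X} {a b : ι} (hab : Adj C.M a b) (h : C.LM s y a b) :
    ∃ t, C.At (s.tl, t) y a b ∧ C.pc s.tl = C.c ∧ C.Mt s.x s.tl (s.tl, t) := by
  obtain ⟨ψ, h1, h2, h3⟩ := h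
  obtain ⟨t, ht⟩ := h3.flag
  exact ⟨t, h1.of_mem hab ht, (h3.pc (h1.ok hab)).trans h2, (mt_of_mem (h1.ok hab) ht).2 h3⟩

theorem LM.congr {s : C.St} {y y' : C.P.X} {a b a' b' : ι} (h : C.LM s y a b) (hab : Adj C.M a b)
    (hr : C.P.Res y a b y') (hs : Same a b a' b') : C.LM s y' a' b' := by
  obtain ⟨ψ, h1, h2, h3⟩ := h
  exact ⟨ψ, h1.congr hab hr hs, h2, h3⟩

theorem ApAt.congr {y y' z : C.P.X} {a b a' b' g u u' : ι} (h : C.ApAt y a b z g u u')
    (hab : Adj C.M a b) (hr : C.P.Res y a b y') (hs : Same a b a' b') : C.ApAt y' a' b' z g u u' :=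
  ⟨C.hB.res_same hab hs (C.hB.res_trans hab (C.hB.res_symm hab hr) h.1), hs.symm.trans h.2.1,
    h.2.2⟩

/-- apex data give an apex in the sense of the geometry -/
theorem ApAt.ap {x z : C.P.X} {g0 t g u u' : ι} (h : C.ApAt x g0 t z g u u') (hab : Adj C.M g0 t)
    (hc : C.P.col x g0 = C.c) : C.P.Ap C.M x g0 t z u u' := by
  obtain ⟨h1, h2, h3, h4, h5⟩ := h
  have hne := hab.1
  rcases h2 with ⟨rfl, rfl⟩ | ⟨rfl, rfl⟩
  · exact ⟨hab, h1, Or.inr rfl, ⟨_, Or.inl rfl, hne, h3.trans hc.symm⟩, h4, h5.1.symm, h5⟩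
  · exact ⟨hab, h1, Or.inl rfl, ⟨_, Or.inr rfl, hne.symm, h3.trans hc.symm⟩, h5.1.symm, h4, h5⟩

/-- a further vertex of a panel at a vertex of the wall -/
theorem At.o1 {x : C.P.X} {g0 t b : ι} {φ : C.Fl} (h : C.At φ x g0 t) (hab : Adj C.M g0 t)
    (hc : C.P.col x g0 = C.c) (hp : C.pc φ.1 ≠ C.c) (hb : C.Ok (φ.1, b)) (hne : b ≠ φ.2) :
    C.P.O1 C.M x g0 t φ.1.z φ.1.a b := by
  have hba : b ≠ φ.1.a := hb.1.symm
  refine ⟨hab, h.1, ?_, ?_, ?_, ?_, hb⟩
  · rcases h.2 with ⟨h1, -⟩ | ⟨-, h1⟩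
    exacts [Or.inl h1.symm, Or.inr h1.symm]
  · rintro ⟨h1, h2⟩
    apply hp
    rw [pc, h1, ← hc]
    rcases h2 with h2 | h2 <;> rw [h2]
    exact C.hB.col_r _ _
  · rcases h.2 with ⟨h1, -⟩ | ⟨h1, -⟩ <;> rw [h1]
    exacts [hba, hne]
  · rcases h.2 with ⟨-, h1⟩ | ⟨-, h1⟩ <;> rw [h1]
    exacts [hne, hba]

theorem At.in1 {x : C.P.X} {g0 t : ι} {φ : C.Fl} (h : C.At φ x g0 t)
    (hc : C.P.col x g0 = C.c) (hp : C.pc φ.1 ≠ C.c) (hx : ¬ C.Xt φ) :
    C.P.In1 x g0 t φ.1.z φ.1.a := by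
  intro y' hy g hg e1
  rw [hc] at e1
  have hg' : g = φ.1.a ∨ g = φ.2 := by
    rcases h.2 with ⟨h1, h2⟩ | ⟨h1, h2⟩ <;> rw [← h1, ← h2]
    exacts [hg, hg.symm]
  rcases hg' with rfl | rfl
  · apply hp
    rw [pc, ← e1]
    rcases hy with rfl | rfl
    exacts [rfl, (C.hB.col_r _ _).symm]
  · exact hx ⟨y', hy, e1⟩

theorem o2_swap {z y : C.P.X} {u u' a b : ι} (h : Adj C.M u u') (h2 : C.P.O2 C.M z u u' y a b) :
    C.P.O2 C.M z u' u y a b :=
  ⟨C.hB.res_swap h h2.res, h2.mem.symm, fun y' hy =>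
    ⟨(h2.far y' hy).1, (h2.far y' hy).2.2, (h2.far y' hy).2.1⟩, h2.b2, h2.b1, h2.adj'⟩

/-- panels far from the chamber `z` -/
theorem o2_wf {u u' b : ι} (h : Adj C.M u u') (z : C.P.X) {n : ℕ} (h1 : 2 ≤ n)
    (h2 : n + 3 ≤ 2 * C.M u u') (hb : C.Ok ((C.wf z u u' n).1, b)) (hne : b ≠ (C.wf z u u' n).2) :
    C.P.O2 C.M z u u' (C.wf z u u' n).1.z (C.wf z u u' n).1.a b := by
  have hba : b ≠ el u u' n := by simpa using hb.1.symm
  rw [wf_snd] at hne
  refine ⟨(at_wf z n).1, by simpa using el_mem u u' n, ?_, ?_, ?_, hb⟩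
  · intro y' hy
    have hy' : ∃ k, 2 ≤ k ∧ k + 2 ≤ 2 * C.M u u' ∧ y' = C.P.go z u u' k := by
      rw [wf_a] at hy
      rcases wf_z z u u' n with h3 | h3 <;> rw [h3] at hy <;> rcases hy with h4 | h4
      · exact ⟨n, h1, by omega, h4⟩
      · exact ⟨n + 1, by omega, by omega, h4⟩
      · exact ⟨n + 1, by omega, by omega, h4⟩
      · exact ⟨n, h1, by omega, by rw [h4, C.hB.r_go_succ]⟩
    obtain ⟨k, h3, h4, rfl⟩ := hy'
    refine ⟨fun e1 => ?_, fun e1 => ?_, fun e1 => ?_⟩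
    · have := C.hB.go_inj C.he h z (i := k) (j := 0) (by omega) (by omega) e1
      omega
    · have := C.hB.go_inj C.he h z (i := k) (j := 1) (by omega) (by omega)
        (e1.trans (Pos.go_one _ _ _).symm)
      omega
    · rw [← Pos.go_one z u' u, C.hB.go_rev h z 1 (by omega)] at e1
      have := C.hB.go_inj C.he h z (i := k) (by omega) (by omega) e1
      omega
  · rcases el_cases u u' n with ⟨h3, h4⟩ | ⟨h3, h4⟩
    exacts [h3 ▸ hba, h4 ▸ hne]
  · rcases el_cases u u' n with ⟨h3, h4⟩ | ⟨h3, h4⟩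
    exacts [h4 ▸ hne, h3 ▸ hba]

/-- the panel opposite to `[z, u]` -/
theorem o2_op {u u' b : ι} (h : Adj C.M u u') (z : C.P.X) (hb : C.Ok ((C.op (C.pan z u, u')).1, b))
    (hne : b ≠ (C.op (C.pan z u, u')).2) :
    C.P.O2 C.M z u u' (C.op (C.pan z u, u')).1.z (C.op (C.pan z u, u')).1.a b := by
  have hm := C.hB.big.six _ _ h
  rw [op_pan h] at hb hne ⊢
  exact o2_wf h z (by omega) (by omega) hb hne

/-- a colour that is far from the apex chamber and differs from a given one -/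
theorem ex_deep1 {u u' : ι} (h : Adj C.M u u') (z : C.P.X) (γ : C.P.Col) :
    ∃ τ, C.P.Deep1 C.M z u u' τ ∧ τ ≠ γ := by
  have hm := C.hB.big.six _ _ h
  by_cases h1 : C.P.cc z u u' 2 = γ
  · refine ⟨C.P.cc z u u' 3, ⟨3, by omega, by omega, rfl⟩, fun e1 => ?_⟩
    have := C.hB.inj z u u' 3 2 h (by omega) (by omega) (e1.trans h1.symm)
    omega
  · exact ⟨_, ⟨2, le_rfl, by omega, rfl⟩, h1⟩

/-- an apex is not a vertex of the wall -/
theorem apex_not_thru {z : C.P.X} {g u u' : ι} (hc : C.P.col z g = C.c) (hg : Adj C.M g u)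
    (h : Adj C.M u u') (hne : u' ≠ g) : ¬ C.P.Thru z u u' C.c := fun ht => by
  have hs : ¬ Same g u u u' := by
    rintro (⟨h1, -⟩ | ⟨h1, -⟩)
    exacts [hg.1 h1, hne h1.symm]
  obtain ⟨k, -, h2, h3⟩ := C.hB.x1 z g u u u' _ hg h hs (hc ▸ Pos.thru_col z g u) ht
  have hk : g = k := C.hB.x2 z _ _ (hc.trans h3)
  subst hk
  rcases h2 with h2 | h2
  exacts [hg.1 h2, hne h2.symm]

/-- colours far from the apex chamber do not meet the wall -/
theorem deep1_nx_c {z : C.P.X} {g u u' : ι} (hc : C.P.col z g = C.c) (hg : Adj C.M g u)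
    (h : Adj C.M u u') (hne : u' ≠ g) {τ : C.P.Col} (hd : C.P.Deep1 C.M z u u' τ) :
    C.P.NX C.M τ C.c := by
  refine C.hG.ncs z u u' g u τ _ h hg ?_ hd (hc ▸ Pos.thru_col z g u) ?_ ?_
  · rintro (⟨h1, -⟩ | ⟨-, h1⟩)
    exacts [hg.1 h1.symm, hne h1]
  · exact fun e1 => hg.1 (C.hB.x2 z _ _ (hc.trans e1))
  · exact fun e1 => hne (C.hB.x2 z _ _ (hc.trans e1)).symm

variable [LinearOrder ι]

theorem tf_comm (z : C.P.X) (u u' : ι) : C.tf z u' u = C.tf z u u' := by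
  rw [tf, tf, min_comm, max_comm]

theorem tf_lt (z : C.P.X) {t1 t2 : ι} (h : t1 < t2) : C.tf z t1 t2 = C.wf z t1 t2 3 := by
  rw [tf, min_eq_left h.le, max_eq_right h.le]

theorem same_min_max (u u' : ι) : Same u u' (min u u') (max u u') := by
  rcases le_total u u' with h | h
  · rw [min_eq_left h, max_eq_right h]; exact Same.refl _ _
  · rw [min_eq_right h, max_eq_left h]; exact Same.swap _ _

theorem at_tf {u u' : ι} (h : Adj C.M u u') (z : C.P.X) : C.At (C.tf z u u') z u u' :=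
  (at_wf z 3).congr (C.hB.big.adj_same h (same_min_max u u')) (Pos.Res.refl _ _ _)
    (same_min_max u u').symm

theorem ok_tf {u u' : ι} (h : Adj C.M u u') (z : C.P.X) : C.Ok (C.tf z u u') := (at_tf h z).ok h

theorem deep1_tf {u u' : ι} (h : Adj C.M u u') (z : C.P.X) :
    C.P.Deep1 C.M z u u' (C.pc (C.tf z u u').1) := by
  have key : ∀ {t1 t2 : ι}, Adj C.M t1 t2 → t1 < t2 →
      C.P.Deep1 C.M z t1 t2 (C.pc (C.tf z t1 t2).1) := fun {t1 t2} h1 h2 => by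
    rw [tf_lt z h2, pc_wf]
    exact ⟨3, by omega, C.hB.big.six _ _ h1, rfl⟩
  rcases lt_or_gt_of_ne h.1 with h1 | h1
  · exact key h h1
  · rw [← tf_comm]
    exact C.hB.deep1_swap (C.hB.big.adj_symm h) (key (C.hB.big.adj_symm h) h1)

/-- the two panels of the extra token -/
theorem o2_tf {u u' b : ι} (h : Adj C.M u u') (z : C.P.X) {ψ : C.Fl} (hψ : ψ ∈ C.tok (C.tf z u u'))
    (hb : C.Ok (ψ.1, b)) (hne : b ≠ ψ.2) : C.P.O2 C.M z u u' ψ.1.z ψ.1.a b := by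
  have key : ∀ {t1 t2 : ι}, Adj C.M t1 t2 → t1 < t2 → ψ ∈ C.tok (C.tf z t1 t2) →
      C.P.O2 C.M z t1 t2 ψ.1.z ψ.1.a b := fun {t1 t2} h1 h2 h3 => by
    have hm := C.hB.big.six _ _ h1
    rw [tf_lt z h2, mem_tok, op_wf h1] at h3
    rcases h3 with rfl | rfl <;> exact o2_wf h1 z (by omega) (by omega) hb hne
  rcases lt_or_gt_of_ne h.1 with h1 | h1
  · exact key h h1 hψ
  · rw [← tf_comm] at hψ
    exact o2_swap (C.hB.big.adj_symm h) (key (C.hB.big.adj_symm h) h1 hψ)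

theorem Fam.ok {y : C.P.X} {a b : ι} (hab : Adj C.M a b) {φ : C.Fl} (h : C.Fam y a b φ) :
    C.Ok φ := by
  rcases h with h | ⟨z, g, u, u', h, rfl⟩
  exacts [h.1.ok hab, ok_tf h.2.2.2.2 z]

theorem Fam.congr {y y' : C.P.X} {a b a' b' : ι} {φ : C.Fl} (h : C.Fam y a b φ)
    (hab : Adj C.M a b) (hr : C.P.Res y a b y') (hs : Same a b a' b') : C.Fam y' a' b' φ := by
  rcases h with h | ⟨z, g, u, u', h, rfl⟩
  exacts [Or.inl ⟨h.1.congr hab hr hs, h.2⟩, Or.inr ⟨z, g, u, u', h.congr hab hr hs, rfl⟩]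

theorem On.congr {s : C.St} {y y' : C.P.X} {a b a' b' : ι} {Z : Set (Set C.Fl)}
    (h : C.On s y a b Z) (hab : Adj C.M a b) (hr : C.P.Res y a b y') (hs : Same a b a' b') :
    C.On s y' a' b' Z :=
  ⟨h.1.congr hab hr hs, fun φ h1 => h.2 φ (h1.congr (C.hB.big.adj_same hab hs)
    (C.hB.res_same hab hs (C.hB.res_symm hab hr)) hs.symm)⟩

theorem on_congr {s : C.St} {y y' : C.P.X} {a b a' b' : ι} {Z : Set (Set C.Fl)}
    (hab : Adj C.M a b) (hr : C.P.Res y a b y') (hs : Same a b a' b') :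
    C.On s y' a' b' Z ↔ C.On s y a b Z :=
  ⟨fun h => h.congr (C.hB.big.adj_same hab hs) (C.hB.res_same hab hs (C.hB.res_symm hab hr))
    hs.symm, fun h => h.congr hab hr hs⟩

/-- the statuses only depend on the chamber and on the positions of the tokens -/
theorem On.of_eq {s s' : C.St} {y : C.P.X} {a b : ι} {Z : Set (Set C.Fl)} (h : C.On s y a b Z)
    (hx : s'.x = s.x) (ht : s'.tl = s.tl) (hp : s'.pos = s.pos) : C.On s' y a b Z := by
  simpa only [On, LM, hx, ht, hp] using h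

theorem EfOn.of_eq {s s' : C.St} {z : C.P.X} {g u u' : ι} (h : C.EfOn s z g u u')
    (hx : s'.x = s.x) (ht : s'.tl = s.tl) (hp : s'.pos = s.pos) : C.EfOn s' z g u u' :=
  ⟨h.1, h.2.1.of_eq hx ht hp, by rw [hx, hp]; exact h.2.2⟩

theorem kap_eq {a : ι} {s : C.St} {q0 : Q} (h1 : ∀ q, C.Ev s a q → q = q0)
    (h2 : q0 ≠ 1 → C.Ev s a q0) : C.kap a s = q0 := by
  rw [kap]
  split_ifs with h
  · exact h1 _ h.choose_spec
  · by_contra h3
    exact h ⟨q0, h2 fun e1 => h3 e1.symm⟩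

end Ctx

end Pool.Agent.P.MP_e794d7_al.X
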